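import Pool.Agent.H.MP_e23cd6_ag.PB.DefsG

/-!
# Holomorphic families of homogeneous polynomials
-/

set_option autoImplicit false

namespace Pool.Agent.PG

variable {Z : Type} [TopologicalSpace Z] {O : CSp Z} {α : Type} [Fintype α] {U : Set Z}

theorem CSp.pow_mem (O : CSp Z) {f : Z → ℂ} (hf : f ∈ O.O U) (k : ℕ) : (fun z => f z ^ k) ∈ O.O U := by
  induction k with
  | zero => simpa using O.const U 1
  | succ k ih => simpa only [pow_succ] using O.mul U _ ih _ hf

theorem CSp.congr (O : CSp Z) (hU : IsOpen U) {f g : Z → ℂ} (hg : g ∈ O.O U)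
    (h : ∀ z ∈ U, f z = g z) : f ∈ O.O U :=
  O.loc U hU f fun _ hz => ⟨U, subset_rfl, hU, hz, g, hg, h⟩

/-- Families of homogeneous polynomials of degree `n` with holomorphic coefficients. -/
def HF {Z : Type} [TopologicalSpace Z] (O : CSp Z) {α : Type} [Fintype α] (U : Set Z) (n : ℕ)
    (f : Z → (α → ℂ) → ℂ) : Prop :=
  ∃ S : (Fin n → α) → Z → ℂ, (∀ κ, S κ ∈ O.O U) ∧
    ∀ z ∈ U, ∀ x, f z x = ∑ κ, S κ z * ∏ t, x (κ t)

theorem HF.congr {n : ℕ} {f g : Z → (α → ℂ) → ℂ} (hf : HF O U n f)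
    (h : ∀ z ∈ U, ∀ x, g z x = f z x) : HF O U n g := by
  obtain ⟨S, hS, h1⟩ := hf
  exact ⟨S, hS, fun z hz x => (h z hz x).trans (h1 z hz x)⟩

theorem HF.cast {n m : ℕ} {f : Z → (α → ℂ) → ℂ} (hf : HF O U n f) (h : n = m) : HF O U m f := by
  subst h
  exact hf

theorem HF.const {h : Z → ℂ} (hh : h ∈ O.O U) :
    HF O U 0 (fun z (_ : α → ℂ) => h z) := by
  refine ⟨fun _ => h, fun _ => hh, fun z _ x => ?_⟩
  rw [Finset.sum_eq_single default]
  · simp
  · intro κ _ hκ
    exact absurd (Subsingleton.elim κ default) hκ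
  · intro h
    exact absurd (Finset.mem_univ _) h

theorem HF.coord [DecidableEq α] (a : α) : HF O U 1 (fun (_ : Z) (x : α → ℂ) => x a) := by
  refine ⟨fun κ _ => if κ = fun _ => a then 1 else 0, fun κ => O.const U _,
    fun z _ x => ?_⟩
  rw [Finset.sum_eq_single (fun _ => a)]
  · beta_reduce
    rw [if_pos rfl]
    simp
  · intro κ _ hκ
    beta_reduce
    rw [if_neg hκ, zero_mul]
  · intro h
    exact absurd (Finset.mem_univ _) h

theorem HF.zero (n : ℕ) : HF O U n (fun (_ : Z) (_ : α → ℂ) => 0) := by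
  refine ⟨fun κ _ => 0, fun κ => O.const U _, fun z _ x => ?_⟩
  simp

theorem HF.add {n : ℕ} {f g : Z → (α → ℂ) → ℂ} (hf : HF O U n f) (hg : HF O U n g) :
    HF O U n (fun z x => f z x + g z x) := by
  obtain ⟨S, hS, h1⟩ := hf
  obtain ⟨T, hT, h2⟩ := hg
  refine ⟨fun κ z => S κ z + T κ z, fun κ => O.add U _ (hS κ) _ (hT κ), fun z hz x => ?_⟩
  beta_reduce
  rw [h1 z hz, h2 z hz, ← Finset.sum_add_distrib]
  exact Finset.sum_congr rfl fun κ _ => by ring

theorem HF.mul {n m : ℕ} {f g : Z → (α → ℂ) → ℂ} (hf : HF O U n f) (hg : HF O U m g) :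
    HF O U (n + m) (fun z x => f z x * g z x) := by
  obtain ⟨S, hS, h1⟩ := hf
  obtain ⟨T, hT, h2⟩ := hg
  refine ⟨fun κ z => S (fun i => κ (Fin.castAdd m i)) z * T (fun i => κ (Fin.natAdd n i)) z,
    fun κ => O.mul U _ (hS _) _ (hT _), fun z hz x => ?_⟩
  beta_reduce
  rw [h1 z hz, h2 z hz, Finset.sum_mul_sum, ← Fintype.sum_prod_type']
  symm
  refine Fintype.sum_equiv (Fin.appendEquiv n m).symm _ _ fun κ => ?_
  have e1 : ((Fin.appendEquiv n m).symm κ).1 = fun i => κ (Fin.castAdd m i) := rfl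
  have e2 : ((Fin.appendEquiv n m).symm κ).2 = fun i => κ (Fin.natAdd n i) := rfl
  rw [e1, e2, Fin.prod_univ_add]
  ring

theorem HF.sum {n : ℕ} {β : Type} (s : Finset β) {f : β → Z → (α → ℂ) → ℂ}
    (hf : ∀ i ∈ s, HF O U n (f i)) : HF O U n (fun z x => ∑ i ∈ s, f i z x) := by
  classical
  induction s using Finset.induction_on with
  | empty => exact (HF.zero n).congr fun z _ x => by simp
  | insert a s ha ih =>
    have h1 := (hf a (Finset.mem_insert_self a s)).add
      (ih fun i hi => hf i (Finset.mem_insert_of_mem hi))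
    exact h1.congr fun z _ x => by rw [Finset.sum_insert ha]

theorem HF.prod {β : Type} (s : Finset β) {n : β → ℕ} {f : β → Z → (α → ℂ) → ℂ}
    (hf : ∀ i ∈ s, HF O U (n i) (f i)) : HF O U (∑ i ∈ s, n i) (fun z x => ∏ i ∈ s, f i z x) := by
  classical
  induction s using Finset.induction_on with
  | empty =>
    exact (HF.const (h := fun _ => (1 : ℂ)) (O.const U 1)).congr fun z _ x => by simp
  | insert a s ha ih =>
    have h1 := (hf a (Finset.mem_insert_self a s)).mul
      (ih fun i hi => hf i (Finset.mem_insert_of_mem hi))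
    rw [Finset.sum_insert ha]
    exact h1.congr fun z _ x => by rw [Finset.prod_insert ha]

theorem HF.smul {n : ℕ} {h : Z → ℂ} (hh : h ∈ O.O U)
    {f : Z → (α → ℂ) → ℂ} (hf : HF O U n f) : HF O U n (fun z x => h z * f z x) :=
  ((HF.const hh).mul hf).cast (Nat.zero_add n)

theorem HF.pow {n : ℕ} {f : Z → (α → ℂ) → ℂ} (hf : HF O U n f) (k : ℕ) :
    HF O U (n * k) (fun z x => f z x ^ k) := by
  have h1 := HF.prod (Finset.range k) (n := fun _ => n) (f := fun _ => f) fun _ _ => hf
  refine (h1.congr fun z _ x => ?_).cast ?_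
  · rw [Finset.prod_const, Finset.card_range]
  · rw [Finset.sum_const, Finset.card_range, smul_eq_mul, mul_comm]

/-- The value of a homogeneous polynomial of degree `N` at families of degree `d`. -/
theorem HF.evalP {ι : Type} {d N : ℕ} {P : MvPolynomial ι ℂ} (hP : P.IsHomogeneous N)
    {v : ι → Z → (α → ℂ) → ℂ} (hv : ∀ i, HF O U d (v i)) :
    HF O U (d * N) (fun z x => MvPolynomial.eval (fun i => v i z x) P) := by
  have h1 : ∀ s ∈ P.support, HF O U (d * N)
      (fun z x => P.coeff s * ∏ i ∈ s.support, v i z x ^ s i) := by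
    intro s hs
    have h2 := HF.prod s.support (n := fun i => d * s i) (f := fun i z x => v i z x ^ s i)
      fun i _ => (hv i).pow (s i)
    have h3 : ∑ i ∈ s.support, d * s i = d * N := by
      rw [← Finset.mul_sum]
      congr 1
      have := hP (MvPolynomial.mem_support_iff.1 hs)
      rw [← this, Finsupp.weight_apply, Finsupp.sum]
      simp
    exact HF.smul (h := fun _ => P.coeff s) (O.const U _) (h2.cast h3)
  refine (HF.sum P.support h1).congr fun z _ x => ?_
  rw [MvPolynomial.eval_eq]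

end Pool.Agent.PG
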