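import Pool.Agent.H.MP_e23cd6_ag.PB.GBase
import Pool.Agent.H.MP_e23cd6_ag.PB.FormsX
import Pool.Agent.H.MP_e23cd6_ag.SG.InvB

/-!
# Invariants give sections
-/

set_option autoImplicit false

open scoped Manifold ContDiff ENNReal
open MeasureTheory Matrix

namespace Pool.Agent.PG

open Pool.Agent.SG

theorem eval_smul_hom {τ : Type} {N : ℕ} {P : MvPolynomial τ ℂ} (hP : P.IsHomogeneous N) (c : ℂ)
    (x : τ → ℂ) : MvPolynomial.eval (c • x) P = c ^ N * MvPolynomial.eval x P :=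
  SG.Rep.eval_smul hP c x

namespace GRep

variable {n : ℕ} {R : RG n} {ι : Type} [Fintype ι] [DecidableEq ι]

theorem Inv.pow {V : GRep R ι} {M : ℕ} {P : MvPolynomial ι ℂ} (hP : V.Inv M P) (r : ℕ) :
    V.Inv (M * r) (P ^ r) :=
  ⟨hP.hom.pow r, fun g v => by rw [map_pow, map_pow, hP.inv]⟩

end GRep

theorem glueSG {n : ℕ} {R : RG n} {ι : Type} [Fintype ι] [DecidableEq ι] (V : GRep R ι) (γ : R.G)
    {S S' : ι → ℂ} {A : ℂ} (h : (V.ρ γ)ᵀ *ᵥ S = A • S') : S = A • V.dual.act γ S' := by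
  rw [← GRep.act_smul, ← h]
  unfold GRep.act
  rw [GRep.dual_ρ, Matrix.mulVec_mulVec, ← Matrix.transpose_mul, ← map_mul, mul_inv_cancel,
    map_one, Matrix.transpose_one, Matrix.one_mulVec]

variable {n : ℕ} {R : RG n} {EF : Type} [NormedAddCommGroup EF] [NormedSpace ℂ EF] {F : Type}
  [TopologicalSpace F] {κ ι : Type} [Fintype κ] [DecidableEq κ] [Fintype ι] [DecidableEq ι] {m : ℕ}
  {Φ : Fib R EF F κ ι m} {Z : Type} [TopologicalSpace Z] {O : CSp Z} {I : Type}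

/-- The transformation of the coefficients of the section `s`. -/
theorem SecS.trans {X : Bun Φ O I} {a : I → I → Z → ℂ} (s : SecS X a) {i j : I} {z : Z}
    (hz : z ∈ X.U i ∩ X.U j) :
    s.S i z = a i j z • Φ.Rs.dual.act (X.γ i j z) (s.S j z) := by
  refine glueSG Φ.Rs (X.γ i j z) ?_
  rw [← sub_eq_zero]
  by_contra hne
  obtain ⟨j₃, y₃, hy₃, h2⟩ := Φ.σ_nd _ hne
  apply h2
  rw [sub_dotProduct, sub_eq_zero, smul_dotProduct, smul_eq_mul, Matrix.mulVec_transpose,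
    ← Matrix.dotProduct_mulVec]
  exact s.glue i j z hz j₃ y₃ hy₃

/-- Invariants of the vectors `u i z x` give sections on `X`. -/
theorem assemble (X : Bun Φ O I) {τ : Type} [Fintype τ] [DecidableEq τ] {V : GRep R τ} {d M : ℕ}
    {P : MvPolynomial τ ℂ} (hP : V.Inv M P) {u : I → Z → (κ → ℂ) → τ → ℂ}
    (hu : ∀ i p, HF O (X.U i) d (fun z x => u i z x p)) {w : I → I → Z → ℂ}
    (hw : ∀ i j, ∀ z ∈ X.U i ∩ X.U j, ∀ j', ∀ y ∈ Φ.W j',
      u i z (Φ.RN.ρ (X.γ i j z) *ᵥ Φ.v j' y) = w i j z • V.act (X.γ i j z) (u j z (Φ.v j' y)))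
    {c' : I → I → Z → ℂ} (k : SecZ X c') (r q : ℕ) {D : ℕ} (hD : d * M * q = D)
    {b : I → I → Z → ℂ} (hb : ∀ i j, ∀ z ∈ X.U i ∩ X.U j,
      c' i j z ^ r * w i j z ^ (M * q) = b i j z) {i : I} {z : Z} (hz : z ∈ X.U i)
    (hk : k.f i z ≠ 0) {x : κ → ℂ} (hne : MvPolynomial.eval (u i z x) P ≠ 0) :
    ∃ T : SecN X D b, tp (T.T i z) x ≠ 0 := by
  have hT : ∀ i', ∃ T : (Fin D → κ) → Z → ℂ,
      (∀ α, T α ∈ O.O (X.U i')) ∧
      ∀ z' ∈ X.U i', ∀ x : κ → ℂ,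
        k.f i' z' ^ r * MvPolynomial.eval (u i' z' x) P ^ q = ∑ α, T α z' * ∏ t, x (α t) := by
    intro i'
    have h2 := (HF.evalP hP.hom (hu i')).pow q
    have h3 := (HF.smul (O.pow_mem (k.hol i') r) h2).cast (m := D) hD
    exact h3
  choose T hTh hTe using hT
  have htp : ∀ i', ∀ z' ∈ X.U i', ∀ x : κ → ℂ, tp (fun α => T i' α z') x =
      k.f i' z' ^ r * MvPolynomial.eval (u i' z' x) P ^ q :=
    fun i' z' hz' x => (hTe i' z' hz' x).symm
  refine ⟨⟨fun i' z' α => T i' α z', fun i' α => hTh i' α, ?_⟩, ?_⟩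
  · intro i' j' z' hz' j'' y' hy'
    rw [htp i' z' hz'.1, htp j' z' hz'.2, hw i' j' z' hz' j'' y' hy', eval_smul_hom hP.hom, hP.inv,
      k.glue i' j' z' hz', ← hb i' j' z' hz', mul_pow, mul_pow, pow_mul]
    ring
  · show tp (fun α => T i α z) x ≠ 0
    rw [htp i z hz x]
    exact mul_ne_zero (pow_ne_zero _ hk) (pow_ne_zero _ hne)

/-- Invariants of the vectors `u i z` give sections on `Z`. -/
theorem assembleZ (X : Bun Φ O I) {τ : Type} [Fintype τ] [DecidableEq τ] {V : GRep R τ} {M : ℕ}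
    {P : MvPolynomial τ ℂ} (hP : V.Inv M P) {u : I → Z → τ → ℂ}
    (hu : ∀ i p, (fun z => u i z p) ∈ O.O (X.U i))
    {w : I → I → Z → ℂ} (hw : ∀ i j, ∀ z ∈ X.U i ∩ X.U j,
      u i z = w i j z • V.act (X.γ i j z) (u j z)) {b : I → I → Z → ℂ}
    (hb : ∀ i j, ∀ z ∈ X.U i ∩ X.U j, w i j z ^ M = b i j z) {i : I} {z : Z}
    (hne : MvPolynomial.eval (u i z) P ≠ 0) : ∃ l : SecZ X b, l.f i z ≠ 0 := by
  refine ⟨⟨fun i z => MvPolynomial.eval (u i z) P, fun i => ?_, fun i j z hz => ?_⟩, hne⟩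
  · have h1 : ∀ p, HF O (X.U i) 0 (fun z (_ : Fin 0 → ℂ) => u i z p) :=
      fun p => HF.const (hu i p)
    obtain ⟨S, hS, h2⟩ := (HF.evalP hP.hom h1).cast (m := 0) (Nat.zero_mul M)
    refine O.congr (X.U_open i) (hS default) fun z hz => ?_
    have h3 := h2 z hz default
    beta_reduce at h3 ⊢
    rw [h3, Finset.sum_eq_single default]
    · simp
    · intro κ _ hκ
      exact absurd (Subsingleton.elim κ default) hκ
    · intro h
      exact absurd (Finset.mem_univ _) h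
  · show MvPolynomial.eval (u i z) P = b i j z * MvPolynomial.eval (u j z) P
    rw [hw i j z hz, eval_smul_hom hP.hom, hP.inv, hb i j z hz]

end Pool.Agent.PG
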