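import Pool.Agent.H.MP_e23cd6_ag.PB.GBase

/-!
# The numerical inequalities of the fibre pair
-/

set_option autoImplicit false

namespace Pool.Agent.PG

open Matrix Pool.Agent.SG

/-- The size of a matrix. -/
noncomputable def sm {ι : Type} [Fintype ι] (A : Matrix ι ι ℂ) : ℝ := ∑ i, ∑ j, ‖A i j‖

variable {n : ℕ} {R : RG n} {EF : Type} [NormedAddCommGroup EF] [NormedSpace ℂ EF]
  {F : Type} [TopologicalSpace F] {κ ι : Type} [Fintype κ] [DecidableEq κ] [Fintype ι]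
  [DecidableEq ι] {m : ℕ}

/-- The numerical inequality of a lc fibre pair. -/
def Fib.P1 (Φ : Fib R EF F κ ι m) (S : ι → ℂ) : Prop :=
  ∀ k : R.G, ∀ H ∈ R.a, ∀ β : κ, ∃ α, Φ.Rs.dual.act k S α ≠ 0 ∧
    Φ.RN.dual.lam β H ≤ Φ.Rs.dual.lam α H

/-- The strict numerical inequality of a klt fibre pair. -/
def Fib.P2 (Φ : Fib R EF F κ ι m) (S : ι → ℂ) : Prop :=
  ∀ k : R.G, ∀ H ∈ R.a, (∃ β γ, Φ.RN.lam β H ≠ Φ.RN.lam γ H) → ∀ β : κ, ∃ α,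
    Φ.Rs.dual.act k S α ≠ 0 ∧ Φ.RN.dual.lam β H < Φ.Rs.dual.lam α H

end Pool.Agent.PG
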