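import Mathlib

/-!
MP_e23cd6_ag (abundance), fibre bundles with a reductive structure group: the lemma of Farkas for
finitely many real linear functionals and the uniform linear inequality which follows from it.
-/

set_option autoImplicit false

namespace Pool.Agent.PG

/-- The lemma of Farkas. -/
theorem farkas {W ι : Type} [AddCommGroup W] [Module ℝ W] [DecidableEq ι] (s : Finset ι) :
    ∀ (g : ι → W →ₗ[ℝ] ℝ) (p : W →ₗ[ℝ] ℝ), (∀ x, (∀ i ∈ s, g i x ≤ 0) → p x ≤ 0) →
      ∃ u : ι → ℝ, (∀ i, 0 ≤ u i) ∧ ∀ x, p x = ∑ i ∈ s, u i * g i x := by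
  induction s using Finset.induction_on with
  | empty =>
    intro g p h
    refine ⟨fun _ => 0, fun _ => le_refl 0, fun x => ?_⟩
    have h1 := h x (by simp)
    have h2 := h (-x) (by simp)
    rw [map_neg] at h2
    rw [Finset.sum_empty]
    linarith
  | insert a s ha ih =>
    intro g p h
    by_cases h1 : ∀ x, (∀ i ∈ s, g i x ≤ 0) → p x ≤ 0
    · obtain ⟨u, hu, hp⟩ := ih g p h1
      refine ⟨fun i => if i = a then 0 else u i, fun i => ?_, fun x => ?_⟩
      · dsimp only
        split_ifs
        · exact le_refl 0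
        · exact hu i
      · rw [Finset.sum_insert ha, hp x]
        simp only [if_true, zero_mul, zero_add]
        refine Finset.sum_congr rfl fun i hi => ?_
        have : i ≠ a := fun e => ha (e ▸ hi)
        rw [if_neg this]
    · push Not at h1
      obtain ⟨y, hy, hpy⟩ := h1
      have hay : 0 < g a y := by
        by_contra hc
        push Not at hc
        refine absurd (h y ?_) (not_le.mpr hpy)
        intro i hi
        rcases Finset.mem_insert.mp hi with rfl | hi
        · exact hc
        · exact hy i hi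
      have key : ∀ q : W →ₗ[ℝ] ℝ, ∀ x, (q - (q y / g a y) • g a) x = q (x - (g a x / g a y) • y) := by
        intro q x
        simp only [LinearMap.sub_apply, LinearMap.smul_apply, smul_eq_mul, map_sub, map_smul]
        ring
      obtain ⟨u, hu, hp⟩ := ih (fun i => g i - (g i y / g a y) • g a) (p - (p y / g a y) • g a) (by
        intro x hx
        rw [key]
        refine h _ fun i hi => ?_
        rcases Finset.mem_insert.mp hi with rfl | hi
        · rw [map_sub, map_smul, smul_eq_mul, div_mul_cancel₀ _ hay.ne', sub_self]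
        · have := hx i hi
          rwa [key] at this)
      refine ⟨fun i => if i = a then (p y - ∑ j ∈ s, u j * g j y) / g a y else u i,
        fun i => ?_, fun x => ?_⟩
      · dsimp only
        split_ifs
        · refine div_nonneg ?_ hay.le
          have : ∑ j ∈ s, u j * g j y ≤ 0 :=
            Finset.sum_nonpos fun j hj => mul_nonpos_of_nonneg_of_nonpos (hu j) (hy j hj)
          linarith
        · exact hu i
      · have hx := hp x
        simp only [LinearMap.sub_apply, LinearMap.smul_apply, smul_eq_mul] at hx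
        rw [Finset.sum_insert ha]
        simp only [if_true]
        have h2 : ∑ i ∈ s, (if i = a then (p y - ∑ j ∈ s, u j * g j y) / g a y else u i) * g i x =
            ∑ i ∈ s, u i * g i x := by
          refine Finset.sum_congr rfl fun i hi => ?_
          have : i ≠ a := fun e => ha (e ▸ hi)
          rw [if_neg this]
        rw [h2]
        have h3 : ∑ i ∈ s, u i * (g i x - g i y / g a y * g a x) =
            ∑ i ∈ s, u i * g i x - (∑ i ∈ s, u i * g i y) / g a y * g a x := by
          rw [Finset.sum_div, Finset.sum_mul, ← Finset.sum_sub_distrib]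
          refine Finset.sum_congr rfl fun i _ => ?_
          ring
        rw [h3] at hx
        have h4 : p x = p y / g a y * g a x +
            (∑ i ∈ s, u i * g i x - (∑ i ∈ s, u i * g i y) / g a y * g a x) := by
          linarith
        rw [h4]
        ring

/-- A linear functional which is `≤ 0` where all the `g i`, `i ∈ A`, are `≤ 0` is bounded by a multiple
of their maximum, if this is nonnegative. -/
theorem le_max_of_farkas {W ι : Type} [AddCommGroup W] [Module ℝ W] [Fintype ι] (A : Set ι)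
    (g : ι → W →ₗ[ℝ] ℝ) (p : W →ₗ[ℝ] ℝ) (h : ∀ x, (∀ i ∈ A, g i x ≤ 0) → p x ≤ 0)
    (h0 : ∀ x, ∃ i ∈ A, 0 ≤ g i x) : ∃ e : ℕ, ∀ e' : ℕ, e ≤ e' → ∀ x, ∃ i ∈ A, p x ≤ e' * g i x := by
  classical
  obtain ⟨u, hu, hp⟩ := farkas (Finset.univ.filter (· ∈ A)) g p (fun x hx => h x fun i hi =>
    hx i (by simp [hi]))
  obtain ⟨e, he⟩ := exists_nat_ge (∑ i ∈ Finset.univ.filter (· ∈ A), u i)
  refine ⟨e, fun e' hee x => ?_⟩
  by_contra hc
  push Not at hc
  obtain ⟨i0, hi0, hg0⟩ := h0 x
  have hne : (Finset.univ.filter (· ∈ A)).Nonempty := ⟨i0, by simp [hi0]⟩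
  obtain ⟨j, hj, hmax⟩ := Finset.exists_max_image (Finset.univ.filter (· ∈ A)) (fun i => g i x) hne
  have hjA : j ∈ A := by simpa using hj
  have hgj : 0 ≤ g j x := hg0.trans (hmax i0 (by simp [hi0]))
  have h1 := hc j hjA
  have h2 : p x ≤ (∑ i ∈ Finset.univ.filter (· ∈ A), u i) * g j x := by
    rw [hp x, Finset.sum_mul]
    exact Finset.sum_le_sum fun i hi => mul_le_mul_of_nonneg_left (hmax i hi) (hu i)
  have h3 : (∑ i ∈ Finset.univ.filter (· ∈ A), u i) * g j x ≤ e' * g j x :=
    mul_le_mul_of_nonneg_right (he.trans (by exact_mod_cast hee)) hgj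
  linarith

/-- The uniform linear inequality. -/
theorem pl_unif {W : Type} [AddCommGroup W] [Module ℝ W] {κ ι : Type} [Fintype κ] [Fintype ι]
    (l : κ → W →ₗ[ℝ] ℝ) (f : ι → W →ₗ[ℝ] ℝ) : ∃ e : ℕ, ∀ A : Set ι,
      (∀ H β, ∃ α ∈ A, l β H ≤ f α H) →
      (∀ H, (∃ β γ, l β H ≠ l γ H) → ∀ β, ∃ α ∈ A, l β H < f α H) →
      ∀ H β, ∃ α ∈ A, ∑ γ, (l β H - l γ H) ≤ e * (f α H - l β H) := by
  classical
  have key : ∀ (A : Set ι) (β : κ), ∃ e : ℕ, ∀ e' : ℕ, e ≤ e' →
      (∀ H β, ∃ α ∈ A, l β H ≤ f α H) →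
      (∀ H, (∃ β γ, l β H ≠ l γ H) → ∀ β, ∃ α ∈ A, l β H < f α H) →
      ∀ H, ∃ α ∈ A, ∑ γ, (l β H - l γ H) ≤ e' * (f α H - l β H) := by
    intro A β
    by_cases h : (∀ H β, ∃ α ∈ A, l β H ≤ f α H) ∧
      (∀ H, (∃ β γ, l β H ≠ l γ H) → ∀ β, ∃ α ∈ A, l β H < f α H)
    · obtain ⟨h1, h2⟩ := h
      obtain ⟨e, he⟩ := le_max_of_farkas A (fun α => f α - l β) (∑ γ, (l β - l γ)) (by
        intro x hx
        by_cases hne : ∃ β γ, l β x ≠ l γ x
        · obtain ⟨α, hα, hlt⟩ := h2 x hne β
          have := hx α hα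
          rw [LinearMap.sub_apply] at this
          linarith
        · push Not at hne
          rw [LinearMap.sum_apply]
          refine Finset.sum_nonpos fun γ _ => ?_
          rw [LinearMap.sub_apply, hne β γ, sub_self]) (by
        intro x
        obtain ⟨α, hα, hle⟩ := h1 x β
        exact ⟨α, hα, by rw [LinearMap.sub_apply]; linarith⟩)
      refine ⟨e, fun e' hee _ _ H => ?_⟩
      obtain ⟨α, hα, hle⟩ := he e' hee H
      refine ⟨α, hα, ?_⟩
      simpa [LinearMap.sum_apply, LinearMap.sub_apply] using hle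
    · exact ⟨0, fun _ _ h1 h2 => absurd ⟨h1, h2⟩ h⟩
  choose e he using key
  refine ⟨∑ A : Set ι, ∑ β : κ, e A β, fun A h1 h2 H β => ?_⟩
  refine he A β _ ?_ h1 h2 H
  calc e A β ≤ ∑ β : κ, e A β :=
        Finset.single_le_sum (f := fun β => e A β) (fun _ _ => Nat.zero_le _) (Finset.mem_univ β)
    _ ≤ ∑ A : Set ι, ∑ β : κ, e A β :=
        Finset.single_le_sum (f := fun A => ∑ β : κ, e A β) (fun _ _ => Nat.zero_le _)
          (Finset.mem_univ A)

end Pool.Agent.PG
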