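import Pool.Agent.H.MP_e23cd6_ag.PB.GBase

/-!
# Representations of reductive groups: tensor powers and determinants
-/

set_option autoImplicit false

namespace Pool.Agent.PG

open Matrix Topology Pool.Agent.SG

variable {n : ℕ} {R : RG n} {ι : Type} [Fintype ι] [DecidableEq ι]

/-- The tensor power. -/
noncomputable def GRep.pow (V : GRep R ι) (q : ℕ) : GRep R (Fin q → ι) where
  ρ :=
    { toFun := fun g => Matrix.of fun α β => ∏ t, V.ρ g (α t) (β t)
      map_one' := by
        ext α β
        rw [Matrix.of_apply, map_one, Matrix.one_apply]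
        simp only [Matrix.one_apply]
        by_cases h : α = β
        · rw [if_pos h]
          exact Finset.prod_eq_one fun a _ => by rw [if_pos (congrFun h a)]
        · rw [if_neg h]
          obtain ⟨a, ha⟩ := Function.ne_iff.1 h
          exact Finset.prod_eq_zero (Finset.mem_univ a) (if_neg ha)
      map_mul' := by
        intro g h
        ext α β
        rw [Matrix.of_apply, Matrix.mul_apply, map_mul]
        simp only [Matrix.of_apply, Matrix.mul_apply]
        rw [Finset.prod_univ_sum, Fintype.piFinset_univ]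
        exact Finset.sum_congr rfl fun c _ => Finset.prod_mul_distrib }
  cont := by
    refine continuous_matrix fun α β => ?_
    show Continuous fun g : R.G => ∏ t, V.ρ g (α t) (β t)
    exact continuous_finsetProd _ fun a _ => V.cont.matrix_elem _ _
  star := by
    intro g g' h
    ext α β
    show ∏ t, V.ρ g' (α t) (β t) = Star.star (∏ t, V.ρ g (β t) (α t))
    rw [star_prod, V.star g g' h]
    rfl
  lam := fun α => ∑ t, V.lam (α t)
  diag := by
    intro H hH z g h
    ext α β
    show ∏ t, V.ρ g (α t) (β t) = _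
    rw [V.diag H hH z g h, Matrix.diagonal_apply]
    by_cases hf : α = β
    · subst hf
      rw [if_pos rfl]
      simp only [Matrix.diagonal_apply_eq]
      rw [← Complex.exp_sum, LinearMap.sum_apply, Complex.ofReal_sum, Finset.mul_sum]
    · rw [if_neg hf]
      obtain ⟨a, ha⟩ := Function.ne_iff.1 hf
      exact Finset.prod_eq_zero (Finset.mem_univ a) (Matrix.diagonal_apply_ne _ ha)

theorem pow_ρ (V : GRep R ι) (q : ℕ) (g : R.G) :
    (V.pow q).ρ g = Matrix.of fun α β => ∏ t, V.ρ g (α t) (β t) := rfl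

theorem pow_lam (V : GRep R ι) (q : ℕ) (α : Fin q → ι) (H : Fin n → ℝ) :
    (V.pow q).lam α H = ∑ t, V.lam (α t) H := by
  show (∑ t, V.lam (α t)) H = _
  rw [LinearMap.sum_apply]

/-- The tensor power of a vector. -/
def vp (q : ℕ) (u : ι → ℂ) : (Fin q → ι) → ℂ := fun α => ∏ t, u (α t)

omit [Fintype ι] [DecidableEq ι] in
theorem vp_apply (q : ℕ) (u : ι → ℂ) (α : Fin q → ι) : vp q u α = ∏ t, u (α t) := rfl

omit [Fintype ι] [DecidableEq ι] in
theorem vp_smul (q : ℕ) (c : ℂ) (u : ι → ℂ) : vp q (c • u) = c ^ q • vp q u := by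
  funext α
  show ∏ t, c * u (α t) = c ^ q * ∏ t, u (α t)
  rw [Finset.prod_mul_distrib, Finset.prod_const, Finset.card_univ, Fintype.card_fin]

omit [Fintype ι] [DecidableEq ι] in
theorem vp_ne_zero_iff (q : ℕ) (u : ι → ℂ) (α : Fin q → ι) : vp q u α ≠ 0 ↔ ∀ t, u (α t) ≠ 0 := by
  rw [vp_apply, Finset.prod_ne_zero_iff]
  simp

theorem act_pow (V : GRep R ι) (q : ℕ) (g : R.G) (u : ι → ℂ) :
    (V.pow q).act g (vp q u) = vp q (V.act g u) := by
  funext α
  show ∑ β : Fin q → ι, (∏ t, V.ρ g (α t) (β t)) * ∏ t, u (β t) = ∏ t, ∑ b, V.ρ g (α t) b * u b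
  rw [Finset.prod_univ_sum, Fintype.piFinset_univ]
  exact Finset.sum_congr rfl fun c _ => Finset.prod_mul_distrib.symm

/-- The determinant of a representation. -/
noncomputable def GRep.detr (V : GRep R ι) : GRep R Unit where
  ρ :=
    { toFun := fun g => Matrix.of fun _ _ => (V.ρ g).det
      map_one' := by
        ext i j
        rw [Matrix.of_apply, map_one, Matrix.det_one, Subsingleton.elim i j, Matrix.one_apply_eq]
      map_mul' := by
        intro g h
        ext i j
        rw [Matrix.of_apply, Matrix.mul_apply, map_mul, Matrix.det_mul]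
        simp }
  cont := continuous_matrix fun _ _ => V.cont.matrix_det
  star := by
    intro g g' h
    ext i j
    show (V.ρ g').det = Star.star (V.ρ g).det
    rw [V.star g g' h, Matrix.det_conjTranspose]
  lam := fun _ => ∑ i, V.lam i
  diag := by
    intro H hH z g h
    ext i j
    show (V.ρ g).det = _
    rw [V.diag H hH z g h, Matrix.det_diagonal, Subsingleton.elim i j, Matrix.diagonal_apply_eq,
      ← Complex.exp_sum, LinearMap.sum_apply, Complex.ofReal_sum, Finset.mul_sum]

theorem detr_ρ (V : GRep R ι) (g : R.G) (i j : Unit) : V.detr.ρ g i j = (V.ρ g).det := rfl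

theorem detr_act (V : GRep R ι) (g : R.G) (u : Unit → ℂ) :
    V.detr.act g u = (V.ρ g).det • u := by
  funext i
  show ∑ j, (V.ρ g).det * u j = (V.ρ g).det * u i
  simp

theorem det_inv (V : GRep R ι) (g : R.G) : (V.ρ g⁻¹).det = ((V.ρ g).det)⁻¹ := by
  refine eq_inv_of_mul_eq_one_left ?_
  rw [← Matrix.det_mul, ← map_mul, inv_mul_cancel, map_one, Matrix.det_one]

theorem det_ne_zero (V : GRep R ι) (g : R.G) : (V.ρ g).det ≠ 0 := by
  intro h
  have h1 : (V.ρ g⁻¹).det * (V.ρ g).det = 1 := by
    rw [← Matrix.det_mul, ← map_mul, inv_mul_cancel, map_one, Matrix.det_one]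
  rw [h, mul_zero] at h1
  exact zero_ne_one h1

theorem detr_dual_act (V : GRep R ι) (g : R.G) (u : Unit → ℂ) :
    V.detr.dual.act g u = ((V.ρ g).det)⁻¹ • u := by
  funext i
  show ∑ j, (V.ρ g⁻¹).det * u j = ((V.ρ g).det)⁻¹ * u i
  rw [det_inv]
  simp

theorem detr_lam (V : GRep R ι) (H : Fin n → ℝ) : V.detr.lam () H = ∑ i, V.lam i H := by
  show (∑ i, V.lam i) H = _
  rw [LinearMap.sum_apply]

theorem detr_dual_lam (V : GRep R ι) (H : Fin n → ℝ) :
    V.detr.dual.lam () H = -∑ i, V.lam i H := by
  rw [GRep.dual_lam, detr_lam]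

end Pool.Agent.PG
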