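import Pool.Agent.H.MP_e23cd6_ag.PB.GKN
import Pool.Agent.H.MP_e23cd6_ag.PB.GPow
import Pool.Agent.H.MP_e23cd6_ag.PB.GPL
import Pool.Agent.H.MP_e23cd6_ag.PB.GP

/-!
# The criteria A, B, C
-/

set_option autoImplicit false

namespace Pool.Agent.PG

open Matrix Pool.Agent.SG

variable {n : ℕ} {R : RG n} {ι κ : Type} [Fintype ι] [DecidableEq ι] [Fintype κ] [DecidableEq κ]

/-- The numerical inequality. -/
def N1 (V : GRep R ι) (W : GRep R κ) (S : ι → ℂ) : Prop :=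
  ∀ k : R.G, ∀ H ∈ R.a, ∀ β : κ, ∃ α, V.act k S α ≠ 0 ∧ W.dual.lam β H ≤ V.lam α H

/-- The strict numerical inequality. -/
def N2 (V : GRep R ι) (W : GRep R κ) (S : ι → ℂ) : Prop :=
  ∀ k : R.G, ∀ H ∈ R.a, (∃ β γ, W.lam β H ≠ W.lam γ H) → ∀ β : κ, ∃ α,
    V.act k S α ≠ 0 ∧ W.dual.lam β H < V.lam α H

theorem act_ne (W : GRep R κ) (g : R.G) {x : κ → ℂ} (hx : x ≠ 0) : W.act g x ≠ 0 := by
  intro h
  apply hx
  have h1 : W.act g⁻¹ (W.act g x) = x := by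
    rw [← W.act_mul, inv_mul_cancel, W.act_one]
  rw [← h1, h]
  exact Matrix.mulVec_zero _

theorem ex_supp (W : GRep R κ) (g : R.G) {x : κ → ℂ} (hx : x ≠ 0) : ∃ β, W.act g x β ≠ 0 := by
  by_contra h
  push Not at h
  exact act_ne W g hx (funext h)

theorem crit_A' (V : GRep R ι) (W : GRep R κ) : ∃ M : ℕ, 1 ≤ M ∧ ∀ S, N1 V W S →
    ∀ x : κ → ℂ, x ≠ 0 → ∃ P, (V.tens W).Inv M P ∧ MvPolynomial.eval (tv S x) P ≠ 0 := by
  obtain ⟨M, hM, h⟩ := crit_unif (V.tens W)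
  refine ⟨M, hM, fun S hS x hx => h _ fun k _ H hH => ?_⟩
  obtain ⟨β, hβ⟩ := ex_supp W k hx
  obtain ⟨α, hα, hle⟩ := hS k H hH β
  refine ⟨(α, β), ?_, ?_⟩
  · rw [GRep.act_tens]
    exact mul_ne_zero hα hβ
  · rw [GRep.tens_lam]
    rw [GRep.dual_lam] at hle
    linarith

omit [Fintype ι] [DecidableEq ι] in
theorem vp_ne {q : ℕ} {u : ι → ℂ} {α : Fin q → ι} (h : ∀ t, u (α t) ≠ 0) : vp q u α ≠ 0 :=
  Finset.prod_ne_zero_iff.2 fun t _ => h t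

theorem detr_act_ne (W : GRep R κ) (g : R.G) : (W.ρ g).det ≠ 0 := by
  intro h
  have h1 : W.ρ g * W.ρ g⁻¹ = 1 := by rw [← map_mul, mul_inv_cancel, map_one]
  have h2 := congrArg Matrix.det h1
  rw [Matrix.det_mul, h, zero_mul, Matrix.det_one] at h2
  exact zero_ne_one h2

theorem crit_C' (V : GRep R ι) (W : GRep R κ) : ∃ M : ℕ, 1 ≤ M ∧ ∀ S, N1 V W S →
    ∃ P, ((V.pow (Fintype.card κ)).tens W.detr).Inv M P ∧
      MvPolynomial.eval (tv (vp (Fintype.card κ) S) (fun _ => 1)) P ≠ 0 := by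
  obtain ⟨M, hM, h⟩ := crit_unif ((V.pow (Fintype.card κ)).tens W.detr)
  refine ⟨M, hM, fun S hS => h _ fun k _ H hH => ?_⟩
  have h1 := fun β => hS k H hH β
  choose a ha hle using h1
  obtain ⟨e⟩ : Nonempty (Fin (Fintype.card κ) ≃ κ) := ⟨(Fintype.equivFin κ).symm⟩
  refine ⟨(fun t => a (e t), ()), ?_, ?_⟩
  · rw [GRep.act_tens, act_pow, detr_act]
    refine mul_ne_zero (vp_ne fun t => ha _) ?_
    rw [Pi.smul_apply, smul_eq_mul, mul_one]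
    exact detr_act_ne W k
  · rw [GRep.tens_lam, pow_lam, detr_lam, Equiv.sum_comp e fun β => V.lam (a β) H,
      ← Finset.sum_add_distrib]
    refine Finset.sum_nonneg fun β _ => ?_
    have h2 := hle β
    rw [GRep.dual_lam] at h2
    linarith

theorem crit_B' (V : GRep R ι) (W : GRep R κ) : ∃ d M : ℕ, 1 ≤ d ∧ 1 ≤ M ∧ ∀ S, N1 V W S →
    N2 V W S → ∀ x : κ → ℂ, x ≠ 0 →
    ∃ P, (((V.pow d).tens (W.pow (d + Fintype.card κ))).tens W.detr.dual).Inv M P ∧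
      MvPolynomial.eval (tv (tv (vp d S) (vp (d + Fintype.card κ) x)) (fun _ => 1)) P ≠ 0 := by
  obtain ⟨e, he⟩ := pl_unif (fun β => (W.dual.lam β).comp R.a.subtype)
    (fun α => (V.lam α).comp R.a.subtype)
  obtain ⟨M, hM, h⟩ := crit_unif (((V.pow (e + 1)).tens
    (W.pow (e + 1 + Fintype.card κ))).tens W.detr.dual)
  refine ⟨e + 1, M, Nat.le_add_left 1 e, hM, fun S hS hS' x hx => h _ fun k _ H hH => ?_⟩
  obtain ⟨β, hβ⟩ := ex_supp W k hx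
  obtain ⟨α₁, hα₁, hle₁⟩ := he {α | V.act k S α ≠ 0} (fun H' β' => hS k H' H'.2 β')
    (fun H' hne β' => by
      refine hS' k H' H'.2 ?_ β'
      obtain ⟨b, c, hbc⟩ := hne
      exact ⟨b, c, fun h0 => hbc (neg_inj.2 h0)⟩) ⟨H, hH⟩ β
  obtain ⟨α₂, hα₂, hle₂⟩ := hS k H hH β
  have hfin : ∃ α, V.act k S α ≠ 0 ∧
      ∑ γ, (W.dual.lam β H - W.dual.lam γ H) ≤ (e + 1) * (V.lam α H - W.dual.lam β H) := by
    have h1 : ∑ γ, (W.dual.lam β H - W.dual.lam γ H) ≤ e * (V.lam α₁ H - W.dual.lam β H) := hle₁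
    rcases le_total (V.lam α₁ H) (V.lam α₂ H) with h2 | h2
    · refine ⟨α₂, hα₂, h1.trans ?_⟩
      have h3 : (e : ℝ) * (V.lam α₁ H - W.dual.lam β H) ≤ e * (V.lam α₂ H - W.dual.lam β H) :=
        mul_le_mul_of_nonneg_left (by linarith) (Nat.cast_nonneg e)
      nlinarith
    · refine ⟨α₁, hα₁, h1.trans ?_⟩
      nlinarith
  obtain ⟨α, hα, hle⟩ := hfin
  refine ⟨((fun _ => α, fun _ => β), ()), ?_, ?_⟩
  · rw [GRep.act_tens, GRep.act_tens, act_pow, act_pow, detr_dual_act]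
    refine mul_ne_zero (mul_ne_zero (vp_ne fun t => hα) (vp_ne fun t => hβ)) ?_
    rw [Pi.smul_apply, smul_eq_mul, mul_one]
    exact inv_ne_zero (detr_act_ne W k)
  · rw [GRep.tens_lam, GRep.tens_lam, pow_lam, pow_lam, GRep.dual_lam, detr_lam]
    simp only [GRep.dual_lam, Finset.sum_sub_distrib, Finset.sum_const, Finset.card_univ,
      Fintype.card_fin, nsmul_eq_mul, Finset.sum_neg_distrib] at hle ⊢
    push_cast
    linarith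

variable {EF : Type} [NormedAddCommGroup EF] [NormedSpace ℂ EF] {F : Type} [TopologicalSpace F]
  {m : ℕ}

theorem crit_A (Φ : Fib R EF F κ ι m) : ∃ M : ℕ, 1 ≤ M ∧ ∀ S, Φ.P1 S → ∀ x : κ → ℂ, x ≠ 0 →
    ∃ P, (Φ.Rs.dual.tens Φ.RN).Inv M P ∧ MvPolynomial.eval (tv S x) P ≠ 0 :=
  crit_A' Φ.Rs.dual Φ.RN

theorem crit_C (Φ : Fib R EF F κ ι m) : ∃ M : ℕ, 1 ≤ M ∧ ∀ S, Φ.P1 S →
    ∃ P, ((Φ.Rs.dual.pow (Fintype.card κ)).tens Φ.RN.detr).Inv M P ∧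
      MvPolynomial.eval (tv (vp (Fintype.card κ) S) (fun _ => 1)) P ≠ 0 :=
  crit_C' Φ.Rs.dual Φ.RN

theorem crit_B (Φ : Fib R EF F κ ι m) : ∃ d M : ℕ, 1 ≤ d ∧ 1 ≤ M ∧ ∀ S, Φ.P1 S → Φ.P2 S →
    ∀ x : κ → ℂ, x ≠ 0 →
    ∃ P, (((Φ.Rs.dual.pow d).tens (Φ.RN.pow (d + Fintype.card κ))).tens Φ.RN.detr.dual).Inv M P ∧
      MvPolynomial.eval (tv (tv (vp d S) (vp (d + Fintype.card κ) x)) (fun _ => 1)) P ≠ 0 :=
  crit_B' Φ.Rs.dual Φ.RN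

end Pool.Agent.PG
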