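import Pool.Agent.H.MP_e23cd6_ag.PB.DefsG

/-!
# The condition `Fib.LC` holds for klt pairs, and for log canonical pairs and free linear systems

`klt_LC`: the fibre `F` may be singular, and the pair `(F, D)` is klt. `klt_smooth`: the condition
`Fib.Klt` for a fibre `F` which is a manifold, in charts. `lc_LC`: `F` is a manifold, `(F, D)` is log canonical, and a
general member `D'` of the linear system gives a klt pair `(F, D')`. `lc_free_LC`: `F` is a manifold,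
`(F, D)` is log canonical, and the linear system has no base points.
-/

set_option autoImplicit false

open scoped Manifold ContDiff ENNReal
open MeasureTheory Matrix

namespace Pool.Agent.PG

variable {n : ℕ} {R : RG n} {EF : Type} [NormedAddCommGroup EF] [NormedSpace ℂ EF] {F : Type}
  [TopologicalSpace F] {κ ι : Type} [Fintype κ] [DecidableEq κ] [Fintype ι] [DecidableEq ι] {m : ℕ}

theorem dot_enorm_le {ι : Type} [Fintype ι] (S x : ι → ℂ) :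
    ‖S ⬝ᵥ x‖ₑ ≤ (∑ i, ‖S i‖ₑ) * ‖x‖ₑ := by
  unfold dotProduct
  refine (enorm_sum_le _ _).trans ?_
  rw [Finset.sum_mul]
  refine Finset.sum_le_sum fun i _ => ?_
  rw [enorm_mul]
  refine mul_le_mul' le_rfl ?_
  rw [← ofReal_norm, ← ofReal_norm]
  exact ENNReal.ofReal_le_ofReal (norm_le_pi_norm x i)

/-- The comparison of the densities for `ε` and for `0`. -/
theorem dens_le_zero (Φ : Fib R EF F κ ι m) (hm : 1 ≤ m) (S : ι → ℂ) {ε : ℝ} (hε : 0 < ε)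
    (j : Φ.J) (x : EF) :
    Φ.dens S ε j x ≤ ((∑ i, ‖S i‖ₑ) + 1) ^ (2 * ε / m) * Φ.dens S 0 j x := by
  have hm0 : (0 : ℝ) < m := by exact_mod_cast hm
  obtain ⟨C, hC⟩ : ∃ C : ℝ≥0∞, C = (∑ i, ‖S i‖ₑ) + 1 := ⟨_, rfl⟩
  have hCt : C ≠ ⊤ := by
    rw [hC]
    exact ENNReal.add_ne_top.2 ⟨ENNReal.sum_ne_top.2 fun i _ => enorm_ne_top, ENNReal.one_ne_top⟩
  have hC0 : C ≠ 0 := by
    rw [hC]
    exact (lt_of_lt_of_le one_pos le_add_self).ne'
  have hb : 0 < 2 * ε / m := by positivity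
  obtain ⟨y, hy⟩ : ∃ y, y = ‖S ⬝ᵥ Φ.σ j ((Φ.φ j).symm x)‖ₑ := ⟨_, rfl⟩
  obtain ⟨w, hw⟩ : ∃ w, w = ‖Φ.σ j ((Φ.φ j).symm x)‖ₑ := ⟨_, rfl⟩
  obtain ⟨V, hV⟩ : ∃ V, V = ‖Φ.v j ((Φ.φ j).symm x)‖ₑ ^ (2 / m : ℝ) := ⟨_, rfl⟩
  have hyw : y ≤ C * w := by
    rw [hy, hw, hC]
    exact (dot_enorm_le _ _).trans (mul_le_mul' le_self_add le_rfl)
  have hyt : y ≠ ⊤ := by
    rw [hy]
    exact enorm_ne_top
  have key : y ^ (-(2 * (1 - ε) / m)) * w ^ (-(2 * ε / m)) * V ≤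
      C ^ (2 * ε / m) * (y ^ (-((2 : ℝ) / m)) * V) := by
    rcases eq_or_ne V 0 with hV0 | hV0
    · rw [hV0, mul_zero]
      exact zero_le
    rcases eq_or_ne y 0 with h0 | h0
    · have h2 : (0 : ℝ≥0∞) ^ (-((2 : ℝ) / m)) = ⊤ := ENNReal.zero_rpow_of_neg (by
        have : 0 < 2 / (m : ℝ) := by positivity
        linarith)
      have h3 : C ^ (2 * ε / m) ≠ 0 := by
        intro h1
        rw [ENNReal.rpow_eq_zero_iff] at h1
        rcases h1 with h1 | h1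
        · exact hC0 h1.1
        · exact hCt h1.1
      rw [h0, h2, ENNReal.top_mul hV0, ENNReal.mul_top h3]
      exact le_top
    · have h1 : y ^ (-((2 : ℝ) / m)) = y ^ (-(2 * (1 - ε) / m)) * y ^ (-(2 * ε / m)) := by
        rw [← ENNReal.rpow_add _ _ h0 hyt]
        congr 1
        field_simp
        ring
      have h2 : w ^ (-(2 * ε / m)) ≤ C ^ (2 * ε / m) * y ^ (-(2 * ε / m)) := by
        rw [ENNReal.rpow_neg, ENNReal.rpow_neg, ← div_eq_mul_inv, ENNReal.le_div_iff_mul_le]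
        · rw [mul_comm, ← div_eq_mul_inv]
          apply ENNReal.div_le_of_le_mul
          rw [← ENNReal.mul_rpow_of_nonneg _ _ hb.le]
          exact ENNReal.rpow_le_rpow hyw hb.le
        · left
          intro h3
          rw [ENNReal.rpow_eq_zero_iff] at h3
          rcases h3 with h3 | h3
          · exact h0 h3.1
          · exact hyt h3.1
        · left
          exact ENNReal.rpow_ne_top_of_nonneg hb.le hyt
      calc y ^ (-(2 * (1 - ε) / m)) * w ^ (-(2 * ε / m)) * V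
          ≤ y ^ (-(2 * (1 - ε) / m)) * (C ^ (2 * ε / m) * y ^ (-(2 * ε / m))) * V :=
            mul_le_mul' (mul_le_mul' le_rfl h2) le_rfl
        _ = _ := by rw [h1]; ring
  have e0 : -(2 * (1 - (0 : ℝ)) / m) = -((2 : ℝ) / m) := by ring
  have e1 : -(2 * (0 : ℝ) / m) = 0 := by simp
  unfold Fib.dens
  rw [← hy, ← hw, ← hV, ← hC, e0, e1, ENNReal.rpow_zero, mul_one]
  exact key

theorem FinInt_mono [MeasureSpace EF] {Φ : Fib R EF F κ ι m} {S : ι → ℂ} {ε ε' : ℝ} {U : Set F}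
    {C : ℝ≥0∞} (hC : C ≠ ⊤) (h : ∀ j x, Φ.dens S ε j x ≤ C * Φ.dens S ε' j x)
    (hU : Φ.FinInt S ε' U) : Φ.FinInt S ε U := by
  obtain ⟨k, A, hA, hc, hf⟩ := hU
  refine ⟨k, A, hA, hc, ?_⟩
  calc ∑' l, ∫⁻ x in A l, Φ.dens S ε (k l) x
      ≤ ∑' l, C * ∫⁻ x in A l, Φ.dens S ε' (k l) x := by
        refine ENNReal.tsum_le_tsum fun l => ?_
        rw [← lintegral_const_mul' _ _ hC]
        exact lintegral_mono fun x => h _ x
    _ = C * ∑' l, ∫⁻ x in A l, Φ.dens S ε' (k l) x := ENNReal.tsum_mul_left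
    _ < ⊤ := ENNReal.mul_lt_top hC.lt_top hf

/-- A klt pair `(F, D)` satisfies the condition. -/
theorem klt_LC [MeasureSpace EF] (Φ : Fib R EF F κ ι m) (hm : 1 ≤ m) {S : ι → ℂ}
    (h : Φ.Klt S) : Φ.LC S := by
  intro ε hε _ y
  obtain ⟨U, hU, hUf⟩ := h y
  refine ⟨U, hU, FinInt_mono (C := ((∑ i, ‖S i‖ₑ) + 1) ^ (2 * ε / m)) ?_
    (dens_le_zero Φ hm S hε) hUf⟩
  exact ENNReal.rpow_ne_top_of_nonneg (by positivity) (ENNReal.add_ne_top.2
    ⟨ENNReal.sum_ne_top.2 fun i _ => enorm_ne_top, ENNReal.one_ne_top⟩)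

theorem finInt_of_chart [MeasureSpace EF] (Φ : Fib R EF F κ ι m) {S : ι → ℂ} {ε : ℝ} (j : Φ.J)
    {K : Set EF} (hK : K ⊆ (Φ.φ j).target) (hKm : MeasurableSet K)
    (hf : ∫⁻ x in K, Φ.dens S ε j x < ⊤) : Φ.FinInt S ε ((Φ.φ j).source ∩ Φ.φ j ⁻¹' K) := by
  refine ⟨fun _ => j, fun l => if l = 0 then K else ∅, ?_, ?_, ?_⟩
  · intro l
    dsimp only
    split_ifs
    · exact ⟨hKm, hK⟩
    · exact ⟨MeasurableSet.empty, Set.empty_subset _⟩
  · rintro j' y ⟨⟨hy, hyK⟩, hy'⟩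
    exact ⟨0, hy, by simpa using hyK⟩
  · rw [tsum_eq_single 0]
    · simpa using hf
    · intro l hl
      simp [hl]

section smooth

variable [FiniteDimensional ℂ EF] [MeasureSpace EF] [BorelSpace EF]

theorem exists_piece (Φ : Fib R EF F κ ι m) {S : ι → ℂ} {ε : ℝ}
    (hF : ∀ y : F, ∃ j, y ∈ (Φ.φ j).source)
    (h : ∀ j, ∀ K ⊆ (Φ.φ j).target, IsCompact K → ∫⁻ x in K, Φ.dens S ε j x < ⊤) (y : F) :
    ∃ U ∈ nhds y, Φ.FinInt S ε U := by
  have := FiniteDimensional.proper ℂ EF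
  obtain ⟨j, hj⟩ := hF y
  obtain ⟨K, hKc, hyK, hKt⟩ := exists_compact_subset (Φ.φ j).open_target ((Φ.φ j).map_source hj)
  refine ⟨_, ?_, finInt_of_chart Φ j hKt hKc.measurableSet (h j K hKt hKc)⟩
  exact Filter.inter_mem ((Φ.φ j).open_source.mem_nhds hj)
    (((Φ.φ j).continuousAt hj).preimage_mem_nhds (mem_interior_iff_mem_nhds.1 hyK))

omit [FiniteDimensional ℂ EF] [MeasureSpace EF] [BorelSpace EF] in
/-- The vectors `v` are bounded on compact subsets of charts. -/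
theorem dens_le_chart (Φ : Fib R EF F κ ι m) (j : Φ.J) {K : Set EF}
    (hK : K ⊆ (Φ.φ j).target) (hKc : IsCompact K) : ∃ C : ℝ≥0∞, C ≠ ⊤ ∧ ∀ (S : ι → ℂ) (ε : ℝ),
      ∀ x ∈ K, Φ.dens S ε j x ≤ C * (‖S ⬝ᵥ Φ.σ j ((Φ.φ j).symm x)‖ₑ ^ (-(2 * (1 - ε) / m)) *
        ‖Φ.σ j ((Φ.φ j).symm x)‖ₑ ^ (-(2 * ε / m))) := by
  have hc : ContinuousOn (fun x => Φ.v j ((Φ.φ j).symm x)) K := by
    refine ContinuousOn.comp (t := Φ.W j) (Φ.v_cont j) ((Φ.φ j).continuousOn_symm.mono hK) ?_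
    intro x hx
    exact Φ.sub j ((Φ.φ j).map_target (hK hx))
  obtain ⟨B, hB⟩ := hKc.exists_bound_of_continuousOn hc
  refine ⟨ENNReal.ofReal B ^ (2 / m : ℝ), ENNReal.rpow_ne_top_of_nonneg (by positivity)
    ENNReal.ofReal_ne_top, ?_⟩
  intro S ε x hx
  unfold Fib.dens
  rw [mul_comm (ENNReal.ofReal B ^ (2 / m : ℝ))]
  refine mul_le_mul' le_rfl (ENNReal.rpow_le_rpow ?_ (by positivity))
  rw [← ofReal_norm]
  exact ENNReal.ofReal_le_ofReal (hB x hx)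

/-- If `F` is a manifold and `|s| ^ (-2 / m)` is integrable on the compact subsets of charts, then the
pair `(F, D)` is klt. -/
theorem klt_smooth (Φ : Fib R EF F κ ι m) {S : ι → ℂ}
    (hF : ∀ y : F, ∃ j, y ∈ (Φ.φ j).source)
    (h : ∀ j, ∀ K ⊆ (Φ.φ j).target, IsCompact K →
      ∫⁻ x in K, ‖S ⬝ᵥ Φ.σ j ((Φ.φ j).symm x)‖ₑ ^ (-((2 : ℝ) / m)) < ⊤) : Φ.Klt S := by
  refine exists_piece Φ hF ?_
  intro j K hK hKc
  obtain ⟨C, hCt, hC⟩ := dens_le_chart Φ j hK hKc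
  have e0 : -(2 * (1 - (0 : ℝ)) / m) = -((2 : ℝ) / m) := by ring
  have e1 : -(2 * (0 : ℝ) / m) = 0 := by simp
  calc ∫⁻ x in K, Φ.dens S 0 j x
      ≤ ∫⁻ x in K, C * ‖S ⬝ᵥ Φ.σ j ((Φ.φ j).symm x)‖ₑ ^ (-((2 : ℝ) / m)) := by
        refine setLIntegral_mono' hKc.measurableSet fun x hx => ?_
        refine (hC S 0 x hx).trans (le_of_eq ?_)
        rw [e0, e1, ENNReal.rpow_zero, mul_one]
    _ = C * ∫⁻ x in K, ‖S ⬝ᵥ Φ.σ j ((Φ.φ j).symm x)‖ₑ ^ (-((2 : ℝ) / m)) :=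
        lintegral_const_mul' _ _ hCt
    _ < ⊤ := ENNReal.mul_lt_top hCt.lt_top (h j K hK hKc)

/-- The condition for a manifold `F`, a log canonical pair `(F, D)`, and a linear system whose general
member `D'` gives a klt pair `(F, D')`. -/
theorem lc_LC (Φ : Fib R EF F κ ι m) (hm : 1 ≤ m) {S : ι → ℂ}
    (hF : ∀ y : F, ∃ j, y ∈ (Φ.φ j).source)
    (h : ∀ c : ℝ, 0 < c → c < 1 → ∀ j, ∀ K ⊆ (Φ.φ j).target, IsCompact K →
      ∫⁻ x in K, ‖S ⬝ᵥ Φ.σ j ((Φ.φ j).symm x)‖ₑ ^ (-(2 * c / m)) < ⊤)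
    {p : ℝ} (hp : 1 < p) (h' : ∀ j, ∀ K ⊆ (Φ.φ j).target, IsCompact K →
      ∫⁻ x in K, ‖Φ.σ j ((Φ.φ j).symm x)‖ₑ ^ (-(2 * p / m)) < ⊤) : Φ.LC S := by
  have hm0 : (0 : ℝ) < m := by exact_mod_cast hm
  intro ε hε hε1
  refine exists_piece Φ hF ?_
  intro j K hK hKc
  obtain ⟨C, hCt, hC⟩ := dens_le_chart Φ j hK hKc
  have hp0 : 0 < p := one_pos.trans hp
  have hεp : ε / p < 1 := by
    rw [div_lt_one hp0]
    exact hε1.trans hp
  have hεp' : ε / p < ε := div_lt_self hε hp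
  have hd : 0 < 1 - ε / p := by linarith
  have hconj : (1 / (1 - ε / p)).HolderConjugate (p / ε) := by
    rw [Real.holderConjugate_iff]
    constructor
    · rw [lt_div_iff₀ hd]
      have : 0 < ε / p := by positivity
      linarith
    · rw [one_div, inv_inv, inv_div]
      ring
  have hσ : ContinuousOn (fun x => Φ.σ j ((Φ.φ j).symm x)) K :=
    continuousOn_pi.2 fun α => (Φ.σ_hol j α).continuousOn.mono hK
  have hs : ContinuousOn (fun x => S ⬝ᵥ Φ.σ j ((Φ.φ j).symm x)) K := by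
    unfold dotProduct
    exact continuousOn_finsetSum _ fun α _ =>
      continuousOn_const.mul ((Φ.σ_hol j α).continuousOn.mono hK)
  have hσm : AEMeasurable (fun x => ‖Φ.σ j ((Φ.φ j).symm x)‖ₑ) (volume.restrict K) :=
    (continuous_enorm.comp_continuousOn hσ).aemeasurable hKc.measurableSet
  have hsm : AEMeasurable (fun x => ‖S ⬝ᵥ Φ.σ j ((Φ.φ j).symm x)‖ₑ) (volume.restrict K) :=
    (continuous_enorm.comp_continuousOn hs).aemeasurable hKc.measurableSet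
  have key := ENNReal.lintegral_mul_le_Lp_mul_Lq (volume.restrict K) hconj
    (hsm.pow_const (-(2 * (1 - ε) / m))) (hσm.pow_const (-(2 * ε / m)))
  simp only [Pi.mul_apply, ← ENNReal.rpow_mul] at key
  have e0 : -(2 * (1 - ε) / m) * (1 / (1 - ε / p)) =
      -(2 * ((1 - ε) * (1 / (1 - ε / p))) / m) := by ring
  have e1 : -(2 * ε / m) * (p / ε) = -(2 * p / m) := by
    field_simp
  rw [e0, e1] at key
  have hc0 : 0 < (1 - ε) * (1 / (1 - ε / p)) := by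
    have : 0 < 1 - ε := by linarith
    positivity
  have hc1 : (1 - ε) * (1 / (1 - ε / p)) < 1 := by
    rw [mul_one_div, div_lt_one hd]
    linarith
  have hfin : ∫⁻ x in K, ‖S ⬝ᵥ Φ.σ j ((Φ.φ j).symm x)‖ₑ ^ (-(2 * (1 - ε) / m)) *
      ‖Φ.σ j ((Φ.φ j).symm x)‖ₑ ^ (-(2 * ε / m)) < ⊤ := by
    refine key.trans_lt (ENNReal.mul_lt_top ?_ ?_)
    · exact ENNReal.rpow_lt_top_of_nonneg (one_div_nonneg.2 (one_div_nonneg.2 hd.le))
        (h _ hc0 hc1 j K hK hKc).ne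
    · exact ENNReal.rpow_lt_top_of_nonneg (by positivity) (h' j K hK hKc).ne
  calc ∫⁻ x in K, Φ.dens S ε j x
      ≤ ∫⁻ x in K, C * (‖S ⬝ᵥ Φ.σ j ((Φ.φ j).symm x)‖ₑ ^ (-(2 * (1 - ε) / m)) *
        ‖Φ.σ j ((Φ.φ j).symm x)‖ₑ ^ (-(2 * ε / m))) :=
        setLIntegral_mono' hKc.measurableSet fun x hx => hC S ε x hx
    _ = C * ∫⁻ x in K, ‖S ⬝ᵥ Φ.σ j ((Φ.φ j).symm x)‖ₑ ^ (-(2 * (1 - ε) / m)) *
        ‖Φ.σ j ((Φ.φ j).symm x)‖ₑ ^ (-(2 * ε / m)) := lintegral_const_mul' _ _ hCt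
    _ < ⊤ := ENNReal.mul_lt_top hCt.lt_top hfin

/-- The condition for a manifold `F`, a log canonical pair `(F, D)`, and a linear system without base
points. -/
theorem lc_free_LC [IsFiniteMeasureOnCompacts (volume : Measure EF)] (Φ : Fib R EF F κ ι m)
    (hm : 1 ≤ m) {S : ι → ℂ} (hF : ∀ y : F, ∃ j, y ∈ (Φ.φ j).source)
    (h : ∀ c : ℝ, 0 < c → c < 1 → ∀ j, ∀ K ⊆ (Φ.φ j).target, IsCompact K →
      ∫⁻ x in K, ‖S ⬝ᵥ Φ.σ j ((Φ.φ j).symm x)‖ₑ ^ (-(2 * c / m)) < ⊤)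
    (h' : ∀ j, ∀ y ∈ (Φ.φ j).source, Φ.σ j y ≠ 0) : Φ.LC S := by
  have hm0 : (0 : ℝ) < m := by exact_mod_cast hm
  refine lc_LC Φ hm hF h (p := 2) (by norm_num) ?_
  intro j K hK hKc
  rcases K.eq_empty_or_nonempty with rfl | hne
  · simp
  have hσ : ContinuousOn (fun x => ‖Φ.σ j ((Φ.φ j).symm x)‖) K :=
    (continuousOn_pi.2 fun α => (Φ.σ_hol j α).continuousOn.mono hK).norm
  obtain ⟨x₀, hx₀, hmin⟩ := hKc.exists_isMinOn hne hσ
  have hpos : 0 < ‖Φ.σ j ((Φ.φ j).symm x₀)‖ :=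
    norm_pos_iff.2 (h' j _ ((Φ.φ j).map_target (hK hx₀)))
  have he : 0 < 2 * 2 / (m : ℝ) := by positivity
  calc ∫⁻ x in K, ‖Φ.σ j ((Φ.φ j).symm x)‖ₑ ^ (-(2 * 2 / (m : ℝ)))
      ≤ ∫⁻ _ in K, ‖Φ.σ j ((Φ.φ j).symm x₀)‖ₑ ^ (-(2 * 2 / (m : ℝ))) := by
        refine setLIntegral_mono' hKc.measurableSet fun x hx => ?_
        rw [ENNReal.rpow_neg, ENNReal.rpow_neg]
        refine ENNReal.inv_le_inv.2 (ENNReal.rpow_le_rpow ?_ he.le)
        rw [← ofReal_norm, ← ofReal_norm]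
        exact ENNReal.ofReal_le_ofReal (hmin hx)
    _ = ‖Φ.σ j ((Φ.φ j).symm x₀)‖ₑ ^ (-(2 * 2 / (m : ℝ))) * volume K := by
        rw [setLIntegral_const]
    _ < ⊤ := by
        refine ENNReal.mul_lt_top ?_ hKc.measure_lt_top
        rw [ENNReal.rpow_neg, ENNReal.inv_lt_top]
        refine ENNReal.rpow_pos ?_ enorm_ne_top
        rw [← ofReal_norm]
        exact ENNReal.ofReal_pos.2 hpos

end smooth

end Pool.Agent.PG
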