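import Pool.Agent.H.MP_e23cd6_ag.SG.InvB
import Pool.Agent.H.MP_e23cd6_ag.SG.Tens

/-!
# A numerical criterion for semistability of a pair of vectors
-/

set_option autoImplicit false

namespace Pool.Agent.PB

open Matrix Topology Set Pool.Agent.SG

variable {n : ℕ} {ι κ : Type} [Fintype ι] [DecidableEq ι] [Fintype κ] [DecidableEq κ]

omit [DecidableEq ι] in
theorem norm_le_nm (v : ι → ℂ) (i : ι) : ‖v i‖ ≤ nm v := by
  refine Real.le_sqrt_of_sq_le ?_
  exact Finset.single_le_sum (f := fun i => ‖v i‖ ^ 2) (fun i _ => sq_nonneg _)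
    (Finset.mem_univ i)

omit [DecidableEq ι] in
theorem nm_mono {v w : ι → ℂ} (h : ∀ i, ‖v i‖ ≤ ‖w i‖) : nm v ≤ nm w := by
  refine Real.sqrt_le_sqrt (Finset.sum_le_sum fun i _ => ?_)
  exact pow_le_pow_left₀ (norm_nonneg _) (h i) 2

/-- The numerical inequality for all elements of the compact group gives a uniform lower bound
of the norms. -/
theorem unif_bound (R : Rep n ι) (S : ι → ℂ) (μ : aa n → ℝ)
    (h : ∀ k ∈ SU n, ∀ H, ∃ f, R.act k S f ≠ 0 ∧ μ H ≤ R.lam f H) :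
    ∃ c > 0, ∀ k ∈ SU n, ∀ H, c * Real.exp (μ H) ≤ nm (R.act (dg H 1) (R.act k S)) := by
  have hloc : ∀ k : SU n, ∃ U ∈ 𝓝 k, ∃ c > 0, ∀ k' ∈ U, ∀ H,
      c * Real.exp (μ H) ≤ nm (R.act (dg H 1) (R.act (k' : Gp n) S)) := by
    intro k
    obtain ⟨T, hT⟩ : ∃ T, T = R.act (k : Gp n) S := ⟨_, rfl⟩
    have hc : ∃ c > 0, ∀ f, T f ≠ 0 → c < ‖T f‖ := by
      have h1 : ∀ s : Finset ι, ∃ c > 0, ∀ f ∈ s, T f ≠ 0 → c < ‖T f‖ := by
        intro s
        induction s using Finset.induction_on with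
        | empty => exact ⟨1, one_pos, fun f hf => absurd hf (Finset.notMem_empty f)⟩
        | insert a s _ ih =>
          obtain ⟨c, hc, h2⟩ := ih
          by_cases ha : T a = 0
          · refine ⟨c, hc, fun f hf h0 => ?_⟩
            rcases Finset.mem_insert.1 hf with rfl | hf
            · exact absurd ha h0
            · exact h2 f hf h0
          · have hp := norm_pos_iff.2 ha
            refine ⟨min c (‖T a‖ / 2), lt_min hc (by positivity), fun f hf h0 => ?_⟩
            rcases Finset.mem_insert.1 hf with rfl | hf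
            · exact (min_le_right _ _).trans_lt (by linarith)
            · exact (min_le_left _ _).trans_lt (h2 f hf h0)
      obtain ⟨c, hc, h2⟩ := h1 Finset.univ
      exact ⟨c, hc, fun f => h2 f (Finset.mem_univ f)⟩
    obtain ⟨c, hc, hcf⟩ := hc
    refine ⟨⋂ f ∈ {f | T f ≠ 0}, {k' : SU n | c < ‖R.act (k' : Gp n) S f‖}, ?_, c, hc, ?_⟩
    · refine (Filter.biInter_mem (Set.toFinite _)).2 fun f hf => ?_
      refine (isOpen_lt continuous_const (((continuous_apply f).comp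
        (R.continuous_actSU S)).norm)).mem_nhds ?_
      show c < ‖R.act (k : Gp n) S f‖
      rw [← hT]
      exact hcf f hf
    · intro k' hk' H
      obtain ⟨f, hf, hμ⟩ := h k k.2 H
      rw [← hT] at hf
      have h1 : c < ‖R.act (k' : Gp n) S f‖ := mem_iInter₂.1 hk' f hf
      refine le_trans ?_ (norm_le_nm _ f)
      rw [R.act_dg, norm_mul, Complex.norm_exp, mul_comm]
      have h2 : ((1 : ℂ) * (R.lam f H : ℂ)).re = R.lam f H := by simp
      rw [h2]
      exact mul_le_mul (Real.exp_le_exp.2 hμ) h1.le hc.le (Real.exp_pos _).le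
  choose U hU c hc hUc using hloc
  obtain ⟨t, ht⟩ := CompactSpace.elim_nhds_subcover U hU
  have hmin : ∃ c' > 0, ∀ k ∈ t, c' ≤ c k := by
    have h1 : ∀ s : Finset (SU n), ∃ c' > 0, ∀ k ∈ s, c' ≤ c k := by
      classical
      intro s
      induction s using Finset.induction_on with
      | empty => exact ⟨1, one_pos, fun f hf => absurd hf (Finset.notMem_empty f)⟩
      | insert a s _ ih =>
        obtain ⟨c', hc', h2⟩ := ih
        refine ⟨min c' (c a), lt_min hc' (hc a), fun f hf => ?_⟩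
        rcases Finset.mem_insert.1 hf with rfl | hf
        · exact min_le_right _ _
        · exact (min_le_left _ _).trans (h2 f hf)
    exact h1 t
  obtain ⟨c', hc', hmin⟩ := hmin
  refine ⟨c', hc', fun k hk H => ?_⟩
  have h1 : (⟨k, hk⟩ : SU n) ∈ ⋃ x ∈ t, U x := by
    rw [ht]
    exact mem_univ _
  rw [mem_iUnion₂] at h1
  obtain ⟨x, hx, hkx⟩ := h1
  refine le_trans ?_ (hUc x ⟨k, hk⟩ hkx H)
  exact mul_le_mul_of_nonneg_right (hmin x hx) (Real.exp_pos _).le

/-- The criterion. -/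
theorem core (R : Rep n ι) (V : Rep n κ) (S : ι → ℂ) (v : κ → ℂ) (μ : aa n → ℝ)
    (h : ∀ k ∈ SU n, ∀ H, ∃ f, R.act k S f ≠ 0 ∧ μ H ≤ R.lam f H) (hv : v ≠ 0)
    (hV : ∀ g H, nm (V.act (dg H (-1)) (V.act g v)) ≤ Real.exp (μ H) * nm (V.act g v)) :
    ∃ N > 0, ∃ P, (R.tens V).Inv N P ∧ MvPolynomial.eval (tv S v) P ≠ 0 := by
  obtain ⟨c, hc, hb⟩ := unif_bound R S μ h
  have hnv : 0 < nm v := by
    rcases (nm_nonneg v).lt_or_eq with h1 | h1
    · exact h1
    · exfalso
      apply hv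
      rw [← ns_eq_zero, ← nm_sq, ← h1]
      norm_num
  refine (R.tens V).inv_of_pos (m := c * nm v) (mul_pos hc hnv) fun g => ?_
  obtain ⟨k₁, hk₁, k₂, hk₂, H, hg⟩ := svd g
  rw [Rep.act_tens, nm_tv]
  have h1 : nm (R.act g S) = nm (R.act (dg H 1) (R.act k₂ S)) := by
    rw [hg, R.act_mul, R.act_mul, R.nm_act_SU hk₁]
  have h2 : nm v ≤ Real.exp (μ H) * nm (V.act g v) := by
    have e1 : V.act (dg H (-1)) (V.act (k₁⁻¹ * g) v) = V.act k₂ v := by
      rw [← V.act_mul]
      congr 1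
      have e2 : dg H (-1) * dg H 1 = 1 := by
        rw [← dg_add, neg_add_cancel, dg_zero]
      calc dg H (-1) * (k₁⁻¹ * g) = dg H (-1) * (k₁⁻¹ * (k₁ * dg H 1 * k₂)) := by rw [← hg]
        _ = (dg H (-1) * dg H 1) * k₂ := by group
        _ = k₂ := by rw [e2, one_mul]
    have h3 := hV (k₁⁻¹ * g) H
    rw [e1, V.nm_act_SU hk₂, V.act_mul, V.nm_act_SU ((SU n).inv_mem hk₁)] at h3
    exact h3
  have h4 := hb k₂ hk₂ H
  rw [h1]
  have h5 : 0 < Real.exp (μ H) := Real.exp_pos _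
  calc c * nm v ≤ c * (Real.exp (μ H) * nm (V.act g v)) := mul_le_mul_of_nonneg_left h2 hc.le
    _ = (c * Real.exp (μ H)) * nm (V.act g v) := by ring
    _ ≤ _ := mul_le_mul_of_nonneg_right h4 (nm_nonneg _)

end Pool.Agent.PB
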