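import Pool.Agent.H.MP_e23cd6_ag.PB.DefsG

/-!
# The total mass of the measure of a fibre pair is finite
-/

set_option autoImplicit false

open scoped Manifold ContDiff ENNReal
open MeasureTheory Matrix

namespace Pool.Agent.PG

variable {n : ℕ} {R : RG n} {EF : Type} [NormedAddCommGroup EF] [NormedSpace ℂ EF]
  [MeasureSpace EF] {F : Type} [TopologicalSpace F] {κ ι : Type} [Fintype κ] [DecidableEq κ]
  [Fintype ι] [DecidableEq ι] {m : ℕ}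

theorem FinInt_empty (Φ : Fib R EF F κ ι m) (S : ι → ℂ) (ε : ℝ) : Φ.FinInt S ε ∅ := by
  obtain ⟨j, _⟩ := Φ.ne
  refine ⟨fun _ => j, fun _ => ∅, fun l => ⟨MeasurableSet.empty, Set.empty_subset _⟩, ?_, ?_⟩
  · intro j y hy
    exact absurd hy.1 (Set.notMem_empty y)
  · simp

theorem FinInt_subset (Φ : Fib R EF F κ ι m) (S : ι → ℂ) (ε : ℝ) {U V : Set F} (h : U ⊆ V)
    (hV : Φ.FinInt S ε V) : Φ.FinInt S ε U := by
  obtain ⟨k, A, h1, h2, h3⟩ := hV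
  exact ⟨k, A, h1, fun j y hy => h2 j y ⟨h hy.1, hy.2⟩, h3⟩

theorem FinInt_union (Φ : Fib R EF F κ ι m) (S : ι → ℂ) (ε : ℝ) {U V : Set F}
    (hU : Φ.FinInt S ε U) (hV : Φ.FinInt S ε V) : Φ.FinInt S ε (U ∪ V) := by
  obtain ⟨k, A, h1, h2, h3⟩ := hU
  obtain ⟨k', A', h1', h2', h3'⟩ := hV
  obtain ⟨e⟩ : Nonempty (ℕ ≃ ℕ ⊕ ℕ) := ⟨Equiv.natSumNatEquivNat.symm⟩
  refine ⟨fun l => Sum.elim k k' (e l), fun l => Sum.elim A A' (e l), fun l => ?_, ?_, ?_⟩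
  · rcases hel : e l with p | p
    · simpa [hel] using h1 p
    · simpa [hel] using h1' p
  · intro j y hy
    rcases hy.1 with hyU | hyV
    · obtain ⟨l, hl⟩ := h2 j y ⟨hyU, hy.2⟩
      refine ⟨e.symm (Sum.inl l), ?_⟩
      simpa using hl
    · obtain ⟨l, hl⟩ := h2' j y ⟨hyV, hy.2⟩
      refine ⟨e.symm (Sum.inr l), ?_⟩
      simpa using hl
  · have h4 : ∑' l, ∫⁻ x in Sum.elim A A' (e l), Φ.dens S ε (Sum.elim k k' (e l)) x =
        (∑' l, ∫⁻ x in A l, Φ.dens S ε (k l) x) + ∑' l, ∫⁻ x in A' l, Φ.dens S ε (k' l) x := by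
      rw [Equiv.tsum_eq e (fun p => ∫⁻ x in Sum.elim A A' p, Φ.dens S ε (Sum.elim k k' p) x)]
      exact Summable.tsum_sum ENNReal.summable ENNReal.summable
    rw [h4]
    exact ENNReal.add_lt_top.2 ⟨h3, h3'⟩

theorem LC_fin [CompactSpace F] (Φ : Fib R EF F κ ι m) {S : ι → ℂ} (hS : Φ.LC S)
    {ε : ℝ} (hε : 0 < ε) (hε1 : ε < 1) : Φ.FinInt S ε Set.univ := by
  refine isCompact_univ.induction_on (p := fun U => Φ.FinInt S ε U) (FinInt_empty Φ S ε)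
    (fun U V h hV => FinInt_subset Φ S ε h hV) (fun U V hU hV => FinInt_union Φ S ε hU hV) ?_
  intro y _
  obtain ⟨U, hU, hf⟩ := hS ε hε hε1 y
  exact ⟨U, mem_nhdsWithin_of_mem_nhds hU, hf⟩

end Pool.Agent.PG
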