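import Pool.Agent.H.MP_e23cd6_ag.PB.GNum
import Pool.Agent.H.MP_e23cd6_ag.PB.GKltNum
import Pool.Agent.H.MP_e23cd6_ag.PB.GCrit
import Pool.Agent.H.MP_e23cd6_ag.PB.GAsm
import Pool.Agent.H.MP_e23cd6_ag.PB.GKlt

/-!
# The theorem for fibre bundles with a reductive structure group
-/

set_option autoImplicit false

open scoped Manifold ContDiff ENNReal
open MeasureTheory Matrix

namespace Pool.Agent.PG

open Pool.Agent.SG Pool.Agent.PB

variable {n : ℕ} {R : RG n} {EF : Type} [NormedAddCommGroup EF] [NormedSpace ℂ EF] {F : Type}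
  [TopologicalSpace F] {κ ι : Type} [Fintype κ] [DecidableEq κ] [Fintype ι] [DecidableEq ι] {m : ℕ}
  {Φ : Fib R EF F κ ι m} {Z : Type} [TopologicalSpace Z] {O : CSp Z} {I : Type}

theorem num_klt [FiniteDimensional ℂ EF] [MeasureSpace EF] [BorelSpace EF]
    [(volume : Measure EF).IsAddHaarMeasure] [CompactSpace F] (Φ : Fib R EF F κ ι m) (hm : 1 ≤ m)
    {S : ι → ℂ} (hS : Φ.Klt S) : Φ.P2 S :=
  num_klt_aux Φ hm hS fun _ _ hA hcov _ _ hK hKt hint ξ =>
    J_core Φ hm le_rfl one_pos hA hcov hK hKt hint ξ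

theorem HF_vp {U : Set Z} (q : ℕ) (α : Fin q → κ) :
    HF O U q (fun (_ : Z) (x : κ → ℂ) => vp q x α) := by
  have h1 := HF.prod (O := O) (U := U) (Finset.univ : Finset (Fin q)) (n := fun _ => 1)
    (f := fun t (_ : Z) (x : κ → ℂ) => x (α t)) fun t _ => HF.coord (α t)
  exact h1.cast (by simp)

omit [Fintype ι] [DecidableEq ι] in
theorem hol_vp {U : Set Z} (hU : IsOpen U) {S : Z → ι → ℂ} (hS : ∀ p, (fun z => S z p) ∈ O.O U)
    (q : ℕ) (α : Fin q → ι) : (fun z => vp q (S z) α) ∈ O.O U := by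
  have h1 : ∀ s : Finset (Fin q), (fun z => ∏ t ∈ s, S z (α t)) ∈ O.O U := by
    intro s
    induction s using Finset.induction_on with
    | empty => simpa using O.const U 1
    | insert a s ha ih =>
      refine O.congr hU (O.mul U _ (hS (α a)) _ ih) fun z _ => ?_
      rw [Finset.prod_insert ha]
  exact h1 Finset.univ

theorem tv_smul_smul {τ τ' : Type} (c c' : ℂ) (x : τ → ℂ) (y : τ' → ℂ) :
    tv (c • x) (c' • y) = (c * c') • tv x y := by
  funext p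
  simp only [tv, Pi.smul_apply, smul_eq_mul]
  ring

/-- The line bundle `λ`. -/
theorem part_C (X : Bun Φ O I) {a : I → I → Z → ℂ} (s : SecS X a) {M : ℕ}
    {P : MvPolynomial ((Fin (Fintype.card κ) → ι) × Unit) ℂ}
    (hP : ((Φ.Rs.dual.pow (Fintype.card κ)).tens Φ.RN.detr).Inv M P) {i : I} {z : Z}
    (hne : MvPolynomial.eval (tv (vp (Fintype.card κ) (s.S i z)) (fun _ => 1)) P ≠ 0) :
    ∃ l : SecZ X (fun i j z => X.lam a i j z ^ M), l.f i z ≠ 0 := by
  refine assembleZ X hP (u := fun i z => tv (vp (Fintype.card κ) (s.S i z)) (fun _ => 1))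
    (w := X.lam a) (fun i p => ?_) (fun i j z hz => ?_) (fun i j z _ => rfl) hne
  · refine O.congr (X.U_open i) (hol_vp (X.U_open i) (s.hol i) (Fintype.card κ) p.1) fun z _ => ?_
    exact mul_one _
  · have hdet : ((Φ.RN.ρ (X.γ i j z)).det)⁻¹ * (Φ.RN.ρ (X.γ i j z)).det = 1 := by
      refine inv_mul_cancel₀ fun h0 => ?_
      have h1 : (Φ.RN.ρ (X.γ i j z)).det * (Φ.RN.ρ (X.γ i j z)⁻¹).det = 1 := by
        rw [← Matrix.det_mul, ← map_mul, mul_inv_cancel, map_one, Matrix.det_one]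
      rw [h0, zero_mul] at h1
      exact zero_ne_one h1
    beta_reduce
    rw [GRep.act_tens, act_pow, detr_act, s.trans hz, vp_smul]
    have e1 : ∀ x : (Fin (Fintype.card κ) → ι) → ℂ, tv (a i j z ^ Fintype.card κ • x)
        (fun _ : Unit => (1 : ℂ)) = X.lam a i j z • tv x ((Φ.RN.ρ (X.γ i j z)).det •
          fun _ : Unit => (1 : ℂ)) := by
      intro x
      funext p
      simp only [tv, Pi.smul_apply, smul_eq_mul, Bun.lam]
      linear_combination (-(a i j z ^ Fintype.card κ * x p.1)) * hdet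
    exact e1 _

/-- The line bundle `L ⊗ Q`. -/
theorem part_A (X : Bun Φ O I) {a : I → I → Z → ℂ} (s : SecS X a) {M : ℕ}
    {P : MvPolynomial (ι × κ) ℂ} (hP : (Φ.Rs.dual.tens Φ.RN).Inv M P) {c : I → I → Z → ℂ} {q : ℕ}
    (k : SecZ X (fun i j z => c i j z ^ q)) {i : I} {z : Z} (hz : z ∈ X.U i)
    (hk : k.f i z ≠ 0) {x : κ → ℂ} (hne : MvPolynomial.eval (tv (s.S i z) x) P ≠ 0) :
    ∃ T : SecN X (M * q) (fun i j z => (a i j z * c i j z) ^ (M * q)), tp (T.T i z) x ≠ 0 := by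
  refine assemble X hP (d := 1) (u := fun i z x => tv (s.S i z) x) (w := a) (fun i p => ?_)
    (fun i j z hz j' y hy => ?_) k M q (by ring) (fun i j z hz => ?_) hz hk hne
  · exact HF.smul (s.hol i p.1) (HF.coord p.2)
  · have h4 : Φ.RN.ρ (X.γ i j z) *ᵥ Φ.v j' y = Φ.RN.act (X.γ i j z) (Φ.v j' y) := rfl
    rw [s.trans hz, h4, GRep.act_tens]
    funext p
    simp only [tv, Pi.smul_apply, smul_eq_mul]
    ring
  · ring

/-- The line bundle `L ^ e ⊗ Q`, `e = d + card κ`. -/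
theorem part_B (X : Bun Φ O I) {a : I → I → Z → ℂ} (s : SecS X a) {d M : ℕ}
    {P : MvPolynomial (((Fin d → ι) × (Fin (d + Fintype.card κ) → κ)) × Unit) ℂ}
    (hP : (((Φ.Rs.dual.pow d).tens (Φ.RN.pow (d + Fintype.card κ))).tens
      Φ.RN.detr.dual).Inv M P) {c : I → I → Z → ℂ} {q : ℕ}
    (k : SecZ X (fun i j z => (c i j z * X.lam a i j z) ^ q)) {i : I} {z : Z}
    (hz : z ∈ X.U i) (hk : k.f i z ≠ 0) {x : κ → ℂ}
    (hne : MvPolynomial.eval (tv (tv (vp d (s.S i z)) (vp (d + Fintype.card κ) x))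
      (fun _ => 1)) P ≠ 0) :
    ∃ T : SecN X ((d + Fintype.card κ) * M * q)
      (fun i j z => (a i j z ^ (d + Fintype.card κ) * c i j z) ^ (M * q)), tp (T.T i z) x ≠ 0 := by
  have hdet : ∀ g, ((Φ.RN.ρ g).det)⁻¹ * (Φ.RN.ρ g).det = 1 := by
    intro g
    refine inv_mul_cancel₀ fun h0 => ?_
    have h1 : (Φ.RN.ρ g).det * (Φ.RN.ρ g⁻¹).det = 1 := by
      rw [← Matrix.det_mul, ← map_mul, mul_inv_cancel, map_one, Matrix.det_one]
    rw [h0, zero_mul] at h1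
    exact zero_ne_one h1
  refine assemble X hP (d := d + Fintype.card κ)
    (u := fun i z x => tv (tv (vp d (s.S i z)) (vp (d + Fintype.card κ) x)) (fun _ => 1))
    (w := fun i j z => a i j z ^ d * (Φ.RN.ρ (X.γ i j z)).det) (fun i p => ?_)
    (fun i j z hz j' y hy => ?_) k M q rfl (fun i j z hz => ?_) hz hk hne
  · refine (HF.smul (hol_vp (X.U_open i) (s.hol i) d p.1.1) (HF_vp (d + Fintype.card κ) p.1.2)).congr
      fun z _ x => ?_
    exact mul_one _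
  · have h4 : Φ.RN.ρ (X.γ i j z) *ᵥ Φ.v j' y = Φ.RN.act (X.γ i j z) (Φ.v j' y) := rfl
    rw [s.trans hz, h4, GRep.act_tens, GRep.act_tens, act_pow, act_pow, detr_dual_act, vp_smul]
    have e1 : ∀ (x : (Fin d → ι) → ℂ) (y : (Fin (d + Fintype.card κ) → κ) → ℂ),
        tv (tv (a i j z ^ d • x) y) (fun _ : Unit => (1 : ℂ)) =
          (a i j z ^ d * (Φ.RN.ρ (X.γ i j z)).det) • tv (tv x y)
            (((Φ.RN.ρ (X.γ i j z)).det)⁻¹ • fun _ : Unit => (1 : ℂ)) := by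
      intro x y
      funext p
      simp only [tv, Pi.smul_apply, smul_eq_mul]
      linear_combination (-(a i j z ^ d * (x p.1.1 * y p.1.2))) * hdet (X.γ i j z)
    exact e1 _ _
  · have h1 := hdet (X.γ i j z)
    beta_reduce
    unfold Bun.lam
    have h2 : (c i j z * (a i j z ^ Fintype.card κ * ((Φ.RN.ρ (X.γ i j z)).det)⁻¹)) ^ q =
        (c i j z * a i j z ^ Fintype.card κ) ^ q * ((Φ.RN.ρ (X.γ i j z)).det)⁻¹ ^ q := by
      rw [← mul_pow]
      congr 1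
      ring
    rw [h2, mul_pow _ _ M, ← pow_mul, ← pow_mul, mul_comm q M]
    calc _ = (c i j z * a i j z ^ Fintype.card κ) ^ (M * q) * (a i j z ^ d) ^ (M * q) *
          (((Φ.RN.ρ (X.γ i j z)).det)⁻¹ * (Φ.RN.ρ (X.γ i j z)).det) ^ (M * q) := by
          rw [mul_pow (a i j z ^ d), mul_pow (((Φ.RN.ρ (X.γ i j z)).det)⁻¹)]
          ring
      _ = _ := by
          rw [h1, one_pow, mul_one, ← mul_pow]
          congr 1
          ring

theorem finalG {n : ℕ} (R : RG n) {EF : Type} [NormedAddCommGroup EF] [NormedSpace ℂ EF]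
    [FiniteDimensional ℂ EF] [MeasureSpace EF] [BorelSpace EF]
    [(volume : Measure EF).IsAddHaarMeasure] {F : Type} [TopologicalSpace F] [CompactSpace F]
    {κ ι : Type} [Fintype κ] [DecidableEq κ] [Fintype ι] [DecidableEq ι] {m : ℕ} (hm : 1 ≤ m)
    (Φ : Fib R EF F κ ι m) :
    ∃ e M : ℕ, 1 ≤ e ∧ 1 ≤ M ∧ ∀ (Z : Type) [TopologicalSpace Z] (O : CSp Z) (I : Type)
      (X : Bun Φ O I) (a : I → I → Z → ℂ) (s : SecS X a) (i : I) (z : Z), z ∈ X.U i →
      (Φ.LC (s.S i z) →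
        (∃ l : SecZ X (fun i j z => X.lam a i j z ^ M), l.f i z ≠ 0) ∧
        ∀ (c : I → I → Z → ℂ) (q : ℕ) (k : SecZ X (fun i j z => c i j z ^ q)), k.f i z ≠ 0 →
          ∀ j, ∀ y ∈ Φ.W j,
          ∃ T : SecN X (M * q) (fun i j z => (a i j z * c i j z) ^ (M * q)),
            tp (T.T i z) (Φ.v j y) ≠ 0) ∧
      (Φ.Klt (s.S i z) →
        ∀ (c : I → I → Z → ℂ) (q : ℕ) (k : SecZ X (fun i j z => (c i j z * X.lam a i j z) ^ q)),
          k.f i z ≠ 0 → ∀ j, ∀ y ∈ Φ.W j,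
          ∃ T : SecN X (e * M * q) (fun i j z => (a i j z ^ e * c i j z) ^ (M * q)),
            tp (T.T i z) (Φ.v j y) ≠ 0) := by
  obtain ⟨M₁, hM₁, hA⟩ := crit_A Φ
  obtain ⟨M₂, hM₂, hC⟩ := crit_C Φ
  obtain ⟨d, M₃, hd, hM₃, hB⟩ := crit_B Φ
  refine ⟨d + Fintype.card κ, M₁ * M₂ * M₃, by omega, Nat.mul_pos (Nat.mul_pos hM₁ hM₂) hM₃, ?_⟩
  intro Z _ O I X a s i z hz
  refine ⟨fun hLC => ?_, fun hK c q k hk j y hy => ?_⟩
  · have hP1 := num_lc Φ hm hLC
    refine ⟨?_, fun c q k hk j y hy => ?_⟩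
    · obtain ⟨P, hP, hne⟩ := hC _ hP1
      have e1 : M₂ * (M₁ * M₃) = M₁ * M₂ * M₃ := by ring
      have h1 := hP.pow (M₁ * M₃)
      rw [e1] at h1
      exact part_C X s h1 (by
        rw [map_pow]
        exact pow_ne_zero _ hne)
    · obtain ⟨P, hP, hne⟩ := hA _ hP1 _ (Φ.v_ne j y hy)
      have e1 : M₁ * (M₂ * M₃) = M₁ * M₂ * M₃ := by ring
      have h1 := hP.pow (M₂ * M₃)
      rw [e1] at h1
      exact part_A X s h1 k hz hk (by
        rw [map_pow]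
        exact pow_ne_zero _ hne)
  · have hP1 := num_lc Φ hm (klt_LC Φ hm hK)
    obtain ⟨P, hP, hne⟩ := hB _ hP1 (num_klt Φ hm hK) _ (Φ.v_ne j y hy)
    have e1 : M₃ * (M₁ * M₂) = M₁ * M₂ * M₃ := by ring
    have h1 := hP.pow (M₁ * M₂)
    rw [e1] at h1
    exact part_B X s h1 k hz hk (by
      rw [map_pow]
      exact pow_ne_zero _ hne)

end Pool.Agent.PG
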