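import Pool.Agent.H.MP_e23cd6_ag.PB.GKNc

/-!
# The numerical criterion, and invariants of one degree
-/

set_option autoImplicit false

namespace Pool.Agent.PG

open Matrix Topology Set Pool.Agent.SG

variable {n : ℕ} {R : RG n} {ι : Type} [Fintype ι] [DecidableEq ι]

omit [DecidableEq ι] in
theorem norm_le_nm (v : ι → ℂ) (i : ι) : ‖v i‖ ≤ nm v := by
  refine Real.le_sqrt_of_sq_le ?_
  exact Finset.single_le_sum (f := fun i => ‖v i‖ ^ 2) (fun i _ => sq_nonneg _)
    (Finset.mem_univ i)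

/-- The numerical inequality for all elements of the compact group gives a uniform lower bound
of the norms. -/
theorem unif_bound (V : GRep R ι) (S : ι → ℂ)
    (h : ∀ k : R.G, Uni (k : GL (Fin n) ℂ) → ∀ H ∈ R.a, ∃ f, V.act k S f ≠ 0 ∧ 0 ≤ V.lam f H) :
    ∃ c > 0, ∀ k : R.G, Uni (k : GL (Fin n) ℂ) → ∀ (H : Fin n → ℝ) (hH : H ∈ R.a),
      c ≤ nm (V.act (dg hH 1) (V.act k S)) := by
  have hloc : ∀ k : KK R, ∃ U ∈ 𝓝 k, ∃ c > 0, ∀ k' ∈ U, ∀ (H : Fin n → ℝ) (hH : H ∈ R.a),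
      c ≤ nm (V.act (dg hH 1) (V.act (k' : R.G) S)) := by
    intro k
    obtain ⟨T, hT⟩ : ∃ T, T = V.act (k : R.G) S := ⟨_, rfl⟩
    have hc : ∃ c > 0, ∀ f, T f ≠ 0 → c < ‖T f‖ := by
      have h1 : ∀ s : Finset ι, ∃ c > 0, ∀ f ∈ s, T f ≠ 0 → c < ‖T f‖ := by
        intro s
        induction s using Finset.induction_on with
        | empty => exact ⟨1, one_pos, fun f hf => absurd hf (Finset.notMem_empty f)⟩
        | insert a s _ ih =>
          obtain ⟨c, hc, h2⟩ := ih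
          by_cases ha : T a = 0
          · refine ⟨c, hc, fun f hf h0 => ?_⟩
            rcases Finset.mem_insert.1 hf with rfl | hf
            · exact absurd ha h0
            · exact h2 f hf h0
          · have hp := norm_pos_iff.2 ha
            refine ⟨min c (‖T a‖ / 2), lt_min hc (by positivity), fun f hf h0 => ?_⟩
            rcases Finset.mem_insert.1 hf with rfl | hf
            · exact (min_le_right _ _).trans_lt (by linarith)
            · exact (min_le_left _ _).trans_lt (h2 f hf h0)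
      obtain ⟨c, hc, h2⟩ := h1 Finset.univ
      exact ⟨c, hc, fun f => h2 f (Finset.mem_univ f)⟩
    obtain ⟨c, hc, hcf⟩ := hc
    refine ⟨⋂ f ∈ {f | T f ≠ 0}, {k' : KK R | c < ‖V.act (k' : R.G) S f‖}, ?_, c, hc, ?_⟩
    · refine (Filter.biInter_mem (Set.toFinite _)).2 fun f hf => ?_
      refine (isOpen_lt continuous_const (((continuous_apply f).comp
        (V.continuous_actK S)).norm)).mem_nhds ?_
      show c < ‖V.act (k : R.G) S f‖
      rw [← hT]
      exact hcf f hf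
    · intro k' hk' H hH
      obtain ⟨f, hf, hμ⟩ := h k k.2 H hH
      rw [← hT] at hf
      have h1 : c < ‖V.act (k' : R.G) S f‖ := mem_iInter₂.1 hk' f hf
      refine le_trans ?_ (norm_le_nm _ f)
      rw [V.act_dg, norm_mul, Complex.norm_exp]
      have h2 : ((1 : ℂ) * (V.lam f H : ℂ)).re = V.lam f H := by simp
      rw [h2]
      calc c = 1 * c := (one_mul c).symm
        _ ≤ _ := mul_le_mul (Real.one_le_exp hμ) h1.le hc.le (Real.exp_pos _).le
  choose U hU c hc hUc using hloc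
  obtain ⟨t, ht⟩ := CompactSpace.elim_nhds_subcover U hU
  have hmin : ∃ c' > 0, ∀ k ∈ t, c' ≤ c k := by
    have h1 : ∀ s : Finset (KK R), ∃ c' > 0, ∀ k ∈ s, c' ≤ c k := by
      classical
      intro s
      induction s using Finset.induction_on with
      | empty => exact ⟨1, one_pos, fun f hf => absurd hf (Finset.notMem_empty f)⟩
      | insert a s _ ih =>
        obtain ⟨c', hc', h2⟩ := ih
        refine ⟨min c' (c a), lt_min hc' (hc a), fun f hf => ?_⟩
        rcases Finset.mem_insert.1 hf with rfl | hf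
        · exact min_le_right _ _
        · exact (min_le_left _ _).trans (h2 f hf)
    exact h1 t
  obtain ⟨c', hc', hmin⟩ := hmin
  refine ⟨c', hc', fun k hk H hH => ?_⟩
  have h1 : (⟨k, hk⟩ : KK R) ∈ ⋃ x ∈ t, U x := by
    rw [ht]
    exact mem_univ _
  rw [mem_iUnion₂] at h1
  obtain ⟨x, hx, hkx⟩ := h1
  exact (hmin x hx).trans (hUc x ⟨k, hk⟩ hkx H hH)

/-- There is one degree `M` such that, whenever an invariant of positive degree does not vanish
at `v`, some invariant of degree `M` does not vanish at `v`. -/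
theorem unif (V : GRep R ι) : ∃ M : ℕ, 1 ≤ M ∧ ∀ v : ι → ℂ,
    (∃ N > 0, ∃ P, V.Inv N P ∧ MvPolynomial.eval v P ≠ 0) →
      ∃ P, V.Inv M P ∧ MvPolynomial.eval v P ≠ 0 := by
  obtain ⟨s, hs⟩ : ∃ s : Set (MvPolynomial ι ℂ), s = {P | ∃ N > 0, V.Inv N P} := ⟨_, rfl⟩
  have hfg : (Submodule.span (MvPolynomial ι ℂ) s).FG := IsNoetherian.noetherian _
  rw [Submodule.fg_span_iff_fg_span_finset_subset] at hfg
  obtain ⟨t, hts, hspan⟩ := hfg
  have hN : ∀ P : MvPolynomial ι ℂ, ∃ N : ℕ, 0 < N ∧ (P ∈ t → V.Inv N P) := by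
    intro P
    by_cases hP : P ∈ t
    · have h1 := hts hP
      rw [hs] at h1
      obtain ⟨N, hN, h2⟩ := h1
      exact ⟨N, hN, fun _ => h2⟩
    · exact ⟨1, one_pos, fun h => absurd h hP⟩
  choose N hN0 hN using hN
  refine ⟨∏ P ∈ t, N P, Finset.prod_pos fun P _ => hN0 P, ?_⟩
  rintro v ⟨N', hN', P, hP, hv⟩
  have hQ : ∃ Q ∈ t, MvPolynomial.eval v Q ≠ 0 := by
    by_contra hcon
    push Not at hcon
    apply hv
    have h1 : P ∈ Submodule.span (MvPolynomial ι ℂ) (t : Set (MvPolynomial ι ℂ)) := by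
      rw [← hspan]
      apply Submodule.subset_span
      rw [hs]
      exact ⟨N', hN', hP⟩
    have h2 : Submodule.span (MvPolynomial ι ℂ) (t : Set (MvPolynomial ι ℂ)) ≤
        RingHom.ker (MvPolynomial.eval v) := by
      rw [Submodule.span_le]
      intro Q hQ
      exact hcon Q hQ
    exact h2 h1
  obtain ⟨Q, hQt, hQv⟩ := hQ
  have hdvd : N Q ∣ ∏ P ∈ t, N P := Finset.dvd_prod_of_mem N hQt
  obtain ⟨a, ha⟩ := hdvd
  refine ⟨Q ^ a, ?_, ?_⟩
  · rw [ha]
    exact (hN Q hQt).pow a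
  · rw [map_pow]
    exact pow_ne_zero _ hQv

/-- The criterion. -/
theorem crit_unif (V : GRep R ι) : ∃ M : ℕ, 1 ≤ M ∧ ∀ u : ι → ℂ,
    (∀ k : R.G, Uni (k : GL (Fin n) ℂ) → ∀ H ∈ R.a, ∃ f, V.act k u f ≠ 0 ∧ 0 ≤ V.lam f H) →
      ∃ P, V.Inv M P ∧ MvPolynomial.eval u P ≠ 0 := by
  obtain ⟨M, hM, h⟩ := unif V
  refine ⟨M, hM, fun u hu => h u ?_⟩
  obtain ⟨c, hc, hb⟩ := unif_bound V u hu
  refine V.inv_of_pos hc fun g => ?_
  obtain ⟨k₁, k₂, hk₁, hk₂, H, hH, hg⟩ := cartan' g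
  rw [hg, V.act_mul, V.act_mul, V.nm_act_K hk₁]
  exact hb k₂ hk₂ H hH

end Pool.Agent.PG
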