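import Pool.Agent.H.MP_e23cd6_ag.PB.RepC

/-!
# Homogeneous polynomials and symmetric tensors
-/

set_option autoImplicit false

namespace Pool.Agent.PB

open Matrix Topology Set Pool.Agent.SG

variable {α : Type} [Fintype α] [DecidableEq α] {D : ℕ}

/-- The homogeneous polynomial of the tensor `S`. -/
noncomputable def ev (S : (Fin D → α) → ℂ) (x : α → ℂ) : ℂ := ∑ κ, S κ * ∏ a, x (κ a)

/-- Symmetric tensors. -/
def Sym (S : (Fin D → α) → ℂ) : Prop := ∀ (σ : Equiv.Perm (Fin D)) κ, S (κ ∘ σ) = S κ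

/-- The symmetrization. -/
noncomputable def symz (S : (Fin D → α) → ℂ) (κ : Fin D → α) : ℂ :=
  (D.factorial : ℂ)⁻¹ * ∑ σ : Equiv.Perm (Fin D), S (κ ∘ σ)

omit [Fintype α] [DecidableEq α] in
theorem sym_symz (S : (Fin D → α) → ℂ) : Sym (symz S) := by
  intro σ κ
  unfold symz
  congr 1
  exact Equiv.sum_comp (Equiv.mulLeft σ) (fun τ : Equiv.Perm (Fin D) => S (κ ∘ τ))

omit [DecidableEq α] in
theorem ev_perm (S : (Fin D → α) → ℂ) (σ : Equiv.Perm (Fin D)) (x : α → ℂ) :
    ev (fun κ => S (κ ∘ σ)) x = ev S x := by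
  unfold ev
  refine Fintype.sum_equiv (Equiv.arrowCongr σ.symm (Equiv.refl α)) _ _ fun κ => ?_
  have h1 : (Equiv.arrowCongr σ.symm (Equiv.refl α)) κ = κ ∘ σ := by
    funext a
    simp [Equiv.arrowCongr]
  rw [h1]
  congr 1
  exact (Equiv.prod_comp σ (fun a => x (κ a))).symm

omit [DecidableEq α] in
theorem ev_symz (S : (Fin D → α) → ℂ) (x : α → ℂ) : ev (symz S) x = ev S x := by
  have h1 : ev (symz S) x = (D.factorial : ℂ)⁻¹ *
      ∑ σ : Equiv.Perm (Fin D), ev (fun κ => S (κ ∘ σ)) x := by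
    unfold ev symz
    rw [Finset.sum_comm, Finset.mul_sum]
    refine Finset.sum_congr rfl fun κ _ => ?_
    rw [mul_assoc, Finset.sum_mul]
  rw [h1]
  simp only [ev_perm]
  rw [Finset.sum_const, Finset.card_univ, Fintype.card_perm, Fintype.card_fin, nsmul_eq_mul,
    ← mul_assoc, inv_mul_cancel₀ (by exact_mod_cast D.factorial_ne_zero), one_mul]

/-- The point `∑_{a ∈ A} e_{κ a}`. -/
def pt (κ : Fin D → α) (A : Finset (Fin D)) (i : α) : ℂ := ∑ a ∈ A, if κ a = i then 1 else 0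

theorem ev_pt (S : (Fin D → α) → ℂ) (κ : Fin D → α) (A : Finset (Fin D)) :
    ev S (pt κ A) = ∑ f ∈ Fintype.piFinset (fun _ : Fin D => A), S (κ ∘ f) := by
  unfold ev pt
  have h1 : ∀ J : Fin D → α, (∏ b, ∑ a ∈ A, if κ a = J b then (1 : ℂ) else 0) =
      ∑ f ∈ Fintype.piFinset (fun _ : Fin D => A), if κ ∘ f = J then 1 else 0 := by
    intro J
    rw [Finset.prod_univ_sum]
    refine Finset.sum_congr rfl fun f _ => ?_
    by_cases h : κ ∘ f = J
    · rw [if_pos h]
      exact Finset.prod_eq_one fun b _ => if_pos (congrFun h b)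
    · rw [if_neg h]
      obtain ⟨a, ha⟩ := Function.ne_iff.1 h
      exact Finset.prod_eq_zero (Finset.mem_univ a) (if_neg ha)
  simp only [h1, Finset.mul_sum]
  rw [Finset.sum_comm]
  refine Finset.sum_congr rfl fun f _ => ?_
  rw [Finset.sum_eq_single (κ ∘ f)]
  · rw [if_pos rfl, mul_one]
  · intro J _ hJ
    rw [if_neg (Ne.symm hJ), mul_zero]
  · intro h
    exact absurd (Finset.mem_univ _) h

theorem sum_compl_sign (B : Finset (Fin D)) :
    (∑ A : Finset (Fin D), if B ⊆ A then (-1 : ℂ) ^ (Aᶜ).card else 0) =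
      if B = Finset.univ then 1 else 0 := by
  have h1 : (∑ A : Finset (Fin D), if B ⊆ A then (-1 : ℂ) ^ (Aᶜ).card else 0) =
      ∑ C ∈ (Bᶜ).powerset, (-1 : ℂ) ^ C.card := by
    rw [← Finset.sum_filter]
    refine Finset.sum_bij (fun A _ => Aᶜ) ?_ ?_ ?_ ?_
    · intro A hA
      rw [Finset.mem_powerset]
      exact Finset.compl_subset_compl.2 (Finset.mem_filter.1 hA).2
    · intro A _ A' _ h
      exact compl_injective h
    · intro C hC
      refine ⟨Cᶜ, ?_, compl_compl C⟩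
      rw [Finset.mem_filter]
      refine ⟨Finset.mem_univ _, ?_⟩
      rw [Finset.mem_powerset] at hC
      exact Finset.subset_compl_comm.1 hC
    · intro A _
      rfl
  rw [h1]
  have h2 := Finset.sum_powerset_neg_one_pow_card (x := Bᶜ)
  have h3 : (∑ C ∈ (Bᶜ).powerset, (-1 : ℂ) ^ C.card) =
      ((∑ C ∈ (Bᶜ).powerset, (-1 : ℤ) ^ C.card : ℤ) : ℂ) := by
    push_cast
    rfl
  rw [h3, h2]
  by_cases hB : B = Finset.univ
  · rw [if_pos hB, if_pos (by rw [hB, Finset.compl_univ])]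
    simp
  · rw [if_neg hB, if_neg (by rwa [Finset.compl_eq_empty_iff])]
    simp

/-- Polarization. -/
theorem polar (S : (Fin D → α) → ℂ) (κ : Fin D → α) :
    ∑ A : Finset (Fin D), (-1 : ℂ) ^ (Aᶜ).card * ev S (pt κ A) =
      ∑ σ : Equiv.Perm (Fin D), S (κ ∘ σ) := by
  have h1 : ∀ A : Finset (Fin D), (-1 : ℂ) ^ (Aᶜ).card * ev S (pt κ A) =
      ∑ f : Fin D → Fin D, if Finset.univ.image f ⊆ A then (-1 : ℂ) ^ (Aᶜ).card * S (κ ∘ f)
        else 0 := by
    intro A
    rw [ev_pt, Finset.mul_sum, ← Finset.sum_filter]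
    refine Finset.sum_congr ?_ fun _ _ => rfl
    ext f
    rw [Fintype.mem_piFinset, Finset.mem_filter, Finset.image_subset_iff]
    exact ⟨fun h => ⟨Finset.mem_univ _, fun a _ => h a⟩, fun h a => h.2 a (Finset.mem_univ a)⟩
  simp only [h1]
  rw [Finset.sum_comm]
  have h2 : ∀ f : Fin D → Fin D,
      (∑ A : Finset (Fin D), if Finset.univ.image f ⊆ A then (-1 : ℂ) ^ (Aᶜ).card * S (κ ∘ f)
        else 0) = if Function.Surjective f then S (κ ∘ f) else 0 := by
    intro f
    have h3 : (∑ A : Finset (Fin D), if Finset.univ.image f ⊆ A then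
        (-1 : ℂ) ^ (Aᶜ).card * S (κ ∘ f) else 0) =
        (∑ A : Finset (Fin D), if Finset.univ.image f ⊆ A then (-1 : ℂ) ^ (Aᶜ).card else 0) *
          S (κ ∘ f) := by
      rw [Finset.sum_mul]
      refine Finset.sum_congr rfl fun A _ => ?_
      split_ifs <;> simp
    rw [h3, sum_compl_sign]
    by_cases hf : Function.Surjective f
    · rw [if_pos hf, if_pos, one_mul]
      exact Finset.image_univ_of_surjective hf
    · rw [if_neg hf, if_neg, zero_mul]
      intro h4
      apply hf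
      intro b
      have h5 : b ∈ Finset.univ.image f := by
        rw [h4]
        exact Finset.mem_univ b
      obtain ⟨a, _, ha⟩ := Finset.mem_image.1 h5
      exact ⟨a, ha⟩
  simp only [h2]
  rw [← Finset.sum_filter]
  symm
  refine Finset.sum_bij (fun (σ : Equiv.Perm (Fin D)) _ => (σ : Fin D → Fin D)) ?_ ?_ ?_ ?_
  · intro σ _
    rw [Finset.mem_filter]
    exact ⟨Finset.mem_univ _, σ.surjective⟩
  · intro σ _ τ _ h
    exact DFunLike.coe_injective h
  · intro f hf
    have hs := (Finset.mem_filter.1 hf).2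
    refine ⟨Equiv.ofBijective f ⟨Finite.injective_iff_surjective.2 hs, hs⟩, Finset.mem_univ _, ?_⟩
    rfl
  · intro σ _
    rfl

/-- A symmetric tensor is determined by its polynomial. -/
theorem sym_ext {S S' : (Fin D → α) → ℂ} (hS : Sym S) (hS' : Sym S')
    (h : ∀ x, ev S x = ev S' x) : S = S' := by
  funext κ
  have h1 := polar S κ
  have h2 := polar S' κ
  have e1 : ∀ {T : (Fin D → α) → ℂ}, Sym T →
      ∑ σ : Equiv.Perm (Fin D), T (κ ∘ σ) = (D.factorial : ℂ) * T κ := by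
    intro T hT
    rw [Finset.sum_congr rfl fun σ _ => hT σ κ, Finset.sum_const, Finset.card_univ,
      Fintype.card_perm, Fintype.card_fin, nsmul_eq_mul]
  rw [e1 hS] at h1
  rw [e1 hS'] at h2
  have h3 : (D.factorial : ℂ) * S κ = (D.factorial : ℂ) * S' κ := by
    rw [← h1, ← h2]
    exact Finset.sum_congr rfl fun A _ => by rw [h]
  exact mul_left_cancel₀ (by exact_mod_cast D.factorial_ne_zero) h3

variable {n : ℕ}

theorem sym_act (R : SG.Rep n α) (g : Gp n) {S : (Fin D → α) → ℂ} (hS : Sym S) :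
    Sym ((powR R (Fin D)).act g S) := by
  intro σ κ
  show ∑ f' : Fin D → α, (∏ x, R.ρ g (κ (σ x)) (f' x)) * S f' =
    ∑ f' : Fin D → α, (∏ x, R.ρ g (κ x) (f' x)) * S f'
  symm
  refine Fintype.sum_equiv (Equiv.arrowCongr σ.symm (Equiv.refl α)) _ _ fun f => ?_
  have h1 : (Equiv.arrowCongr σ.symm (Equiv.refl α)) f = f ∘ σ := by
    funext a
    simp [Equiv.arrowCongr]
  rw [h1, hS σ f]
  congr 1
  exact (Equiv.prod_comp σ (fun x => R.ρ g (κ x) (f x))).symm

theorem ev_act (R : SG.Rep n α) (g : Gp n) (S : (Fin D → α) → ℂ) (x : α → ℂ) :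
    ev ((powR (dualR R) (Fin D)).act g S) x = ev S (R.act g⁻¹ x) := by
  show ∑ κ : Fin D → α, (∑ κ' : Fin D → α, (∏ a, (R.ρ g⁻¹)ᵀ (κ a) (κ' a)) * S κ') *
      ∏ a, x (κ a) = ∑ κ' : Fin D → α, S κ' * ∏ a, ∑ j, R.ρ g⁻¹ (κ' a) j * x j
  simp only [Finset.prod_univ_sum, Fintype.piFinset_univ, Finset.sum_mul, Finset.mul_sum,
    Matrix.transpose_apply]
  rw [Finset.sum_comm]
  refine Finset.sum_congr rfl fun κ' _ => Finset.sum_congr rfl fun κ _ => ?_
  rw [Finset.prod_mul_distrib]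
  ring

omit [DecidableEq α] in
theorem ev_smul (c : ℂ) (S : (Fin D → α) → ℂ) (x : α → ℂ) : ev (c • S) x = c * ev S x := by
  unfold ev
  rw [Finset.mul_sum]
  refine Finset.sum_congr rfl fun κ _ => ?_
  rw [Pi.smul_apply, smul_eq_mul, mul_assoc]

omit [DecidableEq α] in
theorem ev_smul_right (c : ℂ) (S : (Fin D → α) → ℂ) (x : α → ℂ) :
    ev S (c • x) = c ^ D * ev S x := by
  unfold ev
  rw [Finset.mul_sum]
  refine Finset.sum_congr rfl fun κ _ => ?_
  simp only [Pi.smul_apply, smul_eq_mul]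
  rw [Finset.prod_mul_distrib, Finset.prod_const, Finset.card_univ, Fintype.card_fin]
  ring

omit [Fintype α] [DecidableEq α] in
theorem Sym.smul {S : (Fin D → α) → ℂ} (hS : Sym S) (c : ℂ) : Sym (c • S) := by
  intro σ κ
  rw [Pi.smul_apply, Pi.smul_apply, hS]

omit [DecidableEq α] in
theorem continuous_ev (S : (Fin D → α) → ℂ) : Continuous (ev S) := by
  unfold ev
  refine continuous_finsetSum _ fun κ _ => continuous_const.mul ?_
  exact continuous_finsetProd _ fun a _ => continuous_apply _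

end Pool.Agent.PB
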