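import Pool.Agent.H.MP_e23cd6_ag.PB.Minor
import Pool.Agent.H.MP_e23cd6_ag.PB.Pol
import Pool.Agent.H.MP_e23cd6_ag.PB.Forms

/-!
# Sorting, characters, degrees
-/

set_option autoImplicit false

namespace Pool.Agent.PB

open Matrix Topology Set Pool.Agent.SG
open scoped Kronecker Manifold ContDiff

variable {n : ℕ}

theorem exists_sort (b : Fin n → ℕ) (w : Fin n → ℝ) :
    ∃ σ : Equiv.Perm (Fin n), ∀ i j, b i < b j → w (σ j) ≤ w (σ i) := by
  refine ⟨(Tuple.sort b).symm.trans (Tuple.sort fun i => -w i), fun i j hij => ?_⟩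
  have h1 := Tuple.monotone_sort b
  have h2 := Tuple.monotone_sort fun i => -w i
  obtain ⟨i', rfl⟩ := (Tuple.sort b).surjective i
  obtain ⟨j', rfl⟩ := (Tuple.sort b).surjective j
  have h3 : i' ≤ j' := by
    by_contra h
    push Not at h
    have h4 : b (Tuple.sort b j') ≤ b (Tuple.sort b i') := h1 h.le
    omega
  have h5 := h2 h3
  simp only [Function.comp_apply, neg_le_neg_iff] at h5
  simpa using h5

theorem sum_rho (b : Fin n → ℕ) : ∑ j, rho b (b j) = 0 := by
  unfold rho
  rw [Finset.sum_sub_distrib, sub_eq_zero]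
  have h1 : ∀ j, ((Finset.univ.filter fun i => b j < b i).card : ℤ) =
      ∑ i, if b j < b i then 1 else 0 := by
    intro j
    rw [Finset.card_filter]
    push_cast
    rfl
  have h2 : ∀ j, ((Finset.univ.filter fun i => b i < b j).card : ℤ) =
      ∑ i, if b i < b j then 1 else 0 := by
    intro j
    rw [Finset.card_filter]
    push_cast
    rfl
  simp only [h1, h2]
  rw [Finset.sum_comm]

theorem chr_diag (b : Fin n → ℕ) (l : ℕ → ℤ) (τ : Fin n → ℂ) :
    chr b l (diagonal τ) = ∏ j, τ j ^ l (b j) := by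
  unfold chr
  rw [← Finset.prod_fiberwise_of_maps_to (s := Finset.univ) (t := Finset.univ.image b) (g := b)
    (fun i _ => Finset.mem_image_of_mem b (Finset.mem_univ i))]
  refine Finset.prod_congr rfl fun t _ => ?_
  have h1 : (diagonal τ).toSquareBlock b t = diagonal fun j : {a // b a = t} => τ j := by
    ext i j
    rw [toSquareBlock_def, of_apply]
    by_cases h : i = j
    · subst h
      rw [diagonal_apply_eq, diagonal_apply_eq]
    · rw [diagonal_apply_ne _ h, diagonal_apply_ne]
      intro h'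
      exact h (Subtype.ext h')
  rw [h1, det_diagonal]
  have h2 : ∏ j ∈ Finset.univ.filter (fun j => b j = t), τ j ^ l (b j) =
      ∏ j ∈ Finset.univ.filter (fun j => b j = t), τ j ^ l t :=
    Finset.prod_congr rfl fun j hj => by rw [(Finset.mem_filter.1 hj).2]
  rw [h2, Finset.prod_zpow]
  congr 1
  exact (Finset.prod_subtype _ (fun j => by simp) τ).symm

theorem par_diag (b : Fin n → ℕ) {τ : Fin n → ℂ} (h : ∀ i, τ i ≠ 0) : Par b (diagonal τ) := by
  refine ⟨?_, fun i j hij => ?_⟩
  · rw [det_diagonal]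
    exact Finset.prod_ne_zero_iff.2 fun i _ => h i
  · rw [diagonal_apply_ne]
    rintro rfl
    exact lt_irrefl _ hij

theorem chr_pow (b : Fin n → ℕ) (l : ℕ → ℤ) (p : Matrix (Fin n) (Fin n) ℂ) (k : ℕ) :
    chr b l p ^ k = chr b (fun t => k * l t) p := by
  unfold chr
  rw [← Finset.prod_pow]
  refine Finset.prod_congr rfl fun t _ => ?_
  beta_reduce
  rw [mul_comm, _root_.zpow_mul, _root_.zpow_natCast]

theorem chr_congr (b : Fin n → ℕ) {l l' : ℕ → ℤ} (h : ∀ j, l (b j) = l' (b j))
    (p : Matrix (Fin n) (Fin n) ℂ) : chr b l p = chr b l' p := by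
  unfold chr
  refine Finset.prod_congr rfl fun t ht => ?_
  obtain ⟨j, _, rfl⟩ := Finset.mem_image.1 ht
  rw [h]

/-- The exponents of the fundamental weights. -/
def ex (l : ℕ → ℕ) (q c : ℕ) : ℕ := if c + 1 < q then l c - l (c + 1) else l c

theorem sum_ex {l : ℕ → ℕ} (hl : Antitone l) {q t : ℕ} (ht : t < q) :
    ∑ c ∈ Finset.Ico t q, ex l q c = l t := by
  obtain ⟨d, hd⟩ : ∃ d, q = t + 1 + d := ⟨q - (t + 1), by omega⟩
  induction d generalizing t with
  | zero =>
    have : q = t + 1 := by omega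
    rw [this, Nat.Ico_succ_singleton, Finset.sum_singleton, ex, if_neg (lt_irrefl _)]
  | succ d ih =>
    rw [Finset.sum_eq_sum_Ico_succ_bot ht, ih (t := t + 1) (by omega) (by omega), ex,
      if_pos (by omega)]
    have := hl (Nat.le_succ t)
    rw [Nat.succ_eq_add_one] at this
    omega

theorem card_Bt {l : ℕ → ℕ} (hl : Antitone l) (b : Fin n → ℕ) {q : ℕ} (hb : ∀ j, b j < q) :
    Fintype.card (Bt b q (ex l q)) = ∑ j, l (b j) := by
  have h1 : ∀ c : ℕ, Fintype.card (Col b c) = ∑ j, if b j ≤ c then 1 else 0 := by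
    intro c
    rw [Fintype.card_subtype, Finset.card_filter]
  have h2 : Fintype.card (Bt b q (ex l q)) = ∑ c : Fin q, ex l q c * Fintype.card (Col b c) := by
    rw [Fintype.card_sigma]
    refine Finset.sum_congr rfl fun c _ => ?_
    rw [Fintype.card_prod, Fintype.card_fin]
  rw [h2]
  simp only [h1, Finset.mul_sum]
  rw [Finset.sum_comm]
  refine Finset.sum_congr rfl fun j _ => ?_
  rw [← sum_ex hl (hb j), ← Finset.sum_range (fun c => ex l q c * if b j ≤ c then 1 else 0)]
  simp only [mul_ite, mul_one, mul_zero]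
  rw [← Finset.sum_filter]
  refine Finset.sum_congr ?_ fun _ _ => rfl
  ext c
  rw [Finset.mem_filter, Finset.mem_range, Finset.mem_Ico]
  tauto

end Pool.Agent.PB
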