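import Pool.Agent.H.MP_e23cd6_ag.PB.GBase

/-!
# Sanity: the diagonal torus as an instance of `RG`
-/

set_option autoImplicit false

namespace Pool.Agent.PG

open Matrix Topology

/-- The group of the invertible diagonal matrices. -/
def dT (n : ℕ) : Subgroup (GL (Fin n) ℂ) where
  carrier := {g | ∃ d : Fin n → ℂ, (g : Matrix (Fin n) (Fin n) ℂ) = diagonal d}
  mul_mem' := by
    rintro g h ⟨d, hd⟩ ⟨e, he⟩
    exact ⟨fun i => d i * e i, by rw [Units.val_mul, hd, he, diagonal_mul_diagonal]⟩
  one_mem' := ⟨1, by rw [Units.val_one]; exact diagonal_one.symm⟩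
  inv_mem' := by
    rintro g ⟨d, hd⟩
    refine ⟨Ring.inverse d, ?_⟩
    rw [coe_units_inv, hd, inv_diagonal]

/-- An element of the torus. -/
noncomputable def dTmk {n : ℕ} (d : Fin n → ℂ) (hd : ∀ i, d i ≠ 0) : GL (Fin n) ℂ where
  val := diagonal d
  inv := diagonal fun i => (d i)⁻¹
  val_inv := by
    rw [diagonal_mul_diagonal, ← diagonal_one]
    congr 1
    funext i
    exact mul_inv_cancel₀ (hd i)
  inv_val := by
    rw [diagonal_mul_diagonal, ← diagonal_one]
    congr 1
    funext i
    exact inv_mul_cancel₀ (hd i)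

theorem dTmk_mem {n : ℕ} (d : Fin n → ℂ) (hd : ∀ i, d i ≠ 0) : dTmk d hd ∈ dT n := ⟨d, rfl⟩

theorem dT_ne {n : ℕ} {g : GL (Fin n) ℂ} {d : Fin n → ℂ}
    (h : (g : Matrix (Fin n) (Fin n) ℂ) = diagonal d) (i : Fin n) : d i ≠ 0 := by
  intro h0
  have h1 := g.det_ne_zero
  rw [h, det_diagonal] at h1
  exact h1 (Finset.prod_eq_zero (Finset.mem_univ i) h0)

theorem uni_diag {n : ℕ} {k : GL (Fin n) ℂ} {d : Fin n → ℂ}
    (h : (k : Matrix (Fin n) (Fin n) ℂ) = diagonal d) : Uni k ↔ ∀ i, ‖d i‖ = 1 := by
  unfold Uni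
  rw [h, diagonal_conjTranspose, diagonal_mul_diagonal, ← diagonal_one, diagonal_eq_diagonal_iff]
  refine forall_congr' fun i => ?_
  rw [Pi.star_apply, Complex.star_def, Complex.conj_mul']
  constructor
  · intro h1
    have h2 : ‖d i‖ ^ 2 = 1 := by exact_mod_cast h1
    nlinarith [norm_nonneg (d i)]
  · intro h1
    rw [h1]
    norm_num

/-- The diagonal torus. -/
noncomputable def DT (n : ℕ) : RG n where
  G := dT n
  closed := by
    have h : {A : Matrix (Fin n) (Fin n) ℂ | ∃ k ∈ dT n, Uni k ∧ (k : Matrix _ _ ℂ) = A} =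
        {A | diagonal (fun i => A i i) = A} ∩ {A | Aᴴ * A = 1} := by
      ext A
      constructor
      · rintro ⟨k, ⟨d, hd⟩, hk, rfl⟩
        refine ⟨?_, hk⟩
        show diagonal _ = _
        rw [hd]
        simp
      · rintro ⟨h1, h2⟩
        have h1' : diagonal (fun i => A i i) = A := h1
        have h2' : Aᴴ * A = 1 := h2
        have hne : ∀ i, A i i ≠ 0 := by
          intro i h0
          have h3 := congrFun (congrFun h2' i) i
          rw [← h1', diagonal_conjTranspose, diagonal_mul_diagonal, diagonal_apply_eq,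
            one_apply_eq, Pi.star_apply, h0, mul_zero] at h3
          exact zero_ne_one h3
        refine ⟨dTmk _ hne, dTmk_mem _ hne, ?_, h1'⟩
        show (diagonal fun i => A i i)ᴴ * (diagonal fun i => A i i) = 1
        rw [h1']
        exact h2'
    rw [h]
    refine (isClosed_eq ?_ continuous_id).inter (isClosed_eq ?_ continuous_const)
    · exact Continuous.matrix_diagonal (continuous_pi fun i => continuous_id.matrix_elem i i)
    · exact (continuous_id.matrix_conjTranspose).matrix_mul continuous_id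
  star := by
    rintro g ⟨d, hd⟩
    refine ⟨dTmk (star d) fun i => ?_, dTmk_mem _ _, ?_⟩
    · rw [Pi.star_apply]
      exact star_ne_zero.2 (dT_ne hd i)
    · rw [hd, diagonal_conjTranspose]
      rfl
  a := ⊤
  tor := fun H _ z => ⟨dTmk _ fun i => Complex.exp_ne_zero _, dTmk_mem _ _, rfl⟩
  cartan := by
    rintro g ⟨d, hd⟩
    have hne := dT_ne hd
    refine ⟨dTmk (fun i => d i / ‖d i‖) (fun i => ?_), dTmk_mem _ _, 1, one_mem _, ?_, ?_,
      fun i => Real.log ‖d i‖, trivial, ?_⟩
    · exact div_ne_zero (hne i) (by exact_mod_cast (norm_pos_iff.2 (hne i)).ne')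
    · refine (uni_diag rfl).2 fun i => ?_
      rw [norm_div, Complex.norm_real, norm_norm, div_self (norm_pos_iff.2 (hne i)).ne']
    · unfold Uni
      rw [Units.val_one, conjTranspose_one, one_mul]
    · rw [Units.val_one, mul_one, hd]
      show _ = diagonal _ * diagonal _
      rw [diagonal_mul_diagonal]
      congr 1
      funext i
      rw [one_mul, ← Complex.ofReal_exp, Real.exp_log (norm_pos_iff.2 (hne i)),
        div_mul_cancel₀]
      exact_mod_cast (norm_pos_iff.2 (hne i)).ne'
  near := by
    have h1 : ∀ᶠ u : ℂ in 𝓝 1, |Complex.arg u| < 1 := by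
      have h2 : ContinuousAt (fun u => |Complex.arg u|) 1 :=
        (Complex.continuousAt_arg Complex.one_mem_slitPlane).abs
      refine h2.eventually (eventually_lt_nhds ?_)
      show |Complex.arg 1| < 1
      rw [Complex.arg_one, abs_zero]
      exact one_pos
    obtain ⟨δ, hδ, h⟩ := Metric.eventually_nhds_iff.1 h1
    refine ⟨δ / 2, half_pos hδ, ?_⟩
    rintro k ⟨d, hd⟩ hk hn
    refine ⟨1, one_mem _, ?_, fun i => Complex.arg (d i), trivial, ?_, ?_⟩
    · unfold Uni
      rw [Units.val_one, conjTranspose_one, one_mul]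
    · intro j
      refine (h ?_).le
      have h2 := hn j j
      rw [hd, diagonal_apply_eq, one_apply_eq] at h2
      rw [dist_eq_norm]
      linarith
    · rw [Units.val_one, conjTranspose_one, one_mul, mul_one, hd]
      unfold dE
      congr 1
      funext i
      have h2 := (uni_diag hd).1 hk i
      have h3 := Complex.norm_mul_exp_arg_mul_I (d i)
      rw [h2, Complex.ofReal_one, one_mul] at h3
      rw [mul_comm, h3]

end Pool.Agent.PG
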