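import Mathlib

/-!
MP_e23cd6_ag (abundance), bundles of flags: the definitions.

`V` is a vector bundle of rank `r` on the complex manifold `Z`, and `X → Z` is the bundle of the flags of a
fixed type `b` in the fibres of `V` (for instance `X = P(V)`): a point of `X` over `z` is a frame
`g ∈ GL_r(ℂ)` of the fibre of `V` at `z` (given in the trivialization `i` of `V`), up to right
multiplication by the group `P_b` of the invertible block upper triangular matrices. Line bundles on
`X` are given by characters of `P_b` and line bundles on `Z`.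
-/

set_option autoImplicit false

open scoped Manifold ContDiff
open MeasureTheory

namespace Pool.Agent.PB

/-- Charts `c i` of the complex manifold `Z` which cover `Z`, and the transition matrices
`γ i j` of a vector bundle of rank `r` (fibre coordinates `x_i = γ i j z x_j`) which is trivial
on the domains of the charts. (The cocycle condition is not needed.) -/
structure Fam (E : Type) [NormedAddCommGroup E] [NormedSpace ℂ E] (Z : Type) [TopologicalSpace Z]
    [ChartedSpace E Z] (r : ℕ) (ι : Type) where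
  c : ι → OpenPartialHomeomorph Z E
  mem : ∀ i, c i ∈ IsManifold.maximalAtlas 𝓘(ℂ, E) ω Z
  cover : ∀ z, ∃ i, z ∈ (c i).source
  γ : ι → ι → Z → Matrix (Fin r) (Fin r) ℂ
  hol : ∀ i j s t, MDifferentiableOn 𝓘(ℂ, E) 𝓘(ℂ) (fun z => γ i j z s t)
    ((c i).source ∩ (c j).source)
  det : ∀ i j, ∀ z ∈ (c i).source ∩ (c j).source, (γ i j z).det ≠ 0

variable {E : Type} [NormedAddCommGroup E] [NormedSpace ℂ E] {Z : Type} [TopologicalSpace Z]
  [ChartedSpace E Z] {r : ℕ} {ι : Type}

/-- The Jacobian determinant `∂z_i / ∂z_j` of the charts `i`, `j` of `Z`. -/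
noncomputable def Fam.jac (D : Fam E Z r ι) (i j : ι) (z : Z) : ℂ :=
  (fderiv ℂ (D.c i ∘ (D.c j).symm) (D.c j z)).det

/-- The parabolic group `P_b`: invertible matrices with `p i j = 0` if `b j < b i`. -/
def Par (b : Fin r → ℕ) (p : Matrix (Fin r) (Fin r) ℂ) : Prop :=
  p.det ≠ 0 ∧ ∀ i j, b j < b i → p i j = 0

/-- The character `∏_t (det p_tt) ^ (l t)` of `P_b` (`p_tt` are the diagonal blocks of `p`). -/
noncomputable def chr (b : Fin r → ℕ) (l : ℕ → ℤ) (p : Matrix (Fin r) (Fin r) ℂ) : ℂ :=
  ∏ t ∈ Finset.univ.image b, (p.toSquareBlock b t).det ^ l t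

/-- The weight `#{j | t < b j} - #{j | b j < t}`: the relative anticanonical bundle of `X → Z` is
the line bundle given by the character `chr b (rho b)`. -/
def rho (b : Fin r → ℕ) (t : ℕ) : ℤ :=
  ((Finset.univ.filter fun j => t < b j).card : ℤ) - (Finset.univ.filter fun j => b j < t).card

/-- Sections of the line bundle on `X` given by the character `chr b l` of `P_b` and the line bundle
on `Z` with the transition functions `a i j`: in the trivialization `i` they are homogeneous polynomials
`f i z g` in the entries of `g`, with coefficients holomorphic in `z`, with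
`f(g p) = chr b l p * f(g)` for `p ∈ P_b`. (Sections are polynomials if all weights are `≥ 0`; this may
be achieved by a twist with a power of `det V`.) -/
structure Sec (D : Fam E Z r ι) (b : Fin r → ℕ) (l : ℕ → ℤ) (a : ι → ι → Z → ℂ) where
  f : ι → Z → Matrix (Fin r) (Fin r) ℂ → ℂ
  hol : ∃ n : ℕ, ∀ i, ∃ S : (Fin n → Fin r × Fin r) → Z → ℂ,
    (∀ κ, MDifferentiableOn 𝓘(ℂ, E) 𝓘(ℂ) (S κ) (D.c i).source) ∧
    ∀ z ∈ (D.c i).source, ∀ g, f i z g = ∑ κ, S κ z * ∏ t, g (κ t).1 (κ t).2
  par : ∀ i, ∀ z ∈ (D.c i).source, ∀ g p, Par b p → f i z (g * p) = chr b l p * f i z g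
  glue : ∀ i j, ∀ z ∈ (D.c i).source ∩ (D.c j).source, ∀ g,
    f i z (D.γ i j z * g) = a i j z * f j z g

/-- Sections over `Z` of `(C ⊗ K_Z ^ m) ^ q`, where `C` is the line bundle with the transition
functions `c i j`: `f i (dz_i) ^ (m q)` in the chart `i`. -/
structure BSec (D : Fam E Z r ι) (c : ι → ι → Z → ℂ) (m q : ℕ) where
  f : ι → Z → ℂ
  hol : ∀ i, MDifferentiableOn 𝓘(ℂ, E) 𝓘(ℂ) (f i) (D.c i).source
  glue : ∀ i j, ∀ z ∈ (D.c i).source ∩ (D.c j).source,
    f i z * D.jac i j z ^ (m * q) = c i j z ^ q * f j z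

/-- The entries of the blocks below the diagonal. -/
abbrev Pr (b : Fin r → ℕ) : Type := {p : Fin r × Fin r // b p.2 < b p.1}

/-- The unipotent lower block triangular matrix `1 + u`. The maps `u ↦ g (1 + u) P_b` are charts of
the flag manifold `GL_r(ℂ) / P_b`. -/
def un (b : Fin r → ℕ) (u : Pr b → ℂ) : Matrix (Fin r) (Fin r) ℂ := fun i j =>
  (if i = j then 1 else 0) + if h : b j < b i then u ⟨(i, j), h⟩ else 0

/-- The pair `(GL_r(ℂ) / P_b, (1/m) div f)` is log canonical: for all `p < 1/m` the function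
`|f| ^ (-2p)` is locally integrable in the charts `u ↦ g (1 + u) P_b`. -/
def LC (b : Fin r → ℕ) (m : ℕ) (f : Matrix (Fin r) (Fin r) ℂ → ℂ) : Prop :=
  ∀ p : ℝ, 0 < p → p < 1 / m → ∀ g : Matrix (Fin r) (Fin r) ℂ, g.det ≠ 0 →
    ∀ K : Set (Pr b → ℂ), IsCompact K → ∫⁻ u in K, ‖f (g * un b u)‖ₑ ^ (-(2 * p)) < ⊤

end Pool.Agent.PB
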