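import Mathlib

/-!
MP_e23cd6_ag (abundance), fibre bundles with a reductive structure group: the definitions.

`G` is a complex reductive group, `F` a compact complex manifold, or a normal compact complex space, with
an action of `G`, `N` a linearised line bundle on `F`, and `X → Z` is a holomorphic fibre bundle with
fibre `F` and structure group `G` over the reduced complex space `Z`.
-/

set_option autoImplicit false

open scoped Manifold ContDiff
open MeasureTheory Matrix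

namespace Pool.Agent.PG

/-- A unitary matrix. -/
def Uni {n : ℕ} (k : GL (Fin n) ℂ) : Prop :=
  (k : Matrix (Fin n) (Fin n) ℂ)ᴴ * (k : Matrix (Fin n) (Fin n) ℂ) = 1

/-- The diagonal matrix `exp (z H)`. -/
noncomputable def dE {n : ℕ} (H : Fin n → ℝ) (z : ℂ) : Matrix (Fin n) (Fin n) ℂ :=
  Matrix.diagonal fun j => Complex.exp (z * H j)

/-- A complex reductive group (connected or not), as a self-adjoint group `G` of invertible matrices with
the compact subgroup `K` of its unitary elements and a maximal torus `{exp (z H) | H ∈ a}` of diagonal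
matrices: `star` (self-adjoint), `closed` (`K` is compact), `cartan` (`G = K A K`), and `near` (elements
of `K` near `1` are conjugate to small elements of the torus). -/
structure RG (n : ℕ) where
  G : Subgroup (GL (Fin n) ℂ)
  closed : IsClosed {A : Matrix (Fin n) (Fin n) ℂ | ∃ k ∈ G, Uni k ∧ (k : Matrix _ _ ℂ) = A}
  star : ∀ g ∈ G, ∃ g' ∈ G, (g' : Matrix (Fin n) (Fin n) ℂ) = (g : Matrix (Fin n) (Fin n) ℂ)ᴴ
  a : Submodule ℝ (Fin n → ℝ)
  tor : ∀ H ∈ a, ∀ z : ℂ, ∃ g ∈ G, (g : Matrix (Fin n) (Fin n) ℂ) = dE H z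
  cartan : ∀ g ∈ G, ∃ k₁ ∈ G, ∃ k₂ ∈ G, Uni k₁ ∧ Uni k₂ ∧ ∃ H ∈ a,
    (g : Matrix (Fin n) (Fin n) ℂ) = (k₁ : Matrix _ _ ℂ) * dE H 1 * (k₂ : Matrix _ _ ℂ)
  near : ∃ δ > 0, ∀ k ∈ G, Uni k → (∀ i j, ‖(k : Matrix (Fin n) (Fin n) ℂ) i j -
    (1 : Matrix (Fin n) (Fin n) ℂ) i j‖ ≤ δ) → ∃ u ∈ G, Uni u ∧ ∃ H ∈ a, (∀ j, |H j| ≤ 1) ∧
      (k : Matrix (Fin n) (Fin n) ℂ) =
        (u : Matrix (Fin n) (Fin n) ℂ)ᴴ * dE H Complex.I * (u : Matrix (Fin n) (Fin n) ℂ)

/-- A holomorphic representation of `G` with `ρ(g^*) = ρ(g)^*`, in an orthonormal basis of weight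
vectors, with the weights `lam i`. -/
structure GRep {n : ℕ} (R : RG n) (ι : Type) [Fintype ι] [DecidableEq ι] where
  ρ : R.G →* Matrix ι ι ℂ
  cont : Continuous ρ
  star : ∀ g g' : R.G, ((g' : GL (Fin n) ℂ) : Matrix (Fin n) (Fin n) ℂ) =
    ((g : GL (Fin n) ℂ) : Matrix (Fin n) (Fin n) ℂ)ᴴ → ρ g' = (ρ g)ᴴ
  lam : ι → (Fin n → ℝ) →ₗ[ℝ] ℝ
  diag : ∀ H ∈ R.a, ∀ (z : ℂ) (g : R.G), ((g : GL (Fin n) ℂ) : Matrix (Fin n) (Fin n) ℂ) = dE H z →
    ρ g = Matrix.diagonal fun i => Complex.exp (z * lam i H)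

/-- The fibre `F`: a compact complex manifold, or a normal compact complex space. The `φ j` are
charts of its regular part, the open set `⋃ j, (φ j).source` (for `g = 1`, `hol` says that they are
holomorphically compatible). The group `G` acts on `F` by `act`. There are a line bundle `N` on `F` which is
generated by the space `ℂ^κ` of sections (`v j y` is the vector of their values at `y` in the frame `j`
of `N`, over the open set `W j`), and the space `ℂ^ι` of sections of `N ⊗ K_F ^ (-m)` on the regular part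
(`σ j y` is the vector of their values at `y`, in the frame `j` and the chart `φ j`). The vectors of
values transform under the action of `G` on `F`, `N` and `K_F` by the representations `RN`, `Rs`: this
is `equi`, which for `g = 1` says that `v` and `σ` are sections of `N` and `N ⊗ K_F ^ (-m)`. The sections
are linearly independent: `v_nd` (also on the open subsets: `F` is irreducible) and `σ_nd`. -/
structure Fib {n : ℕ} (R : RG n) (EF : Type) [NormedAddCommGroup EF] [NormedSpace ℂ EF] (F : Type)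
    [TopologicalSpace F] (κ ι : Type) [Fintype κ] [DecidableEq κ] [Fintype ι] [DecidableEq ι]
    (m : ℕ) where
  J : Type
  φ : J → OpenPartialHomeomorph F EF
  ne : ∃ j, (φ j).source.Nonempty
  act : R.G → F → F
  one : ∀ y, act 1 y = y
  mul : ∀ g h y, act (g * h) y = act g (act h y)
  cont : ∀ g, Continuous (act g)
  reg : ∀ g j, ∀ y ∈ (φ j).source, ∃ i, act g y ∈ (φ i).source
  hol : ∀ g i j, DifferentiableOn ℂ (φ i ∘ act g ∘ (φ j).symm)
    {x | x ∈ (φ j).target ∧ act g ((φ j).symm x) ∈ (φ i).source}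
  W : J → Set F
  W_open : ∀ j, IsOpen (W j)
  sub : ∀ j, (φ j).source ⊆ W j
  cover : ∀ y, ∃ j, y ∈ W j
  RN : GRep R κ
  Rs : GRep R ι
  v : J → F → κ → ℂ
  v_cont : ∀ j, ContinuousOn (v j) (W j)
  v_hol : ∀ j α, DifferentiableOn ℂ (fun x => v j ((φ j).symm x) α) (φ j).target
  v_ne : ∀ j, ∀ y ∈ W j, v j y ≠ 0
  σ : J → F → ι → ℂ
  σ_hol : ∀ j α, DifferentiableOn ℂ (fun x => σ j ((φ j).symm x) α) (φ j).target
  equi : ∀ g i j y, y ∈ W j → act g y ∈ W i → ∃ t : ℂ,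
    v i (act g y) = t • (RN.ρ g *ᵥ v j y) ∧
    (y ∈ (φ j).source → act g y ∈ (φ i).source →
      σ i (act g y) = (t * (fderiv ℂ (φ i ∘ act g ∘ (φ j).symm) (φ j y)).det ^ m) •
        (Rs.ρ g *ᵥ σ j y))
  v_nd : ∀ U : Set F, IsOpen U → U.Nonempty → ∀ ξ : κ → ℂ, ξ ≠ 0 →
    ∃ j, ∃ y ∈ U ∩ W j, ξ ⬝ᵥ v j y ≠ 0
  σ_nd : ∀ S : ι → ℂ, S ≠ 0 → ∃ j, ∃ y ∈ (φ j).source, S ⬝ᵥ σ j y ≠ 0

variable {n : ℕ} {R : RG n} {EF : Type} [NormedAddCommGroup EF] [NormedSpace ℂ EF] {F : Type}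
  [TopologicalSpace F] {κ ι : Type} [Fintype κ] [DecidableEq κ] [Fintype ι] [DecidableEq ι] {m : ℕ}

/-- The measure `|s| ^ (-2 (1 - ε) / m) |σ| ^ (-2 ε / m)` on the regular part of `F`, where
`s = S ⬝ᵥ σ` and the norms are those of `N ⊗ K_F ^ (-m)` for the metric of `N` with `|v| = 1`: its density
in the chart `φ j`. -/
noncomputable def Fib.dens (Φ : Fib R EF F κ ι m) (S : ι → ℂ) (ε : ℝ) (j : Φ.J) (x : EF) : ENNReal :=
  ‖S ⬝ᵥ Φ.σ j ((Φ.φ j).symm x)‖ₑ ^ (-(2 * (1 - ε) / m)) *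
    ‖Φ.σ j ((Φ.φ j).symm x)‖ₑ ^ (-(2 * ε / m)) * ‖Φ.v j ((Φ.φ j).symm x)‖ₑ ^ (2 / m : ℝ)

/-- The integral of this measure over the regular part of the subset `U` of `F` is finite: this part is
covered by countably many measurable pieces `A l` of charts, with finite sum of the integrals. -/
def Fib.FinInt [MeasureSpace EF] (Φ : Fib R EF F κ ι m) (S : ι → ℂ) (ε : ℝ) (U : Set F) : Prop :=
  ∃ (k : ℕ → Φ.J) (A : ℕ → Set EF), (∀ l, MeasurableSet (A l) ∧ A l ⊆ (Φ.φ (k l)).target) ∧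
    (∀ j, ∀ y ∈ U ∩ (Φ.φ j).source, ∃ l, y ∈ (Φ.φ (k l)).source ∧ Φ.φ (k l) y ∈ A l) ∧
    ∑' l, ∫⁻ x in A l, Φ.dens S ε (k l) x < ⊤

/-- The pair `(F, D)`, `D = (1/m) div s`, `s = S ⬝ᵥ σ`, is klt: `|s| ^ (-2 / m)` is locally integrable. -/
def Fib.Klt [MeasureSpace EF] (Φ : Fib R EF F κ ι m) (S : ι → ℂ) : Prop :=
  ∀ y : F, ∃ U ∈ nhds y, Φ.FinInt S 0 U

/-- The condition on the fibre pair `(F, D)`, `D = (1/m) div s`, `s = S ⬝ᵥ σ`: for all `0 < ε < 1`
the pair `(F, (1 - ε) D + ε D')` is klt, where `D' = (1/m) div s'` for a general section `s'` of the linear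
system `σ`. It holds if `(F, D)` is klt, and if `(F, D)` is log canonical, `F` is a manifold and `σ` has
no base points. -/
def Fib.LC [MeasureSpace EF] (Φ : Fib R EF F κ ι m) (S : ι → ℂ) : Prop :=
  ∀ ε : ℝ, 0 < ε → ε < 1 → ∀ y : F, ∃ U ∈ nhds y, Φ.FinInt S ε U

/-- A space `Z` with a sheaf of algebras of complex functions: `O U` is the set of the functions on `Z`
which are holomorphic on the open subset `U`. The examples are the reduced complex spaces, in particular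
complex manifolds and normal complex spaces. -/
structure CSp (Z : Type) [TopologicalSpace Z] where
  O : Set Z → Set (Z → ℂ)
  const : ∀ U, ∀ c : ℂ, (fun _ => c) ∈ O U
  add : ∀ U, ∀ f ∈ O U, ∀ g ∈ O U, (fun z => f z + g z) ∈ O U
  mul : ∀ U, ∀ f ∈ O U, ∀ g ∈ O U, (fun z => f z * g z) ∈ O U
  mono : ∀ U V, V ⊆ U → O U ⊆ O V
  loc : ∀ U, IsOpen U → ∀ f : Z → ℂ, (∀ z ∈ U, ∃ V ⊆ U, IsOpen V ∧ z ∈ V ∧ ∃ g ∈ O V,
    ∀ w ∈ V, f w = g w) → f ∈ O U

/-- A holomorphic fibre bundle `X → Z` with fibre `F` and structure group `G`: `X` is glued from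
the products `U i × F` of an open covering of `Z` by the maps `(z, y) ↦ (z, γ i j z y)` (from `j` to `i`),
which are continuous, and holomorphic in `z` and in `y`. (`Fib.hol` is holomorphy in `y`. On a reduced complex
space, a continuous map of `(z, y)`, which is holomorphic in `z` and in `y`, is holomorphic.) -/
structure Bun (Φ : Fib R EF F κ ι m) {Z : Type} [TopologicalSpace Z] (O : CSp Z) (I : Type) where
  U : I → Set Z
  U_open : ∀ i, IsOpen (U i)
  cover : ∀ z, ∃ i, z ∈ U i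
  γ : I → I → Z → R.G
  coc : ∀ i j k, ∀ z ∈ U i ∩ U j ∩ U k, ∀ y,
    Φ.act (γ i j z) (Φ.act (γ j k z) y) = Φ.act (γ i k z) y
  cont : ∀ i j, ContinuousOn (fun p : Z × F => Φ.act (γ i j p.1) p.2) ((U i ∩ U j) ×ˢ Set.univ)
  hol : ∀ i j r y, ∀ V ⊆ U i ∩ U j, IsOpen V → (∀ z ∈ V, Φ.act (γ i j z) y ∈ (Φ.φ r).source) →
    ∀ l : EF →L[ℂ] ℂ, (fun z => l (Φ.φ r (Φ.act (γ i j z) y))) ∈ O.O V

variable {Φ : Fib R EF F κ ι m} {Z : Type} [TopologicalSpace Z] {O : CSp Z} {I : Type}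

/-- Sections of `N ⊗ K_{X/Z} ^ (-m) ⊗ A` on `X`, where `A` is the line bundle on `Z` with the transition
functions `a`: on `U i × F` the section is `S i z ⬝ᵥ σ`. Its divisor is `m D`, and `m (K_{X/Z} + D)` is
the line bundle `L = N ⊗ A` on `X`. -/
structure SecS (X : Bun Φ O I) (a : I → I → Z → ℂ) where
  S : I → Z → ι → ℂ
  hol : ∀ i α, (fun z => S i z α) ∈ O.O (X.U i)
  glue : ∀ i j, ∀ z ∈ X.U i ∩ X.U j, ∀ j', ∀ y ∈ (Φ.φ j').source,
    S i z ⬝ᵥ (Φ.Rs.ρ (X.γ i j z) *ᵥ Φ.σ j' y) = a i j z * (S j z ⬝ᵥ Φ.σ j' y)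

/-- The polynomial of the tensor `T`. -/
noncomputable def tp {q : ℕ} (T : (Fin q → κ) → ℂ) (x : κ → ℂ) : ℂ := ∑ α, T α * ∏ t, x (α t)

/-- Sections of `N ^ q ⊗ A` on `X`, where `A` is the line bundle on `Z` with the transition functions
`a`: on `U i × F` the section is the polynomial `tp (T i z)` in the sections `v` of `N`. -/
structure SecN (X : Bun Φ O I) (q : ℕ) (a : I → I → Z → ℂ) where
  T : I → Z → (Fin q → κ) → ℂ
  hol : ∀ i α, (fun z => T i z α) ∈ O.O (X.U i)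
  glue : ∀ i j, ∀ z ∈ X.U i ∩ X.U j, ∀ j', ∀ y ∈ Φ.W j',
    tp (T i z) (Φ.RN.ρ (X.γ i j z) *ᵥ Φ.v j' y) = a i j z * tp (T j z) (Φ.v j' y)

/-- Sections of the line bundle on `Z` with the transition functions `c`. -/
structure SecZ (X : Bun Φ O I) (c : I → I → Z → ℂ) where
  f : I → Z → ℂ
  hol : ∀ i, f i ∈ O.O (X.U i)
  glue : ∀ i j, ∀ z ∈ X.U i ∩ X.U j, f i z = c i j z * f j z

/-- The transition functions of the line bundle `λ = det (V ⊗ A)` on `Z`, where `V ⊗ A` is the vector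
bundle with fibre `ℂ^κ` of the sections of `L = N ⊗ A` on the fibres (the direct image of `L` if all
sections of `N` on `F` are in `ℂ^κ`). -/
noncomputable def Bun.lam (X : Bun Φ O I) (a : I → I → Z → ℂ) (i j : I) (z : Z) : ℂ :=
  a i j z ^ Fintype.card κ * ((Φ.RN.ρ (X.γ i j z)).det)⁻¹

end Pool.Agent.PG
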