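import Pool.Agent.H.MP_e23cd6_ag.PB.Glue

/-!
# The theorem
-/

set_option autoImplicit false

namespace Pool.Agent.PB

open Matrix Topology Set Pool.Agent.SG
open scoped Kronecker Manifold ContDiff

theorem tv_smul₂ {α β : Type} (c d : ℂ) (v : α → ℂ) (w : β → ℂ) :
    tv (c • v) (d • w) = (c * d) • tv v w := by
  rw [tv_smul_left, tv_smul_right, smul_smul]

theorem final (r : ℕ) (b : Fin r → ℕ) (l : ℕ → ℕ) (hl : Antitone l) (m : ℕ) (hm : 1 ≤ m) :
    ∃ M : ℕ, 1 ≤ M ∧ ∀ (E : Type) [NormedAddCommGroup E] [NormedSpace ℂ E]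
      (Z : Type) [TopologicalSpace Z] [ChartedSpace E Z] (ι : Type) (X : Fam E Z r ι)
      (a c : ι → ι → Z → ℂ) (s : Sec X b (fun t => l t + m * rho b t)
        (fun i j z => a i j z * X.jac i j z ^ m)) (i : ι) (z : Z),
      z ∈ (X.c i).source → LC b m (s.f i z) → ∀ (q : ℕ) (κ : BSec X c m q), κ.f i z ≠ 0 →
      ∀ g : Matrix (Fin r) (Fin r) ℂ, g.det ≠ 0 →
      ∃ F : Sec X b (fun t => M * q * l t) (fun i j z => (a i j z * c i j z) ^ (M * q)),
        F.f i z g ≠ 0 := by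
  -- the number of blocks
  obtain ⟨Q, hQ⟩ : ∃ Q : ℕ, ∀ j, b j < Q :=
    ⟨Finset.univ.sup b + 1, fun j => Nat.lt_succ_of_le (Finset.le_sup (Finset.mem_univ j))⟩
  obtain ⟨D, hD⟩ : ∃ D : ℕ, D = ∑ j, l (b j) := ⟨_, rfl⟩
  obtain ⟨e, he⟩ : ∃ e : ℕ → ℕ, e = ex l Q := ⟨_, rfl⟩
  have hcard : Fintype.card (Bt b Q e) = D := by
    rw [he, hD]
    exact card_Bt hl b hQ
  have hsum : ∀ j, (∑ t ∈ Finset.Ico (b j) Q, (e t : ℤ)) = l (b j) := by
    intro j
    rw [he, ← sum_ex hl (hQ j)]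
    push_cast
    rfl
  obtain ⟨R, hR⟩ : ∃ R, R = powR (dualR (R1 r)) (Fin D) := ⟨_, rfl⟩
  obtain ⟨V, hV⟩ : ∃ V, V = powR (stR r) (Bt b Q e) := ⟨_, rfl⟩
  obtain ⟨M, hM, hunif⟩ := unif (R.tens V)
  refine ⟨M, hM, ?_⟩
  intro E _ _ Z _ _ ι X a c s i z hz hLC q κ hκ g hg
  obtain ⟨n, hn⟩ := s.hol
  choose S hSh hSe using hn
  -- the degree
  have hnD : n = D := by
    obtain ⟨g₀, hg₀⟩ := hLC.ne hm
    have h1 : s.f i z (g₀ * Matrix.diagonal fun _ => (2 : ℂ)) = 2 ^ n * s.f i z g₀ := by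
      rw [hSe i z hz, hSe i z hz, Finset.mul_sum]
      refine Finset.sum_congr rfl fun κ' _ => ?_
      simp only [mul_diagonal]
      rw [Finset.prod_mul_distrib, Finset.prod_const, Finset.card_univ, Fintype.card_fin]
      ring
    have h2 := s.par i z hz g₀ (Matrix.diagonal fun _ => (2 : ℂ)) (par_diag b fun _ => two_ne_zero)
    rw [chr_diag] at h2
    have h3 : ∏ j : Fin r, (2 : ℂ) ^ ((l (b j) : ℤ) + m * rho b (b j)) = 2 ^ D := by
      have h4 : ∀ t : Finset (Fin r), ∏ j ∈ t, (2 : ℂ) ^ ((l (b j) : ℤ) + m * rho b (b j)) =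
          2 ^ (∑ j ∈ t, ((l (b j) : ℤ) + m * rho b (b j))) := by
        intro t
        induction t using Finset.induction_on with
        | empty => simp
        | insert a t ha ih =>
          rw [Finset.prod_insert ha, Finset.sum_insert ha, ih]
          exact (zpow_add₀ two_ne_zero _ _).symm
      rw [h4, Finset.sum_add_distrib, ← Finset.mul_sum, sum_rho, mul_zero, add_zero, hD,
        ← zpow_natCast]
      push_cast
      rfl
    rw [h3, h1] at h2
    have h5 := mul_right_cancel₀ hg₀ h2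
    have h6 : (2 : ℝ) ^ n = 2 ^ D := by exact_mod_cast h5
    exact pow_right_injective₀ (by norm_num) (by norm_num) h6
  subst hnD
  -- the symmetric tensors
  obtain ⟨S₀, hS₀⟩ : ∃ S₀ : ι → Z → (Fin n → Fin r × Fin r) → ℂ,
    ∀ i z, S₀ i z = symz (fun κ' => S i κ' z) := ⟨_, fun _ _ => rfl⟩
  have hsymS : ∀ i z, Sym (S₀ i z) := fun i z => by
    rw [hS₀]
    exact sym_symz _
  have hevS : ∀ i, ∀ z ∈ (X.c i).source, ∀ g, ev (S₀ i z) (um g) = s.f i z g := by
    intro i z hz g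
    rw [hS₀, ev_symz, hSe i z hz]
    rfl
  have hholS : ∀ i κ', MDifferentiableOn 𝓘(ℂ, E) 𝓘(ℂ) (fun z => S₀ i z κ') (X.c i).source := by
    intro i κ'
    simp only [hS₀]
    unfold symz
    have h1 : MDifferentiableOn 𝓘(ℂ, E) 𝓘(ℂ)
        (∑ σ : Equiv.Perm (Fin n), fun z => S i (κ' ∘ σ) z) (X.c i).source :=
      MDifferentiableOn.sum fun σ _ => hSh i _
    have h2 := h1.const_smul ((n.factorial : ℂ)⁻¹)
    refine h2.congr fun z _ => ?_
    simp [Finset.sum_apply]
  -- semistability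
  have hcore : ∃ N > 0, ∃ P, (R.tens V).Inv N P ∧
      MvPolynomial.eval (tv (S₀ i z) (mv b Q e g)) P ≠ 0 := by
    choose σ hσ using fun H : aa r => exists_sort b fun j => -H.1 j
    refine core R V (S₀ i z) (mv b Q e g)
      (fun H => ∑ j, (l (b j) : ℝ) * -H.1 (σ H j)) ?_ (mv_ne b Q e hg) ?_
    · intro k hk H
      obtain ⟨T, hT⟩ : ∃ T, T = R.act k (S₀ i z) := ⟨_, rfl⟩
      have hTe : ∀ g', s.f i z (((k⁻¹ : Gp r) : Matrix (Fin r) (Fin r) ℂ) * g') =
          ∑ κ', T κ' * ∏ t, g' (κ' t).1 (κ' t).2 := by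
        intro g'
        have h1 : ev T (um g') = ev (S₀ i z) (um (((k⁻¹ : Gp r) : Matrix (Fin r) (Fin r) ℂ) * g')) := by
          rw [hT, hR, ev_act, R1_act]
        rw [hevS i z hz] at h1
        exact h1.symm
      have hw : ∑ j, -H.1 j = 0 := by
        rw [Finset.sum_neg_distrib, aa_sum, neg_zero]
      obtain ⟨κ', h1, h2⟩ := num (l := fun t => (l t : ℤ)) hm T
        (fun g' => s.f i z (((k⁻¹ : Gp r) : Matrix (Fin r) (Fin r) ℂ) * g')) hTe
        (by
          intro g' τ hτ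
          beta_reduce
          rw [← Matrix.mul_assoc, s.par i z hz _ _ (par_diag b hτ), chr_diag])
        (by
          intro p hp hp' g' hg' K hK
          have h3 := hLC p hp hp' (((k⁻¹ : Gp r) : Matrix (Fin r) (Fin r) ℂ) * g') (by
            rw [det_mul, (k⁻¹).det_coe, one_mul]
            exact hg') K hK
          simpa only [Matrix.mul_assoc] using h3)
        (fun j => -H.1 j) hw (σ H) (hσ H)
      refine ⟨κ', by rwa [hT] at h1, ?_⟩
      have h3 : R.lam κ' H = ∑ t, -H.1 (κ' t).1 := by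
        rw [hR, powR_lam]
        refine Finset.sum_congr rfl fun t _ => ?_
        rw [dualR_lam, R1_lam]
      rw [h3]
      push_cast at h2
      exact h2
    · intro g' H
      have h1 := mv_norm b Q e hQ ((g' : Matrix (Fin r) (Fin r) ℂ) * g) H (σ H) (hσ H)
      have h2 : V.act g' (mv b Q e g) = mv b Q e ((g' : Matrix (Fin r) (Fin r) ℂ) * g) := by
        rw [hV]
        exact mv_act b Q e g' g
      rw [h2, hV]
      simp only [hsum] at h1
      push_cast at h1
      exact h1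
  obtain ⟨P, hP, hPne⟩ := hunif _ hcore
  -- the section
  refine ⟨⟨fun i' z' g' => MvPolynomial.eval (tv (S₀ i' z') (mv b Q e g')) P ^ q * κ.f i' z' ^ M,
    ?_, ?_, ?_⟩, ?_⟩
  · refine ⟨n * M * q, fun i' => ?_⟩
    have h1 : ∀ p : (Fin n → Fin r × Fin r) × (Bt b Q e → Fin r), HF E (X.c i').source n
        (fun z' x => tv (S₀ i' z') (mv b Q e (mt x)) p) := by
      intro p
      exact (HF.smul (hholS i' p.1) (hf_mv b Q e p.2)).cast hcard
    have h2 := (HF.evalP hP.hom h1).pow q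
    have h3 := HF.smul ((κ.hol i').pow M) h2
    obtain ⟨T, hT, hTe⟩ := h3
    refine ⟨T, hT, fun z' hz' g' => ?_⟩
    have h4 := hTe z' hz' (um g')
    rw [mul_comm]
    exact h4
  · intro i' z' hz' g' p hp
    beta_reduce
    have h1 : mv b Q e (g' * p) = chr b (fun t => l t) p • mv b Q e g' := by
      rw [mv_par b Q e hQ g' p hp]
      congr 1
      exact chr_congr b hsum p
    rw [h1, tv_smul_right, Rep.eval_smul hP.hom, mul_pow, ← pow_mul, chr_pow]
    have h2 : chr b (fun t => ((M * q : ℕ) : ℤ) * (l t : ℤ)) p =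
        chr b (fun t => (M : ℤ) * q * l t) p := by
      push_cast
      rfl
    rw [h2]
    ring
  · intro i' j' z' hz' g'
    beta_reduce
    obtain ⟨t, h, ht, hγ⟩ := exists_SL (X.det i' j' z' hz')
    have h1 : S₀ i' z' = (a i' j' z' * X.jac i' j' z' ^ m * t⁻¹ ^ n) • R.act h (S₀ j' z') := by
      rw [hR]
      refine glueS (hsymS _ _) (hsymS _ _) ht h fun g'' => ?_
      rw [← hγ, hevS i' z' hz'.1, hevS j' z' hz'.2]
      exact s.glue i' j' z' hz' g''
    have h2 : mv b Q e (X.γ i' j' z' * g') = t ^ n • V.act h (mv b Q e g') := by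
      rw [hγ, Matrix.smul_mul, mv_smul, hcard, hV, mv_act]
    have h3 : (a i' j' z' * X.jac i' j' z' ^ m * t⁻¹ ^ n) * t ^ n =
        a i' j' z' * X.jac i' j' z' ^ m := by
      rw [mul_assoc, ← mul_pow, inv_mul_cancel₀ ht, one_pow, mul_one]
    rw [h1, h2, tv_smul₂, h3, ← Rep.act_tens, Rep.eval_smul hP.hom, hP.inv]
    have h4 := κ.glue i' j' z' hz'
    have h5 : (a i' j' z' * X.jac i' j' z' ^ m) ^ (M * q) * κ.f i' z' ^ M =
        a i' j' z' ^ (M * q) * (κ.f i' z' * X.jac i' j' z' ^ (m * q)) ^ M := by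
      rw [mul_pow, mul_pow, ← pow_mul, ← pow_mul]
      have : m * (M * q) = m * q * M := by ring
      rw [this]
      ring
    have h6 : ((a i' j' z' * X.jac i' j' z' ^ m) ^ M *
        MvPolynomial.eval (tv (S₀ j' z') (mv b Q e g')) P) ^ q * κ.f i' z' ^ M =
        (a i' j' z' * X.jac i' j' z' ^ m) ^ (M * q) * κ.f i' z' ^ M *
          MvPolynomial.eval (tv (S₀ j' z') (mv b Q e g')) P ^ q := by
      rw [mul_pow, ← pow_mul]
      ring
    rw [h6, h5, h4, mul_pow, ← pow_mul, mul_comm q M, mul_pow (a i' j' z')]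
    ring
  · exact mul_ne_zero (pow_ne_zero _ hPne) (pow_ne_zero _ hκ)

end Pool.Agent.PB
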