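import Pool.Agent.H.MP_e23cd6_ag.PB.DefsG
import Pool.Agent.H.MP_e23cd6_ag.SG.Tens

/-!
# Representations of reductive groups: action, duals, tensor products
-/

set_option autoImplicit false

namespace Pool.Agent.PG

open Matrix Topology Pool.Agent.SG
open scoped Kronecker

variable {n : ℕ} {R : RG n} {ι κ : Type} [Fintype ι] [DecidableEq ι] [Fintype κ] [DecidableEq κ]

/-- The matrix of an element of `G`. -/
abbrev mx (g : R.G) : Matrix (Fin n) (Fin n) ℂ := ((g : GL (Fin n) ℂ) : Matrix (Fin n) (Fin n) ℂ)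

theorem mx_ext {g h : R.G} (e : mx g = mx h) : g = h := Subtype.ext (Units.ext e)

theorem mx_mul (g h : R.G) : mx (g * h) = mx g * mx h := rfl

theorem mx_one : mx (1 : R.G) = 1 := rfl

namespace GRep

/-- The action on vectors. -/
def act (V : GRep R ι) (g : R.G) (v : ι → ℂ) : ι → ℂ := V.ρ g *ᵥ v

theorem act_mul (V : GRep R ι) (g h : R.G) (v : ι → ℂ) :
    V.act (g * h) v = V.act g (V.act h v) := by
  unfold act
  rw [map_mul, ← Matrix.mulVec_mulVec]

@[simp] theorem act_one (V : GRep R ι) (v : ι → ℂ) : V.act 1 v = v := by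
  unfold act
  rw [map_one, Matrix.one_mulVec]

theorem act_smul (V : GRep R ι) (g : R.G) (c : ℂ) (v : ι → ℂ) :
    V.act g (c • v) = c • V.act g v := Matrix.mulVec_smul _ _ _

/-- `P` is an invariant homogeneous polynomial of degree `N`. -/
structure Inv (V : GRep R ι) (N : ℕ) (P : MvPolynomial ι ℂ) : Prop where
  hom : P.IsHomogeneous N
  inv : ∀ g v, MvPolynomial.eval (V.act g v) P = MvPolynomial.eval v P

theorem dE_neg (H : Fin n → ℝ) (z : ℂ) : dE H z * dE H (-z) = 1 := by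
  unfold dE
  rw [Matrix.diagonal_mul_diagonal, ← Matrix.diagonal_one]
  congr 1
  funext j
  rw [← Complex.exp_add, ← Complex.exp_zero]
  congr 1
  ring

theorem mx_inv_dE {H : Fin n → ℝ} {z : ℂ} {g : R.G} (h : mx g = dE H z) :
    mx g⁻¹ = dE H (-z) := by
  have h1 : mx g⁻¹ * mx g = 1 := by
    rw [← mx_mul, inv_mul_cancel, mx_one]
  calc mx g⁻¹ = mx g⁻¹ * (dE H z * dE H (-z)) := by rw [dE_neg, Matrix.mul_one]
    _ = (mx g⁻¹ * mx g) * dE H (-z) := by rw [h, Matrix.mul_assoc]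
    _ = dE H (-z) := by rw [h1, Matrix.one_mul]

/-- The dual representation. -/
noncomputable def dual (V : GRep R ι) : GRep R ι where
  ρ :=
    { toFun := fun g => (V.ρ g⁻¹)ᵀ
      map_one' := by rw [inv_one, map_one, transpose_one]
      map_mul' := fun g h => by rw [_root_.mul_inv_rev, map_mul, transpose_mul] }
  cont := (V.cont.comp continuous_inv).matrix_transpose
  star := fun g g' h => by
    show (V.ρ g'⁻¹)ᵀ = ((V.ρ g⁻¹)ᵀ)ᴴ
    have h1 : mx g'⁻¹ = (mx g⁻¹)ᴴ := by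
      have h2 : mx g'⁻¹ * mx g' = 1 := by
        rw [← mx_mul, inv_mul_cancel, mx_one]
      have h3 : (mx g)ᴴ * (mx g⁻¹)ᴴ = 1 := by
        rw [← conjTranspose_mul, ← mx_mul, inv_mul_cancel, mx_one, conjTranspose_one]
      have h4 : mx g' = (mx g)ᴴ := h
      calc mx g'⁻¹ = mx g'⁻¹ * ((mx g)ᴴ * (mx g⁻¹)ᴴ) := by rw [h3, Matrix.mul_one]
        _ = (mx g'⁻¹ * mx g') * (mx g⁻¹)ᴴ := by rw [h4, Matrix.mul_assoc]
        _ = (mx g⁻¹)ᴴ := by rw [h2, Matrix.one_mul]
    rw [V.star g⁻¹ g'⁻¹ h1]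
    rfl
  lam := fun i => -V.lam i
  diag := fun H hH z g h => by
    show (V.ρ g⁻¹)ᵀ = _
    rw [V.diag H hH (-z) g⁻¹ (mx_inv_dE h), diagonal_transpose]
    congr 1
    funext i
    congr 1
    rw [LinearMap.neg_apply]
    push_cast
    ring

/-- The tensor product. -/
noncomputable def tens (V : GRep R ι) (W : GRep R κ) : GRep R (ι × κ) where
  ρ :=
    { toFun := fun g => V.ρ g ⊗ₖ W.ρ g
      map_one' := by rw [map_one, map_one, Matrix.one_kronecker_one]
      map_mul' := fun g h => by rw [map_mul, map_mul, Matrix.mul_kronecker_mul] }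
  cont := by
    refine continuous_matrix fun p q => ?_
    exact ((V.cont.matrix_elem p.1 q.1).mul (W.cont.matrix_elem p.2 q.2))
  star := fun g g' h => by
    show V.ρ g' ⊗ₖ W.ρ g' = (V.ρ g ⊗ₖ W.ρ g)ᴴ
    rw [Matrix.conjTranspose_kronecker, V.star g g' h, W.star g g' h]
  lam := fun p => V.lam p.1 + W.lam p.2
  diag := fun H hH z g h => by
    show V.ρ g ⊗ₖ W.ρ g = _
    rw [V.diag H hH z g h, W.diag H hH z g h, Matrix.diagonal_kronecker_diagonal]
    congr 1
    funext p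
    rw [← Complex.exp_add]
    congr 1
    rw [LinearMap.add_apply]
    push_cast
    ring

theorem dual_ρ (V : GRep R ι) (g : R.G) : V.dual.ρ g = (V.ρ g⁻¹)ᵀ := rfl

theorem dual_lam (V : GRep R ι) (i : ι) (H : Fin n → ℝ) : V.dual.lam i H = -V.lam i H := rfl

theorem tens_ρ (V : GRep R ι) (W : GRep R κ) (g : R.G) :
    (V.tens W).ρ g = V.ρ g ⊗ₖ W.ρ g := rfl

theorem tens_lam (V : GRep R ι) (W : GRep R κ) (p : ι × κ) (H : Fin n → ℝ) :
    (V.tens W).lam p H = V.lam p.1 H + W.lam p.2 H := rfl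

theorem act_tens (V : GRep R ι) (W : GRep R κ) (g : R.G) (v : ι → ℂ) (w : κ → ℂ) :
    (V.tens W).act g (tv v w) = tv (V.act g v) (W.act g w) := by
  funext p
  show (V.ρ g ⊗ₖ W.ρ g *ᵥ tv v w) p = (V.ρ g *ᵥ v) p.1 * (W.ρ g *ᵥ w) p.2
  rw [Matrix.mulVec, Matrix.mulVec, Matrix.mulVec, dotProduct, dotProduct, dotProduct,
    Finset.sum_mul_sum, Fintype.sum_prod_type]
  refine Finset.sum_congr rfl fun i _ => Finset.sum_congr rfl fun j _ => ?_
  rw [tv, Matrix.kroneckerMap_apply]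
  ring

/-- The pairing of a form with a vector. -/
theorem dual_dot (V : GRep R ι) (g : R.G) (S x : ι → ℂ) :
    V.dual.act g S ⬝ᵥ V.act g x = S ⬝ᵥ x := by
  unfold act
  rw [dual_ρ, Matrix.mulVec_transpose, ← Matrix.dotProduct_mulVec, Matrix.mulVec_mulVec,
    ← map_mul, inv_mul_cancel, map_one, Matrix.one_mulVec]

end GRep

end Pool.Agent.PG
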