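import Pool.Agent.H.MP_e23cd6_ag.PB.DefsG
import Pool.Agent.H.MP_e23cd6_ag.SG.Near

/-!
MP_e23cd6_ag (abundance), bundles: `SL_n(ℂ)` as an instance of `RG`.
-/

set_option autoImplicit false

open Matrix Topology

namespace Pool.Agent.PG

open Pool.Agent.SG

variable {n : ℕ}

theorem slG_uni {k : Gp n} :
    Uni (Matrix.SpecialLinearGroup.toGL k) ↔ k ∈ SU n := by
  rw [mem_SU']
  exact Iff.rfl

/-- The group `SL_n(ℂ)`. -/
noncomputable def slG (n : ℕ) : RG n where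
  G := (Matrix.SpecialLinearGroup.toGL (n := Fin n) (R := ℂ)).range
  closed := by
    have h : {A : Matrix (Fin n) (Fin n) ℂ |
        ∃ k ∈ (Matrix.SpecialLinearGroup.toGL (n := Fin n) (R := ℂ)).range,
          Uni k ∧ (k : Matrix _ _ ℂ) = A} =
        {A | Aᴴ * A = 1} ∩ {A | A.det = 1} := by
      ext A
      constructor
      · rintro ⟨k, ⟨g, rfl⟩, hk, rfl⟩
        exact ⟨hk, g.det_coe⟩
      · rintro ⟨h1, h2⟩
        exact ⟨Matrix.SpecialLinearGroup.toGL ⟨A, h2⟩, ⟨_, rfl⟩, h1, rfl⟩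
    rw [h]
    refine (isClosed_eq ?_ continuous_const).inter (isClosed_eq ?_ continuous_const)
    · exact (continuous_id.matrix_conjTranspose).matrix_mul continuous_id
    · exact continuous_id.matrix_det
  star := by
    rintro g ⟨g', rfl⟩
    exact ⟨Matrix.SpecialLinearGroup.toGL (ct g'), ⟨_, rfl⟩, rfl⟩
  a := aa n
  tor := fun H hH z => ⟨Matrix.SpecialLinearGroup.toGL (dg ⟨H, hH⟩ z), ⟨_, rfl⟩, rfl⟩
  cartan := by
    rintro g ⟨g', rfl⟩
    obtain ⟨k₁, hk₁, k₂, hk₂, H, h⟩ := svd g'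
    refine ⟨Matrix.SpecialLinearGroup.toGL k₁, ⟨_, rfl⟩, Matrix.SpecialLinearGroup.toGL k₂,
      ⟨_, rfl⟩, slG_uni.2 hk₁, slG_uni.2 hk₂, H.1, H.2, ?_⟩
    rw [h]
    rfl
  near := by
    obtain ⟨r, hr, h⟩ := near_one n
    refine ⟨min r (1 / (2 * (n : ℝ) ^ 2 + 1)), lt_min hr (by positivity), ?_⟩
    rintro k ⟨k', rfl⟩ hk hd
    have h0 : (0 : ℝ) ≤ min r (1 / (2 * (n : ℝ) ^ 2 + 1)) := le_min hr.le (by positivity)
    have hd' : dst k' ≤ min r (1 / (2 * (n : ℝ) ^ 2 + 1)) := dst_le h0 hd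
    obtain ⟨u, hu, H, h1, h2⟩ := h k' (slG_uni.1 hk) (hd'.trans (min_le_left _ _))
    refine ⟨Matrix.SpecialLinearGroup.toGL u, ⟨_, rfl⟩, slG_uni.2 hu, H.1, H.2, fun j => ?_, ?_⟩
    · refine (h2 j).trans ?_
      have h3 : dst k' ≤ 1 / (2 * (n : ℝ) ^ 2 + 1) := hd'.trans (min_le_right _ _)
      rw [le_div_iff₀ (by positivity)] at h3
      nlinarith [dst_nonneg k']
    · show (k' : Matrix (Fin n) (Fin n) ℂ) = _
      rw [h1, coe_gmul, coe_gmul, coe_inv_SU hu]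
      rfl

end Pool.Agent.PG
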