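import Pool.Agent.H.MP_e23cd6_ag.PB.DefsG
import Pool.Agent.H.MP_e23cd6_ag.SG.Var

/-!
MP_e23cd6_ag (abundance), bundles: a lower bound for the integrals of the functions of a finite
dimensional space.
-/

set_option autoImplicit false

open MeasureTheory Matrix Filter Topology
open scoped ENNReal

namespace Pool.Agent.PG

open Pool.Agent.SG

section low

variable {X : Type} [TopologicalSpace X] [MeasurableSpace X] [OpensMeasurableSpace X]
  {μ : Measure X} {κ : Type} [Fintype κ]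

theorem low_meas {B : Set X} (hB : MeasurableSet B) {h : X → ℂ} (hh : ContinuousOn h B) (p : ℝ) :
    AEMeasurable (fun x => ‖h x‖ₑ ^ p) (μ.restrict B) := by
  have h1 : AEMeasurable h (μ.restrict B) := hh.aemeasurable hB
  exact h1.enorm.pow_const p

/-- Functions which do not vanish identically have positive integrals. -/
theorem low_pos [μ.IsOpenPosMeasure] {U B : Set X} (hU : IsOpen U) (hUB : U ⊆ B) {h : X → ℂ}
    (hh : ContinuousOn h U) {y : X} (hy : y ∈ U) (hne : h y ≠ 0) {p : ℝ} (hp : 0 ≤ p) :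
    0 < ∫⁻ x in B, ‖h x‖ₑ ^ p ∂μ := by
  set V : Set X := U ∩ h ⁻¹' {0}ᶜ with hV
  have hVo : IsOpen V := hh.isOpen_inter_preimage hU isOpen_compl_singleton
  have hVpos : 0 < μ V := hVo.measure_pos μ ⟨y, hy, hne⟩
  have h1 : ∫⁻ x in V, ‖h x‖ₑ ^ p ∂μ ≤ ∫⁻ x in B, ‖h x‖ₑ ^ p ∂μ :=
    lintegral_mono_set (Set.inter_subset_left.trans hUB)
  refine lt_of_lt_of_le (pos_iff_ne_zero.2 fun h0 => ?_) h1
  rw [lintegral_eq_zero_iff' (low_meas hVo.measurableSet (hh.mono Set.inter_subset_left) p)] at h0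
  have h2 := (ae_restrict_iff' hVo.measurableSet).1 h0
  have h3 : μ V = 0 := by
    refine measure_mono_null (fun x hx => ?_) h2
    simp only [Set.mem_compl_iff, Set.mem_ofPred_eq, Pi.zero_apply]
    intro h4
    have h5 := h4 hx
    have h6 : ‖h x‖ₑ ≠ 0 := by
      rw [ne_eq, enorm_eq_zero]
      exact hx.2
    rw [ENNReal.rpow_eq_zero_iff] at h5
    rcases h5 with ⟨h7, -⟩ | ⟨-, h7⟩
    · exact h6 h7
    · exact absurd h7 (not_lt.2 hp)
  exact hVpos.ne' h3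

omit [TopologicalSpace X] [OpensMeasurableSpace X] in
/-- The integral is homogeneous. -/
theorem low_smul {B : Set X} {v : X → κ → ℂ} {p : ℝ} (hp : 0 ≤ p) {r : ℝ} (hr : 0 < r)
    (ξ : κ → ℂ) : ∫⁻ x in B, ‖((r : ℂ) • ξ) ⬝ᵥ v x‖ₑ ^ p ∂μ =
      ENNReal.ofReal (r ^ p) * ∫⁻ x in B, ‖ξ ⬝ᵥ v x‖ₑ ^ p ∂μ := by
  rw [← lintegral_const_mul' _ _ ENNReal.ofReal_ne_top]
  refine lintegral_congr fun x => ?_
  rw [smul_dotProduct, smul_eq_mul, enorm_mul, ENNReal.mul_rpow_of_nonneg _ _ hp]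
  congr 1
  rw [← ofReal_norm, Complex.norm_real, Real.norm_of_nonneg hr.le,
    ENNReal.ofReal_rpow_of_pos hr]

/-- The lower bound. -/
theorem low_gen {B : Set X} (hB : MeasurableSet B) {v : X → κ → ℂ} (hv : ContinuousOn v B)
    {p : ℝ} (hp : 0 < p)
    (hnd : ∀ ξ : κ → ℂ, ξ ≠ 0 → 0 < ∫⁻ x in B, ‖ξ ⬝ᵥ v x‖ₑ ^ p ∂μ) :
    ∃ c : ℝ, 0 < c ∧ ∀ ξ : κ → ℂ,
      ENNReal.ofReal (c * nm ξ ^ p) ≤ ∫⁻ x in B, ‖ξ ⬝ᵥ v x‖ₑ ^ p ∂μ := by
  by_contra hcon
  push Not at hcon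
  have hcon' : ∀ k : ℕ, ∃ η : κ → ℂ, ns η = 1 ∧
      ∫⁻ x in B, ‖η ⬝ᵥ v x‖ₑ ^ p ∂μ ≤ ENNReal.ofReal (1 / ((k : ℝ) + 1)) := by
    intro k
    obtain ⟨ξ, hξ⟩ := hcon (1 / ((k : ℝ) + 1)) (by positivity)
    have h0 : 0 < nm ξ := by
      rcases (nm_nonneg ξ).eq_or_lt with h | h
      · rw [← h, Real.zero_rpow hp.ne', mul_zero, ENNReal.ofReal_zero] at hξ
        exact absurd hξ not_lt_zero
      · exact h
    refine ⟨(((nm ξ)⁻¹ : ℝ) : ℂ) • ξ, ?_, ?_⟩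
    · rw [ns_smul, Complex.norm_real, Real.norm_of_nonneg (inv_pos.2 h0).le, ← nm_sq, ← mul_pow,
        inv_mul_cancel₀ h0.ne', one_pow]
    · rw [low_smul hp.le (inv_pos.2 h0)]
      calc ENNReal.ofReal ((nm ξ)⁻¹ ^ p) * ∫⁻ x in B, ‖ξ ⬝ᵥ v x‖ₑ ^ p ∂μ
          ≤ ENNReal.ofReal ((nm ξ)⁻¹ ^ p) * ENNReal.ofReal (1 / ((k : ℝ) + 1) * nm ξ ^ p) :=
            mul_le_mul_right hξ.le _
        _ = ENNReal.ofReal (1 / ((k : ℝ) + 1)) := by
            rw [← ENNReal.ofReal_mul (by positivity)]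
            congr 1
            have h1 : (nm ξ)⁻¹ ^ p * nm ξ ^ p = 1 := by
              rw [← Real.mul_rpow (inv_pos.2 h0).le h0.le, inv_mul_cancel₀ h0.ne', Real.one_rpow]
            calc (nm ξ)⁻¹ ^ p * (1 / ((k : ℝ) + 1) * nm ξ ^ p)
                = ((nm ξ)⁻¹ ^ p * nm ξ ^ p) * (1 / ((k : ℝ) + 1)) := by ring
              _ = _ := by rw [h1, one_mul]
  choose η hη1 hη2 using hcon'
  have hns : Continuous (ns : (κ → ℂ) → ℝ) := by
    unfold ns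
    fun_prop
  have hS : IsCompact {ξ : κ → ℂ | ns ξ = 1} := by
    refine (isCompact_closedBall (0 : κ → ℂ) 1).of_isClosed_subset
      (isClosed_eq hns continuous_const) fun ξ hξ => ?_
    rw [mem_closedBall_zero_iff, pi_norm_le_iff_of_nonneg zero_le_one]
    intro i
    have h1 : ‖ξ i‖ ^ 2 ≤ ns ξ :=
      Finset.single_le_sum (f := fun i => ‖ξ i‖ ^ 2) (fun _ _ => sq_nonneg _) (Finset.mem_univ i)
    rw [show ns ξ = 1 from hξ] at h1
    nlinarith [norm_nonneg (ξ i)]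
  obtain ⟨ζ, hζ, φ, hφ, hlim⟩ := hS.tendsto_subseq fun k => hη1 k
  have hζ0 : ζ ≠ 0 := by
    intro h
    rw [h] at hζ
    simp at hζ
  have hFatou := lintegral_liminf_le' (μ := μ.restrict B) (u := (atTop : Filter ℕ))
    (f := fun (k : ℕ) x => ‖η (φ k) ⬝ᵥ v x‖ₑ ^ p) fun k =>
      low_meas hB (by
        have : ContinuousOn (fun x => η (φ k) ⬝ᵥ v x) B := by
          unfold dotProduct
          refine continuousOn_finsetSum _ fun i _ => continuousOn_const.mul ?_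
          exact (continuousOn_pi.1 hv) i
        exact this) p
  have h1 : ∀ x, liminf (fun k => ‖η (φ k) ⬝ᵥ v x‖ₑ ^ p) atTop = ‖ζ ⬝ᵥ v x‖ₑ ^ p := by
    intro x
    refine Tendsto.liminf_eq ?_
    have h2 : Continuous fun ξ : κ → ℂ => ‖ξ ⬝ᵥ v x‖ₑ ^ p := by
      have h3 : Continuous fun ξ : κ → ℂ => ξ ⬝ᵥ v x := by
        unfold dotProduct
        fun_prop
      exact ENNReal.continuous_rpow_const.comp h3.enorm
    exact (h2.tendsto ζ).comp hlim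
  have h4 : liminf (fun k => ∫⁻ x in B, ‖η (φ k) ⬝ᵥ v x‖ₑ ^ p ∂μ) atTop ≤ 0 := by
    have h5 : Tendsto (fun k : ℕ => ENNReal.ofReal (1 / ((φ k : ℝ) + 1))) atTop (𝓝 0) := by
      have h6 : Tendsto (fun k : ℕ => 1 / ((φ k : ℝ) + 1)) atTop (𝓝 0) :=
        (tendsto_one_div_add_atTop_nhds_zero_nat (𝕜 := ℝ)).comp hφ.tendsto_atTop
      have h7 := (ENNReal.continuous_ofReal.tendsto 0).comp h6
      rwa [ENNReal.ofReal_zero] at h7
    rw [← h5.liminf_eq]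
    exact liminf_le_liminf (Eventually.of_forall fun k => hη2 (φ k))
  have h8 : ∫⁻ x in B, ‖ζ ⬝ᵥ v x‖ₑ ^ p ∂μ ≤ 0 := by
    calc ∫⁻ x in B, ‖ζ ⬝ᵥ v x‖ₑ ^ p ∂μ
        = ∫⁻ x in B, liminf (fun k => ‖η (φ k) ⬝ᵥ v x‖ₑ ^ p) atTop ∂μ := by
          refine lintegral_congr fun x => (h1 x).symm
      _ ≤ _ := hFatou.trans h4
  exact absurd h8 (not_le.2 (hnd ζ hζ0))

end low

section fib

open scoped Manifold

variable {n : ℕ} {R : RG n} {EF : Type} [NormedAddCommGroup EF] [NormedSpace ℂ EF]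
  [MeasureSpace EF] [BorelSpace EF] {F : Type} [TopologicalSpace F]
  {κ ι : Type} [Fintype κ] [DecidableEq κ] [Fintype ι] [DecidableEq ι] {m : ℕ}

omit [MeasureSpace EF] [BorelSpace EF] in
/-- The sections of `N` in a chart are continuous. -/
theorem v_cont (Φ : Fib R EF F κ ι m) (j : Φ.J) :
    ContinuousOn (fun x => Φ.v j ((Φ.φ j).symm x)) (Φ.φ j).target :=
  continuousOn_pi.2 fun α => (Φ.v_hol j α).continuousOn

omit [MeasureSpace EF] [BorelSpace EF] in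
/-- The sections of `N` in two charts are proportional. -/
theorem v_prop (Φ : Fib R EF F κ ι m) {i j : Φ.J} {y : F} (hj : y ∈ Φ.W j)
    (hi : y ∈ Φ.W i) : ∃ t : ℂ, Φ.v i y = t • Φ.v j y := by
  obtain ⟨t, ht, -⟩ := Φ.equi 1 i j y hj (by rwa [Φ.one])
  rw [Φ.one, map_one, Matrix.one_mulVec] at ht
  exact ⟨t, ht⟩

/-- The lower bound for the sections of `N`. -/
theorem low_bound [(volume : Measure EF).IsOpenPosMeasure] (Φ : Fib R EF F κ ι m) (hm : 1 ≤ m)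
    {j : Φ.J} {K : Set EF} (hK : IsCompact K) (hKt : K ⊆ (Φ.φ j).target)
    (hint : (interior K).Nonempty) : ∃ c : ℝ≥0∞, c ≠ 0 ∧ ∀ η : κ → ℂ,
      c * ENNReal.ofReal (nm η) ^ ((2 : ℝ) / m) ≤
        ∫⁻ x in K, ‖η ⬝ᵥ Φ.v j ((Φ.φ j).symm x)‖ₑ ^ ((2 : ℝ) / m) := by
  have hm0 : (0 : ℝ) < m := by exact_mod_cast hm
  have hp : (0 : ℝ) < 2 / m := by positivity
  obtain ⟨c, hc, h⟩ := low_gen (μ := (volume : Measure EF)) hK.measurableSet
    ((v_cont Φ j).mono hKt) hp (fun ξ hξ => by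
      obtain ⟨x₀, hx₀⟩ := hint
      have hU : IsOpen ((Φ.φ j).source ∩ Φ.φ j ⁻¹' interior K) :=
        (Φ.φ j).isOpen_inter_preimage isOpen_interior
      have hx₀t : x₀ ∈ (Φ.φ j).target := hKt (interior_subset hx₀)
      obtain ⟨j', y, ⟨⟨hy1, hy2⟩, hy3⟩, hne⟩ := Φ.v_nd _ hU
        ⟨(Φ.φ j).symm x₀, (Φ.φ j).map_target hx₀t, by
          show Φ.φ j ((Φ.φ j).symm x₀) ∈ interior K
          rwa [(Φ.φ j).right_inv hx₀t]⟩ ξ hξ
      obtain ⟨t, ht⟩ := v_prop Φ (Φ.sub j hy1) hy3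
      rw [ht, dotProduct_smul, smul_eq_mul] at hne
      have hcont : ContinuousOn (fun x => ξ ⬝ᵥ Φ.v j ((Φ.φ j).symm x)) (interior K) := by
        have h1 := (v_cont Φ j).mono (interior_subset.trans hKt)
        unfold dotProduct
        exact continuousOn_finsetSum _ fun i _ =>
          continuousOn_const.mul ((continuousOn_pi.1 h1) i)
      refine low_pos isOpen_interior interior_subset hcont hy2 ?_ hp.le
      show ξ ⬝ᵥ Φ.v j ((Φ.φ j).symm (Φ.φ j y)) ≠ 0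
      rw [(Φ.φ j).left_inv hy1]
      exact right_ne_zero_of_mul hne)
  refine ⟨ENNReal.ofReal c, (ENNReal.ofReal_pos.2 hc).ne', fun η => (le_of_eq ?_).trans (h η)⟩
  rw [ENNReal.ofReal_mul hc.le, ENNReal.ofReal_rpow_of_nonneg (nm_nonneg η) hp.le]

end fib

end Pool.Agent.PG
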