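import Pool.Agent.H.MP_e23cd6_ag.PB.GP
import Pool.Agent.H.MP_e23cd6_ag.PB.GFin
import Pool.Agent.H.MP_e23cd6_ag.PB.GLow
import Pool.Agent.H.MP_e23cd6_ag.TB.PChg

/-!
# The mass inequality of the fibre pair

The measure of the fibre pair, transported by an element `g` of the group and restricted to a compact
subset of a chart, gives a lower bound for the mass in terms of the size of the matrices of `g`.
-/

set_option autoImplicit false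

open scoped Manifold ContDiff ENNReal Topology
open MeasureTheory Matrix

namespace Pool.Agent.PG

open Pool.Agent.SG

section geo

variable {n : ℕ} {R : RG n} {EF : Type} [NormedAddCommGroup EF] [NormedSpace ℂ EF]
  {F : Type} [TopologicalSpace F] {κ ι : Type} [Fintype κ] [DecidableEq κ] [Fintype ι]
  [DecidableEq ι] {m : ℕ}

/-- The domain, in the chart `j`, of `g` seen in the charts `j` and `i`. -/
def jO (Φ : Fib R EF F κ ι m) (g : R.G) (i j : Φ.J) : Set EF :=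
  {x | x ∈ (Φ.φ j).target ∧ Φ.act g ((Φ.φ j).symm x) ∈ (Φ.φ i).source}

/-- The map `g` seen in the charts `j` and `i`. -/
def jG (Φ : Fib R EF F κ ι m) (g : R.G) (i j : Φ.J) : EF → EF :=
  Φ.φ i ∘ Φ.act g ∘ (Φ.φ j).symm

theorem jO_open (Φ : Fib R EF F κ ι m) (g : R.G) (i j : Φ.J) : IsOpen (jO Φ g i j) := by
  have h1 : IsOpen (Φ.act g ⁻¹' (Φ.φ i).source) := (Φ.φ i).open_source.preimage (Φ.cont g)
  exact (Φ.φ j).isOpen_inter_preimage_symm h1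

theorem jG_diff (Φ : Fib R EF F κ ι m) (g : R.G) (i j : Φ.J) {x : EF} (hx : x ∈ jO Φ g i j) :
    DifferentiableAt ℂ (jG Φ g i j) x :=
  (Φ.hol g i j).differentiableAt ((jO_open Φ g i j).mem_nhds hx)

theorem jG_cont (Φ : Fib R EF F κ ι m) (g : R.G) (i j : Φ.J) :
    ContinuousOn (jG Φ g i j) (jO Φ g i j) := fun x hx =>
  (jG_diff Φ g i j hx).continuousAt.continuousWithinAt

theorem jact_inv (Φ : Fib R EF F κ ι m) (g : R.G) (y : F) : Φ.act g⁻¹ (Φ.act g y) = y := by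
  rw [← Φ.mul, inv_mul_cancel, Φ.one]

theorem jG_inj (Φ : Fib R EF F κ ι m) (g : R.G) (i j : Φ.J) :
    Set.InjOn (jG Φ g i j) (jO Φ g i j) := by
  intro x hx y hy h
  have h1 : Φ.act g ((Φ.φ j).symm x) = Φ.act g ((Φ.φ j).symm y) :=
    (Φ.φ i).injOn hx.2 hy.2 h
  have h2 : (Φ.φ j).symm x = (Φ.φ j).symm y := by
    rw [← jact_inv Φ g ((Φ.φ j).symm x), h1, jact_inv]
  exact (Φ.φ j).symm.injOn hx.1 hy.1 h2

theorem jG_symm (Φ : Fib R EF F κ ι m) (g : R.G) (i j : Φ.J) {x : EF} (hx : x ∈ jO Φ g i j) :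
    (Φ.φ i).symm (jG Φ g i j x) = Φ.act g ((Φ.φ j).symm x) := (Φ.φ i).left_inv hx.2

theorem jG_inv (Φ : Fib R EF F κ ι m) (g : R.G) (i j : Φ.J) {x : EF} (hx : x ∈ jO Φ g i j) :
    jG Φ g⁻¹ j i (jG Φ g i j x) = x := by
  show Φ.φ j (Φ.act g⁻¹ ((Φ.φ i).symm (jG Φ g i j x))) = x
  rw [jG_symm Φ g i j hx, jact_inv, (Φ.φ j).right_inv hx.1]

theorem jG_mem (Φ : Fib R EF F κ ι m) (g : R.G) (i j : Φ.J) {x : EF} (hx : x ∈ jO Φ g i j) :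
    jG Φ g i j x ∈ jO Φ g⁻¹ j i := by
  refine ⟨(Φ.φ i).map_source hx.2, ?_⟩
  rw [jG_symm Φ g i j hx, jact_inv]
  exact (Φ.φ j).map_target hx.1

theorem jG_det (Φ : Fib R EF F κ ι m) (g : R.G) (i j : Φ.J) {x : EF} (hx : x ∈ jO Φ g i j) :
    (fderiv ℂ (jG Φ g i j) x).det ≠ 0 := by
  have h1 := (jG_diff Φ g i j hx).hasFDerivAt
  have h2 := (jG_diff Φ g⁻¹ j i (jG_mem Φ g i j hx)).hasFDerivAt
  have h3 := h2.comp x h1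
  have h4 : (jG Φ g⁻¹ j i ∘ jG Φ g i j) =ᶠ[𝓝 x] id := by
    filter_upwards [(jO_open Φ g i j).mem_nhds hx] with w hw
    exact jG_inv Φ g i j hw
  have h5 : HasFDerivAt (jG Φ g⁻¹ j i ∘ jG Φ g i j) (ContinuousLinearMap.id ℂ EF) x :=
    (hasFDerivAt_id x).congr_of_eventuallyEq h4
  have h6 := h3.unique h5
  have h7 : (fderiv ℂ (jG Φ g⁻¹ j i) (jG Φ g i j x)).det * (fderiv ℂ (jG Φ g i j) x).det = 1 := by
    have h8 : (((fderiv ℂ (jG Φ g⁻¹ j i) (jG Φ g i j x)).comp (fderiv ℂ (jG Φ g i j) x)) :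
        EF →L[ℂ] EF).det = 1 := by
      rw [h6]
      exact LinearMap.det_id
    rw [← h8]
    exact (LinearMap.det_comp _ _).symm
  intro h0
  rw [h0, mul_zero] at h7
  exact zero_ne_one h7

end geo

/-- Homogeneity of the density. -/
theorem den_scale {T Q : ℝ≥0∞} (hT : T ≠ 0) (hT' : T ≠ ⊤) (hQ : Q ≠ 0) (hQ' : Q ≠ ⊤) {m : ℕ}
    (hm : 1 ≤ m) {p q : ℝ} (hpq : p + q = 2 / m) {a b c : ℝ≥0∞} (ha : a ≠ ⊤) (hb : b ≠ ⊤)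
    (hc : c ≠ ⊤) :
    Q ^ 2 * ((T * Q ^ m * a) ^ (-p) * (T * Q ^ m * b) ^ (-q) * (T * c) ^ (2 / m : ℝ)) =
      a ^ (-p) * b ^ (-q) * c ^ (2 / m : ℝ) := by
  have hm0 : (0 : ℝ) < m := by exact_mod_cast hm
  have hQm : Q ^ m ≠ ⊤ := ENNReal.pow_ne_top hQ'
  have hTQ : T * Q ^ m ≠ ⊤ := ENNReal.mul_ne_top hT' hQm
  have hTQ0 : T * Q ^ m ≠ 0 := mul_ne_zero hT (pow_ne_zero _ hQ)
  rw [ENNReal.mul_rpow_of_ne_top hTQ ha, ENNReal.mul_rpow_of_ne_top hTQ hb,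
    ENNReal.mul_rpow_of_ne_top hT' hc]
  have h1 : (T * Q ^ m) ^ (-p) * (T * Q ^ m) ^ (-q) = T ^ (-(2 / m : ℝ)) * (Q ^ 2)⁻¹ := by
    rw [← ENNReal.rpow_add _ _ hTQ0 hTQ, show -p + -q = -(2 / m : ℝ) by linarith,
      ENNReal.mul_rpow_of_ne_top hT' hQm]
    congr 1
    rw [← ENNReal.rpow_natCast Q m, ← ENNReal.rpow_mul,
      show (m : ℝ) * -(2 / m : ℝ) = -(2 : ℕ) by
        push_cast
        field_simp, ENNReal.rpow_neg, ENNReal.rpow_natCast]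
  have h2 : T ^ (-(2 / m : ℝ)) * T ^ (2 / m : ℝ) = 1 := by
    rw [← ENNReal.rpow_add _ _ hT hT', neg_add_cancel, ENNReal.rpow_zero]
  have h3 : Q ^ 2 * (Q ^ 2)⁻¹ = 1 :=
    ENNReal.mul_inv_cancel (pow_ne_zero _ hQ) (ENNReal.pow_ne_top hQ')
  calc Q ^ 2 * ((T * Q ^ m) ^ (-p) * a ^ (-p) * ((T * Q ^ m) ^ (-q) * b ^ (-q)) *
        (T ^ (2 / m : ℝ) * c ^ (2 / m : ℝ)))
      = Q ^ 2 * ((T * Q ^ m) ^ (-p) * (T * Q ^ m) ^ (-q)) * T ^ (2 / m : ℝ) *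
          (a ^ (-p) * b ^ (-q) * c ^ (2 / m : ℝ)) := by ring
    _ = (Q ^ 2 * (Q ^ 2)⁻¹) * (T ^ (-(2 / m : ℝ)) * T ^ (2 / m : ℝ)) *
          (a ^ (-p) * b ^ (-q) * c ^ (2 / m : ℝ)) := by rw [h1]; ring
    _ = a ^ (-p) * b ^ (-q) * c ^ (2 / m : ℝ) := by rw [h2, h3, one_mul, one_mul]

section vec

variable {ι : Type} [Fintype ι]

theorem dot_trans (A : Matrix ι ι ℂ) (S s : ι → ℂ) : S ⬝ᵥ (A *ᵥ s) = (Aᵀ *ᵥ S) ⬝ᵥ s := by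
  rw [Matrix.dotProduct_mulVec, Matrix.mulVec_transpose]

theorem dot_le_nm (η s : ι → ℂ) : ‖η ⬝ᵥ s‖ ≤ nm η * nm s := by
  have h1 : ‖η ⬝ᵥ s‖ ≤ ∑ i, ‖η i‖ * ‖s i‖ := by
    unfold dotProduct
    exact (norm_sum_le _ _).trans (le_of_eq (Finset.sum_congr rfl fun i _ => norm_mul _ _))
  refine h1.trans ?_
  unfold nm ns
  exact Real.sum_mul_le_sqrt_mul_sqrt _ _ _

theorem dot_le_sum (η s : ι → ℂ) : ‖η ⬝ᵥ s‖ ≤ (∑ i, ‖η i‖) * ‖s‖ := by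
  unfold dotProduct
  refine (norm_sum_le _ _).trans ?_
  rw [Finset.sum_mul]
  refine Finset.sum_le_sum fun i _ => ?_
  rw [norm_mul]
  exact mul_le_mul_of_nonneg_left (norm_le_pi_norm s i) (norm_nonneg _)

theorem mulVec_le_sm (A : Matrix ι ι ℂ) (s : ι → ℂ) : ‖A *ᵥ s‖ ≤ sm A * ‖s‖ := by
  have h0 : 0 ≤ sm A := Finset.sum_nonneg fun _ _ => Finset.sum_nonneg fun _ _ => norm_nonneg _
  rw [pi_norm_le_iff_of_nonneg (mul_nonneg h0 (norm_nonneg _))]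
  intro i
  refine (dot_le_sum (A i) s).trans ?_
  refine mul_le_mul_of_nonneg_right ?_ (norm_nonneg _)
  unfold sm
  exact Finset.single_le_sum (f := fun i => ∑ j, ‖A i j‖)
    (fun i _ => Finset.sum_nonneg fun _ _ => norm_nonneg _) (Finset.mem_univ i)

theorem norm_le_nm_sup (s : ι → ℂ) : ‖s‖ ≤ nm s := by
  rw [pi_norm_le_iff_of_nonneg (nm_nonneg s)]
  intro i
  unfold nm
  apply Real.le_sqrt_of_sq_le
  unfold ns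
  exact Finset.single_le_sum (f := fun i => ‖s i‖ ^ 2) (fun i _ => sq_nonneg _) (Finset.mem_univ i)

end vec

theorem enorm_le_ofReal' {E : Type} [NormedAddCommGroup E] {x : E} {r : ℝ} (h : ‖x‖ ≤ r) :
    ‖x‖ₑ ≤ ENNReal.ofReal r := by
  rw [← ofReal_norm]
  exact ENNReal.ofReal_le_ofReal h

theorem anti_pow {x y : ℝ≥0∞} (h : x ≤ y) {z : ℝ} (hz : z ≤ 0) : y ^ z ≤ x ^ z := by
  obtain ⟨w, rfl⟩ : ∃ w, z = -w := ⟨-z, (neg_neg z).symm⟩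
  rw [ENNReal.rpow_neg, ENNReal.rpow_neg]
  exact ENNReal.inv_le_inv.2 (ENNReal.rpow_le_rpow h (by linarith))

section dens

variable {n : ℕ} {R : RG n} {EF : Type} [NormedAddCommGroup EF] [NormedSpace ℂ EF]
  {F : Type} [TopologicalSpace F] {κ ι : Type} [Fintype κ] [DecidableEq κ] [Fintype ι]
  [DecidableEq ι] {m : ℕ}

/-- The density transported by `g`. -/
noncomputable def jD (Φ : Fib R EF F κ ι m) (S : ι → ℂ) (ε : ℝ) (g : R.G) (j : Φ.J) (x : EF) :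
    ℝ≥0∞ :=
  ‖S ⬝ᵥ (Φ.Rs.ρ g *ᵥ Φ.σ j ((Φ.φ j).symm x))‖ₑ ^ (-(2 * (1 - ε) / m)) *
    ‖Φ.Rs.ρ g *ᵥ Φ.σ j ((Φ.φ j).symm x)‖ₑ ^ (-(2 * ε / m)) *
    ‖Φ.RN.ρ g *ᵥ Φ.v j ((Φ.φ j).symm x)‖ₑ ^ (2 / m : ℝ)

theorem jD_eq (Φ : Fib R EF F κ ι m) (hm : 1 ≤ m) (S : ι → ℂ) (ε : ℝ) (g : R.G) (i j : Φ.J)
    {x : EF} (hx : x ∈ jO Φ g i j) :
    ‖(fderiv ℂ (jG Φ g i j) x).det‖ₑ ^ 2 * Φ.dens S ε i (jG Φ g i j x) = jD Φ S ε g j x := by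
  have hm0 : (m : ℝ) ≠ 0 := by
    have : (0 : ℝ) < m := by exact_mod_cast hm
    exact this.ne'
  have hy : (Φ.φ j).symm x ∈ (Φ.φ j).source := (Φ.φ j).map_target hx.1
  obtain ⟨t, ht, hσ⟩ := Φ.equi g i j _ (Φ.sub j hy) (Φ.sub i hx.2)
  have hσ' := hσ hy hx.2
  rw [(Φ.φ j).right_inv hx.1] at hσ'
  have ht0 : t ≠ 0 := by
    intro h0
    apply Φ.v_ne i _ (Φ.sub i hx.2)
    rw [ht, h0, zero_smul]
  have hQ0 := jG_det Φ g i j hx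
  have e1 : ∀ w : ι → ℂ, S ⬝ᵥ ((t * (fderiv ℂ (Φ.φ i ∘ Φ.act g ∘ (Φ.φ j).symm) x).det ^ m) • w) =
      (t * (fderiv ℂ (jG Φ g i j) x).det ^ m) * (S ⬝ᵥ w) := fun w => by
    rw [dotProduct_smul, smul_eq_mul]
    rfl
  have e2 : ∀ w : ι → ℂ, ‖(t * (fderiv ℂ (Φ.φ i ∘ Φ.act g ∘ (Φ.φ j).symm) x).det ^ m) • w‖ₑ =
      ‖t‖ₑ * ‖(fderiv ℂ (jG Φ g i j) x).det‖ₑ ^ m * ‖w‖ₑ := fun w => by
    rw [enorm_smul, enorm_mul, enorm_pow]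
    rfl
  unfold Fib.dens jD
  rw [jG_symm Φ g i j hx, ht, hσ', e1, e2, enorm_mul, enorm_mul, enorm_pow, enorm_smul]
  exact den_scale (by simpa using ht0) enorm_ne_top (by simpa using hQ0) enorm_ne_top hm
    (by field_simp; ring) enorm_ne_top enorm_ne_top enorm_ne_top

omit [DecidableEq ι] in
theorem nm_cont : Continuous (nm : (ι → ℂ) → ℝ) := by
  unfold nm ns
  fun_prop

theorem σ_cont' (Φ : Fib R EF F κ ι m) (j : Φ.J) :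
    ContinuousOn (fun x => Φ.σ j ((Φ.φ j).symm x)) (Φ.φ j).target :=
  continuousOn_pi.2 fun α => (Φ.σ_hol j α).continuousOn

/-- The pointwise lower bound. -/
theorem jD_ge (Φ : Fib R EF F κ ι m) (hm : 1 ≤ m) (S : ι → ℂ) {ε : ℝ} (hε : 0 ≤ ε)
    (hε1 : ε < 1) (ξ : κ → ℂ) (g : R.G) (j : Φ.J) {x : EF} {D X : ℝ} (hX : 0 < X)
    (hs : nm (Φ.σ j ((Φ.φ j).symm x)) ≤ D) (hξ : ∑ i, ‖ξ i‖ ≤ X) :
    ENNReal.ofReal (nm ((Φ.Rs.ρ g)ᵀ *ᵥ S)) ^ (-(2 * (1 - ε) / m)) *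
      ENNReal.ofReal (sm (Φ.Rs.ρ g)) ^ (-(2 * ε / m)) *
      (ENNReal.ofReal D ^ (-(2 * (1 - ε) / m)) * ENNReal.ofReal D ^ (-(2 * ε / m)) *
        (ENNReal.ofReal X ^ (2 / m : ℝ))⁻¹) *
      ‖((Φ.RN.ρ g)ᵀ *ᵥ ξ) ⬝ᵥ Φ.v j ((Φ.φ j).symm x)‖ₑ ^ (2 / m : ℝ) ≤ jD Φ S ε g j x := by
  have hm0 : (0 : ℝ) < m := by exact_mod_cast hm
  have hp1 : -(2 * (1 - ε) / m) ≤ 0 := by
    have : 0 ≤ 2 * (1 - ε) / m := by
      have : 0 ≤ 1 - ε := by linarith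
      positivity
    linarith
  have hp2 : -(2 * ε / m) ≤ 0 := by
    have : 0 ≤ 2 * ε / m := by positivity
    linarith
  have hp3 : (0 : ℝ) ≤ 2 / m := by positivity
  have hsm : 0 ≤ sm (Φ.Rs.ρ g) :=
    Finset.sum_nonneg fun _ _ => Finset.sum_nonneg fun _ _ => norm_nonneg _
  have h1 : (ENNReal.ofReal (nm ((Φ.Rs.ρ g)ᵀ *ᵥ S)) * ENNReal.ofReal D) ^
      (-(2 * (1 - ε) / m)) ≤ ‖S ⬝ᵥ (Φ.Rs.ρ g *ᵥ Φ.σ j ((Φ.φ j).symm x))‖ₑ ^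
        (-(2 * (1 - ε) / m)) := by
    refine anti_pow ?_ hp1
    rw [← ENNReal.ofReal_mul (nm_nonneg _), dot_trans]
    refine enorm_le_ofReal' ((dot_le_nm _ _).trans ?_)
    exact mul_le_mul_of_nonneg_left hs (nm_nonneg _)
  have h2 : (ENNReal.ofReal (sm (Φ.Rs.ρ g)) * ENNReal.ofReal D) ^ (-(2 * ε / m)) ≤
      ‖Φ.Rs.ρ g *ᵥ Φ.σ j ((Φ.φ j).symm x)‖ₑ ^ (-(2 * ε / m)) := by
    refine anti_pow ?_ hp2
    rw [← ENNReal.ofReal_mul hsm]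
    refine enorm_le_ofReal' ((mulVec_le_sm _ _).trans ?_)
    exact mul_le_mul_of_nonneg_left ((norm_le_nm_sup _).trans hs) hsm
  have h3 : ‖((Φ.RN.ρ g)ᵀ *ᵥ ξ) ⬝ᵥ Φ.v j ((Φ.φ j).symm x)‖ₑ ^ (2 / m : ℝ) ≤
      ENNReal.ofReal X ^ (2 / m : ℝ) *
        ‖Φ.RN.ρ g *ᵥ Φ.v j ((Φ.φ j).symm x)‖ₑ ^ (2 / m : ℝ) := by
    rw [← ENNReal.mul_rpow_of_nonneg _ _ hp3, ← dot_trans]
    refine ENNReal.rpow_le_rpow ?_ hp3
    rw [← ofReal_norm (Φ.RN.ρ g *ᵥ Φ.v j ((Φ.φ j).symm x)), ← ENNReal.ofReal_mul hX.le]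
    refine enorm_le_ofReal' ((dot_le_sum _ _).trans ?_)
    exact mul_le_mul_of_nonneg_right hξ (norm_nonneg _)
  rw [ENNReal.mul_rpow_of_ne_top ENNReal.ofReal_ne_top ENNReal.ofReal_ne_top] at h1 h2
  have hX0 : ENNReal.ofReal X ^ (2 / m : ℝ) ≠ 0 := by
    have h0 : ENNReal.ofReal X ≠ 0 := (ENNReal.ofReal_pos.2 hX).ne'
    intro h
    rcases ENNReal.rpow_eq_zero_iff.1 h with h | h
    · exact h0 h.1
    · exact ENNReal.ofReal_ne_top h.1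
  have hXt : ENNReal.ofReal X ^ (2 / m : ℝ) ≠ ⊤ :=
    ENNReal.rpow_ne_top_of_nonneg hp3 ENNReal.ofReal_ne_top
  have h4 : (ENNReal.ofReal X ^ (2 / m : ℝ))⁻¹ *
      ‖((Φ.RN.ρ g)ᵀ *ᵥ ξ) ⬝ᵥ Φ.v j ((Φ.φ j).symm x)‖ₑ ^ (2 / m : ℝ) ≤
      ‖Φ.RN.ρ g *ᵥ Φ.v j ((Φ.φ j).symm x)‖ₑ ^ (2 / m : ℝ) := by
    calc _ ≤ (ENNReal.ofReal X ^ (2 / m : ℝ))⁻¹ * (ENNReal.ofReal X ^ (2 / m : ℝ) *
        ‖Φ.RN.ρ g *ᵥ Φ.v j ((Φ.φ j).symm x)‖ₑ ^ (2 / m : ℝ)) := by gcongr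
      _ = _ := by
        rw [← mul_assoc, ENNReal.inv_mul_cancel hX0 hXt, one_mul]
  unfold jD
  calc _ = (ENNReal.ofReal (nm ((Φ.Rs.ρ g)ᵀ *ᵥ S)) ^ (-(2 * (1 - ε) / m)) *
        ENNReal.ofReal D ^ (-(2 * (1 - ε) / m))) *
      (ENNReal.ofReal (sm (Φ.Rs.ρ g)) ^ (-(2 * ε / m)) * ENNReal.ofReal D ^ (-(2 * ε / m))) *
      ((ENNReal.ofReal X ^ (2 / m : ℝ))⁻¹ *
        ‖((Φ.RN.ρ g)ᵀ *ᵥ ξ) ⬝ᵥ Φ.v j ((Φ.φ j).symm x)‖ₑ ^ (2 / m : ℝ)) := by ring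
    _ ≤ _ := mul_le_mul' (mul_le_mul' h1 h2) h4

end dens

/-- From the inequality of the masses to the one of the norms. -/
theorem of_mass {N a b : ℝ} (hN : 0 ≤ N) (ha : 0 ≤ a) (hb : 0 ≤ b) {m : ℕ} (hm : 1 ≤ m) {ε : ℝ}
    (hε : 0 < ε) (hε1 : ε < 1) {T : ℝ≥0∞} (hT : T ≠ ⊤)
    (h : ENNReal.ofReal N ^ ((2 : ℝ) / m) * ENNReal.ofReal a ^ (-(2 * (1 - ε) / m)) *
      ENNReal.ofReal b ^ (-(2 * ε / m)) ≤ T) :
    N ≤ (T ^ ((m : ℝ) / 2)).toReal * a ^ (1 - ε) * b ^ ε := by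
  have hm0 : (0 : ℝ) < m := by exact_mod_cast hm
  have hε2 : 0 < 1 - ε := by linarith
  have hp1 : 0 < 2 * (1 - ε) / m := by positivity
  have hp2 : 0 < 2 * ε / m := by positivity
  have hp3 : (0 : ℝ) < 2 / m := by positivity
  have hm2 : (0 : ℝ) < m / 2 := by positivity
  have hR : 0 ≤ (T ^ ((m : ℝ) / 2)).toReal * a ^ (1 - ε) * b ^ ε := by positivity
  rcases hN.eq_or_lt with h0 | h0
  · rw [← h0]
    exact hR
  have hN0 : ENNReal.ofReal N ^ ((2 : ℝ) / m) ≠ 0 := by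
    intro h'
    rcases ENNReal.rpow_eq_zero_iff.1 h' with h' | h'
    · exact (ENNReal.ofReal_pos.2 h0).ne' h'.1
    · exact ENNReal.ofReal_ne_top h'.1
  have key : ENNReal.ofReal N ^ ((2 : ℝ) / m) ≤
      T * (ENNReal.ofReal a ^ (2 * (1 - ε) / m) * ENNReal.ofReal b ^ (2 * ε / m)) := by
    rcases ha.eq_or_lt with ha0 | ha0
    · exfalso
      rw [← ha0, ENNReal.ofReal_zero, ENNReal.zero_rpow_of_neg (by linarith),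
        ENNReal.mul_top hN0, ENNReal.top_mul] at h
      · exact hT (top_le_iff.1 h)
      · intro h'
        rcases ENNReal.rpow_eq_zero_iff.1 h' with h' | h'
        · linarith [h'.2]
        · exact ENNReal.ofReal_ne_top h'.1
    · rcases hb.eq_or_lt with hb0 | hb0
      · exfalso
        rw [← hb0, ENNReal.ofReal_zero, ENNReal.zero_rpow_of_neg (by linarith),
          ENNReal.mul_top] at h
        · exact hT (top_le_iff.1 h)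
        · refine mul_ne_zero hN0 ?_
          intro h'
          rcases ENNReal.rpow_eq_zero_iff.1 h' with h' | h'
          · linarith [h'.2]
          · exact ENNReal.ofReal_ne_top h'.1
      · have h1 : ∀ {c : ℝ} (p : ℝ), 0 < c →
            ENNReal.ofReal c ^ (-p) * ENNReal.ofReal c ^ p = 1 := fun {c} p hc => by
          rw [← ENNReal.rpow_add _ _ (ENNReal.ofReal_pos.2 hc).ne' ENNReal.ofReal_ne_top,
            neg_add_cancel, ENNReal.rpow_zero]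
        calc ENNReal.ofReal N ^ ((2 : ℝ) / m) = ENNReal.ofReal N ^ ((2 : ℝ) / m) *
              (ENNReal.ofReal a ^ (-(2 * (1 - ε) / m)) * ENNReal.ofReal a ^ (2 * (1 - ε) / m)) *
              (ENNReal.ofReal b ^ (-(2 * ε / m)) * ENNReal.ofReal b ^ (2 * ε / m)) := by
              rw [h1 _ ha0, h1 _ hb0, mul_one, mul_one]
          _ = ENNReal.ofReal N ^ ((2 : ℝ) / m) * ENNReal.ofReal a ^ (-(2 * (1 - ε) / m)) *
              ENNReal.ofReal b ^ (-(2 * ε / m)) *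
              (ENNReal.ofReal a ^ (2 * (1 - ε) / m) * ENNReal.ofReal b ^ (2 * ε / m)) := by ring
          _ ≤ _ := by gcongr
  have h2 := ENNReal.rpow_le_rpow key hm2.le
  rw [← ENNReal.rpow_mul, show (2 : ℝ) / m * (m / 2) = 1 by field_simp, ENNReal.rpow_one,
    ENNReal.mul_rpow_of_nonneg _ _ hm2.le, ENNReal.mul_rpow_of_nonneg _ _ hm2.le,
    ← ENNReal.rpow_mul, ← ENNReal.rpow_mul,
    show 2 * (1 - ε) / m * ((m : ℝ) / 2) = 1 - ε by field_simp,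
    show 2 * ε / m * ((m : ℝ) / 2) = ε by field_simp,
    ENNReal.ofReal_rpow_of_nonneg ha hε2.le, ENNReal.ofReal_rpow_of_nonneg hb hε.le] at h2
  have hTt : T ^ ((m : ℝ) / 2) ≠ ⊤ := ENNReal.rpow_ne_top_of_nonneg hm2.le hT
  have h3 : ENNReal.ofReal N ≤ ENNReal.ofReal ((T ^ ((m : ℝ) / 2)).toReal * a ^ (1 - ε) * b ^ ε) := by
    rw [mul_assoc, ENNReal.ofReal_mul ENNReal.toReal_nonneg, ENNReal.ofReal_toReal hTt,
      ENNReal.ofReal_mul (by positivity)]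
    exact h2
  exact (ENNReal.ofReal_le_ofReal_iff hR).1 h3

section int

variable {n : ℕ} {R : RG n} {EF : Type} [NormedAddCommGroup EF] [NormedSpace ℂ EF]
  {F : Type} [TopologicalSpace F] {κ ι : Type} [Fintype κ] [DecidableEq κ] [Fintype ι]
  [DecidableEq ι] {m : ℕ} [FiniteDimensional ℂ EF] [MeasureSpace EF] [BorelSpace EF]
  [(volume : Measure EF).IsAddHaarMeasure]

omit [FiniteDimensional ℂ EF] [(volume : Measure EF).IsAddHaarMeasure] in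
theorem jB_meas (Φ : Fib R EF F κ ι m) (g : R.G) (i j : Φ.J) {A : Set EF}
    (hA : MeasurableSet A) : MeasurableSet (jO Φ g i j ∩ jG Φ g i j ⁻¹' A) := by
  have h1 : MeasurableSet ((jO Φ g i j).domRestrict (jG Φ g i j) ⁻¹' A) :=
    (continuousOn_iff_continuous_domRestrict.1 (jG_cont Φ g i j)).measurable hA
  have h2 := (jO_open Φ g i j).measurableSet.subtype_image h1
  have h3 : (Subtype.val '' ((jO Φ g i j).domRestrict (jG Φ g i j) ⁻¹' A) : Set EF) =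
      jO Φ g i j ∩ jG Φ g i j ⁻¹' A := by
    ext x
    constructor
    · rintro ⟨⟨y, hy⟩, hyA, rfl⟩
      exact ⟨hy, hyA⟩
    · rintro ⟨hx, hxA⟩
      exact ⟨⟨x, hx⟩, hxA, rfl⟩
  rwa [h3] at h2

/-- The change of variables. -/
theorem int_jD (Φ : Fib R EF F κ ι m) (hm : 1 ≤ m) (S : ι → ℂ) (ε : ℝ) (g : R.G) (i j : Φ.J)
    {B : Set EF} (hB : MeasurableSet B) (hBO : B ⊆ jO Φ g i j) :
    ∫⁻ x in B, jD Φ S ε g j x = ∫⁻ x in jG Φ g i j '' B, Φ.dens S ε i x := by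
  have h1 : ∀ x ∈ B, HasFDerivWithinAt (jG Φ g i j)
      ((fderiv ℂ (jG Φ g i j) x).restrictScalars ℝ) B x := fun x hx =>
    ((jG_diff Φ g i j (hBO hx)).hasFDerivAt.restrictScalars ℝ).hasFDerivWithinAt
  have : FiniteDimensional ℝ EF := FiniteDimensional.complexToReal EF
  rw [lintegral_image_eq_lintegral_abs_det_fderiv_mul volume hB h1
    ((jG_inj Φ g i j).mono hBO)]
  refine setLIntegral_congr_fun hB fun x hx => ?_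
  show _ = ENNReal.ofReal |((fderiv ℂ (jG Φ g i j) x).restrictScalars ℝ).det| *
    Φ.dens S ε i (jG Φ g i j x)
  rw [← jD_eq Φ hm S ε g i j (hBO hx), Pool.Agent.Abd.pchg_det_restrictScalars,
    abs_of_nonneg (by positivity), ENNReal.ofReal_pow (norm_nonneg _), ofReal_norm]

theorem int_jD_le (Φ : Fib R EF F κ ι m) (hm : 1 ≤ m) (S : ι → ℂ) (ε : ℝ)
    {k : ℕ → Φ.J} {A : ℕ → Set EF} (hA : ∀ l, MeasurableSet (A l) ∧ A l ⊆ (Φ.φ (k l)).target)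
    (hcov : ∀ j, ∀ y ∈ (Φ.φ j).source, ∃ l, y ∈ (Φ.φ (k l)).source ∧ Φ.φ (k l) y ∈ A l)
    {i : Φ.J} {K : Set EF} (hK : MeasurableSet K) (hKt : K ⊆ (Φ.φ i).target) (g : R.G) :
    ∫⁻ x in K, jD Φ S ε g i x ≤ ∑' l, ∫⁻ x in A l ∩ {x | ∃ x' ∈ K,
      Φ.act g ((Φ.φ i).symm x') = (Φ.φ (k l)).symm x}, Φ.dens S ε (k l) x := by
  have h1 : K ⊆ ⋃ l, K ∩ (jO Φ g (k l) i ∩ jG Φ g (k l) i ⁻¹' A l) := by
    intro x hx
    have hx1 := hKt hx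
    obtain ⟨j, hj⟩ := Φ.reg g i _ ((Φ.φ i).map_target hx1)
    obtain ⟨l, hl, hl'⟩ := hcov j _ hj
    exact Set.mem_iUnion.2 ⟨l, hx, ⟨hx1, hl⟩, hl'⟩
  calc ∫⁻ x in K, jD Φ S ε g i x
      ≤ ∫⁻ x in ⋃ l, K ∩ (jO Φ g (k l) i ∩ jG Φ g (k l) i ⁻¹' A l), jD Φ S ε g i x :=
        lintegral_mono_set h1
    _ ≤ ∑' l, ∫⁻ x in K ∩ (jO Φ g (k l) i ∩ jG Φ g (k l) i ⁻¹' A l), jD Φ S ε g i x :=
        lintegral_iUnion_le _ _
    _ ≤ _ := by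
        refine ENNReal.tsum_le_tsum fun l => ?_
        rw [int_jD Φ hm S ε g (k l) i (hK.inter (jB_meas Φ g (k l) i (hA l).1))
          (Set.inter_subset_right.trans Set.inter_subset_left)]
        refine lintegral_mono_set ?_
        rintro _ ⟨x, ⟨hxK, hxO, hxA⟩, rfl⟩
        exact ⟨hxA, x, hxK, (jG_symm Φ g (k l) i hxO).symm⟩

/-- The mass inequality: the mass, for the measure of the fibre pair, of the translate by `g` of a compact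
subset of a chart with nonempty interior. -/
theorem J_core (Φ : Fib R EF F κ ι m) (hm : 1 ≤ m) {S : ι → ℂ} {ε : ℝ} (hε : 0 ≤ ε) (hε1 : ε < 1)
    {k : ℕ → Φ.J} {A : ℕ → Set EF} (hA : ∀ l, MeasurableSet (A l) ∧ A l ⊆ (Φ.φ (k l)).target)
    (hcov : ∀ j, ∀ y ∈ (Φ.φ j).source, ∃ l, y ∈ (Φ.φ (k l)).source ∧ Φ.φ (k l) y ∈ A l)
    {i : Φ.J} {K : Set EF} (hK : IsCompact K) (hKt : K ⊆ (Φ.φ i).target)
    (hint : (interior K).Nonempty) (ξ : κ → ℂ) :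
    ∃ C : ℝ≥0∞, C ≠ ⊤ ∧ ∀ g : R.G,
      ENNReal.ofReal (nm ((Φ.RN.ρ g)ᵀ *ᵥ ξ)) ^ ((2 : ℝ) / m) *
        ENNReal.ofReal (nm ((Φ.Rs.ρ g)ᵀ *ᵥ S)) ^ (-(2 * (1 - ε) / m)) *
        ENNReal.ofReal (sm (Φ.Rs.ρ g)) ^ (-(2 * ε / m)) ≤
      C * ∑' l, ∫⁻ x in A l ∩ {x | ∃ x' ∈ K, Φ.act g ((Φ.φ i).symm x') = (Φ.φ (k l)).symm x},
        Φ.dens S ε (k l) x := by
  have hm0 : (0 : ℝ) < m := by exact_mod_cast hm
  have hp3 : (0 : ℝ) ≤ 2 / m := by positivity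
  obtain ⟨c, hc, hlow⟩ := low_bound Φ hm hK hKt hint
  obtain ⟨D₀, hD₀⟩ := hK.exists_bound_of_continuousOn
    ((nm_cont (ι := ι)).comp_continuousOn ((σ_cont' Φ i).mono hKt))
  set D := max D₀ 1 with hDdef
  have hD1 : 1 ≤ D := le_max_right _ _
  have hD0 : 0 < D := by linarith
  have hD : ∀ x ∈ K, nm (Φ.σ i ((Φ.φ i).symm x)) ≤ D := fun x hx =>
    (le_abs_self _).trans ((hD₀ x hx).trans (le_max_left _ _))
  set X : ℝ := ∑ i, ‖ξ i‖ + 1 with hXdef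
  have hX0 : 0 < X := by
    have : 0 ≤ ∑ i, ‖ξ i‖ := Finset.sum_nonneg fun _ _ => norm_nonneg _
    linarith
  have hXξ : ∑ i, ‖ξ i‖ ≤ X := by linarith
  have hne : ∀ {r : ℝ} (p : ℝ), 0 < r → ENNReal.ofReal r ^ p ≠ 0 ∧ ENNReal.ofReal r ^ p ≠ ⊤ := by
    intro r p hr
    rw [ENNReal.ofReal_rpow_of_pos hr]
    exact ⟨(ENNReal.ofReal_pos.2 (by positivity)).ne', ENNReal.ofReal_ne_top⟩
  set q₀ : ℝ≥0∞ := ENNReal.ofReal D ^ (-(2 * (1 - ε) / m)) * ENNReal.ofReal D ^ (-(2 * ε / m)) *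
    (ENNReal.ofReal X ^ (2 / m : ℝ))⁻¹ with hq₀
  have hq0 : q₀ ≠ 0 :=
    mul_ne_zero (mul_ne_zero (hne _ hD0).1 (hne _ hD0).1) (ENNReal.inv_ne_zero.2 (hne _ hX0).2)
  have hqt : q₀ ≠ ⊤ :=
    ENNReal.mul_ne_top (ENNReal.mul_ne_top (hne _ hD0).2 (hne _ hD0).2)
      (ENNReal.inv_ne_top.2 (hne _ hX0).1)
  set c' : ℝ≥0∞ := min c 1 with hc'
  have hc0 : c' ≠ 0 := by
    rw [hc']
    exact (lt_min (pos_iff_ne_zero.2 hc) one_pos).ne'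
  have hct : c' ≠ ⊤ := ne_top_of_le_ne_top ENNReal.one_ne_top (min_le_right _ _)
  have hqc0 : q₀ * c' ≠ 0 := mul_ne_zero hq0 hc0
  have hqct : q₀ * c' ≠ ⊤ := ENNReal.mul_ne_top hqt hct
  refine ⟨(q₀ * c')⁻¹, ENNReal.inv_ne_top.2 hqc0, fun g => ?_⟩
  have h1 : q₀ * c' * (ENNReal.ofReal (nm ((Φ.RN.ρ g)ᵀ *ᵥ ξ)) ^ ((2 : ℝ) / m) *
        ENNReal.ofReal (nm ((Φ.Rs.ρ g)ᵀ *ᵥ S)) ^ (-(2 * (1 - ε) / m)) *
        ENNReal.ofReal (sm (Φ.Rs.ρ g)) ^ (-(2 * ε / m))) ≤ ∫⁻ x in K, jD Φ S ε g i x := by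
    calc _ = (ENNReal.ofReal (nm ((Φ.Rs.ρ g)ᵀ *ᵥ S)) ^ (-(2 * (1 - ε) / m)) *
          ENNReal.ofReal (sm (Φ.Rs.ρ g)) ^ (-(2 * ε / m)) * q₀) *
          (c' * ENNReal.ofReal (nm ((Φ.RN.ρ g)ᵀ *ᵥ ξ)) ^ ((2 : ℝ) / m)) := by ring
      _ ≤ (ENNReal.ofReal (nm ((Φ.Rs.ρ g)ᵀ *ᵥ S)) ^ (-(2 * (1 - ε) / m)) *
          ENNReal.ofReal (sm (Φ.Rs.ρ g)) ^ (-(2 * ε / m)) * q₀) *
          ∫⁻ x in K, ‖((Φ.RN.ρ g)ᵀ *ᵥ ξ) ⬝ᵥ Φ.v i ((Φ.φ i).symm x)‖ₑ ^ ((2 : ℝ) / m) := by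
          refine mul_le_mul' le_rfl (le_trans ?_ (hlow _))
          exact mul_le_mul' (min_le_left _ _) le_rfl
      _ ≤ ∫⁻ x in K, (ENNReal.ofReal (nm ((Φ.Rs.ρ g)ᵀ *ᵥ S)) ^ (-(2 * (1 - ε) / m)) *
          ENNReal.ofReal (sm (Φ.Rs.ρ g)) ^ (-(2 * ε / m)) * q₀) *
          ‖((Φ.RN.ρ g)ᵀ *ᵥ ξ) ⬝ᵥ Φ.v i ((Φ.φ i).symm x)‖ₑ ^ ((2 : ℝ) / m) :=
          lintegral_const_mul_le _ _
      _ ≤ _ := setLIntegral_mono' hK.measurableSet fun x hx =>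
          jD_ge Φ hm S hε hε1 ξ g i hX0 (hD x hx) hXξ
  have h2 := h1.trans (int_jD_le Φ hm S ε hA hcov hK.measurableSet hKt g)
  calc _ = (q₀ * c')⁻¹ * (q₀ * c' * (ENNReal.ofReal (nm ((Φ.RN.ρ g)ᵀ *ᵥ ξ)) ^ ((2 : ℝ) / m) *
        ENNReal.ofReal (nm ((Φ.Rs.ρ g)ᵀ *ᵥ S)) ^ (-(2 * (1 - ε) / m)) *
        ENNReal.ofReal (sm (Φ.Rs.ρ g)) ^ (-(2 * ε / m)))) := by
        rw [← mul_assoc (q₀ * c')⁻¹, ENNReal.inv_mul_cancel hqc0 hqct, one_mul]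
    _ ≤ _ := by gcongr

/-- The fibre inequality of a lc fibre pair. -/
theorem J_ineq [CompactSpace F] (Φ : Fib R EF F κ ι m) (hm : 1 ≤ m) {S : ι → ℂ} (hS : Φ.LC S)
    (ξ : κ → ℂ) {ε : ℝ} (hε : 0 < ε) (hε1 : ε < 1) :
    ∃ C : ℝ, 0 < C ∧ ∀ g : R.G, nm ((Φ.RN.ρ g)ᵀ *ᵥ ξ) ≤
      C * nm ((Φ.Rs.ρ g)ᵀ *ᵥ S) ^ (1 - ε) * sm (Φ.Rs.ρ g) ^ ε := by
  obtain ⟨i, y, hy⟩ := Φ.ne
  have hx₀ : Φ.φ i y ∈ (Φ.φ i).target := (Φ.φ i).map_source hy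
  obtain ⟨r, hr, hball⟩ := Metric.nhds_basis_closedBall.mem_iff.1
    ((Φ.φ i).open_target.mem_nhds hx₀)
  have : ProperSpace EF := FiniteDimensional.proper ℂ EF
  obtain ⟨k, A, hA, hcov, hfin⟩ := LC_fin Φ hS hε hε1
  obtain ⟨C, hC, h⟩ := J_core Φ hm hε.le hε1 hA
    (fun j y hy => hcov j y ⟨Set.mem_univ _, hy⟩) (isCompact_closedBall (Φ.φ i y) r) hball
    ⟨Φ.φ i y, Metric.ball_subset_interior_closedBall (Metric.mem_ball_self hr)⟩ ξ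
  set T : ℝ≥0∞ := C * ∑' l, ∫⁻ x in A l, Φ.dens S ε (k l) x with hTdef
  have hT : T ≠ ⊤ := ENNReal.mul_ne_top hC hfin.ne
  refine ⟨(T ^ ((m : ℝ) / 2)).toReal + 1, by positivity, fun g => ?_⟩
  have h1 := (h g).trans (mul_le_mul' le_rfl (ENNReal.tsum_le_tsum fun l =>
    lintegral_mono_set Set.inter_subset_left) : _ ≤ T)
  have hsm : 0 ≤ sm (Φ.Rs.ρ g) :=
    Finset.sum_nonneg fun _ _ => Finset.sum_nonneg fun _ _ => norm_nonneg _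
  refine (of_mass (nm_nonneg _) (nm_nonneg _) hsm hm hε hε1 hT h1).trans ?_
  have h2 : 0 ≤ nm ((Φ.Rs.ρ g)ᵀ *ᵥ S) := nm_nonneg _
  gcongr
  linarith

end int

end Pool.Agent.PG
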