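import Pool.Agent.H.MP_e23cd6_ag.PB.GKNa

/-!
# Minimal vectors: first variation, and the matrix coefficient `⟨k w, w⟩` near the identity
-/

set_option autoImplicit false

namespace Pool.Agent.PG

open Matrix Topology Set Pool.Agent.SG

variable {n : ℕ} {R : RG n}

/-- The adjoint of an element of the group. -/
noncomputable def ct (g : R.G) : R.G := ⟨(R.star g g.2).choose, (R.star g g.2).choose_spec.1⟩

theorem mx_ct (g : R.G) : mx (ct g) = (mx g)ᴴ := (R.star g g.2).choose_spec.2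

theorem ct_uni {k : R.G} (hk : Uni (k : GL (Fin n) ℂ)) : ct k = k⁻¹ := by
  apply mx_ext
  rw [mx_ct, mx_inv_of_uni hk]

theorem ct_inv_uni {k : R.G} (hk : Uni (k : GL (Fin n) ℂ)) : ct k⁻¹ = k := by
  apply mx_ext
  rw [mx_ct, mx_inv_of_uni hk, conjTranspose_conjTranspose]

/-- The element `exp (z H)` of the torus. -/
noncomputable def dg {H : Fin n → ℝ} (hH : H ∈ R.a) (z : ℂ) : R.G :=
  ⟨(R.tor H hH z).choose, (R.tor H hH z).choose_spec.1⟩

theorem mx_dg {H : Fin n → ℝ} (hH : H ∈ R.a) (z : ℂ) : mx (dg hH z) = dE H z :=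
  (R.tor H hH z).choose_spec.2

theorem dg_uni {H : Fin n → ℝ} (hH : H ∈ R.a) (t : ℝ) :
    Uni ((dg hH (t * Complex.I) : R.G) : GL (Fin n) ℂ) := by
  show (mx (dg hH (t * Complex.I)))ᴴ * mx (dg hH (t * Complex.I)) = 1
  rw [mx_dg]
  unfold dE
  rw [Matrix.diagonal_conjTranspose, Matrix.diagonal_mul_diagonal, ← Matrix.diagonal_one]
  congr 1
  funext j
  rw [Pi.star_apply, Complex.star_def, ← Complex.exp_conj, ← Complex.exp_add,
    ← Complex.exp_zero]
  congr 1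
  simp

/-- The Cartan decomposition. -/
theorem cartan' (g : R.G) : ∃ k₁ k₂ : R.G, Uni (k₁ : GL (Fin n) ℂ) ∧ Uni (k₂ : GL (Fin n) ℂ) ∧
    ∃ (H : Fin n → ℝ) (hH : H ∈ R.a), g = k₁ * dg hH 1 * k₂ := by
  obtain ⟨k₁, h1, k₂, h2, hu1, hu2, H, hH, h⟩ := R.cartan g g.2
  refine ⟨⟨k₁, h1⟩, ⟨k₂, h2⟩, hu1, hu2, H, hH, ?_⟩
  apply mx_ext
  rw [mx_mul, mx_mul, mx_dg]
  exact h

/-- `|x| ≤ 2 |e^{ix} - 1|` for `|x| ≤ 1`. -/
theorem abs_le_expI {x : ℝ} (hx : |x| ≤ 1) : |x| ≤ 2 * ‖Complex.exp (Complex.I * x) - 1‖ := by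
  rw [mul_comm Complex.I]
  exact abs_le_exp (hx.trans (by linarith [Real.pi_gt_three]))

/-- The elements of `K` near the identity. -/
theorem near_one (R : RG n) : ∃ r > 0, ∀ k : R.G, Uni (k : GL (Fin n) ℂ) → dst k ≤ r →
    ∃ u : R.G, Uni (u : GL (Fin n) ℂ) ∧ ∃ (H : Fin n → ℝ) (hH : H ∈ R.a),
    k = u⁻¹ * dg hH Complex.I * u ∧ ∀ j, |H j| ≤ 2 * (n : ℝ) ^ 2 * dst k := by
  obtain ⟨δ, hδ, hn⟩ := R.near
  refine ⟨δ, hδ, fun k hk hd => ?_⟩
  obtain ⟨u, huG, hu, H, hH, hH1, hkH⟩ := hn k k.2 hk fun i j => (entry_le_dst k i j).trans hd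
  obtain ⟨v, hv⟩ : ∃ v : R.G, v = ⟨u, huG⟩ := ⟨_, rfl⟩
  have hvu : Uni (v : GL (Fin n) ℂ) := by rw [hv]; exact hu
  have hkv : mx k = (mx v)ᴴ * dE H Complex.I * mx v := by rw [hv]; exact hkH
  refine ⟨v, hvu, H, hH, ?_, fun j => ?_⟩
  · apply mx_ext
    rw [mx_mul, mx_mul, mx_dg, mx_inv_of_uni hvu]
    exact hkv
  · have hd0 := dst_nonneg k
    have e1 : mx v * (mx k - 1) * (mx v)ᴴ = dE H Complex.I - 1 := by
      rw [Matrix.mul_sub, Matrix.mul_one, Matrix.sub_mul, uni_mul' hvu, hkv]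
      congr 1
      calc mx v * ((mx v)ᴴ * dE H Complex.I * mx v) * (mx v)ᴴ
          = (mx v * (mx v)ᴴ) * dE H Complex.I * (mx v * (mx v)ᴴ) := by
            simp only [Matrix.mul_assoc]
        _ = dE H Complex.I := by rw [uni_mul' hvu, Matrix.one_mul, Matrix.mul_one]
    have e2 := congrFun (congrFun e1 j) j
    have e3 : Complex.exp (Complex.I * H j) - 1 = ∑ a, ∑ b, mx v j a *
        (mx k a b - (1 : Matrix (Fin n) (Fin n) ℂ) a b) * star (mx v j b) := by
      have e4 : (dE H Complex.I - 1) j j = Complex.exp (Complex.I * H j) - 1 := by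
        unfold dE
        rw [Matrix.sub_apply, Matrix.diagonal_apply_eq, Matrix.one_apply_eq]
      rw [← e4, ← e2, Matrix.mul_apply]
      simp only [Matrix.mul_apply, Finset.sum_mul, Matrix.conjTranspose_apply, Matrix.sub_apply]
      exact Finset.sum_comm
    have hcb : ‖Complex.exp (Complex.I * H j) - 1‖ ≤ (n : ℝ) ^ 2 * dst k := by
      rw [e3]
      refine (norm_sum_le _ _).trans ?_
      have h3 : ∀ a ∈ Finset.univ, ‖∑ b, mx v j a *
          (mx k a b - (1 : Matrix (Fin n) (Fin n) ℂ) a b) * star (mx v j b)‖ ≤ n * dst k := by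
        intro a _
        refine (norm_sum_le _ _).trans ?_
        have h4 : ∀ b ∈ Finset.univ, ‖mx v j a *
            (mx k a b - (1 : Matrix (Fin n) (Fin n) ℂ) a b) * star (mx v j b)‖ ≤ dst k := by
          intro b _
          rw [norm_mul, norm_mul, norm_star]
          have a1 := uni_entry_le hvu j a
          have a2 := uni_entry_le hvu j b
          have a3 := entry_le_dst k a b
          have a4 := norm_nonneg (mx v j a)
          have a5 := norm_nonneg (mx v j b)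
          have a6 := norm_nonneg (mx k a b - (1 : Matrix (Fin n) (Fin n) ℂ) a b)
          calc _ ≤ 1 * dst k * 1 := by gcongr
            _ = dst k := by ring
        refine (Finset.sum_le_sum h4).trans ?_
        rw [Finset.sum_const, Finset.card_univ, Fintype.card_fin, nsmul_eq_mul]
      refine (Finset.sum_le_sum h3).trans ?_
      rw [Finset.sum_const, Finset.card_univ, Fintype.card_fin, nsmul_eq_mul]
      exact le_of_eq (by ring)
    have h5 := abs_le_expI (hH1 j)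
    linarith

/-! ## The action -/

namespace GRep

variable {ι : Type} [Fintype ι] [DecidableEq ι] (V : GRep R ι)

theorem act_zero (g : R.G) : V.act g (0 : ι → ℂ) = 0 := Matrix.mulVec_zero _

theorem ip_act (g : R.G) (v w : ι → ℂ) : ip (V.act g v) w = ip v (V.act (ct g) w) := by
  unfold act
  rw [V.star g (ct g) (mx_ct g)]
  have h1 : ∀ x y : ι → ℂ, ip x y = x ⬝ᵥ Star.star y := fun _ _ => rfl
  rw [h1, h1, Matrix.star_mulVec, conjTranspose_conjTranspose, dotProduct_comm,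
    Matrix.dotProduct_mulVec, dotProduct_comm]

theorem ip_act_K {k : R.G} (hk : Uni (k : GL (Fin n) ℂ)) (v w : ι → ℂ) :
    ip (V.act k v) (V.act k w) = ip v w := by
  rw [ip_act, ct_uni hk, ← act_mul, inv_mul_cancel, act_one]

theorem ns_act_K {k : R.G} (hk : Uni (k : GL (Fin n) ℂ)) (v : ι → ℂ) :
    ns (V.act k v) = ns v := by
  have h := V.ip_act_K hk v v
  rw [ip_self, ip_self] at h
  exact_mod_cast h

theorem nm_act_K {k : R.G} (hk : Uni (k : GL (Fin n) ℂ)) (v : ι → ℂ) :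
    nm (V.act k v) = nm v := by
  unfold nm
  rw [V.ns_act_K hk]

theorem continuous_act : Continuous (fun p : R.G × (ι → ℂ) => V.act p.1 p.2) := by
  unfold act
  exact Continuous.matrix_mulVec (V.cont.comp continuous_fst) continuous_snd

theorem act_dg {H : Fin n → ℝ} (hH : H ∈ R.a) (z : ℂ) (v : ι → ℂ) (i : ι) :
    V.act (dg hH z) v i = Complex.exp (z * V.lam i H) * v i := by
  unfold act
  rw [V.diag H hH z (dg hH z) (mx_dg hH z), Matrix.mulVec_diagonal]

theorem ns_act_dg {H : Fin n → ℝ} (hH : H ∈ R.a) (s : ℝ) (v : ι → ℂ) :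
    ns (V.act (dg hH s) v) = ∑ i, Real.exp (2 * s * V.lam i H) * ‖v i‖ ^ 2 := by
  unfold ns
  refine Finset.sum_congr rfl fun i _ => ?_
  rw [act_dg, norm_mul, mul_pow, Complex.norm_exp, ← Real.exp_nat_mul]
  congr 2
  rw [← Complex.ofReal_mul, Complex.ofReal_re]
  push_cast
  ring

/-- `w` is a unit vector of minimal norm in its orbit. -/
def Min (w : ι → ℂ) : Prop := ns w = 1 ∧ ∀ g, 1 ≤ ns (V.act g w)

variable {V}

theorem Min.act {w : ι → ℂ} (h : V.Min w) {k : R.G} (hk : Uni (k : GL (Fin n) ℂ)) :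
    V.Min (V.act k w) := by
  refine ⟨by rw [V.ns_act_K hk, h.1], fun g => ?_⟩
  rw [← V.act_mul]
  exact h.2 _

/-- First variation. -/
theorem Min.var {w : ι → ℂ} (h : V.Min w) {H : Fin n → ℝ} (hH : H ∈ R.a) :
    ∑ i, ‖w i‖ ^ 2 * V.lam i H = 0 := by
  have hd : HasDerivAt (fun s : ℝ => ∑ i, Real.exp (2 * s * V.lam i H) * ‖w i‖ ^ 2)
      (∑ i, (Real.exp (2 * 0 * V.lam i H) * (2 * 1 * V.lam i H)) * ‖w i‖ ^ 2) 0 := by
    refine HasDerivAt.fun_sum fun i _ => ?_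
    have h1 : HasDerivAt (fun s : ℝ => 2 * s * V.lam i H) (2 * 1 * V.lam i H) 0 :=
      ((hasDerivAt_id (0 : ℝ)).const_mul 2).mul_const _
    exact (h1.exp).mul_const _
  have hmin : IsLocalMin (fun s : ℝ => ∑ i, Real.exp (2 * s * V.lam i H) * ‖w i‖ ^ 2) 0 := by
    refine Filter.Eventually.of_forall fun s => ?_
    have e0 : ∑ i, Real.exp (2 * 0 * V.lam i H) * ‖w i‖ ^ 2 = 1 := by
      rw [← h.1]
      unfold ns
      refine Finset.sum_congr rfl fun i _ => ?_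
      rw [mul_zero, zero_mul, Real.exp_zero, one_mul]
    show ∑ i, Real.exp (2 * 0 * V.lam i H) * ‖w i‖ ^ 2 ≤
      ∑ i, Real.exp (2 * s * V.lam i H) * ‖w i‖ ^ 2
    rw [e0, ← V.ns_act_dg hH]
    exact h.2 _
  have h0 := hmin.hasDerivAt_eq_zero hd
  have h1 : ∑ i, (Real.exp (2 * 0 * V.lam i H) * (2 * 1 * V.lam i H)) * ‖w i‖ ^ 2 =
      2 * ∑ i, ‖w i‖ ^ 2 * V.lam i H := by
    rw [Finset.mul_sum]
    refine Finset.sum_congr rfl fun i _ => ?_
    rw [mul_zero, zero_mul, Real.exp_zero]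
    ring
  rw [h1] at h0
  linarith

variable (V)

/-- The matrix coefficient. -/
noncomputable def psi (w : ι → ℂ) (k : R.G) : ℂ := ip (V.act k w) w

theorem psi_near (w : ι → ℂ) {u : R.G} (hu : Uni (u : GL (Fin n) ℂ)) {H : Fin n → ℝ}
    (hH : H ∈ R.a) : V.psi w (u⁻¹ * dg hH Complex.I * u) =
      ∑ i, Complex.exp (Complex.I * V.lam i H) * (‖V.act u w i‖ ^ 2 : ℝ) := by
  unfold psi
  rw [mul_assoc, V.act_mul, V.ip_act, ct_inv_uni hu, V.act_mul]
  unfold ip
  refine Finset.sum_congr rfl fun i _ => ?_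
  rw [V.act_dg, mul_assoc]
  congr 1
  have := Complex.mul_conj (V.act u w i)
  rw [Complex.normSq_eq_norm_sq] at this
  exact this

/-- The bound of the weights. -/
noncomputable def Wt : ℝ := ∑ i, ∑ j : Fin n, |V.lam i (Pi.single j 1)|

theorem Wt_nonneg : 0 ≤ V.Wt := Finset.sum_nonneg fun _ _ => Finset.sum_nonneg fun _ _ =>
  abs_nonneg _

theorem lam_eq (i : ι) (H : Fin n → ℝ) : V.lam i H = ∑ j, H j * V.lam i (Pi.single j 1) := by
  conv_lhs => rw [← Finset.univ_sum_single H]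
  rw [map_sum]
  refine Finset.sum_congr rfl fun j _ => ?_
  have h1 : (Pi.single j (H j) : Fin n → ℝ) = H j • Pi.single j (1 : ℝ) := by
    rw [← Pi.single_smul, smul_eq_mul, mul_one]
  rw [h1, map_smul, smul_eq_mul]

theorem lam_le (i : ι) (H : Fin n → ℝ) {m : ℝ} (hm : ∀ j, |H j| ≤ m) (hm0 : 0 ≤ m) :
    |V.lam i H| ≤ V.Wt * m := by
  rw [V.lam_eq]
  unfold Wt
  have h1 : |∑ j, H j * V.lam i (Pi.single j 1)| ≤ (∑ j : Fin n, |V.lam i (Pi.single j 1)|) * m := by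
    refine (Finset.abs_sum_le_sum_abs _ _).trans ?_
    rw [Finset.sum_mul]
    refine Finset.sum_le_sum fun j _ => ?_
    rw [abs_mul, mul_comm]
    exact mul_le_mul_of_nonneg_left (hm j) (abs_nonneg _)
  refine h1.trans (mul_le_mul_of_nonneg_right ?_ hm0)
  exact Finset.single_le_sum (f := fun i => ∑ j : Fin n, |V.lam i (Pi.single j 1)|)
    (fun i _ => Finset.sum_nonneg fun j _ => abs_nonneg _) (Finset.mem_univ i)

variable {V}

/-- Near the identity the matrix coefficient of a minimal vector is tangent to the real axis. -/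
theorem Min.near {w : ι → ℂ} (hw : V.Min w) {ε : ℝ} (hε : 0 < ε) : ∃ r > 0, ∀ k : R.G,
    Uni (k : GL (Fin n) ℂ) → dst k ≤ r → |(V.psi w k).im| ≤ ε * (1 - (V.psi w k).re) := by
  obtain ⟨r₀, hr₀, hnear⟩ := near_one R
  have hn0 : (0 : ℝ) ≤ n := n.cast_nonneg
  have hW := V.Wt_nonneg
  obtain ⟨δ, hδ⟩ : ∃ δ : ℝ, δ = min 1 (ε / 4) := ⟨_, rfl⟩
  have hδ0 : 0 < δ := by
    rw [hδ]
    exact lt_min one_pos (by linarith)
  have hδ1 : δ ≤ 1 := by
    rw [hδ]
    exact min_le_left _ _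
  have hδ2 : δ ≤ ε / 4 := by
    rw [hδ]
    exact min_le_right _ _
  refine ⟨min r₀ (δ / ((V.Wt + 1) * (2 * (n : ℝ) ^ 2 + 1))), lt_min hr₀ (by positivity),
    fun k hk hd => ?_⟩
  obtain ⟨u, hu, H, hHa, hkH, hH⟩ := hnear k hk (hd.trans (min_le_left _ _))
  have hd2 : dst k * ((V.Wt + 1) * (2 * (n : ℝ) ^ 2 + 1)) ≤ δ := by
    rw [← le_div_iff₀ (by positivity)]
    exact hd.trans (min_le_right _ _)
  have hdn := dst_nonneg k
  have hlam : ∀ i, |V.lam i H| ≤ δ := by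
    intro i
    refine (V.lam_le i H hH (by positivity)).trans (le_trans ?_ hd2)
    have h1 : V.Wt * (2 * (n : ℝ) ^ 2 * dst k) = dst k * (V.Wt * (2 * (n : ℝ) ^ 2)) := by ring
    rw [h1]
    apply mul_le_mul_of_nonneg_left _ hdn
    apply mul_le_mul (by linarith) (by linarith) (by positivity) (by linarith)
  have hw' := hw.act hu
  have hvar := hw'.var hHa
  obtain ⟨a, ha⟩ : ∃ a : ι → ℝ, ∀ i, a i = ‖V.act u w i‖ ^ 2 := ⟨_, fun _ => rfl⟩
  have ha0 : ∀ i, 0 ≤ a i := fun i => by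
    rw [ha]
    positivity
  have hasum : ∑ i, a i = 1 := by
    rw [← hw'.1]
    exact Finset.sum_congr rfl fun i _ => ha i
  have hvar' : ∑ i, a i * V.lam i H = 0 := by
    rw [← hvar]
    exact Finset.sum_congr rfl fun i _ => by rw [ha]
  have hpsi : V.psi w k = ∑ i, Complex.exp (Complex.I * V.lam i H) * (a i : ℂ) := by
    rw [hkH, V.psi_near w hu]
    exact Finset.sum_congr rfl fun i _ => by rw [ha]
  have hexp : ∀ x : ℝ, Complex.exp (Complex.I * x) = ⟨Real.cos x, Real.sin x⟩ := by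
    intro x
    rw [mul_comm, Complex.exp_mul_I]
    apply Complex.ext
    · simp [← Complex.ofReal_cos, ← Complex.ofReal_sin]
    · simp [← Complex.ofReal_cos, ← Complex.ofReal_sin]
  have him : (V.psi w k).im = ∑ i, a i * (Real.sin (V.lam i H) - V.lam i H) := by
    rw [hpsi, Complex.im_sum]
    simp only [mul_sub, Finset.sum_sub_distrib, hvar', sub_zero]
    refine Finset.sum_congr rfl fun i _ => ?_
    rw [Complex.im_mul_ofReal, hexp]
    ring
  have hre : 1 - (V.psi w k).re = ∑ i, a i * (1 - Real.cos (V.lam i H)) := by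
    rw [hpsi, Complex.re_sum]
    simp only [mul_sub, Finset.sum_sub_distrib, mul_one, hasum]
    congr 1
    refine Finset.sum_congr rfl fun i _ => ?_
    rw [Complex.re_mul_ofReal, hexp]
    ring
  rw [him, hre]
  have h1 : |∑ i, a i * (Real.sin (V.lam i H) - V.lam i H)| ≤
      ∑ i, a i * (δ * V.lam i H ^ 2) := by
    refine (Finset.abs_sum_le_sum_abs _ _).trans (Finset.sum_le_sum fun i _ => ?_)
    rw [abs_mul, abs_of_nonneg (ha0 i)]
    refine mul_le_mul_of_nonneg_left ?_ (ha0 i)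
    refine (Rep.sin_est ((hlam i).trans hδ1)).trans ?_
    exact mul_le_mul_of_nonneg_right (hlam i) (sq_nonneg _)
  refine h1.trans ?_
  rw [Finset.mul_sum]
  refine Finset.sum_le_sum fun i _ => ?_
  have h2 := Rep.cos_est ((hlam i).trans hδ1)
  have h3 : δ * V.lam i H ^ 2 ≤ ε * (1 - Real.cos (V.lam i H)) := by
    have h4 : δ * V.lam i H ^ 2 ≤ ε / 4 * V.lam i H ^ 2 :=
      mul_le_mul_of_nonneg_right hδ2 (sq_nonneg _)
    have h5 : ε * (V.lam i H ^ 2 / 4) ≤ ε * (1 - Real.cos (V.lam i H)) :=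
      mul_le_mul_of_nonneg_left h2 hε.le
    linarith
  calc a i * (δ * V.lam i H ^ 2) ≤ a i * (ε * (1 - Real.cos (V.lam i H))) :=
        mul_le_mul_of_nonneg_left h3 (ha0 i)
    _ = ε * (a i * (1 - Real.cos (V.lam i H))) := by ring

/-- The matrix coefficient of a unit vector is Lipschitz at the identity. -/
theorem psi_lip {w : ι → ℂ} (hw : ns w = 1) : ∃ r > 0, ∃ C ≥ 0, ∀ k : R.G,
    Uni (k : GL (Fin n) ℂ) → dst k ≤ r → ‖1 - V.psi w k‖ ≤ C * dst k := by
  obtain ⟨r₀, hr₀, hnear⟩ := near_one R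
  have hW := V.Wt_nonneg
  refine ⟨r₀, hr₀, V.Wt * (2 * (n : ℝ) ^ 2), by positivity, fun k hk hd => ?_⟩
  obtain ⟨u, hu, H, hHa, hkH, hH⟩ := hnear k hk hd
  have hdn := dst_nonneg k
  have hsum : ∑ i, ((‖V.act u w i‖ ^ 2 : ℝ) : ℂ) = 1 := by
    rw [← Complex.ofReal_sum]
    have : ∑ i, ‖V.act u w i‖ ^ 2 = 1 := by
      rw [← hw, ← V.ns_act_K hu w]
      rfl
    rw [this, Complex.ofReal_one]
  have e1 : 1 - V.psi w k =
      ∑ i, (1 - Complex.exp (Complex.I * V.lam i H)) * ((‖V.act u w i‖ ^ 2 : ℝ) : ℂ) := by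
    rw [hkH, V.psi_near w hu]
    simp only [sub_mul, one_mul, Finset.sum_sub_distrib, hsum]
  rw [e1]
  refine (norm_sum_le _ _).trans ?_
  have h2 : ∀ i ∈ Finset.univ, ‖(1 - Complex.exp (Complex.I * V.lam i H)) *
      ((‖V.act u w i‖ ^ 2 : ℝ) : ℂ)‖ ≤ V.Wt * (2 * (n : ℝ) ^ 2) * dst k * ‖V.act u w i‖ ^ 2 := by
    intro i _
    rw [norm_mul, Complex.norm_real, Real.norm_eq_abs, abs_of_nonneg (sq_nonneg _)]
    refine mul_le_mul_of_nonneg_right ?_ (sq_nonneg _)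
    rw [norm_sub_rev]
    refine (Real.norm_exp_I_mul_ofReal_sub_one_le).trans ?_
    rw [Real.norm_eq_abs]
    refine (V.lam_le i H hH (by positivity)).trans (le_of_eq ?_)
    ring
  refine (Finset.sum_le_sum h2).trans ?_
  rw [← Finset.mul_sum]
  have h3 : ∑ i, ‖V.act u w i‖ ^ 2 = 1 := by
    rw [← hw, ← V.ns_act_K hu w]
    rfl
  rw [h3, mul_one]

end GRep

end Pool.Agent.PG
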