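import Pool.Agent.H.MP_e23cd6_ag.PB.GKNb

/-!
# The invariants `P_N(v) = ∫_K ⟨v, k w⟩^N dk` of a minimal vector
-/

set_option autoImplicit false

namespace Pool.Agent.PG

open Matrix Topology Set MeasureTheory Filter Pool.Agent.SG

namespace GRep

variable {n : ℕ} {R : RG n} {ι : Type} [Fintype ι] [DecidableEq ι] (V : GRep R ι)

theorem continuous_actK (w : ι → ℂ) : Continuous fun k : KK R => V.act (k : R.G) w :=
  V.continuous_act.comp (continuous_subtype_val.prodMk continuous_const)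

omit [DecidableEq ι] in
theorem continuous_ip {α : Type} [TopologicalSpace α] {f g : α → ι → ℂ} (hf : Continuous f)
    (hg : Continuous g) : Continuous fun a => ip (f a) (g a) := by
  unfold ip
  refine continuous_finsetSum _ fun i _ => ?_
  exact ((continuous_apply i).comp hf).mul (((continuous_apply i).comp hg).star)

theorem continuous_phi (v w : ι → ℂ) : Continuous fun k : KK R => ip v (V.act (k : R.G) w) :=
  continuous_ip continuous_const (V.continuous_actK w)

/-- A function invariant under `SU(n)` given by a polynomial is invariant under `SL_n(ℂ)`. -/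
theorem inv_of_K {P : MvPolynomial ι ℂ}
    (h : ∀ k ∈ KK R, ∀ v, MvPolynomial.eval (V.act k v) P = MvPolynomial.eval v P) (g : R.G)
    (v : ι → ℂ) : MvPolynomial.eval (V.act g v) P = MvPolynomial.eval v P := by
  obtain ⟨k₁, k₂, hk₁, hk₂, H, hH, hg⟩ := cartan' g
  rw [hg, V.act_mul, V.act_mul, h k₁ hk₁]
  obtain ⟨v', hv'⟩ : ∃ v', v' = V.act k₂ v := ⟨_, rfl⟩
  rw [← hv']
  have hd : Differentiable ℂ fun z : ℂ => MvPolynomial.eval (V.act (dg hH z) v') P := by
    have e : (fun z : ℂ => MvPolynomial.eval (V.act (dg hH z) v') P) = fun z =>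
        ∑ s ∈ P.support, P.coeff s * ∏ i ∈ s.support,
          (Complex.exp (z * V.lam i H) * v' i) ^ s i := by
      funext z
      rw [MvPolynomial.eval_eq]
      refine Finset.sum_congr rfl fun s _ => ?_
      congr 1
      refine Finset.prod_congr rfl fun i _ => ?_
      rw [V.act_dg]
    rw [e]
    fun_prop
  have h1 := entire_const hd (c := MvPolynomial.eval v' P)
    (fun t => h _ (dg_uni hH t) v') 1
  rw [h1, hv', h k₂ hk₂]

/-- The integral `∫_K ⟨v, k w⟩^N dk`. -/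
noncomputable def PI (w : ι → ℂ) (N : ℕ) (v : ι → ℂ) : ℂ :=
  ∫ k : KK R, ip v (V.act (k : R.G) w) ^ N ∂(hK R)

/-- The polynomial with the values `PI`. -/
noncomputable def PN (w : ι → ℂ) (N : ℕ) : MvPolynomial ι ℂ :=
  ∑ s ∈ Finset.piAntidiag Finset.univ N, MvPolynomial.C
    (∫ k : KK R, (Nat.multinomial Finset.univ s : ℂ) *
      ∏ i, (Star.star (V.act (k : R.G) w i)) ^ s i ∂(hK R)) * ∏ i, MvPolynomial.X i ^ s i

theorem eval_PN (w : ι → ℂ) (N : ℕ) (v : ι → ℂ) :
    MvPolynomial.eval v (V.PN w N) = V.PI w N v := by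
  unfold PN PI
  rw [map_sum]
  have e : ∀ k : KK R, ip v (V.act (k : R.G) w) ^ N =
      ∑ s ∈ Finset.piAntidiag Finset.univ N, ((Nat.multinomial Finset.univ s : ℂ) *
        ∏ i, (Star.star (V.act (k : R.G) w i)) ^ s i) * ∏ i, v i ^ s i := by
    intro k
    unfold ip
    rw [Finset.sum_pow_eq_sum_piAntidiag]
    refine Finset.sum_congr rfl fun s _ => ?_
    rw [mul_assoc, ← Finset.prod_mul_distrib]
    congr 1
    refine Finset.prod_congr rfl fun i _ => ?_
    rw [mul_pow, mul_comm]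
  simp only [e]
  have hc : ∀ s : ι → ℕ, Continuous fun k : KK R => ((Nat.multinomial Finset.univ s : ℂ) *
      ∏ i, (Star.star (V.act (k : R.G) w i)) ^ s i) := by
    intro s
    refine continuous_const.mul (continuous_finsetProd _ fun i _ => ?_)
    exact (((continuous_apply i).comp (V.continuous_actK w)).star).pow _
  rw [integral_finsetSum _ fun s _ => (integrable_KK (hc s)).mul_const _]
  refine Finset.sum_congr rfl fun s _ => ?_
  rw [integral_mul_const, map_mul, MvPolynomial.eval_C, map_prod]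
  congr 1
  refine Finset.prod_congr rfl fun i _ => ?_
  rw [map_pow, MvPolynomial.eval_X]

theorem hom_PN (w : ι → ℂ) (N : ℕ) : (V.PN w N).IsHomogeneous N := by
  unfold PN
  refine MvPolynomial.IsHomogeneous.sum _ _ _ fun s hs => ?_
  have h1 : (∏ i, (MvPolynomial.X i : MvPolynomial ι ℂ) ^ s i).IsHomogeneous (∑ i, s i) :=
    MvPolynomial.IsHomogeneous.prod _ _ _ fun i _ => by
      simpa using (MvPolynomial.isHomogeneous_X ℂ i).pow (s i)
  have h2 : ∑ i, s i = N := (Finset.mem_piAntidiag.1 hs).1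
  rw [h2] at h1
  have h3 := (MvPolynomial.isHomogeneous_C ι
    (∫ k : KK R, (Nat.multinomial Finset.univ s : ℂ) *
      ∏ i, (Star.star (V.act (k : R.G) w i)) ^ s i ∂(hK R))).mul h1
  rwa [zero_add] at h3

theorem PI_K (w : ι → ℂ) (N : ℕ) {h : R.G} (hh : h ∈ KK R) (v : ι → ℂ) :
    V.PI w N (V.act h v) = V.PI w N v := by
  unfold PI
  have e : ∀ k : KK R, ip (V.act h v) (V.act (k : R.G) w) =
      ip v (V.act (((⟨h, hh⟩ : KK R)⁻¹ * k : KK R) : R.G) w) := by
    intro k
    rw [V.ip_act, ct_uni hh, ← V.act_mul]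
    rfl
  simp only [e]
  exact integral_mul_left_eq_self
    (fun k : KK R => ip v (V.act (k : R.G) w) ^ N) (⟨h, hh⟩ : KK R)⁻¹

theorem inv_PN (w : ι → ℂ) (N : ℕ) : V.Inv N (V.PN w N) := by
  refine ⟨V.hom_PN w N, V.inv_of_K fun k hk v => ?_⟩
  rw [V.eval_PN, V.eval_PN, V.PI_K w N hk]

/-- The bound of the invariant. -/
theorem PI_le (w : ι → ℂ) (N : ℕ) {v : ι → ℂ} {q : ℝ}
    (hq : ∀ k ∈ KK R, ‖ip v (V.act k w)‖ ≤ q) : ‖V.PI w N v‖ ≤ q ^ N := by
  unfold PI
  have h := norm_integral_le_of_norm_le_const (μ := hK R)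
    (f := fun k : KK R => ip v (V.act (k : R.G) w) ^ N) (C := q ^ N)
    (Eventually.of_forall fun k => by
      rw [norm_pow]
      exact pow_le_pow_left₀ (norm_nonneg _) (hq k k.2) N)
  simpa using h

variable {V}

theorem Min.act_of_ip {w : ι → ℂ} (hw : V.Min w) {k : R.G} (hk : k ∈ KK R)
    (h : V.psi w k = 1) : V.act k w = w := by
  have h1 := ns_sub (V.act k w) w
  have h2 : (ip (V.act k w) w).re = 1 := by
    have : ip (V.act k w) w = 1 := h
    rw [this, Complex.one_re]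
  rw [V.ns_act_K hk, hw.1, h2] at h1
  have h3 : ns (V.act k w - w) = 0 := by
    rw [h1]
    ring
  exact sub_eq_zero.1 (ns_eq_zero.1 h3)

/-- Outside a neighbourhood of the stabiliser the matrix coefficient stays away from one. -/
theorem Min.away {w : ι → ℂ} (hw : V.Min w) {ε : ℝ} (hε : 0 < ε) : ∃ δ > 0, ∀ k : KK R,
    |(V.psi w (k : R.G)).im| ≤ ε * (1 - (V.psi w (k : R.G)).re) ∨
      δ ≤ ‖1 - V.psi w (k : R.G)‖ := by
  obtain ⟨r, hr, hnear⟩ := hw.near hε
  have hcψ : Continuous fun k : KK R => V.psi w (k : R.G) :=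
    continuous_ip (V.continuous_actK w) continuous_const
  have hmain : ∃ δ > 0, ∀ k ∈ (univ : Set (KK R)),
      |(V.psi w (k : R.G)).im| ≤ ε * (1 - (V.psi w (k : R.G)).re) ∨
      δ ≤ ‖1 - V.psi w (k : R.G)‖ := by
    refine isCompact_univ.induction_on (p := fun s : Set (KK R) => ∃ δ > 0, ∀ k ∈ s,
      |(V.psi w (k : R.G)).im| ≤ ε * (1 - (V.psi w (k : R.G)).re) ∨
      δ ≤ ‖1 - V.psi w (k : R.G)‖) ?_ ?_ ?_ ?_
    · exact ⟨1, one_pos, fun k hk => absurd hk (notMem_empty k)⟩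
    · rintro s t hst ⟨δ, hδ, h⟩
      exact ⟨δ, hδ, fun k hk => h k (hst hk)⟩
    · rintro s t ⟨δ₁, hδ₁, h₁⟩ ⟨δ₂, hδ₂, h₂⟩
      refine ⟨min δ₁ δ₂, lt_min hδ₁ hδ₂, fun k hk => ?_⟩
      rcases hk with hk | hk
      · rcases h₁ k hk with h | h
        · exact Or.inl h
        · exact Or.inr ((min_le_left _ _).trans h)
      · rcases h₂ k hk with h | h
        · exact Or.inl h
        · exact Or.inr ((min_le_right _ _).trans h)
    · intro k₀ _
      by_cases h0 : V.psi w (k₀ : R.G) = 1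
      · have hk₀w := hw.act_of_ip k₀.2 h0
        have hk₀w' : V.act ((k₀ : R.G)⁻¹) w = w := by
          conv_lhs => rw [← hk₀w]
          rw [← V.act_mul, inv_mul_cancel, V.act_one]
        have hc : Continuous fun k : KK R => dst ((k : R.G) * (k₀ : R.G)⁻¹) :=
          continuous_dst.comp (continuous_subtype_val.mul continuous_const)
        refine ⟨{k : KK R | dst ((k : R.G) * (k₀ : R.G)⁻¹) < r}, ?_, 1, one_pos, fun k hk => ?_⟩
        · rw [nhdsWithin_univ]
          refine (isOpen_lt hc continuous_const).mem_nhds ?_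
          show dst ((k₀ : R.G) * (k₀ : R.G)⁻¹) < r
          rw [mul_inv_cancel, dst_one]
          exact hr
        · left
          have h1 := hnear ((k : R.G) * (k₀ : R.G)⁻¹)
            ((KK R).mul_mem k.2 ((KK R).inv_mem k₀.2)) (le_of_lt hk)
          have h2 : V.psi w ((k : R.G) * (k₀ : R.G)⁻¹) = V.psi w (k : R.G) := by
            unfold psi
            rw [V.act_mul, hk₀w']
          rwa [h2] at h1
      · have h1 : 0 < ‖1 - V.psi w (k₀ : R.G)‖ := norm_pos_iff.2 (sub_ne_zero.2 (Ne.symm h0))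
        refine ⟨{k : KK R | ‖1 - V.psi w (k₀ : R.G)‖ / 2 < ‖1 - V.psi w (k : R.G)‖}, ?_,
          ‖1 - V.psi w (k₀ : R.G)‖ / 2, by positivity, fun k hk => Or.inr (le_of_lt hk)⟩
        rw [nhdsWithin_univ]
        refine (isOpen_lt continuous_const (continuous_const.sub hcψ).norm).mem_nhds ?_
        show ‖1 - V.psi w (k₀ : R.G)‖ / 2 < ‖1 - V.psi w (k₀ : R.G)‖
        linarith
  obtain ⟨δ, hδ, h⟩ := hmain
  exact ⟨δ, hδ, fun k => h k (mem_univ k)⟩

/-- The invariants of a minimal vector do not decay exponentially at this vector. -/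
theorem Min.lim {w : ι → ℂ} (hw : V.Min w) {q : ℝ} (hq0 : 0 ≤ q) (hq : q < 1) (N₀ : ℕ) :
    ∃ N ≥ N₀, q ^ N < ‖V.PI w N w‖ := by
  obtain ⟨c, hc, D, hball⟩ := small_ball R
  obtain ⟨ε, hε⟩ : ∃ ε : ℝ, ε = 1 / (4 * ((D + 1 : ℕ) : ℝ)) := ⟨_, rfl⟩
  have hD : (0 : ℝ) < ((D + 1 : ℕ) : ℝ) := by positivity
  have hε0 : 0 < ε := by
    rw [hε]
    positivity
  have hε1 : 4 * ((D + 1 : ℕ) : ℝ) * ε ≤ 1 := by
    rw [hε, mul_one_div, div_self (by positivity)]
  obtain ⟨r₁, hr₁, hnear⟩ := hw.near hε0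
  obtain ⟨r₂, hr₂, C, hC, hlip⟩ := V.psi_lip hw.1
  obtain ⟨δ, hδ, haway⟩ := hw.away hε0
  obtain ⟨φ, hφ⟩ : ∃ φ : KK R → ℂ, ∀ k, φ k = ip w (V.act (k : R.G) w) := ⟨_, fun _ => rfl⟩
  have hφψ : ∀ k : KK R, φ k = Star.star (V.psi w (k : R.G)) := by
    intro k
    rw [hφ]
    exact (ip_star _ _).symm
  have hre : ∀ k : KK R, (φ k).re = (V.psi w (k : R.G)).re := fun k => by
    rw [hφψ]
    exact Complex.conj_re _
  have him : ∀ k : KK R, |(φ k).im| = |(V.psi w (k : R.G)).im| := fun k => by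
    rw [hφψ]
    have : (Star.star (V.psi w (k : R.G))).im = -(V.psi w (k : R.G)).im := Complex.conj_im _
    rw [this, abs_neg]
  have h1 : ∀ k : KK R, ‖1 - φ k‖ = ‖1 - V.psi w (k : R.G)‖ := fun k => by
    rw [hφψ, ← star_one ℂ, ← star_sub, norm_star, star_one]
  have hφc : Continuous φ := by
    have e : φ = fun k : KK R => ip w (V.act (k : R.G) w) := funext hφ
    rw [e]
    exact V.continuous_phi w w
  have hnw : nm w = 1 := by
    unfold nm
    rw [hw.1, Real.sqrt_one]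
  have hφ1 : ∀ k, ‖φ k‖ ≤ 1 := by
    intro k
    rw [hφ]
    refine (norm_ip_le _ _).trans ?_
    rw [V.nm_act_K k.2, hnw, one_mul]
  have hmeas : ∀ r : ℝ, MeasurableSet {k : KK R | dst (k : R.G) ≤ r} := fun r =>
    (isClosed_le (continuous_dst.comp continuous_subtype_val) continuous_const).measurableSet
  have hq' : max q (1 / 2) < 1 := max_lt hq (by norm_num)
  have hq0' : 0 < max q (1 / 2) := lt_of_lt_of_le (by norm_num) (le_max_right _ _)
  obtain ⟨N, hN, h⟩ := lim_abs (μ := hK R) (φ := φ) hφc.measurable hφ1 (D := D)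
    (r₀ := min 1 (min r₁ r₂)) (c := c) (C := C) hε1 hε0.le hδ
    (lt_min one_pos (lt_min hr₁ hr₂)) hc hC
    (fun k => by
      rw [him, hre, h1]
      exact haway k)
    (S := fun r => {k : KK R | dst (k : R.G) ≤ r}) hmeas
    (fun r hr hr' => hball r hr (hr'.trans (min_le_left _ _)))
    (fun r hr hr' k hk => by
      have hk' : dst (k : R.G) ≤ r := hk
      rw [him, hre, h1]
      refine ⟨hnear k k.2 (hk'.trans (hr'.trans ((min_le_right _ _).trans (min_le_left _ _)))), ?_⟩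
      refine (hlip k k.2
        (hk'.trans (hr'.trans ((min_le_right _ _).trans (min_le_right _ _))))).trans ?_
      exact mul_le_mul_of_nonneg_left hk' hC)
    hq0' hq' N₀
  refine ⟨N, hN, ?_⟩
  have e : V.PI w N w = ∫ k, φ k ^ N ∂(hK R) := by
    unfold PI
    simp only [hφ]
  rw [e]
  exact (pow_le_pow_left₀ hq0 (le_max_left _ _) N).trans_lt h

theorem continuous_act_right (V : GRep R ι) (g : R.G) : Continuous fun v : ι → ℂ => V.act g v :=
  V.continuous_act.comp (continuous_const.prodMk continuous_id)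

/-- The minimal vector in the closure of an orbit whose norms are bounded below. -/
theorem exists_min (V : GRep R ι) {v : ι → ℂ} {m : ℝ} (hm : 0 < m)
    (h : ∀ g, m ≤ nm (V.act g v)) : ∃ w : ι → ℂ, V.Min w ∧ ∃ c : ℝ, m ≤ c ∧
      (c : ℂ) • w ∈ closure (range fun g => V.act g v) := by
  obtain ⟨O, hO⟩ : ∃ O : Set (ι → ℂ), O = closure (range fun g => V.act g v) := ⟨_, rfl⟩
  have hvO : v ∈ O := by
    rw [hO]
    exact subset_closure ⟨1, V.act_one v⟩
  have hgO : ∀ g, ∀ x ∈ O, V.act g x ∈ O := by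
    intro g x hx
    rw [hO] at hx ⊢
    refine map_mem_closure (V.continuous_act_right g) hx ?_
    rintro _ ⟨g', rfl⟩
    exact ⟨g * g', V.act_mul _ _ _⟩
  have hmO : ∀ x ∈ O, m ≤ nm x := by
    intro x hx
    rw [hO] at hx
    refine closure_minimal (t := {x | m ≤ nm x}) ?_
      (isClosed_le continuous_const continuous_nm) hx
    rintro _ ⟨g, rfl⟩
    exact h g
  have hK : IsCompact (O ∩ {x | ns x ≤ ns v}) := by
    refine (Rep.isCompact_ns_le (ns v)).inter_left ?_
    rw [hO]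
    exact isClosed_closure
  obtain ⟨w₀, hw₀, hmin⟩ := hK.exists_isMinOn
    ⟨v, hvO, (le_refl (ns v) : ns v ≤ ns v)⟩ continuous_ns.continuousOn
  have hmin' : ∀ x ∈ O, ns w₀ ≤ ns x := by
    intro x hx
    rcases le_or_gt (ns x) (ns v) with h1 | h1
    · exact hmin ⟨hx, h1⟩
    · exact hw₀.2.trans h1.le
  have hnm : m ≤ nm w₀ := hmO w₀ hw₀.1
  have hnm0 : 0 < nm w₀ := hm.trans_le hnm
  have hns0 : 0 < ns w₀ := by
    rw [← nm_sq]
    positivity
  refine ⟨((nm w₀)⁻¹ : ℂ) • w₀, ⟨Rep.nm_smul_inv hns0, fun g => ?_⟩, nm w₀, hnm, ?_⟩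
  · rw [V.act_smul, ns_smul, norm_inv, Complex.norm_real, Real.norm_eq_abs,
      abs_of_nonneg (nm_nonneg w₀), inv_pow, nm_sq, ← div_eq_inv_mul, one_le_div hns0]
    exact hmin' _ (hgO g w₀ hw₀.1)
  · rw [smul_smul, mul_inv_cancel₀ (by exact_mod_cast hnm0.ne'), one_smul, ← hO]
    exact hw₀.1

/-- Invariants are constant on orbit closures. -/
theorem Inv.closure {N : ℕ} {P : MvPolynomial ι ℂ} (hP : V.Inv N P) {v x : ι → ℂ}
    (hx : x ∈ closure (range fun g => V.act g v)) :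
    MvPolynomial.eval x P = MvPolynomial.eval v P := by
  refine closure_minimal (t := {x | MvPolynomial.eval x P = MvPolynomial.eval v P}) ?_
    (isClosed_eq (Rep.continuous_evalP P) continuous_const) hx
  rintro _ ⟨g, rfl⟩
  exact hP.inv g v

theorem Inv.pow {N : ℕ} {P : MvPolynomial ι ℂ} (hP : V.Inv N P) (a : ℕ) :
    V.Inv (N * a) (P ^ a) :=
  ⟨hP.hom.pow a, fun g v => by rw [map_pow, map_pow, hP.inv]⟩

/-- A minimal vector has an invariant of positive degree which does not vanish there. -/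
theorem Min.exists_inv {w : ι → ℂ} (hw : V.Min w) : ∃ N > 0, ∃ P, V.Inv N P ∧
    MvPolynomial.eval w P ≠ 0 := by
  obtain ⟨N, hN, h⟩ := hw.lim (q := 1 / 2) (by norm_num) (by norm_num) 1
  refine ⟨N, hN, V.PN w N, V.inv_PN w N, ?_⟩
  rw [V.eval_PN]
  intro h0
  rw [h0, norm_zero] at h
  have : (0 : ℝ) < (1 / 2) ^ N := by positivity
  linarith

/-- If the norms on the orbit of `v` are bounded below by a positive number, then some invariant
of positive degree does not vanish at `v`. -/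
theorem inv_of_pos (V : GRep R ι) {v : ι → ℂ} {m : ℝ} (hm : 0 < m)
    (h : ∀ g, m ≤ nm (V.act g v)) :
    ∃ N > 0, ∃ P, V.Inv N P ∧ MvPolynomial.eval v P ≠ 0 := by
  obtain ⟨w, hw, c, hc, hcl⟩ := V.exists_min hm h
  obtain ⟨N, hN, P, hP, h0⟩ := hw.exists_inv
  refine ⟨N, hN, P, hP, ?_⟩
  rw [← hP.closure hcl, Rep.eval_smul hP.hom]
  refine mul_ne_zero (pow_ne_zero _ ?_) h0
  have : 0 < c := hm.trans_le hc
  exact_mod_cast this.ne'


end GRep

end Pool.Agent.PG
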