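import Pool.Agent.H.MP_e23cd6_ag.PB.GJ
import Pool.Agent.H.MP_e23cd6_ag.PB.Core

/-!
# The numerical inequality for a fibre pair
-/

set_option autoImplicit false

open scoped Manifold ContDiff ENNReal
open MeasureTheory Matrix

namespace Pool.Agent.PG

open Pool.Agent.SG

theorem exp_comp {A B b d : ℝ} (hA : 0 < A)
    (h : ∀ t : ℝ, 0 ≤ t → Real.exp (t * b) * A ≤ B * Real.exp (t * d)) : b ≤ d := by
  by_contra hcon
  push Not at hcon
  have h1 : ∀ t : ℝ, 0 ≤ t → t * (b - d) * A ≤ B := by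
    intro t ht
    have h2 := h t ht
    have h3 : Real.exp (t * b) = Real.exp (t * (b - d)) * Real.exp (t * d) := by
      rw [← Real.exp_add]
      congr 1
      ring
    rw [h3] at h2
    have h4 : Real.exp (t * (b - d)) * A ≤ B := by
      have h5 : 0 < Real.exp (t * d) := Real.exp_pos _
      by_contra h6
      push Not at h6
      nlinarith
    have h7 := Real.add_one_le_exp (t * (b - d))
    nlinarith
  have hbd : 0 < b - d := by linarith
  have h2 := h1 ((|B| + 1) / ((b - d) * A)) (by positivity)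
  have h3 : (|B| + 1) / ((b - d) * A) * (b - d) * A = |B| + 1 := by
    field_simp
  rw [h3] at h2
  have := le_abs_self B
  linarith

section rep

variable {n : ℕ} {R : RG n} {ι : Type} [Fintype ι] [DecidableEq ι]

theorem act_tor (V : GRep R ι) {H : Fin n → ℝ} (hH : H ∈ R.a) {t : ℝ} {e : R.G}
    (he : mx e = dE H t) (u : ι → ℂ) (i : ι) :
    V.act e u i = Complex.exp (t * V.lam i H) * u i := by
  unfold GRep.act
  rw [V.diag H hH t e he, Matrix.mulVec_diagonal]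

theorem norm_act_tor (V : GRep R ι) {H : Fin n → ℝ} (hH : H ∈ R.a) {t : ℝ} {e : R.G}
    (he : mx e = dE H t) (u : ι → ℂ) (i : ι) :
    ‖V.act e u i‖ = Real.exp (t * V.lam i H) * ‖u i‖ := by
  rw [act_tor V hH he, norm_mul, Complex.norm_exp]
  congr 2
  rw [← Complex.ofReal_mul, Complex.ofReal_re]

theorem nm_act_tor_le (V : GRep R ι) {H : Fin n → ℝ} (hH : H ∈ R.a) {t : ℝ} (ht : 0 ≤ t)
    {e : R.G} (he : mx e = dE H t) (u : ι → ℂ) {a : ℝ} (ha : ∀ i, u i ≠ 0 → V.lam i H ≤ a) :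
    nm (V.act e u) ≤ Real.exp (t * a) * nm u := by
  have h1 : nm (V.act e u) ≤ nm (((Real.exp (t * a) : ℝ) : ℂ) • u) := by
    refine Pool.Agent.PB.nm_mono fun i => ?_
    rw [norm_act_tor V hH he, Pi.smul_apply, norm_smul, Complex.norm_real, Real.norm_eq_abs,
      abs_of_pos (Real.exp_pos _)]
    by_cases h0 : u i = 0
    · rw [h0, norm_zero, mul_zero, mul_zero]
    · refine mul_le_mul_of_nonneg_right (Real.exp_le_exp.2 ?_) (norm_nonneg _)
      exact mul_le_mul_of_nonneg_left (ha i h0) ht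
  refine h1.trans (le_of_eq ?_)
  have h2 : ns (((Real.exp (t * a) : ℝ) : ℂ) • u) = Real.exp (t * a) ^ 2 * ns u := by
    unfold ns
    rw [Finset.mul_sum]
    refine Finset.sum_congr rfl fun i _ => ?_
    rw [Pi.smul_apply, norm_smul, Complex.norm_real, Real.norm_eq_abs,
      abs_of_pos (Real.exp_pos _), mul_pow]
  unfold nm
  rw [h2, Real.sqrt_mul (sq_nonneg _), Real.sqrt_sq (Real.exp_pos _).le]

theorem sm_mul_tor (V : GRep R ι) {H : Fin n → ℝ} (hH : H ∈ R.a) {t : ℝ} (ht : 0 ≤ t)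
    {e : R.G} (he : mx e = dE H t) (A : Matrix ι ι ℂ) :
    sm (A * V.ρ e⁻¹) ≤ sm A * Real.exp (t * ∑ i, |V.lam i H|) := by
  have h1 : V.ρ e⁻¹ = Matrix.diagonal fun i => Complex.exp (-t * V.lam i H) :=
    V.diag H hH (-t) e⁻¹ (GRep.mx_inv_dE he)
  unfold sm
  rw [h1, Finset.sum_mul]
  refine Finset.sum_le_sum fun i _ => ?_
  rw [Finset.sum_mul]
  refine Finset.sum_le_sum fun j _ => ?_
  rw [Matrix.mul_diagonal, norm_mul, Complex.norm_exp]
  refine mul_le_mul_of_nonneg_left (Real.exp_le_exp.2 ?_) (norm_nonneg _)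
  have h2 : (-(t : ℂ) * (V.lam j H : ℂ)).re = -t * V.lam j H := by
    rw [← Complex.ofReal_neg, ← Complex.ofReal_mul, Complex.ofReal_re]
  rw [h2]
  have h3 : |V.lam j H| ≤ ∑ i, |V.lam i H| :=
    Finset.single_le_sum (f := fun i => |V.lam i H|) (fun i _ => abs_nonneg _) (Finset.mem_univ j)
  have h4 : -V.lam j H ≤ |V.lam j H| := neg_le_abs _
  nlinarith

end rep

variable {n : ℕ} {R : RG n} {EF : Type} [NormedAddCommGroup EF] [NormedSpace ℂ EF]
  [FiniteDimensional ℂ EF] [MeasureSpace EF] [BorelSpace EF] [(volume : Measure EF).IsAddHaarMeasure]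
  {F : Type} [TopologicalSpace F] [CompactSpace F]
  {κ ι : Type} [Fintype κ] [DecidableEq κ] [Fintype ι] [DecidableEq ι] {m : ℕ}

theorem num_lc (Φ : Fib R EF F κ ι m) (hm : 1 ≤ m) {S : ι → ℂ} (hS : Φ.LC S) : Φ.P1 S := by
  intro k H hH β
  by_contra hcon
  push Not at hcon
  obtain ⟨ξ, hξ⟩ : ∃ ξ, ξ = Φ.RN.dual.act k⁻¹ (Pi.single β 1) := ⟨_, rfl⟩
  have hξk : Φ.RN.dual.act k ξ = Pi.single β 1 := by
    rw [hξ, ← GRep.act_mul, mul_inv_cancel, GRep.act_one]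
  have hβ1 : Φ.RN.dual.act k ξ β ≠ 0 := by
    rw [hξk, Pi.single_eq_same]
    exact one_ne_zero
  obtain ⟨b, hb⟩ : ∃ b, b = Φ.RN.dual.lam β H := ⟨_, rfl⟩
  rw [← hb] at hcon
  -- the largest weight
  obtain ⟨a, ha, hab⟩ : ∃ a : ℝ, (∀ α, Φ.Rs.dual.act k S α ≠ 0 → Φ.Rs.dual.lam α H ≤ a) ∧ a < b := by
    have h2 : ∀ s : Finset ι, ∃ a : ℝ, (∀ α ∈ s, Φ.Rs.dual.act k S α ≠ 0 →
        Φ.Rs.dual.lam α H ≤ a) ∧ a < b := by
      intro s
      induction s using Finset.induction_on with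
      | empty => exact ⟨b - 1, fun α hα => absurd hα (Finset.notMem_empty α), by linarith⟩
      | insert α₀ s _ ih =>
        obtain ⟨a, h3, h4⟩ := ih
        by_cases h5 : Φ.Rs.dual.act k S α₀ = 0
        · refine ⟨a, fun α hα h0 => ?_, h4⟩
          rcases Finset.mem_insert.1 hα with rfl | hα
          · exact absurd h5 h0
          · exact h3 α hα h0
        · refine ⟨max a (Φ.Rs.dual.lam α₀ H), fun α hα h0 => ?_, max_lt h4 (hcon α₀ h5)⟩
          rcases Finset.mem_insert.1 hα with rfl | hα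
          · exact le_max_right _ _
          · exact (h3 α hα h0).trans (le_max_left _ _)
    obtain ⟨a, h3, h4⟩ := h2 Finset.univ
    exact ⟨a, fun α => h3 α (Finset.mem_univ α), h4⟩
  obtain ⟨c, hc⟩ : ∃ c, c = ∑ i, |Φ.Rs.lam i H| := ⟨_, rfl⟩
  obtain ⟨ε, hε, hε1, hεab⟩ : ∃ ε : ℝ, 0 < ε ∧ ε < 1 ∧ a * (1 - ε) + c * ε < b := by
    have hpos : 0 < 2 * (|c - a| + 1) := by positivity
    refine ⟨min (1 / 2) ((b - a) / (2 * (|c - a| + 1))), lt_min (by norm_num)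
      (div_pos (by linarith) hpos), (min_le_left _ _).trans_lt (by norm_num), ?_⟩
    obtain ⟨ε, hε⟩ : ∃ ε, ε = min (1 / 2) ((b - a) / (2 * (|c - a| + 1))) := ⟨_, rfl⟩
    rw [← hε]
    have h1 : ε ≤ (b - a) / (2 * (|c - a| + 1)) := by
      rw [hε]
      exact min_le_right _ _
    have h0 : 0 < ε := by
      rw [hε]
      exact lt_min (by norm_num) (div_pos (by linarith) hpos)
    rw [le_div_iff₀ hpos] at h1
    have h2 : (c - a) * ε ≤ |c - a| * ε := mul_le_mul_of_nonneg_right (le_abs_self _) h0.le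
    nlinarith
  obtain ⟨C, hC, hJ⟩ := J_ineq Φ hm hS ξ hε hε1
  have hkey : b ≤ a * (1 - ε) + c * ε := by
    refine exp_comp (A := ‖Φ.RN.dual.act k ξ β‖)
      (B := C * nm (Φ.Rs.dual.act k S) ^ (1 - ε) * sm (Φ.Rs.ρ k⁻¹) ^ ε) (norm_pos_iff.2 hβ1)
      fun t ht => ?_
    obtain ⟨e', he'G, he'⟩ := R.tor H hH t
    obtain ⟨e, he⟩ : ∃ e : R.G, e = ⟨e', he'G⟩ := ⟨_, rfl⟩
    have heE : mx e = dE H t := by
      rw [he]
      exact he'
    have h1 := hJ (k⁻¹ * e⁻¹)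
    have e1 : (Φ.RN.ρ (k⁻¹ * e⁻¹))ᵀ *ᵥ ξ = Φ.RN.dual.act e (Φ.RN.dual.act k ξ) := by
      rw [← GRep.act_mul]
      unfold GRep.act
      rw [GRep.dual_ρ, _root_.mul_inv_rev]
    have e2 : (Φ.Rs.ρ (k⁻¹ * e⁻¹))ᵀ *ᵥ S = Φ.Rs.dual.act e (Φ.Rs.dual.act k S) := by
      rw [← GRep.act_mul]
      unfold GRep.act
      rw [GRep.dual_ρ, _root_.mul_inv_rev]
    rw [e1, e2, map_mul] at h1
    have h2 : Real.exp (t * b) * ‖Φ.RN.dual.act k ξ β‖ ≤
        nm (Φ.RN.dual.act e (Φ.RN.dual.act k ξ)) := by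
      rw [hb, ← norm_act_tor Φ.RN.dual hH heE]
      exact Pool.Agent.PB.norm_le_nm _ β
    refine h2.trans (h1.trans ?_)
    have h3 := nm_act_tor_le Φ.Rs.dual hH ht heE (Φ.Rs.dual.act k S) ha
    have h4 := sm_mul_tor Φ.Rs hH ht heE (Φ.Rs.ρ k⁻¹)
    rw [← hc] at h4
    have hn0 : 0 ≤ nm (Φ.Rs.dual.act k S) := Real.sqrt_nonneg _
    have hn1 : 0 ≤ nm (Φ.Rs.dual.act e (Φ.Rs.dual.act k S)) := Real.sqrt_nonneg _
    have hs0 : ∀ A : Matrix ι ι ℂ, 0 ≤ sm A := fun A =>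
      Finset.sum_nonneg fun i _ => Finset.sum_nonneg fun j _ => norm_nonneg _
    have h5 : nm (Φ.Rs.dual.act e (Φ.Rs.dual.act k S)) ^ (1 - ε) ≤
        Real.exp (t * (a * (1 - ε))) * nm (Φ.Rs.dual.act k S) ^ (1 - ε) := by
      refine (Real.rpow_le_rpow hn1 h3 (by linarith)).trans (le_of_eq ?_)
      rw [Real.mul_rpow (Real.exp_pos _).le hn0, ← Real.exp_mul]
      congr 2
      ring
    have h6 : sm (Φ.Rs.ρ k⁻¹ * Φ.Rs.ρ e⁻¹) ^ ε ≤
        sm (Φ.Rs.ρ k⁻¹) ^ ε * Real.exp (t * (c * ε)) := by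
      refine (Real.rpow_le_rpow (hs0 _) h4 hε.le).trans (le_of_eq ?_)
      rw [Real.mul_rpow (hs0 _) (Real.exp_pos _).le, ← Real.exp_mul]
      congr 2
      ring
    have h7 : Real.exp (t * (a * (1 - ε) + c * ε)) =
        Real.exp (t * (a * (1 - ε))) * Real.exp (t * (c * ε)) := by
      rw [← Real.exp_add]
      congr 1
      ring
    rw [h7]
    calc C * nm (Φ.Rs.dual.act e (Φ.Rs.dual.act k S)) ^ (1 - ε) *
          sm (Φ.Rs.ρ k⁻¹ * Φ.Rs.ρ e⁻¹) ^ ε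
        ≤ C * (Real.exp (t * (a * (1 - ε))) * nm (Φ.Rs.dual.act k S) ^ (1 - ε)) *
          (sm (Φ.Rs.ρ k⁻¹) ^ ε * Real.exp (t * (c * ε))) := by
          refine mul_le_mul (mul_le_mul_of_nonneg_left h5 hC.le) h6
            (Real.rpow_nonneg (hs0 _) _) ?_
          have := Real.rpow_nonneg hn0 (1 - ε)
          have := Real.exp_pos (t * (a * (1 - ε)))
          positivity
      _ = _ := by ring
  linarith

end Pool.Agent.PG
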