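import Pool.Agent.H.MP_e23cd6_ag.PB.P1
import Pool.Agent.H.MP_e23cd6_ag.PB.DT
import Pool.Agent.H.MP_e23cd6_ag.PB.GKlt
import Pool.Agent.H.MP_e23cd6_ag.PB.GInst
import Pool.Agent.H.MP_e23cd6_ag.Bertini

/-!
# Sanity: the projective line with the action of the torus, klt pairs
-/

set_option autoImplicit false

open scoped ENNReal
open MeasureTheory Matrix Topology

namespace Pool.Agent.PG

theorem dT_off {n : ℕ} (g : (DT n).G) : mx g = diagonal fun i => mx g i i := by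
  obtain ⟨d, hd⟩ := g.2
  have h : mx g = diagonal d := hd
  rw [h]
  simp

theorem dT_mul {n : ℕ} (g h : (DT n).G) (i : Fin n) : mx (g * h) i i = mx g i i * mx h i i := by
  rw [mx_mul, dT_off g, dT_off h, diagonal_mul_diagonal]
  simp

theorem dT_ne' {n : ℕ} (g : (DT n).G) (i : Fin n) : mx g i i ≠ 0 := dT_ne (dT_off g) i

/-- The representation of the torus with the weights `w`. -/
noncomputable def tR {ι : Type} [Fintype ι] [DecidableEq ι] (w : ι → Fin 2 → ℤ) :
    GRep (DT 2) ι where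
  ρ :=
    { toFun := fun g => diagonal fun k => ∏ i, mx g i i ^ w k i
      map_one' := by
        rw [← diagonal_one]
        congr 1
        funext k
        exact Finset.prod_eq_one fun i _ => by rw [mx_one, one_apply_eq, _root_.one_zpow]
      map_mul' := fun g h => by
        rw [diagonal_mul_diagonal]
        congr 1
        funext k
        rw [← Finset.prod_mul_distrib]
        exact Finset.prod_congr rfl fun i _ => by rw [dT_mul, mul_zpow] }
  cont := by
    refine Continuous.matrix_diagonal (continuous_pi fun k => ?_)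
    refine continuous_finsetProd _ fun i _ => ?_
    refine Continuous.zpow₀ ?_ _ fun g => Or.inl (dT_ne' g i)
    exact (Units.continuous_val.comp continuous_subtype_val).matrix_elem i i
  star := fun g g' h => by
    show diagonal _ = (diagonal _)ᴴ
    rw [diagonal_conjTranspose]
    congr 1
    funext k
    rw [Pi.star_apply, star_prod]
    refine Finset.prod_congr rfl fun i _ => ?_
    have h1 : mx g' = (mx g)ᴴ := h
    rw [h1, star_zpow₀]
    rfl
  lam := fun k => ∑ i, (w k i : ℝ) • LinearMap.proj i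
  diag := fun H _ z g h => by
    show diagonal _ = _
    congr 1
    funext k
    have h1 : mx g = dE H z := h
    rw [LinearMap.sum_apply, Complex.ofReal_sum, Finset.mul_sum, Complex.exp_sum]
    refine Finset.prod_congr rfl fun i _ => ?_
    rw [h1]
    unfold dE
    rw [diagonal_apply_eq, ← Complex.exp_int_mul]
    congr 1
    simp
    ring

theorem mulVec_dT (g : (DT 2).G) (v : Fin 2 → ℂ) (i : Fin 2) :
    (mx g *ᵥ v) i = mx g i i * v i := by
  rw [dT_off g, mulVec_diagonal]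
  simp

/-- The projective line with the action of the torus. -/
noncomputable def FT (a m : ℕ) : Fib (DT 2) ℂ P1 (Fin (a + 1)) (Fin (a + 2 * m + 1)) m :=
  FP1 (DT 2) a m (tR fun k => ![a - (k : ℕ), (k : ℕ)])
    (tR fun k => ![a + m - (k : ℕ), (k : ℕ) - m]) (by
      intro g v
      funext k
      have hk : (k : ℕ) ≤ a := Nat.lt_succ_iff.1 k.2
      show _ = (diagonal _ *ᵥ _) k
      rw [mulVec_diagonal]
      unfold mo
      rw [mulVec_dT, mulVec_dT, mul_pow, mul_pow, Fin.prod_univ_two]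
      simp only [cons_val_zero, cons_val_one]
      rw [← Nat.cast_sub hk, zpow_natCast, zpow_natCast]
      ring) (by
      intro g v
      funext k
      have hk : (k : ℕ) ≤ a + 2 * m := Nat.lt_succ_iff.1 k.2
      show (mx g).det ^ m * (diagonal _ *ᵥ _) k = _
      rw [mulVec_diagonal]
      unfold mo
      rw [mulVec_dT, mulVec_dT, mul_pow, mul_pow, Fin.prod_univ_two]
      simp only [cons_val_zero, cons_val_one]
      have h0 := dT_ne' g 0
      have h1 := dT_ne' g 1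
      have hd : (mx g).det = mx g 0 0 * mx g 1 1 := by
        rw [dT_off g, det_diagonal, Fin.prod_univ_two]
        simp
      have e0 : (mx g 0 0) ^ ((a : ℤ) + m - (k : ℕ)) * (mx g 0 0) ^ m =
          (mx g 0 0) ^ (a + 2 * m - (k : ℕ)) := by
        rw [← zpow_natCast, ← zpow_natCast, ← zpow_add₀ h0, Nat.cast_sub hk]
        congr 1
        push_cast
        ring
      have e1 : (mx g 1 1) ^ (((k : ℕ) : ℤ) - m) * (mx g 1 1) ^ m = (mx g 1 1) ^ (k : ℕ) := by
        rw [← zpow_natCast, ← zpow_natCast, ← zpow_add₀ h1]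
        congr 1
        ring
      rw [hd, ← e0, ← e1, mul_pow]
      ring)

theorem int_pt {K : Set ℂ} (hK : IsCompact K) {τ : ℝ} (hτ : 0 < τ) (hτ2 : τ < 2) (ζ : ℂ) :
    ∫⁻ x in K, ‖x - ζ‖ₑ ^ (-τ) < ⊤ := by
  set G : ℂ → ℝ≥0∞ := (Metric.ball (0 : ℂ) 1).indicator (fun t => ‖t‖ₑ ^ (-τ)) with hG
  have hle : ∀ t : ℂ, ‖t - ζ‖ₑ ^ (-τ) ≤ G (t - ζ) + 1 := by
    intro t
    by_cases h : t - ζ ∈ Metric.ball (0 : ℂ) 1
    · rw [hG, Set.indicator_of_mem h]
      exact le_self_add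
    · have h1 : 1 ≤ ‖t - ζ‖ := by
        simpa using h
      have h2 : (1 : ℝ≥0∞) ≤ ‖t - ζ‖ₑ := by
        rw [← ofReal_norm]
        exact ENNReal.one_le_ofReal.2 h1
      calc ‖t - ζ‖ₑ ^ (-τ) ≤ 1 := by
            rw [ENNReal.rpow_neg]
            exact ENNReal.inv_le_one.2 (ENNReal.one_le_rpow h2 hτ)
        _ ≤ G (t - ζ) + 1 := le_add_self
  calc ∫⁻ t in K, ‖t - ζ‖ₑ ^ (-τ)
      ≤ ∫⁻ t in K, (G (t - ζ) + 1) := lintegral_mono fun t => hle t
    _ = (∫⁻ t in K, G (t - ζ)) + volume K := by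
        rw [lintegral_add_right _ measurable_const, lintegral_one, Measure.restrict_apply_univ]
    _ ≤ (∫⁻ t : ℂ, G (t - ζ)) + volume K := by
        gcongr
        exact Measure.restrict_le_self
    _ = (∫⁻ t : ℂ, G t) + volume K := by
        rw [lintegral_sub_right_eq_self G ζ]
    _ < ⊤ := by
        rw [hG, lintegral_indicator measurableSet_ball]
        exact ENNReal.add_lt_top.2 ⟨Pool.Agent.Abd.bertini_ball hτ2, hK.measure_lt_top⟩

theorem two_pt {u v δ : ℝ≥0∞} (h : δ ≤ u + v) {r : ℝ} (hr : 0 ≤ r) :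
    u ^ (-r) * v ^ (-r) ≤ (δ / 2) ^ (-r) * (u ^ (-r) + v ^ (-r)) := by
  have hanti : ∀ {x y : ℝ≥0∞}, x ≤ y → y ^ (-r) ≤ x ^ (-r) := by
    intro x y hxy
    rw [ENNReal.rpow_neg, ENNReal.rpow_neg]
    exact ENNReal.inv_le_inv.2 (ENNReal.rpow_le_rpow hxy hr)
  have h1 : δ / 2 ≤ u ∨ δ / 2 ≤ v := by
    by_contra hcon
    push Not at hcon
    have h2 : u + v < δ / 2 + δ / 2 := ENNReal.add_lt_add hcon.1 hcon.2
    rw [ENNReal.add_halves] at h2
    exact absurd h (not_le.2 h2)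
  rcases h1 with h1 | h1
  · calc u ^ (-r) * v ^ (-r) ≤ (δ / 2) ^ (-r) * v ^ (-r) := mul_le_mul' (hanti h1) le_rfl
      _ ≤ _ := mul_le_mul' le_rfl le_add_self
  · calc u ^ (-r) * v ^ (-r) ≤ u ^ (-r) * (δ / 2) ^ (-r) := mul_le_mul' le_rfl (hanti h1)
      _ = (δ / 2) ^ (-r) * u ^ (-r) := mul_comm _ _
      _ ≤ _ := mul_le_mul' le_rfl le_self_add

theorem prod_pt (s : Finset ℂ) {r : ℝ} (hr : 0 ≤ r) : ∃ C : ℝ≥0∞, C ≠ ⊤ ∧ ∀ x : ℂ,
    (∏ ζ ∈ s, ‖x - ζ‖ₑ) ^ (-r) ≤ C * (1 + ∑ ζ ∈ s, ‖x - ζ‖ₑ ^ (-r)) := by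
  classical
  induction s using Finset.induction_on with
  | empty => exact ⟨1, ENNReal.one_ne_top, fun x => by simp⟩
  | insert b s hb ih =>
    obtain ⟨C, hC, h⟩ := ih
    refine ⟨C * (1 + ∑ ζ ∈ s, (‖ζ - b‖ₑ / 2) ^ (-r)), ENNReal.mul_ne_top hC
      (ENNReal.add_ne_top.2 ⟨ENNReal.one_ne_top, ENNReal.sum_ne_top.2 fun ζ hζ => ?_⟩), fun x => ?_⟩
    · refine ENNReal.rpow_ne_top_of_ne_zero ?_ ?_
      · refine (ENNReal.div_pos ?_ ENNReal.ofNat_ne_top).ne'
        rw [enorm_ne_zero, sub_ne_zero]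
        rintro rfl
        exact hb hζ
      · exact ENNReal.div_ne_top enorm_ne_top two_ne_zero
    · rw [Finset.prod_insert hb, Finset.sum_insert hb]
      obtain ⟨D, hD⟩ : ∃ D : ℂ → ℝ≥0∞, D = fun ζ => (‖ζ - b‖ₑ / 2) ^ (-r) := ⟨_, rfl⟩
      obtain ⟨X, hX⟩ : ∃ X : ℂ → ℝ≥0∞, X = fun ζ => ‖x - ζ‖ₑ ^ (-r) := ⟨_, rfl⟩
      have h1 : (‖x - b‖ₑ * ∏ ζ ∈ s, ‖x - ζ‖ₑ) ^ (-r) =
          X b * (∏ ζ ∈ s, ‖x - ζ‖ₑ) ^ (-r) := by
        rw [hX]
        refine ENNReal.mul_rpow_of_ne_top enorm_ne_top ?_ _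
        exact ENNReal.prod_ne_top fun ζ _ => enorm_ne_top
      have h2 : ∀ ζ ∈ s, X b * X ζ ≤ D ζ * (X b + X ζ) := by
        intro ζ _
        rw [hX, hD]
        refine two_pt ?_ hr
        calc ‖ζ - b‖ₑ = ‖(x - b) - (x - ζ)‖ₑ := by
              congr 1
              ring
          _ ≤ ‖x - b‖ₑ + ‖x - ζ‖ₑ := enorm_sub_le
      have h3 : ∀ ζ ∈ s, D ζ ≤ ∑ ζ ∈ s, D ζ := fun ζ hζ =>
        Finset.single_le_sum (f := D) (fun _ _ => zero_le) hζ
      have e1 : ∑ ζ ∈ s, (‖ζ - b‖ₑ / 2) ^ (-r) = ∑ ζ ∈ s, D ζ := by rw [hD]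
      have e2 : ∑ ζ ∈ s, ‖x - ζ‖ₑ ^ (-r) = ∑ ζ ∈ s, X ζ := by rw [hX]
      have e3 : ‖x - b‖ₑ ^ (-r) = X b := by rw [hX]
      rw [h1, e1, e2, e3]
      have h4 := h x
      rw [e2] at h4
      calc X b * (∏ ζ ∈ s, ‖x - ζ‖ₑ) ^ (-r) ≤ X b * (C * (1 + ∑ ζ ∈ s, X ζ)) :=
            mul_le_mul' le_rfl h4
        _ = C * (X b + ∑ ζ ∈ s, X b * X ζ) := by
            rw [← Finset.mul_sum]
            ring
        _ ≤ C * (X b + ∑ ζ ∈ s, D ζ * (X b + X ζ)) :=
            mul_le_mul' le_rfl (add_le_add le_rfl (Finset.sum_le_sum h2))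
        _ = C * (X b + (∑ ζ ∈ s, D ζ) * X b + ∑ ζ ∈ s, D ζ * X ζ) := by
            rw [Finset.sum_mul, add_assoc, ← Finset.sum_add_distrib]
            congr 2
            exact Finset.sum_congr rfl fun ζ _ => by ring
        _ ≤ C * (X b + (∑ ζ ∈ s, D ζ) * X b + ∑ ζ ∈ s, (∑ ζ ∈ s, D ζ) * X ζ) := by
            gcongr with ζ hζ
            exact h3 ζ hζ
        _ ≤ C * (1 + ∑ ζ ∈ s, D ζ) * (1 + (X b + ∑ ζ ∈ s, X ζ)) := by
            rw [← Finset.mul_sum, mul_assoc]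
            refine mul_le_mul' le_rfl ?_
            have e : (1 + ∑ ζ ∈ s, D ζ) * (1 + (X b + ∑ ζ ∈ s, X ζ)) =
                (X b + (∑ ζ ∈ s, D ζ) * X b + (∑ ζ ∈ s, D ζ) * ∑ ζ ∈ s, X ζ) +
                  (1 + ∑ ζ ∈ s, D ζ + ∑ ζ ∈ s, X ζ) := by ring
            rw [e]
            exact le_self_add

/-- `|x ^ N - 1| ^ (-r)` is locally integrable, `r < 2`. -/
theorem int_pow_sub {K : Set ℂ} (hK : IsCompact K) {r : ℝ} (hr : 0 < r) (hr2 : r < 2) {N : ℕ}
    (hN : 0 < N) : ∫⁻ x in K, ‖x ^ N - 1‖ₑ ^ (-r) < ⊤ := by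
  obtain ⟨C, hC, h⟩ := prod_pt (Polynomial.nthRootsFinset N (1 : ℂ)) hr.le
  have e : ∀ x : ℂ, ‖x ^ N - 1‖ₑ = ∏ ζ ∈ Polynomial.nthRootsFinset N (1 : ℂ), ‖x - ζ‖ₑ := by
    intro x
    have hp := Complex.isPrimitiveRoot_exp N hN.ne'
    have h1 := Polynomial.X_pow_sub_one_eq_prod hN hp
    have h2 := congrArg (Polynomial.eval x) h1
    rw [Polynomial.eval_prod] at h2
    simp only [Polynomial.eval_sub, Polynomial.eval_pow, Polynomial.eval_X, Polynomial.eval_one,
      Polynomial.eval_C] at h2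
    rw [h2]
    simp [enorm, nnnorm_prod]
  calc ∫⁻ x in K, ‖x ^ N - 1‖ₑ ^ (-r)
      ≤ ∫⁻ x in K, C * (1 + ∑ ζ ∈ Polynomial.nthRootsFinset N (1 : ℂ), ‖x - ζ‖ₑ ^ (-r)) := by
        refine lintegral_mono fun x => ?_
        show ‖x ^ N - 1‖ₑ ^ (-r) ≤ _
        rw [e x]
        exact h x
    _ = C * (volume K + ∑ ζ ∈ Polynomial.nthRootsFinset N (1 : ℂ),
          ∫⁻ x in K, ‖x - ζ‖ₑ ^ (-r)) := by
        rw [lintegral_const_mul' _ _ hC, lintegral_add_left measurable_const, lintegral_one,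
          Measure.restrict_apply_univ, lintegral_finsetSum]
        intro ζ _
        exact ((measurable_id.sub_const ζ).enorm).pow_const _
    _ < ⊤ := by
        refine ENNReal.mul_lt_top hC.lt_top (ENNReal.add_lt_top.2 ⟨hK.measure_lt_top, ?_⟩)
        exact ENNReal.sum_lt_top.2 fun ζ _ => int_pt hK hr hr2 ζ

/-- The section `x^N - y^N`, `N = a + 2 m`, gives a klt pair. -/
theorem FP1_klt (R : RG 2) (a m : ℕ) (hm : 2 ≤ m) (RN : GRep R (Fin (a + 1)))
    (Rs : GRep R (Fin (a + 2 * m + 1))) (hN : ∀ g v, mo a (mx g *ᵥ v) = RN.ρ g *ᵥ mo a v)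
    (hs : ∀ g v, (mx g).det ^ m • (Rs.ρ g *ᵥ mo (a + 2 * m) v) = mo (a + 2 * m) (mx g *ᵥ v)) :
    (FP1 R a m RN Rs hN hs).Klt (Pi.single 0 1 - Pi.single (Fin.last _) 1) := by
  have hm0 : (0 : ℝ) < m := by exact_mod_cast (by omega : 0 < m)
  have hm2 : (2 : ℝ) ≤ m := by exact_mod_cast hm
  refine klt_smooth (FP1 R a m RN Rs hN hs) cover_P1 fun (j : Fin 2) K _ hK => ?_
  have e : ∀ x : ℂ, ‖(Pi.single 0 1 - Pi.single (Fin.last _) 1 : Fin (a + 2 * m + 1) → ℂ) ⬝ᵥ
      (FP1 R a m RN Rs hN hs).σ j (((FP1 R a m RN Rs hN hs).φ j).symm x)‖ₑ =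
      ‖(if j = 0 then x else -x) ^ (a + 2 * m) - 1‖ₑ := by
    intro x
    have e1 : (FP1 R a m RN Rs hN hs).σ j (((FP1 R a m RN Rs hN hs).φ j).symm x) = mo (a + 2 * m) (ivv j x) :=
      vv_iv (a + 2 * m) j x
    rw [e1, sub_dotProduct, single_one_dotProduct, single_one_dotProduct]
    unfold mo ivv
    have h2 : a + 2 * m ≠ 0 := by omega
    have j2 : j = 0 ∨ j = 1 := by
      fin_cases j
      · exact Or.inl rfl
      · exact Or.inr rfl
    rcases j2 with h | h
    · rw [h]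
      simp only [if_true, cons_val_zero, cons_val_one, Fin.val_zero, Fin.val_last, Nat.choose_zero_right,
        Nat.choose_self, Nat.cast_one, Real.sqrt_one, Complex.ofReal_one, one_pow, one_mul, mul_one,
        pow_zero]
      rw [← enorm_neg]
      congr 1
      ring
    · rw [h]
      simp only [one_ne_zero, if_false, cons_val_zero, cons_val_one, Fin.val_zero, Fin.val_last,
        Nat.choose_zero_right, Nat.choose_self, Nat.cast_one, Real.sqrt_one, Complex.ofReal_one,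
        one_pow, one_mul, mul_one, pow_zero, Nat.sub_zero, Nat.sub_self]
  simp_rw [e]
  have hr2 : (2 : ℝ) / m < 2 := by
    rw [div_lt_iff₀ hm0]
    nlinarith
  by_cases hj : j = 0
  · simp_rw [if_pos hj]
    exact int_pow_sub hK (by positivity) hr2 (by omega)
  · simp_rw [if_neg hj]
    have h1 : ∫⁻ x in K, ‖(-x) ^ (a + 2 * m) - 1‖ₑ ^ (-((2 : ℝ) / m)) =
        ∫⁻ x in (fun x => -x) '' K, ‖x ^ (a + 2 * m) - 1‖ₑ ^ (-((2 : ℝ) / m)) := by
      have hmp : MeasurePreserving (fun x : ℂ => -x) volume volume :=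
        Measure.measurePreserving_neg volume
      rw [← hmp.setLIntegral_comp_emb (MeasurableEquiv.neg ℂ).measurableEmbedding]
    rw [h1]
    exact int_pow_sub (hK.image continuous_neg) (by positivity) hr2 (by omega)

theorem FT_klt (a m : ℕ) (hm : 2 ≤ m) :
    (FT a m).Klt (Pi.single 0 1 - Pi.single (Fin.last _) 1) := FP1_klt _ a m hm _ _ _ _

/-! ## The symmetric powers of `SL_2(ℂ)` -/

/-- The polynomial of the image of a monomial. -/
noncomputable def sP (N : ℕ) (A : Matrix (Fin 2) (Fin 2) ℂ) (k : ℕ) : Polynomial ℂ :=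
  (Polynomial.C (A 0 0) + Polynomial.C (A 0 1) * Polynomial.X) ^ (N - k) *
    (Polynomial.C (A 1 0) + Polynomial.C (A 1 1) * Polynomial.X) ^ k

theorem sP_deg (N : ℕ) (A : Matrix (Fin 2) (Fin 2) ℂ) (k : ℕ) (hk : k ≤ N) :
    (sP N A k).natDegree < N + 1 := by
  have h : ∀ a b : ℂ, (Polynomial.C a + Polynomial.C b * Polynomial.X).natDegree ≤ 1 := by
    intro a b
    rw [add_comm]
    exact Polynomial.natDegree_linear_le
  have h1 : (sP N A k).natDegree ≤ (N - k) * 1 + k * 1 := by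
    refine Polynomial.natDegree_mul_le.trans (add_le_add ?_ ?_)
    · exact Polynomial.natDegree_pow_le.trans (Nat.mul_le_mul_left _ (h _ _))
    · exact Polynomial.natDegree_pow_le.trans (Nat.mul_le_mul_left _ (h _ _))
  omega

/-- The matrix of the symmetric power. -/
noncomputable def sM (N : ℕ) (A : Matrix (Fin 2) (Fin 2) ℂ) :
    Matrix (Fin (N + 1)) (Fin (N + 1)) ℂ :=
  Matrix.of fun k l => (Real.sqrt (N.choose k) : ℂ) * (sP N A k).coeff l *
    ((Real.sqrt (N.choose l) : ℂ))⁻¹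

theorem sM_mo (N : ℕ) (A : Matrix (Fin 2) (Fin 2) ℂ) (v : Fin 2 → ℂ) :
    mo N (A *ᵥ v) = sM N A *ᵥ mo N v := by
  have hd : Dense {v : Fin 2 → ℂ | v 0 ≠ 0} := by
    have h1 : Dense ({0}ᶜ : Set ℂ) := dense_compl_singleton 0
    exact h1.preimage (isOpenMap_eval 0)
  have hc1 : Continuous fun v : Fin 2 → ℂ => mo N (A *ᵥ v) :=
    (continuous_mo N).comp (Continuous.matrix_mulVec continuous_const continuous_id)
  have hc2 : Continuous fun v : Fin 2 → ℂ => sM N A *ᵥ mo N v :=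
    Continuous.matrix_mulVec continuous_const (continuous_mo N)
  refine congrFun (Continuous.ext_on hd hc1 hc2 ?_) v
  intro v hv
  have hv' : v 0 ≠ 0 := hv
  funext k
  have hk : (k : ℕ) ≤ N := Nat.lt_succ_iff.1 k.2
  obtain ⟨y, hy⟩ : ∃ y, y = v 1 / v 0 := ⟨_, rfl⟩
  have hy' : v 1 = v 0 * y := by
    rw [hy]
    field_simp
  have e1 : (A *ᵥ v) 0 = v 0 * (A 0 0 + A 0 1 * y) := by
    rw [Matrix.mulVec_fin_two]
    simp only [cons_val_zero]
    rw [hy']
    ring
  have e2 : (A *ᵥ v) 1 = v 0 * (A 1 0 + A 1 1 * y) := by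
    rw [Matrix.mulVec_fin_two]
    simp only [cons_val_one]
    rw [hy']
    simp
    ring
  have e3 : (sP N A k).eval y = (A 0 0 + A 0 1 * y) ^ (N - (k : ℕ)) *
      (A 1 0 + A 1 1 * y) ^ (k : ℕ) := by
    simp [sP]
  have e4 : (sP N A k).eval y = ∑ l : Fin (N + 1), (sP N A k).coeff l * y ^ (l : ℕ) := by
    rw [Polynomial.eval_eq_sum_range' (sP_deg N A k hk), Finset.sum_range]
  have e5 : v 0 ^ N = v 0 ^ (N - (k : ℕ)) * v 0 ^ (k : ℕ) := by
    rw [← pow_add, Nat.sub_add_cancel hk]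
  calc mo N (A *ᵥ v) k = (Real.sqrt (N.choose k) : ℂ) * v 0 ^ N * (sP N A k).eval y := by
        unfold mo
        rw [e1, e2, e3, e5, mul_pow, mul_pow]
        ring
    _ = (sM N A *ᵥ mo N v) k := by
        rw [e4, Finset.mul_sum]
        unfold mulVec dotProduct
        refine Finset.sum_congr rfl fun l _ => ?_
        have hl : (l : ℕ) ≤ N := Nat.lt_succ_iff.1 l.2
        show _ = (Real.sqrt (N.choose k) : ℂ) * (sP N A k).coeff l *
          ((Real.sqrt (N.choose l) : ℂ))⁻¹ *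
            ((Real.sqrt (N.choose l) : ℂ) * v 0 ^ (N - (l : ℕ)) * v 1 ^ (l : ℕ))
        rw [hy', mul_pow]
        have e6 : v 0 ^ N = v 0 ^ (N - (l : ℕ)) * v 0 ^ (l : ℕ) := by
          rw [← pow_add, Nat.sub_add_cancel hl]
        rw [e6]
        have h3 := sq_ne N l
        field_simp

theorem sM_uniq {N : ℕ} {T U : Matrix (Fin (N + 1)) (Fin (N + 1)) ℂ}
    (h : ∀ v, T *ᵥ mo N v = U *ᵥ mo N v) : T = U := by
  rw [← sub_eq_zero]
  by_contra hne
  obtain ⟨k, hk⟩ := Function.ne_iff.1 hne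
  obtain ⟨x, hx⟩ := (poly_ne N 0 hk).infinite_compl.nonempty
  apply hx
  show (T - U) k ⬝ᵥ mo N (ivv 0 x) = 0
  have h1 := congrFun (h (ivv 0 x)) k
  have h2 : (T - U) k = T k - U k := rfl
  rw [h2, sub_dotProduct, sub_eq_zero]
  exact h1

theorem mo_star (N : ℕ) (v w : Fin 2 → ℂ) :
    star (mo N v) ⬝ᵥ mo N w = (star v ⬝ᵥ w) ^ N := by
  have h : (star v ⬝ᵥ w) = star (v 1) * w 1 + star (v 0) * w 0 := by
    unfold dotProduct
    rw [Fin.sum_univ_two, Pi.star_apply, Pi.star_apply]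
    ring
  rw [h, add_pow, Finset.sum_range]
  unfold dotProduct
  refine Finset.sum_congr rfl fun k _ => ?_
  rw [Pi.star_apply]
  unfold mo
  rw [star_mul', star_mul', star_pow, star_pow, Complex.star_def, Complex.conj_ofReal]
  have h1 : (Real.sqrt (N.choose k) : ℂ) * (Real.sqrt (N.choose k) : ℂ) = N.choose k := by
    rw [← Complex.ofReal_mul, Real.mul_self_sqrt (Nat.cast_nonneg _)]
    simp
  rw [← h1, mul_pow, mul_pow]
  ring

theorem coeff_cont {α : Type} [TopologicalSpace α] {P Q : α → Polynomial ℂ}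
    (hP : ∀ l, Continuous fun a => (P a).coeff l) (hQ : ∀ l, Continuous fun a => (Q a).coeff l)
    (l : ℕ) : Continuous fun a => (P a * Q a).coeff l := by
  simp_rw [Polynomial.coeff_mul]
  exact continuous_finsetSum _ fun p _ => (hP _).mul (hQ _)

theorem coeff_cont_pow {α : Type} [TopologicalSpace α] {P : α → Polynomial ℂ}
    (hP : ∀ l, Continuous fun a => (P a).coeff l) (n l : ℕ) :
    Continuous fun a => (P a ^ n).coeff l := by
  induction n generalizing l with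
  | zero =>
    simp_rw [pow_zero]
    exact continuous_const
  | succ n ih =>
    simp_rw [pow_succ]
    exact coeff_cont ih hP l

/-- The symmetric power. -/
noncomputable def symR (R : RG 2) (N : ℕ) : GRep R (Fin (N + 1)) where
  ρ :=
    { toFun := fun g => sM N (mx g)
      map_one' := by
        refine sM_uniq fun v => ?_
        rw [← sM_mo, mx_one, one_mulVec, one_mulVec]
      map_mul' := fun g h => by
        refine sM_uniq fun v => ?_
        rw [← sM_mo, mx_mul, ← mulVec_mulVec, sM_mo, sM_mo, mulVec_mulVec] }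
  cont := by
    have hc : Continuous fun g : R.G => mx g := Units.continuous_val.comp continuous_subtype_val
    have hlin : ∀ i, ∀ l, Continuous fun g : R.G =>
        (Polynomial.C (mx g i 0) + Polynomial.C (mx g i 1) * Polynomial.X).coeff l := by
      intro i l
      simp_rw [Polynomial.coeff_add, Polynomial.coeff_C_mul, Polynomial.coeff_C]
      refine Continuous.add ?_ ?_
      · split_ifs
        · exact hc.matrix_elem i 0
        · exact continuous_const
      · exact (hc.matrix_elem i 1).mul continuous_const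
    refine continuous_matrix fun k l => ?_
    show Continuous fun g : R.G => (Real.sqrt (N.choose k) : ℂ) * (sP N (mx g) k).coeff l *
      ((Real.sqrt (N.choose l) : ℂ))⁻¹
    refine (continuous_const.mul ?_).mul continuous_const
    exact coeff_cont (coeff_cont_pow (hlin 0) _) (coeff_cont_pow (hlin 1) _) l
  star := fun g g' h => by
    show sM N (mx g') = (sM N (mx g))ᴴ
    have h1 : mx g' = (mx g)ᴴ := h
    refine sM_uniq fun w => ?_
    rw [← sub_eq_zero]
    obtain ⟨u, hu⟩ : ∃ u, u = sM N (mx g') *ᵥ mo N w - (sM N (mx g))ᴴ *ᵥ mo N w := ⟨_, rfl⟩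
    rw [← hu]
    by_contra hne
    have hne' : star u ≠ 0 := fun h0 => hne (by rw [← star_star u, h0, star_zero])
    obtain ⟨x, hx⟩ := (poly_ne N 0 hne').infinite_compl.nonempty
    apply hx
    show star u ⬝ᵥ mo N (ivv 0 x) = 0
    have key : star (mo N (ivv 0 x)) ⬝ᵥ u = 0 := by
      rw [hu, dotProduct_sub, sub_eq_zero, ← sM_mo, mo_star, h1]
      have e1 : star (mo N (ivv 0 x)) ⬝ᵥ (sM N (mx g))ᴴ *ᵥ mo N w =
          star (sM N (mx g) *ᵥ mo N (ivv 0 x)) ⬝ᵥ mo N w := by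
        rw [star_mulVec, ← dotProduct_mulVec]
      rw [e1, ← sM_mo, mo_star, star_mulVec, ← dotProduct_mulVec]
    have e2 : star u ⬝ᵥ mo N (ivv 0 x) = star (star (mo N (ivv 0 x)) ⬝ᵥ u) := by
      rw [← star_dotProduct_star, star_star]
    rw [e2, key, star_zero]
  lam := fun k => ((N - (k : ℕ) : ℕ) : ℝ) • LinearMap.proj 0 + ((k : ℕ) : ℝ) • LinearMap.proj 1
  diag := fun H _ z g h => by
    show sM N (mx g) = _
    refine sM_uniq fun v => ?_
    have h1 : mx g = dE H z := h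
    rw [← sM_mo, h1]
    funext k
    rw [mulVec_diagonal]
    unfold dE mo
    rw [mulVec_diagonal, mulVec_diagonal, mul_pow, mul_pow, ← Complex.exp_nat_mul,
      ← Complex.exp_nat_mul]
    have e : Complex.exp (z * (((((N - (k : ℕ) : ℕ) : ℝ) • LinearMap.proj 0 +
        ((k : ℕ) : ℝ) • LinearMap.proj 1 : (Fin 2 → ℝ) →ₗ[ℝ] ℝ) H : ℝ) : ℂ)) =
        Complex.exp (((N - (k : ℕ) : ℕ) : ℂ) * (z * H 0)) *
          Complex.exp (((k : ℕ) : ℂ) * (z * H 1)) := by
      rw [← Complex.exp_add]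
      congr 1
      rw [LinearMap.add_apply, LinearMap.smul_apply, LinearMap.smul_apply]
      simp only [LinearMap.proj_apply, smul_eq_mul]
      push_cast
      ring
    rw [e]
    ring

/-- The projective line with the action of `SL_2(ℂ)`. -/
noncomputable def FS (a m : ℕ) : Fib (slG 2) ℂ P1 (Fin (a + 1)) (Fin (a + 2 * m + 1)) m :=
  FP1 (slG 2) a m (symR _ a) (symR _ (a + 2 * m)) (fun g v => sM_mo a (mx g) v) (by
    intro g v
    have h : (mx g).det = 1 := by
      obtain ⟨g', hg'⟩ := g.2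
      have h1 : mx g = (g' : Matrix (Fin 2) (Fin 2) ℂ) := by
        show ((g : GL (Fin 2) ℂ) : Matrix (Fin 2) (Fin 2) ℂ) = _
        rw [← hg']
        rfl
      rw [h1]
      exact g'.det_coe
    rw [h, one_pow, one_smul]
    exact (sM_mo (a + 2 * m) (mx g) v).symm)

theorem FS_klt (a m : ℕ) (hm : 2 ≤ m) :
    (FS a m).Klt (Pi.single 0 1 - Pi.single (Fin.last _) 1) := FP1_klt _ a m hm _ _ _ _

end Pool.Agent.PG
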