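import Pool.Agent.H.MP_e23cd6_ag.PB.DefsG

/-!
MP_e23cd6_ag, fibre bundles: complex manifolds and (locally closed) subsets of `ℂ^N` as examples of `CSp`, and holomorphic
transition maps over a complex manifold satisfy the condition `Bun.hol`.
-/

set_option autoImplicit false

open scoped Manifold ContDiff Topology

namespace Pool.Agent.PG

/-- A complex manifold. -/
def CSp.manifold (E : Type) [NormedAddCommGroup E] [NormedSpace ℂ E] (Z : Type) [TopologicalSpace Z]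
    [ChartedSpace E Z] : CSp Z where
  O U := {f | MDifferentiableOn 𝓘(ℂ, E) 𝓘(ℂ) f U}
  const _ _ := mdifferentiableOn_const
  add _ _ hf _ hg := MDifferentiableOn.add hf hg
  mul _ _ hf _ hg := MDifferentiableOn.mul hf hg
  mono _ _ h _ hf := MDifferentiableOn.mono hf h
  loc U hU f h := by
    intro z hz
    obtain ⟨V, hVU, hV, hzV, g, hg, hfg⟩ := h z hz
    have h1 : MDifferentiableWithinAt 𝓘(ℂ, E) 𝓘(ℂ) g V z := hg z hzV
    have h2 : MDifferentiableAt 𝓘(ℂ, E) 𝓘(ℂ) g z := h1.mdifferentiableAt (hV.mem_nhds hzV)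
    refine (h2.congr_of_eventuallyEq ?_).mdifferentiableWithinAt
    filter_upwards [hV.mem_nhds hzV] with w hw using hfg w hw

/-- The local models of reduced complex spaces: a (closed analytic) subset `A` of an open subset of `E = ℂ^N`. -/
def CSp.sub {E : Type} [NormedAddCommGroup E] [NormedSpace ℂ E] (A : Set E) : CSp A where
  O U := {f | ∀ z ∈ U, ∃ W : Set E, IsOpen W ∧ (z : E) ∈ W ∧ ∃ g : E → ℂ, DifferentiableOn ℂ g W ∧
    ∀ w ∈ U, (w : E) ∈ W → f w = g w}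
  const _ c := fun _ _ => ⟨Set.univ, isOpen_univ, trivial, fun _ => c, differentiableOn_const c,
    fun _ _ _ => rfl⟩
  add _ f hf f' hf' := fun z hz => by
    obtain ⟨W, hW, hzW, g, hg, h⟩ := hf z hz
    obtain ⟨W', hW', hzW', g', hg', h'⟩ := hf' z hz
    exact ⟨W ∩ W', hW.inter hW', ⟨hzW, hzW'⟩, fun x => g x + g' x,
      (hg.mono Set.inter_subset_left).add (hg'.mono Set.inter_subset_right),
      fun w hw hwW => by
        show f w + f' w = g w + g' w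
        rw [h w hw hwW.1, h' w hw hwW.2]⟩
  mul _ f hf f' hf' := fun z hz => by
    obtain ⟨W, hW, hzW, g, hg, h⟩ := hf z hz
    obtain ⟨W', hW', hzW', g', hg', h'⟩ := hf' z hz
    exact ⟨W ∩ W', hW.inter hW', ⟨hzW, hzW'⟩, fun x => g x * g' x,
      (hg.mono Set.inter_subset_left).mul (hg'.mono Set.inter_subset_right),
      fun w hw hwW => by
        show f w * f' w = g w * g' w
        rw [h w hw hwW.1, h' w hw hwW.2]⟩
  mono U V hVU f hf := fun z hz => by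
    obtain ⟨W, hW, hzW, g, hg, h⟩ := hf z (hVU hz)
    exact ⟨W, hW, hzW, g, hg, fun w hw hwW => h w (hVU hw) hwW⟩
  loc U hU f h := fun z hz => by
    obtain ⟨V, hVU, hV, hzV, g', hg', hfg⟩ := h z hz
    obtain ⟨W, hW, hzW, g, hg, h1⟩ := hg' z hzV
    obtain ⟨V', hV', hVV⟩ := isOpen_induced_iff.1 hV
    refine ⟨W ∩ V', hW.inter hV', ⟨hzW, ?_⟩, g, hg.mono Set.inter_subset_left, fun w _ hwW => ?_⟩
    · have : z ∈ Subtype.val ⁻¹' V' := by rw [hVV]; exact hzV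
      exact this
    · have hwV : w ∈ V := by
        rw [← hVV]
        exact hwW.2
      rw [hfg w hwV, h1 w hwV hwW.1]

variable {n : ℕ} {R : RG n} {EF : Type} [NormedAddCommGroup EF] [NormedSpace ℂ EF] {F : Type}
  [TopologicalSpace F] {κ ι : Type} [Fintype κ] [DecidableEq κ] [Fintype ι] [DecidableEq ι] {m : ℕ}

/-- Over a complex manifold, holomorphic transition maps (in the charts of `F`, near the points `(z, φ l y)`) satisfy
`Bun.hol`. -/
theorem hol_of_joint (Φ : Fib R EF F κ ι m) {E : Type} [NormedAddCommGroup E] [NormedSpace ℂ E] {Z : Type}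
    [TopologicalSpace Z] [ChartedSpace E Z] {γ : Z → R.G} {U : Set Z}
    (hjoint : ∀ l r, MDifferentiableOn (𝓘(ℂ, E).prod 𝓘(ℂ, EF)) 𝓘(ℂ, EF)
      (fun p : Z × EF => Φ.φ r (Φ.act (γ p.1) ((Φ.φ l).symm p.2)))
      {p | p.1 ∈ U ∧ p.2 ∈ (Φ.φ l).target ∧ Φ.act (γ p.1) ((Φ.φ l).symm p.2) ∈ (Φ.φ r).source})
    (r : Φ.J) (y : F) (V : Set Z) (hV : V ⊆ U)
    (hy : ∀ z ∈ V, Φ.act (γ z) y ∈ (Φ.φ r).source) (l : EF →L[ℂ] ℂ) :
    (fun z => l (Φ.φ r (Φ.act (γ z) y))) ∈ (CSp.manifold E Z).O V := by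
  show MDifferentiableOn 𝓘(ℂ, E) 𝓘(ℂ) _ V
  rcases V.eq_empty_or_nonempty with rfl | ⟨z0, hz0⟩
  · intro z hz
    exact absurd hz (by simp)
  obtain ⟨l', hl'⟩ := Φ.reg (γ z0)⁻¹ r _ (hy z0 hz0)
  rw [← Φ.mul, inv_mul_cancel, Φ.one] at hl'
  have h1 : MDifferentiableOn 𝓘(ℂ, E) (𝓘(ℂ, E).prod 𝓘(ℂ, EF)) (fun z : Z => (z, Φ.φ l' y)) V :=
    mdifferentiableOn_id.prodMk mdifferentiableOn_const
  have h2 := (hjoint l' r).comp h1 (fun z hz => ⟨hV hz, (Φ.φ l').map_source hl', by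
    show Φ.act (γ z) ((Φ.φ l').symm (Φ.φ l' y)) ∈ (Φ.φ r).source
    rw [(Φ.φ l').left_inv hl']
    exact hy z hz⟩)
  have h3 : MDifferentiable 𝓘(ℂ, EF) 𝓘(ℂ) l := l.mdifferentiable
  refine ((h3.comp_mdifferentiableOn h2).congr fun z _ => ?_)
  show l (Φ.φ r (Φ.act (γ z) y)) = l (Φ.φ r (Φ.act (γ z) ((Φ.φ l').symm (Φ.φ l' y))))
  rw [(Φ.φ l').left_inv hl']

end Pool.Agent.PG
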