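import Pool.Agent.H.MP_e23cd6_ag.PB.Defs

/-!
MP_e23cd6_ag (abundance), bundles of flags: the numerical consequence of the log canonical condition
at the fixed points of the torus.
-/

set_option autoImplicit false

open MeasureTheory

namespace Pool.Agent.PB

variable {n : ℕ}

/-- The sum over the entries of the blocks below the diagonal. -/
theorem num_rho (b : Fin n → ℕ) (v : Fin n → ℝ) :
    ∑ p : Pr b, (v p.1.2 - v p.1.1) = ∑ j, (rho b (b j) : ℝ) * v j := by
  classical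
  have h1 : ∑ p : Pr b, (v p.1.2 - v p.1.1) =
      ∑ p : Fin n × Fin n, if b p.2 < b p.1 then (v p.2 - v p.1) else 0 := by
    rw [← Finset.sum_filter]
    exact (Finset.sum_subtype (Finset.univ.filter fun p : Fin n × Fin n => b p.2 < b p.1)
      (by simp) (fun p => v p.2 - v p.1)).symm
  have h2 : ∀ i j : Fin n, (if b j < b i then v j - v i else 0) =
      (if b j < b i then v j else 0) - (if b j < b i then v i else 0) := by
    intro i j
    split_ifs <;> simp
  rw [h1, Fintype.sum_prod_type]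
  simp_rw [h2, Finset.sum_sub_distrib]
  rw [Finset.sum_comm (f := fun i j => if b j < b i then v j else 0), ← Finset.sum_sub_distrib]
  refine Finset.sum_congr rfl fun j _ => ?_
  have h3 : ∀ (q : Fin n → Prop) [DecidablePred q],
      ∑ i, (if q i then v j else 0) = ((Finset.univ.filter q).card : ℝ) * v j := by
    intro q _
    rw [← Finset.sum_filter, Finset.sum_const, nsmul_eq_mul]
  rw [h3, h3]
  unfold rho
  push_cast
  ring

/-- The entries of `1 + u` for `|u| ≤ 1`. -/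
theorem num_un {b : Fin n → ℕ} {u : Pr b → ℂ} (hu : ∀ p, ‖u p‖ ≤ 1) (i j : Fin n) :
    ‖un b u i j‖ ≤ 1 := by
  unfold un
  by_cases h : b j < b i
  · have hij : i ≠ j := fun h' => by subst h'; exact lt_irrefl _ h
    simp [h, hij, hu]
  · by_cases hij : i = j
    · subst hij
      simp
    · simp [h, hij]

/-- The bound for `f` on the boxes. -/
theorem num_bound {b : Fin n → ℕ} {k : Fin n → ℤ} {D : ℕ}
    (T : (Fin D → Fin n × Fin n) → ℂ) (f : Matrix (Fin n) (Fin n) ℂ → ℂ)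
    (hT : ∀ g, f g = ∑ κ, T κ * ∏ t, g (κ t).1 (κ t).2)
    (hdiag : ∀ (g : Matrix (Fin n) (Fin n) ℂ) (τ : Fin n → ℂ), (∀ i, τ i ≠ 0) →
      f (g * Matrix.diagonal τ) = (∏ j, τ j ^ k j) * f g)
    (w : Fin n → ℝ) (σ : Equiv.Perm (Fin n)) {μ : ℝ}
    (hμ : ∀ κ, T κ ≠ 0 → ∑ t, w (κ t).1 ≤ μ) {t : ℝ} (ht : 0 ≤ t) {u : Pr b → ℂ}
    (hu : ∀ p, ‖u p‖ ≤ Real.exp (-(t * (w (σ p.1.2) - w (σ p.1.1))))) :
    ‖f ((1 : Matrix (Fin n) (Fin n) ℂ).submatrix σ.symm id * un b u)‖ ≤
      (∑ κ, ‖T κ‖) * Real.exp (-(t * (∑ j, (k j : ℝ) * w (σ j) - μ))) := by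
  classical
  set u' : Pr b → ℂ := fun p => (Real.exp (t * (w (σ p.1.2) - w (σ p.1.1))) : ℂ) * u p with hu'
  have h1 : ∀ p, ‖u' p‖ ≤ 1 := by
    intro p
    rw [hu', norm_mul, Complex.norm_real, Real.norm_of_nonneg (Real.exp_pos _).le]
    calc Real.exp (t * (w (σ p.1.2) - w (σ p.1.1))) * ‖u p‖
        ≤ Real.exp (t * (w (σ p.1.2) - w (σ p.1.1))) *
          Real.exp (-(t * (w (σ p.1.2) - w (σ p.1.1)))) :=
          mul_le_mul_of_nonneg_left (hu p) (Real.exp_pos _).le
      _ = 1 := by rw [← Real.exp_add]; simp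
  set g' : Matrix (Fin n) (Fin n) ℂ :=
    fun i j => (Real.exp (t * w i) : ℂ) * un b u' (σ.symm i) j with hg'
  set τ : Fin n → ℂ := fun j => (Real.exp (-(t * w (σ j))) : ℂ) with hτ
  have h2 : (1 : Matrix (Fin n) (Fin n) ℂ).submatrix σ.symm id * un b u =
      g' * Matrix.diagonal τ := by
    ext i j
    have h3 : ((1 : Matrix (Fin n) (Fin n) ℂ).submatrix σ.symm id * un b u) i j =
        un b u (σ.symm i) j := by
      simp [Matrix.mul_apply, Matrix.one_apply]
    rw [h3, Matrix.mul_diagonal, hg', hτ]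
    obtain ⟨s, rfl⟩ := σ.surjective i
    simp only [Equiv.symm_apply_apply]
    have h4 : ((Real.exp (t * w (σ s)) : ℝ) : ℂ) * ((Real.exp (-(t * w (σ j))) : ℝ) : ℂ) =
        ((Real.exp (-(t * (w (σ j) - w (σ s)))) : ℝ) : ℂ) := by
      rw [← Complex.ofReal_mul, ← Real.exp_add]
      congr 2
      ring
    rw [mul_right_comm, h4]
    unfold un
    by_cases h : b j < b s
    · have hij : s ≠ j := fun h' => by subst h'; exact lt_irrefl _ h
      simp only [h, hij, dif_pos, if_false, zero_add, hu']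
      rw [← mul_assoc, ← Complex.ofReal_mul, ← Real.exp_add]
      simp
    · by_cases hij : s = j
      · subst hij
        simp
      · simp [h, hij]
  have h5 : ‖f g'‖ ≤ (∑ κ, ‖T κ‖) * Real.exp (t * μ) := by
    rw [hT, Finset.sum_mul]
    refine (norm_sum_le _ _).trans (Finset.sum_le_sum fun κ _ => ?_)
    rw [norm_mul]
    by_cases h0 : T κ = 0
    · rw [h0]
      simp
    refine mul_le_mul_of_nonneg_left ?_ (norm_nonneg _)
    rw [norm_prod]
    calc ∏ s, ‖g' (κ s).1 (κ s).2‖ ≤ ∏ s, Real.exp (t * w (κ s).1) := by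
          refine Finset.prod_le_prod (fun _ _ => norm_nonneg _) fun s _ => ?_
          rw [hg', norm_mul, Complex.norm_real, Real.norm_of_nonneg (Real.exp_pos _).le]
          exact mul_le_of_le_one_right (Real.exp_pos _).le (num_un h1 _ _)
      _ = Real.exp (t * ∑ s, w (κ s).1) := by rw [← Real.exp_sum, Finset.mul_sum]
      _ ≤ Real.exp (t * μ) := Real.exp_le_exp.2 (mul_le_mul_of_nonneg_left (hμ κ h0) ht)
  have h6 : ‖∏ j, τ j ^ k j‖ = Real.exp (-(t * ∑ j, (k j : ℝ) * w (σ j))) := by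
    rw [norm_prod, Finset.mul_sum, ← Finset.sum_neg_distrib, Real.exp_sum]
    refine Finset.prod_congr rfl fun j _ => ?_
    rw [norm_zpow, hτ, Complex.norm_real, Real.norm_of_nonneg (Real.exp_pos _).le,
      ← Real.rpow_intCast, ← Real.exp_mul]
    congr 1
    ring
  rw [h2, hdiag _ _ (fun j => by rw [hτ]; exact Complex.ofReal_ne_zero.2 (Real.exp_pos _).ne'),
    norm_mul, h6]
  calc Real.exp (-(t * ∑ j, (k j : ℝ) * w (σ j))) * ‖f g'‖
      ≤ Real.exp (-(t * ∑ j, (k j : ℝ) * w (σ j))) * ((∑ κ, ‖T κ‖) * Real.exp (t * μ)) :=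
        mul_le_mul_of_nonneg_left h5 (Real.exp_pos _).le
    _ = (∑ κ, ‖T κ‖) * Real.exp (-(t * (∑ j, (k j : ℝ) * w (σ j) - μ))) := by
        rw [mul_left_comm, ← Real.exp_add]
        congr 2
        ring

/-- The volume of the boxes. -/
theorem num_volume (b : Fin n → ℕ) (e : Pr b → ℝ) :
    volume (Set.univ.pi fun p : Pr b => Metric.closedBall (0 : ℂ) (Real.exp (e p))) =
      ENNReal.ofReal (Real.exp (2 * ∑ p, e p) * Real.pi ^ Fintype.card (Pr b)) := by
  rw [volume_pi_pi]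
  simp_rw [Complex.volume_closedBall]
  rw [Finset.prod_mul_distrib, Finset.prod_const, Finset.card_univ,
    ENNReal.ofReal_mul (Real.exp_pos _).le, Finset.mul_sum, Real.exp_sum,
    ENNReal.ofReal_prod_of_nonneg fun p _ => (Real.exp_pos _).le]
  congr 1
  · refine Finset.prod_congr rfl fun p _ => ?_
    rw [← ENNReal.ofReal_pow (Real.exp_pos _).le, ← Real.exp_nat_mul]
    norm_num
  · rw [ENNReal.ofReal_pow Real.pi_pos.le]
    congr 1
    rw [← NNReal.coe_real_pi, ENNReal.ofReal_coe_nnreal]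

theorem num {b : Fin n → ℕ} {l : ℕ → ℤ} {m : ℕ} (hm : 1 ≤ m) {D : ℕ}
    (T : (Fin D → Fin n × Fin n) → ℂ) (f : Matrix (Fin n) (Fin n) ℂ → ℂ)
    (hT : ∀ g, f g = ∑ κ, T κ * ∏ t, g (κ t).1 (κ t).2)
    (hdiag : ∀ (g : Matrix (Fin n) (Fin n) ℂ) (τ : Fin n → ℂ), (∀ i, τ i ≠ 0) →
      f (g * Matrix.diagonal τ) = (∏ j, τ j ^ (l (b j) + m * rho b (b j))) * f g)
    (hlc : LC b m f) (w : Fin n → ℝ) (_hw : ∑ i, w i = 0) (σ : Equiv.Perm (Fin n))
    (hσ : ∀ i j, b i < b j → w (σ j) ≤ w (σ i)) :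
    ∃ κ, T κ ≠ 0 ∧ ∑ j, (l (b j) : ℝ) * w (σ j) ≤ ∑ t, w (κ t).1 := by
  classical
  by_contra hcon
  push Not at hcon
  set Λ : ℝ := ∑ j, (l (b j) : ℝ) * w (σ j) with hΛ
  -- the maximal weight
  obtain ⟨μ, hμΛ, hμ⟩ : ∃ μ : ℝ, μ < Λ ∧ ∀ κ, T κ ≠ 0 → ∑ t, w (κ t).1 ≤ μ := by
    by_cases hne : (Finset.univ.filter fun κ => T κ ≠ 0).Nonempty
    · obtain ⟨κ₀, hκ₀, hmax⟩ := Finset.exists_max_image _ (fun κ => ∑ t, w (κ t).1) hne
      exact ⟨∑ t, w (κ₀ t).1, hcon κ₀ (by simpa using hκ₀), fun κ hκ => hmax κ (by simpa using hκ)⟩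
    · refine ⟨Λ - 1, by linarith, fun κ hκ => (hne ⟨κ, by simpa using hκ⟩).elim⟩
  set B : ℝ := ∑ j, (rho b (b j) : ℝ) * w (σ j) with hB
  have hm0 : (0 : ℝ) < m := by exact_mod_cast hm
  have hB0 : 0 ≤ B := by
    rw [hB, ← num_rho b (fun j => w (σ j))]
    exact Finset.sum_nonneg fun p _ => sub_nonneg.2 (hσ _ _ p.2)
  set A : ℝ := Λ + m * B - μ with hA
  have hA0 : 0 < A := by
    have := mul_nonneg hm0.le hB0
    rw [hA]
    linarith
  -- the exponent
  obtain ⟨p, hp0, hpm, hp⟩ : ∃ p : ℝ, 0 < p ∧ p < 1 / m ∧ 0 < p * A - B := by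
    have h1 : B / A < 1 / m := by
      rw [div_lt_div_iff₀ hA0 hm0, hA]
      linarith
    obtain ⟨p, hp1, hp2⟩ := exists_between (max_lt h1 (by positivity : (0 : ℝ) < 1 / m))
    refine ⟨p, (le_max_right _ _).trans_lt hp1, hp2, ?_⟩
    have h2 := (le_max_left _ _).trans_lt hp1
    rw [div_lt_iff₀ hA0] at h2
    linarith
  have hdet : ((1 : Matrix (Fin n) (Fin n) ℂ).submatrix σ.symm id).det ≠ 0 := by
    rw [Matrix.det_permute, Matrix.det_one, mul_one]
    exact_mod_cast (Equiv.Perm.sign σ.symm).ne_zero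
  set K : Set (Pr b → ℂ) := Set.univ.pi fun _ => Metric.closedBall (0 : ℂ) 1 with hK
  have hKc : IsCompact K := isCompact_univ_pi fun _ => isCompact_closedBall _ _
  have hfin := hlc p hp0 hpm _ hdet K hKc
  set C : ℝ := ∑ κ, ‖T κ‖ + 1 with hC
  have hC0 : 0 < C := by
    have : 0 ≤ ∑ κ, ‖T κ‖ := Finset.sum_nonneg fun _ _ => norm_nonneg _
    rw [hC]
    linarith
  set c : ℝ := C ^ (-(2 * p)) * Real.pi ^ Fintype.card (Pr b) with hc
  have hc0 : 0 < c := mul_pos (Real.rpow_pos_of_pos hC0 _) (pow_pos Real.pi_pos _)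
  -- the lower bound
  have hlow : ∀ t : ℝ, 0 ≤ t → ENNReal.ofReal (c * Real.exp (2 * t * (p * A - B))) ≤
      ∫⁻ u in K, ‖f ((1 : Matrix (Fin n) (Fin n) ℂ).submatrix σ.symm id * un b u)‖ₑ
        ^ (-(2 * p)) := by
    intro t ht
    set e : Pr b → ℝ := fun q => -(t * (w (σ q.1.2) - w (σ q.1.1))) with he
    have he0 : ∀ q, e q ≤ 0 := fun q => neg_nonpos.2 (mul_nonneg ht (sub_nonneg.2 (hσ _ _ q.2)))
    set K' : Set (Pr b → ℂ) :=
      Set.univ.pi fun q => Metric.closedBall (0 : ℂ) (Real.exp (e q)) with hK'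
    have hsub : K' ⊆ K := Set.pi_mono fun q _ =>
      Metric.closedBall_subset_closedBall (Real.exp_le_one_iff.2 (he0 q))
    have hmeas : MeasurableSet K' := MeasurableSet.univ_pi fun q => measurableSet_closedBall
    have hes : ∑ q, e q = -(t * B) := by
      rw [hB, ← num_rho b (fun j => w (σ j)), he, Finset.sum_neg_distrib, Finset.mul_sum]
    have hval : ∀ u ∈ K', ENNReal.ofReal ((C * Real.exp (-(t * A))) ^ (-(2 * p))) ≤
        ‖f ((1 : Matrix (Fin n) (Fin n) ℂ).submatrix σ.symm id * un b u)‖ₑ ^ (-(2 * p)) := by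
      intro u hu
      have h1 : ∀ q, ‖u q‖ ≤ Real.exp (-(t * (w (σ q.1.2) - w (σ q.1.1)))) := by
        intro q
        have := hu q (Set.mem_univ q)
        simpa using this
      have h2 := num_bound (k := fun j => l (b j) + m * rho b (b j)) T f hT hdiag w σ hμ ht h1
      have h3 : ∑ j, ((l (b j) + m * rho b (b j) : ℤ) : ℝ) * w (σ j) - μ = A := by
        rw [hA, hΛ, hB, Finset.mul_sum, ← Finset.sum_add_distrib]
        congr 1
        refine Finset.sum_congr rfl fun j _ => ?_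
        push_cast
        ring
      rw [h3] at h2
      have h4 : ‖f ((1 : Matrix (Fin n) (Fin n) ℂ).submatrix σ.symm id * un b u)‖ ≤
          C * Real.exp (-(t * A)) :=
        h2.trans (mul_le_mul_of_nonneg_right (by rw [hC]; linarith) (Real.exp_pos _).le)
      have h5 : ‖f ((1 : Matrix (Fin n) (Fin n) ℂ).submatrix σ.symm id * un b u)‖ₑ ≤
          ENNReal.ofReal (C * Real.exp (-(t * A))) := by
        rw [← ofReal_norm]
        exact ENNReal.ofReal_le_ofReal h4
      rw [← ENNReal.ofReal_rpow_of_pos (mul_pos hC0 (Real.exp_pos _)), ENNReal.rpow_neg,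
        ENNReal.rpow_neg, ENNReal.inv_le_inv]
      exact ENNReal.rpow_le_rpow h5 (by positivity)
    calc ENNReal.ofReal (c * Real.exp (2 * t * (p * A - B)))
        = ENNReal.ofReal ((C * Real.exp (-(t * A))) ^ (-(2 * p))) * volume K' := by
          rw [hK', num_volume, hes, ← ENNReal.ofReal_mul (by positivity)]
          congr 1
          rw [Real.mul_rpow hC0.le (Real.exp_pos _).le, ← Real.exp_mul, hc]
          have h6 : Real.exp (2 * t * (p * A - B)) =
              Real.exp (-(t * A) * -(2 * p)) * Real.exp (2 * -(t * B)) := by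
            rw [← Real.exp_add]
            congr 1
            ring
          rw [h6]
          ring
      _ = ∫⁻ _ in K', ENNReal.ofReal ((C * Real.exp (-(t * A))) ^ (-(2 * p))) := by
          rw [setLIntegral_const]
      _ ≤ ∫⁻ u in K', ‖f ((1 : Matrix (Fin n) (Fin n) ℂ).submatrix σ.symm id * un b u)‖ₑ
            ^ (-(2 * p)) := setLIntegral_mono' hmeas hval
      _ ≤ _ := lintegral_mono_set hsub
  -- conclusion
  set I := ∫⁻ u in K, ‖f ((1 : Matrix (Fin n) (Fin n) ℂ).submatrix σ.symm id * un b u)‖ₑ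
        ^ (-(2 * p)) with hI
  have h7 : ∀ t : ℝ, 0 ≤ t → c * Real.exp (2 * t * (p * A - B)) ≤ I.toReal := by
    intro t ht
    exact (ENNReal.ofReal_le_iff_le_toReal hfin.ne).1 (hlow t ht)
  have h8 : ∀ t : ℝ, 0 ≤ t → c * (2 * t * (p * A - B)) ≤ I.toReal := by
    intro t ht
    refine le_trans (mul_le_mul_of_nonneg_left ?_ hc0.le) (h7 t ht)
    have := Real.add_one_le_exp (2 * t * (p * A - B))
    linarith
  have h9 := h8 ((I.toReal + 1) / (c * (2 * (p * A - B)))) (by positivity)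
  have h10 : c * (2 * ((I.toReal + 1) / (c * (2 * (p * A - B)))) * (p * A - B)) =
      I.toReal + 1 := by
    field_simp
  linarith

end Pool.Agent.PB
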