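import Pool.Agent.H.MP_e23cd6_ag.PB.Core

/-!
# Invariants of one degree
-/

set_option autoImplicit false

namespace Pool.Agent.PB

open Matrix Topology Set Pool.Agent.SG

variable {n : ℕ} {ι : Type} [Fintype ι] [DecidableEq ι]

/-- There is one degree `M` such that, whenever an invariant of positive degree does not vanish
at `v`, some invariant of degree `M` does not vanish at `v`. -/
theorem unif (R : Rep n ι) : ∃ M : ℕ, 1 ≤ M ∧ ∀ v : ι → ℂ,
    (∃ N > 0, ∃ P, R.Inv N P ∧ MvPolynomial.eval v P ≠ 0) →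
      ∃ P, R.Inv M P ∧ MvPolynomial.eval v P ≠ 0 := by
  obtain ⟨s, hs⟩ : ∃ s : Set (MvPolynomial ι ℂ), s = {P | ∃ N > 0, R.Inv N P} := ⟨_, rfl⟩
  have hfg : (Submodule.span (MvPolynomial ι ℂ) s).FG := IsNoetherian.noetherian _
  rw [Submodule.fg_span_iff_fg_span_finset_subset] at hfg
  obtain ⟨t, hts, hspan⟩ := hfg
  have hN : ∀ P : MvPolynomial ι ℂ, ∃ N : ℕ, 0 < N ∧ (P ∈ t → R.Inv N P) := by
    intro P
    by_cases hP : P ∈ t
    · have h1 := hts hP
      rw [hs] at h1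
      obtain ⟨N, hN, h2⟩ := h1
      exact ⟨N, hN, fun _ => h2⟩
    · exact ⟨1, one_pos, fun h => absurd h hP⟩
  choose N hN0 hN using hN
  refine ⟨∏ P ∈ t, N P, Finset.prod_pos fun P _ => hN0 P, ?_⟩
  rintro v ⟨N', hN', P, hP, hv⟩
  have hQ : ∃ Q ∈ t, MvPolynomial.eval v Q ≠ 0 := by
    by_contra hcon
    push Not at hcon
    apply hv
    have h1 : P ∈ Submodule.span (MvPolynomial ι ℂ) (t : Set (MvPolynomial ι ℂ)) := by
      rw [← hspan]
      apply Submodule.subset_span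
      rw [hs]
      exact ⟨N', hN', hP⟩
    have h2 : Submodule.span (MvPolynomial ι ℂ) (t : Set (MvPolynomial ι ℂ)) ≤
        RingHom.ker (MvPolynomial.eval v) := by
      rw [Submodule.span_le]
      intro Q hQ
      exact hcon Q hQ
    exact h2 h1
  obtain ⟨Q, hQt, hQv⟩ := hQ
  have hdvd : N Q ∣ ∏ P ∈ t, N P := Finset.dvd_prod_of_mem N hQt
  obtain ⟨a, ha⟩ := hdvd
  refine ⟨Q ^ a, ?_, ?_⟩
  · rw [ha]
    exact (hN Q hQt).pow a
  · rw [map_pow]
    exact pow_ne_zero _ hQv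

end Pool.Agent.PB
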