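import Pool.Agent.H.MP_e23cd6_ag.PB.Alg
import Pool.Agent.H.MP_e23cd6_ag.PB.Num
import Pool.Agent.H.MP_e23cd6_ag.PB.Unif

/-!
# Gluing
-/

set_option autoImplicit false

namespace Pool.Agent.PB

open Matrix Topology Set Pool.Agent.SG
open scoped Kronecker Manifold ContDiff

variable {r : ℕ}

/-- Matrices as functions of pairs. -/
def um (g : Matrix (Fin r) (Fin r) ℂ) : Fin r × Fin r → ℂ := fun p => g p.1 p.2

/-- Functions of pairs as matrices. -/
def mt (x : Fin r × Fin r → ℂ) : Matrix (Fin r) (Fin r) ℂ := fun i j => x (i, j)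

theorem mt_um (g : Matrix (Fin r) (Fin r) ℂ) : mt (um g) = g := rfl

theorem um_mt (x : Fin r × Fin r → ℂ) : um (mt x) = x := rfl

theorem um_smul (c : ℂ) (g : Matrix (Fin r) (Fin r) ℂ) : um (c • g) = c • um g := rfl

/-- The action by left multiplication on matrices. -/
noncomputable def R1 (r : ℕ) : SG.Rep r (Fin r × Fin r) := (stR r).tens (trivR r (Fin r))

theorem R1_act (h : Gp r) (g : Matrix (Fin r) (Fin r) ℂ) :
    (R1 r).act h (um g) = um ((h : Matrix (Fin r) (Fin r) ℂ) * g) := by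
  funext p
  show ∑ p', ((h : Matrix (Fin r) (Fin r) ℂ) ⊗ₖ (1 : Matrix (Fin r) (Fin r) ℂ)) p p' * um g p' =
    ∑ i, (h : Matrix (Fin r) (Fin r) ℂ) p.1 i * g i p.2
  rw [Fintype.sum_prod_type]
  refine Finset.sum_congr rfl fun i _ => ?_
  rw [Finset.sum_eq_single p.2]
  · rw [kroneckerMap_apply, one_apply_eq, mul_one]
    rfl
  · intro j _ hj
    rw [kroneckerMap_apply, one_apply_ne (Ne.symm hj), mul_zero, zero_mul]
  · intro h
    exact absurd (Finset.mem_univ _) h

theorem R1_lam (p : Fin r × Fin r) (H : aa r) : (R1 r).lam p H = H.1 p.1 := by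
  unfold R1
  rw [Rep.lam_tens, stR_lam, trivR_lam, add_zero]

theorem exists_SL {γ : Matrix (Fin r) (Fin r) ℂ} (hγ : γ.det ≠ 0) :
    ∃ (t : ℂ) (h : Gp r), t ≠ 0 ∧ γ = t • (h : Matrix (Fin r) (Fin r) ℂ) := by
  rcases Nat.eq_zero_or_pos r with rfl | hr
  · exact ⟨1, 1, one_ne_zero, Subsingleton.elim _ _⟩
  · obtain ⟨t, ht⟩ := IsAlgClosed.exists_pow_nat_eq γ.det hr
    have ht0 : t ≠ 0 := by
      rintro rfl
      rw [zero_pow hr.ne'] at ht
      exact hγ ht.symm
    refine ⟨t, ⟨t⁻¹ • γ, ?_⟩, ht0, ?_⟩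
    · rw [det_smul, Fintype.card_fin, inv_pow, ht, inv_mul_cancel₀ hγ]
    · show γ = t • (t⁻¹ • γ)
      rw [smul_smul, mul_inv_cancel₀ ht0, one_smul]

variable {D : ℕ}

theorem glueS {S S' : (Fin D → Fin r × Fin r) → ℂ} (hS : Sym S) (hS' : Sym S') {A t : ℂ}
    (ht : t ≠ 0) (h : Gp r)
    (hg : ∀ g, ev S (um ((t • (h : Matrix (Fin r) (Fin r) ℂ)) * g)) = A * ev S' (um g)) :
    S = (A * t⁻¹ ^ D) • (powR (dualR (R1 r)) (Fin D)).act h S' := by
  refine sym_ext hS ((sym_act _ h hS').smul _) fun x => ?_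
  obtain ⟨g, rfl⟩ : ∃ g, x = um g := ⟨mt x, (um_mt x).symm⟩
  rw [ev_smul, ev_act, R1_act, mul_assoc, ← ev_smul_right, ← um_smul, ← hg]
  congr 2
  rw [Matrix.smul_mul, Matrix.mul_smul, smul_smul, mul_inv_cancel₀ ht, one_smul,
    ← Matrix.mul_assoc, ← coe_gmul, mul_inv_cancel, coe_gone, Matrix.one_mul]

/-- The minors are homogeneous polynomials. -/
theorem hf_mv {E : Type} [NormedAddCommGroup E] [NormedSpace ℂ E] {Z : Type} [TopologicalSpace Z]
    [ChartedSpace E Z] {U : Set Z} (b : Fin r → ℕ) (q : ℕ) (e : ℕ → ℕ) (f : Bt b q e → Fin r) :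
    HF E U (Fintype.card (Bt b q e)) (fun (_ : Z) x => mv b q e (mt x) f) := by
  have h1 : ∀ (c : Fin q) (k : Fin (e c)), HF E U (Fintype.card (Col b c))
      (fun (_ : Z) (x : Fin r × Fin r → ℂ) =>
        (Matrix.of fun i j : Col b c => mt x (f ⟨c, k, i⟩) j).det) := by
    intro c k
    have h2 : ∀ σ : Equiv.Perm (Col b c), HF E U (Fintype.card (Col b c))
        (fun (_ : Z) (x : Fin r × Fin r → ℂ) =>
          ((Equiv.Perm.sign σ : ℤ) : ℂ) * ∏ i : Col b c, x (f ⟨c, k, σ i⟩, i.1)) := by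
      intro σ
      have h3 := HF.prod (E := E) (U := U) (Finset.univ : Finset (Col b c)) (n := fun _ => 1)
        (f := fun i (_ : Z) (x : Fin r × Fin r → ℂ) => x (f ⟨c, k, σ i⟩, i.1))
        fun i _ => HF.coord _
      exact HF.smul (h := fun _ => ((Equiv.Perm.sign σ : ℤ) : ℂ)) mdifferentiableOn_const
        (h3.cast (by simp))
    refine (HF.sum (Finset.univ : Finset (Equiv.Perm (Col b c))) fun σ _ => h2 σ).congr
      fun z _ x => ?_
    rw [Matrix.det_apply']
    rfl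
  have h4 := HF.prod (E := E) (U := U) (Finset.univ : Finset (Fin q))
    (n := fun c => ∑ k : Fin (e c), Fintype.card (Col b c))
    (f := fun c (_ : Z) (x : Fin r × Fin r → ℂ) =>
      ∏ k : Fin (e c), (Matrix.of fun i j : Col b c => mt x (f ⟨c, k, i⟩) j).det)
    fun c _ => HF.prod Finset.univ fun k _ => h1 c k
  refine h4.cast ?_
  rw [Fintype.card_sigma]
  refine Finset.sum_congr rfl fun c _ => ?_
  rw [Fintype.card_prod, Fintype.card_fin, Finset.sum_const, Finset.card_univ, Fintype.card_fin,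
    smul_eq_mul]

/-- A log canonical function does not vanish identically. -/
theorem LC.ne {b : Fin r → ℕ} {m : ℕ} (hm : 1 ≤ m) {f : Matrix (Fin r) (Fin r) ℂ → ℂ}
    (h : LC b m f) : ∃ g, f g ≠ 0 := by
  by_contra hcon
  push Not at hcon
  have hm0 : (0 : ℝ) < m := by exact_mod_cast hm
  have h1 := h (1 / (2 * m)) (by positivity) (by
    apply one_div_lt_one_div_of_lt hm0
    linarith) 1 (by simp) (Metric.closedBall 0 1) (isCompact_closedBall 0 1)
  simp only [hcon, enorm_zero] at h1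
  rw [ENNReal.zero_rpow_of_neg (by
    have : (0 : ℝ) < 2 * (1 / (2 * m)) := by positivity
    linarith), MeasureTheory.setLIntegral_const, ENNReal.top_mul] at h1
  · exact absurd h1 (lt_irrefl _)
  · exact (Metric.measure_closedBall_pos MeasureTheory.volume 0 one_pos).ne'

end Pool.Agent.PB
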