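import Pool.Agent.H.MP_e23cd6_ag.SG.Tens

/-!
# The standard representation, duals, tensor powers
-/

set_option autoImplicit false

namespace Pool.Agent.PB

open Matrix Topology Set Pool.Agent.SG

variable {n : ℕ}

/-- The standard representation. -/
noncomputable def stR (n : ℕ) : SG.Rep n (Fin n) where
  ρ :=
    { toFun := fun g => (g : Matrix (Fin n) (Fin n) ℂ)
      map_one' := rfl
      map_mul' := fun _ _ => rfl }
  cont := continuous_subtype_val
  star := fun _ => rfl
  wt := fun i j => if i = j then 1 else 0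
  diag := by
    intro τ h
    show Matrix.diagonal τ = _
    congr 1
    funext i
    rw [Finset.prod_eq_single i]
    · rw [if_pos rfl, zpow_one]
    · intro j _ hj
      rw [if_neg (Ne.symm hj), zpow_zero]
    · intro h
      exact absurd (Finset.mem_univ i) h

/-- The trivial representation. -/
noncomputable def trivR (n : ℕ) (α : Type) [Fintype α] [DecidableEq α] : SG.Rep n α where
  ρ := 1
  cont := continuous_const
  star := fun _ => by
    rw [MonoidHom.one_apply, MonoidHom.one_apply, conjTranspose_one]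
  wt := fun _ _ => 0
  diag := by
    intro τ h
    rw [MonoidHom.one_apply, ← Matrix.diagonal_one]
    congr 1
    funext i
    simp

theorem dgT_inv {τ : Fin n → ℂ} (h : ∏ i, τ i = 1) :
    (dgT τ h)⁻¹ = dgT (fun i => (τ i)⁻¹) (by rw [Finset.prod_inv_distrib, h, inv_one]) := by
  have hτ : ∀ j, τ j ≠ 0 := fun j h0 => by
    rw [Finset.prod_eq_zero (Finset.mem_univ j) h0] at h
    exact zero_ne_one h
  symm
  apply eq_inv_of_mul_eq_one_left
  apply gp_ext
  rw [coe_gmul, coe_gone]
  show Matrix.diagonal (fun i => (τ i)⁻¹) * Matrix.diagonal τ = 1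
  rw [Matrix.diagonal_mul_diagonal, ← Matrix.diagonal_one]
  congr 1
  funext i
  exact inv_mul_cancel₀ (hτ i)

variable {α : Type} [Fintype α] [DecidableEq α]

/-- The dual representation. -/
noncomputable def dualR (R : SG.Rep n α) : SG.Rep n α where
  ρ :=
    { toFun := fun g => (R.ρ g⁻¹)ᵀ
      map_one' := by rw [inv_one, map_one, transpose_one]
      map_mul' := fun g h => by rw [_root_.mul_inv_rev, map_mul, transpose_mul] }
  cont := (R.cont.comp continuous_inv).matrix_transpose
  star := fun g => by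
    show (R.ρ (ct g)⁻¹)ᵀ = ((R.ρ g⁻¹)ᵀ)ᴴ
    rw [← ct_inv, R.star]
    rfl
  wt := fun i j => -R.wt i j
  diag := by
    intro τ h
    show (R.ρ (dgT τ h)⁻¹)ᵀ = _
    rw [dgT_inv, R.diag, diagonal_transpose]
    congr 1
    funext i
    refine Finset.prod_congr rfl fun j _ => ?_
    rw [_root_.inv_zpow, _root_.zpow_neg]

/-- The tensor power. -/
noncomputable def powR (R : SG.Rep n α) (β : Type) [Fintype β] [DecidableEq β] :
    SG.Rep n (β → α) where
  ρ :=
    { toFun := fun g => Matrix.of fun f f' => ∏ x, R.ρ g (f x) (f' x)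
      map_one' := by
        ext f f'
        rw [Matrix.of_apply, map_one, Matrix.one_apply]
        simp only [Matrix.one_apply]
        by_cases h : f = f'
        · rw [if_pos h]
          exact Finset.prod_eq_one fun a _ => by rw [if_pos (congrFun h a)]
        · rw [if_neg h]
          obtain ⟨a, ha⟩ := Function.ne_iff.1 h
          exact Finset.prod_eq_zero (Finset.mem_univ a) (if_neg ha)
      map_mul' := by
        intro g h
        ext f f'
        rw [Matrix.of_apply, Matrix.mul_apply, map_mul]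
        simp only [Matrix.of_apply, Matrix.mul_apply]
        rw [Finset.prod_univ_sum, Fintype.piFinset_univ]
        exact Finset.sum_congr rfl fun c _ => Finset.prod_mul_distrib }
  cont := by
    refine continuous_matrix fun f f' => ?_
    show Continuous fun g : Gp n => ∏ x, R.ρ g (f x) (f' x)
    exact continuous_finsetProd _ fun a _ => R.cont.matrix_elem _ _
  star := by
    intro g
    ext f f'
    show ∏ x, R.ρ (ct g) (f x) (f' x) = star (∏ x, R.ρ g (f' x) (f x))
    rw [star_prod, R.star]
    rfl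
  wt := fun f j => ∑ x, R.wt (f x) j
  diag := by
    intro τ h
    ext f f'
    show ∏ x, R.ρ (dgT τ h) (f x) (f' x) = _
    have hτ : ∀ j, τ j ≠ 0 := fun j h0 => by
      rw [Finset.prod_eq_zero (Finset.mem_univ j) h0] at h
      exact zero_ne_one h
    rw [R.diag, Matrix.diagonal_apply]
    by_cases hf : f = f'
    · subst hf
      rw [if_pos rfl]
      simp only [Matrix.diagonal_apply_eq]
      rw [Finset.prod_comm]
      refine Finset.prod_congr rfl fun j _ => ?_
      have h1 : ∀ s : Finset β, ∏ x ∈ s, τ j ^ R.wt (f x) j = τ j ^ ∑ x ∈ s, R.wt (f x) j := by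
        intro s
        induction s using Finset.induction_on with
        | empty => simp
        | insert a s ha ih => rw [Finset.prod_insert ha, Finset.sum_insert ha, ih, zpow_add₀ (hτ j)]
      exact h1 _
    · rw [if_neg hf]
      obtain ⟨a, ha⟩ := Function.ne_iff.1 hf
      exact Finset.prod_eq_zero (Finset.mem_univ a) (Matrix.diagonal_apply_ne _ ha)

theorem stR_ρ (g : Gp n) : (stR n).ρ g = (g : Matrix (Fin n) (Fin n) ℂ) := rfl

theorem dualR_ρ (R : SG.Rep n α) (g : Gp n) : (dualR R).ρ g = (R.ρ g⁻¹)ᵀ := rfl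

theorem powR_ρ (R : SG.Rep n α) (β : Type) [Fintype β] [DecidableEq β] (g : Gp n)
    (f f' : β → α) : (powR R β).ρ g f f' = ∏ x, R.ρ g (f x) (f' x) := rfl

theorem stR_lam (i : Fin n) (H : aa n) : (stR n).lam i H = H.1 i := by
  show ∑ j, (((if i = j then 1 else 0 : ℤ)) : ℝ) * H.1 j = H.1 i
  rw [Finset.sum_eq_single i]
  · simp
  · intro j _ hj
    rw [if_neg (Ne.symm hj)]
    simp
  · intro h
    exact absurd (Finset.mem_univ i) h

theorem trivR_lam (i : α) (H : aa n) : (trivR n α).lam i H = 0 := by
  show ∑ j, ((0 : ℤ) : ℝ) * H.1 j = 0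
  simp

theorem dualR_lam (R : SG.Rep n α) (i : α) (H : aa n) : (dualR R).lam i H = -R.lam i H := by
  show ∑ j, ((-R.wt i j : ℤ) : ℝ) * H.1 j = -∑ j, (R.wt i j : ℝ) * H.1 j
  rw [← Finset.sum_neg_distrib]
  refine Finset.sum_congr rfl fun j _ => ?_
  push_cast
  ring

theorem powR_lam (R : SG.Rep n α) (β : Type) [Fintype β] [DecidableEq β] (f : β → α)
    (H : aa n) : (powR R β).lam f H = ∑ x, R.lam (f x) H := by
  show ∑ j, ((∑ x, R.wt (f x) j : ℤ) : ℝ) * H.1 j = ∑ x, ∑ j, (R.wt (f x) j : ℝ) * H.1 j
  rw [Finset.sum_comm]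
  refine Finset.sum_congr rfl fun j _ => ?_
  push_cast
  rw [Finset.sum_mul]

/-- The action on decomposable tensors. -/
theorem powR_act (R : SG.Rep n α) (β : Type) [Fintype β] [DecidableEq β] (g : Gp n)
    (v : β → α → ℂ) :
    (powR R β).act g (fun f => ∏ x, v x (f x)) = fun f => ∏ x, R.act g (v x) (f x) := by
  funext f
  show ∑ f' : β → α, (∏ x, R.ρ g (f x) (f' x)) * ∏ x, v x (f' x) =
    ∏ x, ∑ j, R.ρ g (f x) j * v x j
  rw [Finset.prod_univ_sum, Fintype.piFinset_univ]
  exact Finset.sum_congr rfl fun c _ => Finset.prod_mul_distrib.symm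

end Pool.Agent.PB
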