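import Pool.Agent.H.MP_e23cd6_ag.PB.Defs
import Pool.Agent.H.MP_e23cd6_ag.PB.RepC

/-!
# Products of minors
-/

set_option autoImplicit false

namespace Pool.Agent.PB

open Matrix Pool.Agent.SG

variable {n : ℕ}

/-- The columns of index at most `c`. -/
abbrev Col (b : Fin n → ℕ) (c : ℕ) : Type := {j : Fin n // b j ≤ c}

/-- The tensor factors. -/
abbrev Bt (b : Fin n → ℕ) (q : ℕ) (e : ℕ → ℕ) : Type := Σ c : Fin q, Fin (e c) × Col b c

/-- The vector of the products of minors. -/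
noncomputable def mv (b : Fin n → ℕ) (q : ℕ) (e : ℕ → ℕ) (g : Matrix (Fin n) (Fin n) ℂ)
    (f : Bt b q e → Fin n) : ℂ :=
  ∏ c : Fin q, ∏ k : Fin (e c), (Matrix.of fun i j : Col b c => g (f ⟨c, k, i⟩) j).det

/-- The choices of permutations. -/
abbrev Ch (b : Fin n → ℕ) (q : ℕ) (e : ℕ → ℕ) : Type :=
  (c : Fin q) → Fin (e c) → Equiv.Perm (Col b c)

/-- The product over the tensor factors. -/
theorem prod_bt {M : Type} [CommMonoid M] (b : Fin n → ℕ) (q : ℕ) (e : ℕ → ℕ)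
    (F : Bt b q e → M) : ∏ x, F x = ∏ c : Fin q, ∏ k : Fin (e c), ∏ i : Col b c, F ⟨c, k, i⟩ := by
  rw [Fintype.prod_sigma]
  exact Finset.prod_congr rfl fun c _ => Fintype.prod_prod_type _

theorem mv_expand (b : Fin n → ℕ) (q : ℕ) (e : ℕ → ℕ) (g : Matrix (Fin n) (Fin n) ℂ)
    (f : Bt b q e → Fin n) :
    mv b q e g f = ∑ s : Ch b q e, (∏ c, ∏ k, ((Equiv.Perm.sign (s c k) : ℤ) : ℂ)) *
      ∏ x : Bt b q e, g (f x) (s x.1 x.2.1 x.2.2) := by
  unfold mv
  have h1 : ∀ (c : Fin q) (k : Fin (e c)),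
      (Matrix.of fun i j : Col b c => g (f ⟨c, k, i⟩) j).det =
      ∑ τ : Equiv.Perm (Col b c), ((Equiv.Perm.sign τ : ℤ) : ℂ) *
        ∏ i : Col b c, g (f ⟨c, k, i⟩) (τ i) := by
    intro c k
    rw [← Matrix.det_transpose, Matrix.det_apply']
    rfl
  simp only [h1]
  have h2 : ∀ c : Fin q, (∏ k : Fin (e c), ∑ τ : Equiv.Perm (Col b c),
      ((Equiv.Perm.sign τ : ℤ) : ℂ) * ∏ i : Col b c, g (f ⟨c, k, i⟩) (τ i)) =
      ∑ τ : Fin (e c) → Equiv.Perm (Col b c), ∏ k, (((Equiv.Perm.sign (τ k) : ℤ) : ℂ) *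
        ∏ i : Col b c, g (f ⟨c, k, i⟩) (τ k i)) := by
    intro c
    rw [Finset.prod_univ_sum, Fintype.piFinset_univ]
  simp only [h2]
  rw [Finset.prod_univ_sum, Fintype.piFinset_univ]
  refine Finset.sum_congr rfl fun s _ => ?_
  rw [prod_bt, ← Finset.prod_mul_distrib]
  refine Finset.prod_congr rfl fun c _ => ?_
  rw [← Finset.prod_mul_distrib]

theorem mv_mul (b : Fin n → ℕ) (q : ℕ) (e : ℕ → ℕ) (h g : Matrix (Fin n) (Fin n) ℂ)
    (f : Bt b q e → Fin n) :
    mv b q e (h * g) f = ∑ f' : Bt b q e → Fin n, (∏ x, h (f x) (f' x)) * mv b q e g f' := by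
  simp only [mv_expand, Finset.mul_sum]
  rw [Finset.sum_comm]
  refine Finset.sum_congr rfl fun s _ => ?_
  have h1 : ∏ x : Bt b q e, (h * g) (f x) (s x.1 x.2.1 x.2.2) =
      ∑ f' : Bt b q e → Fin n, ∏ x, (h (f x) (f' x) * g (f' x) (s x.1 x.2.1 x.2.2)) := by
    simp only [Matrix.mul_apply]
    rw [Finset.prod_univ_sum, Fintype.piFinset_univ]
  rw [h1, Finset.mul_sum]
  refine Finset.sum_congr rfl fun f' _ => ?_
  rw [Finset.prod_mul_distrib]
  ring

theorem mv_act (b : Fin n → ℕ) (q : ℕ) (e : ℕ → ℕ) (h : Gp n) (g : Matrix (Fin n) (Fin n) ℂ) :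
    (powR (stR n) (Bt b q e)).act h (mv b q e g) =
      mv b q e ((h : Matrix (Fin n) (Fin n) ℂ) * g) := by
  funext f
  rw [mv_mul]
  rfl

theorem mv_smul (b : Fin n → ℕ) (q : ℕ) (e : ℕ → ℕ) (t : ℂ) (g : Matrix (Fin n) (Fin n) ℂ) :
    mv b q e (t • g) = t ^ Fintype.card (Bt b q e) • mv b q e g := by
  funext f
  rw [Pi.smul_apply, smul_eq_mul, mv_expand, mv_expand, Finset.mul_sum]
  refine Finset.sum_congr rfl fun s _ => ?_
  simp only [Matrix.smul_apply, smul_eq_mul]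
  rw [Finset.prod_mul_distrib, Finset.prod_const, Finset.card_univ]
  ring

theorem mv_one (b : Fin n → ℕ) (q : ℕ) (e : ℕ → ℕ) :
    mv b q e (1 : Matrix (Fin n) (Fin n) ℂ) (fun x => x.2.2.1) = 1 := by
  unfold mv
  refine Finset.prod_eq_one fun c _ => Finset.prod_eq_one fun k _ => ?_
  have h1 : (Matrix.of fun i j : Col b c => (1 : Matrix (Fin n) (Fin n) ℂ) i.1 j.1) = 1 := by
    ext i j
    rw [Matrix.of_apply, Matrix.one_apply, Matrix.one_apply]
    simp only [Subtype.ext_iff]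
  show (Matrix.of fun i j : Col b c => (1 : Matrix (Fin n) (Fin n) ℂ) i.1 j.1).det = 1
  rw [h1, Matrix.det_one]

theorem mv_ne (b : Fin n → ℕ) (q : ℕ) (e : ℕ → ℕ) {g : Matrix (Fin n) (Fin n) ℂ}
    (hg : g.det ≠ 0) : mv b q e g ≠ 0 := by
  intro h
  have h1 := mv_mul b q e g⁻¹ g (fun x => x.2.2.1)
  rw [Matrix.nonsing_inv_mul g (isUnit_iff_ne_zero.2 hg), mv_one, h] at h1
  simp at h1

theorem det_col {b : Fin n → ℕ} (c : ℕ) {p : Matrix (Fin n) (Fin n) ℂ} (hp : Par b p) :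
    (Matrix.of fun i j : Col b c => p i.1 j.1).det =
      ∏ t ∈ Finset.univ.image b, if t ≤ c then (p.toSquareBlock b t).det else 1 := by
  have h1 : (Matrix.of fun i j : Col b c => p i.1 j.1).BlockTriangular
      (fun j : Col b c => b j.1) := fun i j hij => hp.2 i.1 j.1 hij
  rw [h1.det, ← Finset.prod_filter]
  have h2 : Finset.univ.image (fun j : Col b c => b j.1) =
      (Finset.univ.image b).filter fun t => t ≤ c := by
    ext t
    simp only [Finset.mem_image, Finset.mem_univ, true_and, Finset.mem_filter]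
    constructor
    · rintro ⟨j, rfl⟩
      exact ⟨⟨j.1, rfl⟩, j.2⟩
    · rintro ⟨⟨j, rfl⟩, hj⟩
      exact ⟨⟨j, hj⟩, rfl⟩
  rw [h2]
  refine Finset.prod_congr rfl fun t ht => ?_
  have htc : t ≤ c := (Finset.mem_filter.1 ht).2
  let φ : {a : Col b c // b a.1 = t} ≃ {a : Fin n // b a = t} :=
    { toFun := fun a => ⟨a.1.1, a.2⟩
      invFun := fun a => ⟨⟨a.1, by rw [a.2]; exact htc⟩, a.2⟩
      left_inv := fun a => rfl
      right_inv := fun a => rfl }
  rw [← Matrix.det_submatrix_equiv_self φ (p.toSquareBlock b t)]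
  rfl

theorem mv_par (b : Fin n → ℕ) (q : ℕ) (e : ℕ → ℕ) (_hb : ∀ j, b j < q)
    (g p : Matrix (Fin n) (Fin n) ℂ) (hp : Par b p) :
    mv b q e (g * p) = chr b (fun t => ∑ c ∈ Finset.Ico t q, (e c : ℤ)) p • mv b q e g := by
  funext f
  rw [Pi.smul_apply, smul_eq_mul]
  unfold mv chr
  have h1 : ∀ (c : Fin q) (k : Fin (e c)),
      (Matrix.of fun i j : Col b c => (g * p) (f ⟨c, k, i⟩) j.1) =
      (Matrix.of fun i j : Col b c => g (f ⟨c, k, i⟩) j.1) *
        Matrix.of fun i j : Col b c => p i.1 j.1 := by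
    intro c k
    ext i j
    rw [Matrix.of_apply, Matrix.mul_apply, Matrix.mul_apply]
    simp only [Matrix.of_apply]
    rw [← Finset.sum_subtype (Finset.univ.filter fun l : Fin n => b l ≤ c)
      (p := fun l : Fin n => b l ≤ c) (fun l => by simp) (fun l => g (f ⟨c, k, i⟩) l * p l j.1)]
    symm
    refine Finset.sum_filter_of_ne fun l _ hl => ?_
    by_contra hlc
    apply hl
    rw [hp.2 l j.1 (lt_of_le_of_lt j.2 (not_le.1 hlc)), mul_zero]
  simp only [h1, Matrix.det_mul, Finset.prod_mul_distrib]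
  rw [mul_comm]
  congr 1
  simp only [det_col _ hp, Finset.prod_const, Finset.card_univ, Fintype.card_fin]
  simp only [← Finset.prod_pow]
  rw [Finset.prod_comm]
  refine Finset.prod_congr rfl fun t _ => ?_
  have h2 : (∑ c ∈ Finset.Ico t q, (e c : ℤ)) = ((∑ c ∈ Finset.Ico t q, e c : ℕ) : ℤ) := by
    push_cast
    rfl
  rw [h2, zpow_natCast, ← Finset.prod_pow_eq_pow_sum]
  have h3 : ∀ c : Fin q, (if t ≤ (c : ℕ) then (p.toSquareBlock b t).det else 1) ^ e c =
      if t ≤ (c : ℕ) then (p.toSquareBlock b t).det ^ e c else 1 := by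
    intro c
    split_ifs
    · rfl
    · exact one_pow _
  simp only [h3]
  rw [Fin.prod_univ_eq_prod_range (fun c => if t ≤ c then (p.toSquareBlock b t).det ^ e c else 1) q,
    ← Finset.prod_filter]
  refine Finset.prod_congr ?_ fun _ _ => rfl
  ext c
  simp only [Finset.mem_filter, Finset.mem_range, Finset.mem_Ico]
  tauto

/-- The rearrangement inequality. -/
theorem sum_top {b : Fin n → ℕ} {c : ℕ} (w : Fin n → ℝ) (σ : Equiv.Perm (Fin n))
    (hσ : ∀ i j, b i < b j → w (σ j) ≤ w (σ i)) {φ : Col b c → Fin n}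
    (hφ : Function.Injective φ) : ∑ i, w (φ i) ≤ ∑ j : Col b c, w (σ j.1) := by
  classical
  obtain ⟨S, hS⟩ : ∃ S, S = Finset.univ.image φ := ⟨_, rfl⟩
  obtain ⟨T, hT⟩ : ∃ T, T = Finset.univ.image fun j : Col b c => σ j.1 := ⟨_, rfl⟩
  have hσi : Function.Injective fun j : Col b c => σ j.1 := fun i j hij =>
    Subtype.ext (σ.injective hij)
  have e1 : ∑ i, w (φ i) = ∑ x ∈ S, w x := by
    rw [hS, Finset.sum_image fun i _ j _ h => hφ h]
  have e2 : ∑ j : Col b c, w (σ j.1) = ∑ x ∈ T, w x := by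
    rw [hT, Finset.sum_image fun i _ j _ h => hσi h]
  have hc : S.card = T.card := by
    rw [hS, hT, Finset.card_image_of_injective _ hφ, Finset.card_image_of_injective _ hσi]
  have hd : (S \ T).card = (T \ S).card := by
    have h1 := Finset.card_sdiff_add_card_inter S T
    have h2 := Finset.card_sdiff_add_card_inter T S
    rw [Finset.inter_comm] at h2
    omega
  rw [e1, e2, ← Finset.sum_sdiff_le_sum_sdiff]
  have hle : ∀ x ∈ S \ T, ∀ y ∈ T \ S, w x ≤ w y := by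
    intro x hx y hy
    have hxT : x ∉ T := (Finset.mem_sdiff.1 hx).2
    have hyT : y ∈ T := (Finset.mem_sdiff.1 hy).1
    rw [hT, Finset.mem_image] at hyT
    obtain ⟨j, -, rfl⟩ := hyT
    have h1 : c < b (σ.symm x) := by
      by_contra h2
      apply hxT
      rw [hT, Finset.mem_image]
      exact ⟨⟨σ.symm x, not_lt.1 h2⟩, Finset.mem_univ _, σ.apply_symm_apply x⟩
    have h3 := hσ j.1 (σ.symm x) (lt_of_le_of_lt j.2 h1)
    rwa [σ.apply_symm_apply] at h3
  rcases (T \ S).eq_empty_or_nonempty with h0 | h0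
  · have h1 : S \ T = ∅ := by
      rw [← Finset.card_eq_zero, hd, h0, Finset.card_empty]
    rw [h0, h1]
  · obtain ⟨y, hy, hmin⟩ := Finset.exists_min_image (T \ S) w h0
    calc ∑ x ∈ S \ T, w x ≤ (S \ T).card • w y :=
          Finset.sum_le_card_nsmul _ _ _ fun x hx => hle x hx y hy
      _ = (T \ S).card • w y := by rw [hd]
      _ ≤ _ := Finset.card_nsmul_le_sum _ _ _ fun x hx => hmin x hx

theorem mv_inj {b : Fin n → ℕ} {q : ℕ} {e : ℕ → ℕ} {g : Matrix (Fin n) (Fin n) ℂ}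
    {f : Bt b q e → Fin n} (hf : mv b q e g f ≠ 0) (c : Fin q) (k : Fin (e c)) :
    Function.Injective fun i : Col b c => f ⟨c, k, i⟩ := by
  intro i j hij
  by_contra hne
  apply hf
  unfold mv
  refine Finset.prod_eq_zero (Finset.mem_univ c) (Finset.prod_eq_zero (Finset.mem_univ k) ?_)
  refine Matrix.det_zero_of_row_eq hne ?_
  funext l
  show g (f ⟨c, k, i⟩) l.1 = g (f ⟨c, k, j⟩) l.1
  rw [show f ⟨c, k, i⟩ = f ⟨c, k, j⟩ from hij]

theorem nm_le_smul {α : Type} [Fintype α] {v w : α → ℂ} {C : ℝ} (hC : 0 ≤ C)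
    (h : ∀ i, ‖v i‖ ≤ C * ‖w i‖) : nm v ≤ C * nm w := by
  have h1 : nm (((C : ℝ) : ℂ) • w) = C * nm w := by
    rw [nm_smul, Complex.norm_real, Real.norm_eq_abs, abs_of_nonneg hC]
  rw [← h1]
  refine Real.sqrt_le_sqrt (Finset.sum_le_sum fun i _ => ?_)
  refine pow_le_pow_left₀ (norm_nonneg _) ?_ 2
  rw [Pi.smul_apply, smul_eq_mul, norm_mul, Complex.norm_real, Real.norm_eq_abs, abs_of_nonneg hC]
  exact h i

theorem mv_norm (b : Fin n → ℕ) (q : ℕ) (e : ℕ → ℕ) (_hb : ∀ j, b j < q)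
    (g : Matrix (Fin n) (Fin n) ℂ) (H : aa n) (σ : Equiv.Perm (Fin n))
    (hσ : ∀ i j, b i < b j → -H.1 (σ j) ≤ -H.1 (σ i)) :
    nm ((powR (stR n) (Bt b q e)).act (dg H (-1)) (mv b q e g)) ≤
      Real.exp (∑ j, ((∑ c ∈ Finset.Ico (b j) q, (e c : ℤ) : ℤ) : ℝ) * -H.1 (σ j)) *
        nm (mv b q e g) := by
  refine nm_le_smul (Real.exp_pos _).le fun f => ?_
  by_cases hf : mv b q e g f = 0
  · rw [Rep.act_dg, hf, mul_zero, norm_zero, mul_zero]
  rw [Rep.act_dg, norm_mul, Complex.norm_exp]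
  refine mul_le_mul_of_nonneg_right (Real.exp_le_exp.2 ?_) (norm_nonneg _)
  have h1 : ((-1 : ℂ) * ((powR (stR n) (Bt b q e)).lam f H : ℂ)).re =
      ∑ x : Bt b q e, -H.1 (f x) := by
    rw [powR_lam, Finset.sum_neg_distrib]
    simp only [stR_lam]
    simp
  rw [h1]
  have h2 : ∑ x : Bt b q e, -H.1 (f x) =
      ∑ c : Fin q, ∑ k : Fin (e c), ∑ i : Col b c, -H.1 (f ⟨c, k, i⟩) := by
    rw [Fintype.sum_sigma]
    exact Finset.sum_congr rfl fun c _ => Fintype.sum_prod_type _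
  rw [h2]
  have h3 : ∑ c : Fin q, ∑ k : Fin (e c), ∑ i : Col b c, -H.1 (f ⟨c, k, i⟩) ≤
      ∑ c : Fin q, ∑ _k : Fin (e c), ∑ i : Col b c, -H.1 (σ i.1) :=
    Finset.sum_le_sum fun c _ => Finset.sum_le_sum fun k _ =>
      sum_top (fun i => -H.1 i) σ hσ (mv_inj hf c k)
  refine h3.trans (le_of_eq ?_)
  have h4 : ∀ c : Fin q, ∑ _k : Fin (e c), ∑ i : Col b c, -H.1 (σ i.1) =
      ∑ j : Fin n, if b j ≤ c then (e c : ℝ) * -H.1 (σ j) else 0 := by
    intro c
    rw [Finset.sum_const, Finset.card_univ, Fintype.card_fin, nsmul_eq_mul, ← Finset.sum_filter,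
      ← Finset.mul_sum]
    congr 1
    exact (Finset.sum_subtype (Finset.univ.filter fun j : Fin n => b j ≤ c)
      (p := fun j : Fin n => b j ≤ c) (fun j => by simp) (fun j => -H.1 (σ j))).symm
  simp only [h4]
  rw [Finset.sum_comm]
  refine Finset.sum_congr rfl fun j _ => ?_
  push_cast
  rw [Finset.sum_mul, Fin.sum_univ_eq_sum_range
    (fun c => if b j ≤ c then (e c : ℝ) * -H.1 (σ j) else 0) q, ← Finset.sum_filter]
  refine Finset.sum_congr ?_ fun _ _ => rfl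
  ext c
  simp only [Finset.mem_filter, Finset.mem_range, Finset.mem_Ico]
  tauto

end Pool.Agent.PB
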