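import Pool.Agent.H.MP_e23cd6_ag.PB.GBase

/-!
# Sanity: the projective line
-/

set_option autoImplicit false

namespace Pool.Agent.PG

open Matrix Topology

/-- The nonzero vectors. -/
abbrev V2 : Type := {v : Fin 2 → ℂ // v ≠ 0}

instance P1s : Setoid V2 where
  r v w := ∃ c : ℂ, c ≠ 0 ∧ w.1 = c • v.1
  iseqv :=
    { refl := fun v => ⟨1, one_ne_zero, (one_smul _ _).symm⟩
      symm := by
        rintro v w ⟨c, hc, h⟩
        exact ⟨c⁻¹, inv_ne_zero hc, by rw [h, smul_smul, inv_mul_cancel₀ hc, one_smul]⟩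
      trans := by
        rintro u v w ⟨c, hc, h⟩ ⟨d, hd, h'⟩
        exact ⟨d * c, mul_ne_zero hd hc, by rw [h', h, smul_smul]⟩ }

/-- The projective line. -/
def P1 : Type := Quotient P1s

instance : TopologicalSpace P1 := inferInstanceAs (TopologicalSpace (Quotient P1s))

/-- The projection. -/
def pr (v : V2) : P1 := Quotient.mk _ v

theorem pr_isQuotientMap : IsQuotientMap pr := isQuotientMap_quotient_mk'

theorem continuous_pr : Continuous pr := pr_isQuotientMap.continuous

theorem pr_surj : Function.Surjective pr := pr_isQuotientMap.surjective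

theorem pr_eq {v w : V2} : pr v = pr w ↔ ∃ c : ℂ, c ≠ 0 ∧ w.1 = c • v.1 := Quotient.eq

/-- Lift of a function. -/
def lf {β : Type} (f : (Fin 2 → ℂ) → β) (hf : ∀ (c : ℂ) v, c ≠ 0 → v ≠ 0 → f (c • v) = f v) :
    P1 → β :=
  Quotient.lift (fun v : V2 => f v.1) (by
    rintro v w ⟨c, hc, h⟩
    show f v.1 = f w.1
    rw [h, hf c v.1 hc v.2])

@[simp] theorem lf_pr {β : Type} (f : (Fin 2 → ℂ) → β)
    (hf : ∀ (c : ℂ) v, c ≠ 0 → v ≠ 0 → f (c • v) = f v) (v : V2) : lf f hf (pr v) = f v.1 := rfl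

theorem lf_cont {β : Type} [TopologicalSpace β] (f : (Fin 2 → ℂ) → β)
    (hf : ∀ (c : ℂ) v, c ≠ 0 → v ≠ 0 → f (c • v) = f v) {s : Set P1} (hs : IsOpen s)
    (hc : ContinuousOn f {v | v ≠ 0 ∧ ∀ h : v ≠ 0, pr ⟨v, h⟩ ∈ s}) : ContinuousOn (lf f hf) s := by
  rw [pr_isQuotientMap.continuousOn_isOpen_iff hs]
  exact hc.comp continuous_subtype_val.continuousOn fun v hv => ⟨v.2, fun _ => hv⟩

/-- The numerator of the chart `j`. -/
def nu (j : Fin 2) (v : Fin 2 → ℂ) : ℂ := if j = 0 then v 1 else -v 0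

theorem nu_smul (j : Fin 2) (c : ℂ) (v : Fin 2 → ℂ) : nu j (c • v) = c * nu j v := by
  unfold nu
  split_ifs
  · rfl
  · simp

/-- The inverse of the chart. -/
def ivv (j : Fin 2) (x : ℂ) : Fin 2 → ℂ := if j = 0 then ![1, x] else ![-x, 1]

theorem ivv_j (j : Fin 2) (x : ℂ) : ivv j x j = 1 := by
  unfold ivv
  fin_cases j <;> rfl

theorem ivv_ne (j : Fin 2) (x : ℂ) : ivv j x ≠ 0 := by
  intro h
  have h1 := ivv_j j x
  rw [h] at h1
  exact zero_ne_one h1

theorem nu_ivv (j : Fin 2) (x : ℂ) : nu j (ivv j x) = x := by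
  unfold nu ivv
  fin_cases j <;> simp

theorem ivv_nu (j : Fin 2) (v : Fin 2 → ℂ) (h : v j ≠ 0) :
    v = v j • ivv j (nu j v / v j) := by
  unfold nu ivv
  funext i
  fin_cases j
  · fin_cases i
    · simp
    · have h' : v 0 ≠ 0 := h
      simp
      field_simp
  · fin_cases i
    · have h' : v 1 ≠ 0 := h
      simp
      field_simp
    · simp

theorem continuous_ivv (j : Fin 2) : Continuous (ivv j) := by
  unfold ivv
  fin_cases j
  · simp only [Fin.zero_eta, if_true]
    fun_prop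
  · simp only [Fin.mk_one, one_ne_zero, if_false]
    fun_prop

/-- The point with the coordinate `x`. -/
def iv (j : Fin 2) (x : ℂ) : P1 := pr ⟨ivv j x, ivv_ne j x⟩

theorem continuous_iv (j : Fin 2) : Continuous (iv j) :=
  continuous_pr.comp ((continuous_ivv j).subtype_mk _)

/-- The domain of the chart. -/
def Sr (j : Fin 2) : Set P1 := {p | lf (fun v => v j ≠ 0) (fun c v hc _ => by
  show ((c • v) j ≠ 0) = (v j ≠ 0)
  rw [Pi.smul_apply, smul_eq_mul]
  exact propext ⟨fun h => (mul_ne_zero_iff.1 h).2, fun h => mul_ne_zero hc h⟩) p}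

theorem mem_Sr {j : Fin 2} {v : V2} : pr v ∈ Sr j ↔ v.1 j ≠ 0 := Iff.rfl

theorem isOpen_Sr (j : Fin 2) : IsOpen (Sr j) := by
  rw [← pr_isQuotientMap.isOpen_preimage]
  have h : pr ⁻¹' Sr j = {v : V2 | v.1 j ≠ 0} := rfl
  rw [h]
  exact isOpen_ne_fun ((continuous_apply j).comp continuous_subtype_val) continuous_const

/-- The coordinate. -/
noncomputable def co (j : Fin 2) : P1 → ℂ := lf (fun v => nu j v / v j) (fun c v hc _ => by
  rw [nu_smul, Pi.smul_apply, smul_eq_mul, mul_div_mul_left _ _ hc])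

theorem co_pr (j : Fin 2) (v : V2) : co j (pr v) = nu j v.1 / v.1 j := rfl

theorem continuous_nu (j : Fin 2) : Continuous (nu j) := by
  unfold nu
  split_ifs
  · exact continuous_apply 1
  · exact (continuous_apply 0).neg

/-- The chart `j`. -/
noncomputable def ch (j : Fin 2) : OpenPartialHomeomorph P1 ℂ where
  toFun := co j
  invFun := iv j
  source := Sr j
  target := Set.univ
  map_source' := fun _ _ => trivial
  map_target' := by
    intro x _
    show ivv j x j ≠ 0
    rw [ivv_j]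
    exact one_ne_zero
  left_inv' := by
    intro p hp
    obtain ⟨v, rfl⟩ := pr_surj p
    have hv : v.1 j ≠ 0 := hp
    rw [co_pr]
    exact pr_eq.2 ⟨v.1 j, hv, ivv_nu j v.1 hv⟩
  right_inv' := by
    intro x _
    show nu j (ivv j x) / ivv j x j = x
    rw [nu_ivv, ivv_j, div_one]
  open_source := isOpen_Sr j
  open_target := isOpen_univ
  continuousOn_toFun := by
    refine lf_cont _ _ (isOpen_Sr j) ?_
    refine (continuous_nu j).continuousOn.div (continuous_apply j).continuousOn ?_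
    rintro v ⟨hv, h⟩
    exact h hv
  continuousOn_invFun := (continuous_iv j).continuousOn


/-- The normalised monomials of degree `N`. -/
noncomputable def mo (N : ℕ) (v : Fin 2 → ℂ) : Fin (N + 1) → ℂ :=
  fun k => (Real.sqrt (N.choose k) : ℂ) * v 0 ^ (N - (k : ℕ)) * v 1 ^ (k : ℕ)

theorem mo_smul (N : ℕ) (c : ℂ) (v : Fin 2 → ℂ) : mo N (c • v) = c ^ N • mo N v := by
  funext k
  have hk : (k : ℕ) ≤ N := Nat.lt_succ_iff.1 k.2
  rw [Pi.smul_apply, smul_eq_mul]
  unfold mo
  rw [Pi.smul_apply, Pi.smul_apply, smul_eq_mul, smul_eq_mul, mul_pow, mul_pow]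
  have h : c ^ N = c ^ (N - (k : ℕ)) * c ^ (k : ℕ) := by
    rw [← pow_add, Nat.sub_add_cancel hk]
  rw [h]
  ring

theorem continuous_mo (N : ℕ) : Continuous (mo N) := by
  unfold mo
  fun_prop

/-- Values of the monomials in the frame `j`. -/
noncomputable def vv (N : ℕ) (j : Fin 2) : P1 → Fin (N + 1) → ℂ :=
  lf (fun v => (v j ^ N)⁻¹ • mo N v) (by
    intro c v hc _
    rw [mo_smul, Pi.smul_apply, smul_eq_mul, mul_pow, smul_smul, mul_inv]
    congr 1
    rw [mul_comm, ← mul_assoc, mul_inv_cancel₀ (pow_ne_zero _ hc), one_mul])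

theorem vv_pr (N : ℕ) (j : Fin 2) (v : V2) : vv N j (pr v) = (v.1 j ^ N)⁻¹ • mo N v.1 := rfl

theorem vv_cont (N : ℕ) (j : Fin 2) : ContinuousOn (vv N j) (Sr j) := by
  refine lf_cont _ _ (isOpen_Sr j) ?_
  refine ContinuousOn.smul (ContinuousOn.inv₀ ((continuous_apply j).pow N).continuousOn ?_)
    (continuous_mo N).continuousOn
  rintro v ⟨hv, h⟩
  exact pow_ne_zero _ (h hv)

theorem vv_iv (N : ℕ) (j : Fin 2) (x : ℂ) : vv N j (iv j x) = mo N (ivv j x) := by
  show (ivv j x j ^ N)⁻¹ • mo N (ivv j x) = _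
  rw [ivv_j, one_pow, inv_one, one_smul]

theorem vv_diff (N : ℕ) (j : Fin 2) (k : Fin (N + 1)) :
    Differentiable ℂ fun x => mo N (ivv j x) k := by
  unfold mo ivv
  fin_cases j
  · simp only [Fin.zero_eta, if_true, cons_val_zero, cons_val_one]
    fun_prop
  · simp only [Fin.mk_one, one_ne_zero, if_false, cons_val_zero, cons_val_one]
    fun_prop

theorem sq_ne (N : ℕ) (k : Fin (N + 1)) : (Real.sqrt (N.choose k) : ℂ) ≠ 0 := by
  have h : 0 < N.choose k := Nat.choose_pos (Nat.lt_succ_iff.1 k.2)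
  have h1 : (0 : ℝ) < N.choose k := by exact_mod_cast h
  exact_mod_cast (Real.sqrt_pos.2 h1).ne'

theorem mo_ne (N : ℕ) {v : Fin 2 → ℂ} (hv : v ≠ 0) : mo N v ≠ 0 := by
  intro h
  apply hv
  funext i
  fin_cases i
  · have h1 := congrFun h 0
    unfold mo at h1
    have h2 := sq_ne N 0
    have h3 : v 0 = 0 ∧ ¬N = 0 := by simpa [h2] using h1
    exact h3.1
  · have h1 := congrFun h (Fin.last N)
    unfold mo at h1
    have h2 := sq_ne N (Fin.last N)
    have h3 : v 1 = 0 ∧ ¬N = 0 := by simpa [h2] using h1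
    exact h3.1

/-- A nontrivial combination of the monomials is a nonzero polynomial in the coordinate. -/
theorem poly_ne (N : ℕ) (j : Fin 2) {ξ : Fin (N + 1) → ℂ} (hξ : ξ ≠ 0) :
    {x : ℂ | ξ ⬝ᵥ mo N (ivv j x) = 0}.Finite := by
  obtain ⟨k, hk⟩ := Function.ne_iff.1 hξ
  fin_cases j
  · let P : Polynomial ℂ := ∑ l : Fin (N + 1),
      Polynomial.monomial (l : ℕ) (ξ l * (Real.sqrt (N.choose l) : ℂ))
    have hc : P.coeff k = ξ k * (Real.sqrt (N.choose k) : ℂ) := by
      rw [Polynomial.finsetSum_coeff]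
      simp_rw [Polynomial.coeff_monomial, ← Fin.ext_iff]
      simp
    have hP : P ≠ 0 := by
      intro h0
      rw [h0, Polynomial.coeff_zero] at hc
      exact mul_ne_zero hk (sq_ne N k) hc.symm
    refine P.rootSet_finite ℂ |>.subset ?_
    intro x hx
    rw [Polynomial.mem_rootSet]
    refine ⟨hP, ?_⟩
    rw [Polynomial.coe_aeval_eq_eval, Polynomial.eval_finsetSum]
    simp_rw [Polynomial.eval_monomial]
    have hx' : ξ ⬝ᵥ mo N (ivv 0 x) = 0 := hx
    unfold dotProduct mo ivv at hx'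
    simp only [if_true, cons_val_zero, cons_val_one, one_pow, mul_one] at hx'
    rw [← hx']
    exact Finset.sum_congr rfl fun l _ => by ring
  · let P : Polynomial ℂ := ∑ l : Fin (N + 1),
      Polynomial.monomial (N - (l : ℕ)) ((-1) ^ (N - (l : ℕ)) * (ξ l * (Real.sqrt (N.choose l) : ℂ)))
    have hc : P.coeff (N - (k : ℕ)) =
        (-1) ^ (N - (k : ℕ)) * (ξ k * (Real.sqrt (N.choose k) : ℂ)) := by
      rw [Polynomial.finsetSum_coeff]
      simp_rw [Polynomial.coeff_monomial]
      rw [Finset.sum_eq_single k]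
      · rw [if_pos rfl]
      · intro l _ hl
        rw [if_neg]
        intro h
        apply hl
        apply Fin.ext
        have h1 := l.2
        have h2 := k.2
        omega
      · intro h
        exact absurd (Finset.mem_univ k) h
    have hP : P ≠ 0 := by
      intro h0
      rw [h0, Polynomial.coeff_zero] at hc
      exact mul_ne_zero (pow_ne_zero _ (neg_ne_zero.2 one_ne_zero))
        (mul_ne_zero hk (sq_ne N k)) hc.symm
    refine P.rootSet_finite ℂ |>.subset ?_
    intro x hx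
    rw [Polynomial.mem_rootSet]
    refine ⟨hP, ?_⟩
    rw [Polynomial.coe_aeval_eq_eval, Polynomial.eval_finsetSum]
    simp_rw [Polynomial.eval_monomial]
    have hx' : ξ ⬝ᵥ mo N (ivv 1 x) = 0 := hx
    unfold dotProduct mo ivv at hx'
    simp only [one_ne_zero, if_false, cons_val_zero, cons_val_one, one_pow, mul_one] at hx'
    rw [← hx']
    refine Finset.sum_congr rfl fun l _ => ?_
    rw [neg_pow x]
    ring

variable {R : RG 2}

theorem mx_ne (g : R.G) (v : V2) : mx g *ᵥ v.1 ≠ 0 := by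
  intro h
  apply v.2
  have h1 : mx g⁻¹ *ᵥ (mx g *ᵥ v.1) = v.1 := by
    rw [mulVec_mulVec, ← mx_mul, inv_mul_cancel, mx_one, one_mulVec]
  rw [← h1, h, mulVec_zero]

/-- The action. -/
def ac (g : R.G) : P1 → P1 := Quotient.map' (fun v : V2 => ⟨mx g *ᵥ v.1, mx_ne g v⟩) (by
  rintro v w ⟨c, hc, h⟩
  refine ⟨c, hc, ?_⟩
  show mx g *ᵥ w.1 = c • (mx g *ᵥ v.1)
  rw [h, mulVec_smul])

theorem ac_pr (g : R.G) (v : V2) : ac g (pr v) = pr ⟨mx g *ᵥ v.1, mx_ne g v⟩ := rfl

theorem ac_cont (g : R.G) : Continuous (ac g) := by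
  rw [pr_isQuotientMap.continuous_iff]
  refine continuous_pr.comp (Continuous.subtype_mk ?_ _)
  exact Continuous.matrix_mulVec continuous_const continuous_subtype_val

theorem trans_eq (g : R.G) (i j : Fin 2) (x : ℂ) : ch i (ac g ((ch j).symm x)) =
    nu i (mx g *ᵥ ivv j x) / (mx g *ᵥ ivv j x) i := rfl

theorem mem_tr (g : R.G) (i j : Fin 2) (x : ℂ) : ac g ((ch j).symm x) ∈ (ch i).source ↔
    (mx g *ᵥ ivv j x) i ≠ 0 := Iff.rfl

theorem mobius {a b c d : ℂ} {x : ℂ} (h : a + b * x ≠ 0) :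
    HasDerivAt (fun x => (c + d * x) / (a + b * x)) ((a * d - b * c) / (a + b * x) ^ 2) x := by
  have h1 : HasDerivAt (fun x : ℂ => c + d * x) d x := by
    simpa using ((hasDerivAt_id x).const_mul d).const_add c
  have h2 : HasDerivAt (fun x : ℂ => a + b * x) b x := by
    simpa using ((hasDerivAt_id x).const_mul b).const_add a
  have h3 := h1.div h2 h
  have e : (a * d - b * c) / (a + b * x) ^ 2 =
      (d * (a + b * x) - (c + d * x) * b) / (a + b * x) ^ 2 := by
    congr 1
    ring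
  rw [e]
  exact h3

theorem trans_deriv (g : R.G) (i j : Fin 2) (x : ℂ) (h : (mx g *ᵥ ivv j x) i ≠ 0) :
    HasDerivAt (fun x => ch i (ac g ((ch j).symm x))) ((mx g).det / (mx g *ᵥ ivv j x) i ^ 2) x := by
  simp_rw [trans_eq]
  rw [det_fin_two]
  obtain ⟨A, hA⟩ : ∃ A, A = mx g := ⟨_, rfl⟩
  rw [← hA] at h ⊢
  fin_cases i <;> fin_cases j <;>
    simp only [Fin.zero_eta, Fin.mk_one, nu, ivv, if_true, one_ne_zero, if_false,
      Matrix.mulVec_fin_two, cons_val_zero, cons_val_one] at h ⊢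
  · have h3 := mobius (a := A 0 0) (b := A 0 1) (c := A 1 0) (d := A 1 1) (x := x) (by
      simpa using h)
    convert h3 using 1
    · funext x
      ring
    · ring
  · have h3 := mobius (a := A 0 1) (b := -A 0 0) (c := A 1 1) (d := -A 1 0) (x := x) (by
      intro h0
      apply h
      linear_combination h0)
    convert h3 using 1
    · funext x
      ring
    · ring
  · have h3 := mobius (a := A 1 0) (b := A 1 1) (c := -A 0 0) (d := -A 0 1) (x := x) (by
      simpa using h)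
    convert h3 using 1
    · funext x
      ring
    · ring
  · have h3 := mobius (a := A 1 1) (b := -A 1 0) (c := -A 0 1) (d := A 0 0) (x := x) (by
      intro h0
      apply h
      linear_combination h0)
    convert h3 using 1
    · funext x
      ring
    · ring

theorem cover_P1 (y : P1) : ∃ j, y ∈ Sr j := by
  obtain ⟨v, rfl⟩ := pr_surj y
  obtain ⟨j, hj⟩ := Function.ne_iff.1 v.2
  exact ⟨j, hj⟩

/-- The projective line with the line bundles `N = O(a)`, `N ⊗ K ^ (-m) = O(a + 2m)`, and any reductive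
group of `2 × 2` matrices. -/
noncomputable def FP1 (R : RG 2) (a m : ℕ) (RN : GRep R (Fin (a + 1)))
    (Rs : GRep R (Fin (a + 2 * m + 1))) (hN : ∀ g v, mo a (mx g *ᵥ v) = RN.ρ g *ᵥ mo a v)
    (hs : ∀ g v, (mx g).det ^ m • (Rs.ρ g *ᵥ mo (a + 2 * m) v) = mo (a + 2 * m) (mx g *ᵥ v)) :
    Fib R ℂ P1 (Fin (a + 1)) (Fin (a + 2 * m + 1)) m where
  J := Fin 2
  φ := ch
  ne := ⟨0, iv 0 0, by
    show ivv 0 0 0 ≠ 0
    rw [ivv_j]
    exact one_ne_zero⟩
  act := ac
  one := by
    intro y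
    obtain ⟨v, rfl⟩ := pr_surj y
    rw [ac_pr]
    congr 1
    apply Subtype.ext
    show mx (1 : R.G) *ᵥ v.1 = v.1
    rw [mx_one, one_mulVec]
  mul := by
    intro g h y
    obtain ⟨v, rfl⟩ := pr_surj y
    rw [ac_pr, ac_pr, ac_pr]
    congr 1
    apply Subtype.ext
    show mx (g * h) *ᵥ v.1 = mx g *ᵥ (mx h *ᵥ v.1)
    rw [mx_mul, mulVec_mulVec]
  cont := ac_cont
  reg := fun g j y _ => cover_P1 _
  hol := by
    intro g i j x hx
    exact (trans_deriv g i j x hx.2).differentiableAt.differentiableWithinAt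
  W := Sr
  W_open := isOpen_Sr
  sub := fun j => subset_rfl
  cover := cover_P1
  RN := RN
  Rs := Rs
  v := vv a
  v_cont := vv_cont a
  v_hol := by
    intro j α
    have e : (fun x => vv a j ((ch j).symm x) α) = fun x => mo a (ivv j x) α := by
      funext x
      exact congrFun (vv_iv a j x) α
    rw [e]
    exact (vv_diff a j α).differentiableOn
  v_ne := by
    intro j y hy
    obtain ⟨v, rfl⟩ := pr_surj y
    rw [vv_pr]
    exact smul_ne_zero (inv_ne_zero (pow_ne_zero _ hy)) (mo_ne a v.2)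
  σ := vv (a + 2 * m)
  σ_hol := by
    intro j α
    have e : (fun x => vv (a + 2 * m) j ((ch j).symm x) α) =
        fun x => mo (a + 2 * m) (ivv j x) α := by
      funext x
      exact congrFun (vv_iv (a + 2 * m) j x) α
    rw [e]
    exact (vv_diff (a + 2 * m) j α).differentiableOn
  equi := by
    intro g i j y hy hgy
    obtain ⟨v, rfl⟩ := pr_surj y
    have hv : v.1 j ≠ 0 := hy
    have hgv : (mx g *ᵥ v.1) i ≠ 0 := hgy
    refine ⟨v.1 j ^ a * ((mx g *ᵥ v.1) i ^ a)⁻¹, ?_, ?_⟩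
    · rw [ac_pr, vv_pr, vv_pr, hN, mulVec_smul, smul_smul]
      congr 1
      field_simp
    · intro _ _
      have hx : (mx g *ᵥ ivv j (ch j (pr v))) i ≠ 0 := by
        have h1 := ivv_nu j v.1 hv
        intro h0
        apply hgv
        rw [h1, mulVec_smul, Pi.smul_apply, smul_eq_mul]
        exact mul_eq_zero_of_right _ h0
      have hd := (trans_deriv g i j _ hx).hasFDerivAt.fderiv
      have e : (ch i ∘ ac g ∘ (ch j).symm) = fun x => ch i (ac g ((ch j).symm x)) := rfl
      have hxe : (mx g *ᵥ v.1) i = v.1 j * (mx g *ᵥ ivv j (ch j (pr v))) i := by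
        have h1 := ivv_nu j v.1 hv
        conv_lhs => rw [h1, mulVec_smul, Pi.smul_apply, smul_eq_mul]
        rfl
      rw [e, hd, ac_pr, vv_pr, vv_pr, mulVec_smul, ← hs, smul_smul, smul_smul]
      congr 1
      have hdet : (ContinuousLinearMap.toSpanSingleton ℂ
          ((mx g).det / (mx g *ᵥ ivv j (ch j (pr v))) i ^ 2)).det =
          (mx g).det / (mx g *ᵥ ivv j (ch j (pr v))) i ^ 2 := by
        rw [ContinuousLinearMap.det, LinearMap.det_ring]
        simp
      rw [hdet]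
      show ((mx g *ᵥ v.1) i ^ (a + 2 * m))⁻¹ * (mx g).det ^ m = _
      rw [hxe, div_pow, ← pow_mul]
      field_simp
      ring
  v_nd := by
    intro U hU hne ξ hξ
    obtain ⟨y, hy⟩ := hne
    obtain ⟨j, hj⟩ := cover_P1 y
    have hopen : IsOpen ((ch j).symm ⁻¹' U) := by
      have h1 := (ch j).isOpen_inter_preimage_symm hU
      simpa [ch] using h1
    have hne' : ((ch j).symm ⁻¹' U).Nonempty := ⟨ch j y, by
      show (ch j).symm (ch j y) ∈ U
      rw [(ch j).left_inv hj]
      exact hy⟩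
    have hinf : ((ch j).symm ⁻¹' U).Infinite := by
      obtain ⟨x, hx⟩ := hne'
      exact infinite_of_mem_nhds x (hopen.mem_nhds hx)
    obtain ⟨x, hxU, hx⟩ := hinf.exists_notMem_finite (poly_ne a j hξ)
    refine ⟨j, (ch j).symm x, ⟨hxU, ?_⟩, ?_⟩
    · exact (ch j).map_target trivial
    · have e : vv a j ((ch j).symm x) = mo a (ivv j x) := vv_iv a j x
      rw [e]
      exact hx
  σ_nd := by
    intro S hS
    obtain ⟨x, hx⟩ := (poly_ne (a + 2 * m) 0 hS).infinite_compl.nonempty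
    refine ⟨0, (ch 0).symm x, (ch 0).map_target trivial, ?_⟩
    have e : vv (a + 2 * m) 0 ((ch 0).symm x) = mo (a + 2 * m) (ivv 0 x) :=
      vv_iv (a + 2 * m) 0 x
    rw [e]
    exact hx

end Pool.Agent.PG
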